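import Pool.Agent.H875KS.Defs

set_option autoImplicit false

namespace Pool.Agent.KS

open Finset

noncomputable section

/-- Heights in the gadget along a chain, with the two boundary values. -/
def gh (N h : ℕ) (j : Fin 3) (k : ℕ) : ℝ :=
  if hk : 1 ≤ k ∧ k ≤ N then ht (gad N h) (j, ⟨k - 1, by omega⟩)
  else if k = 0 then 0 else 3 * (N : ℝ) + 1

/-- Average over the good words. -/
def gavg (N h : ℕ) (F : List (Fin 3) → ℝ) : ℝ :=
  (∑ w ∈ good N h, F w) / ((good N h).card : ℝ)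

def K0 (N h : ℕ) : ℝ := gavg N h (fun w =>
  ((occ 0 2 w - min (occ 1 h w) (occ 2 h w) : ℕ) : ℝ))
def K1 (N h : ℕ) : ℝ := gavg N h (fun w => ((occ 1 2 w - occ 0 h w : ℕ) : ℝ))
def Z0 (N h : ℕ) : ℝ := gavg N h (fun w => ((occ 1 1 w - occ 0 (h - 1) w : ℕ) : ℝ))
def Z1 (N h : ℕ) : ℝ := gavg N h (fun w => ((occ 0 1 w - occ 1 (h - 1) w : ℕ) : ℝ))
def Z2 (N h : ℕ) : ℝ := gavg N h (fun w => ((occ 0 1 w - occ 2 (h - 1) w : ℕ) : ℝ))

def A (h : ℕ) : ℝ := 3 / 2 * h / 2 ^ h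

end

end Pool.Agent.KS
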