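import Pool.Agent.H875KS.Gaps
import Pool.Agent.H875KS.Defs2

set_option autoImplicit false

namespace Pool.Agent.KS

open Finset Filter Topology

noncomputable section

/-- What is used about the gadget. -/
def GadOK (N h : ℕ) (ε : ℝ) : Prop :=
  (LE (gad N h)).Nonempty ∧
  (∀ (j : Fin 3) (k : ℕ), k ≤ N + 1 →
    gh N h (Fin.rev j) (N + 1 - k) = 3 * (N : ℝ) + 1 - gh N h j k) ∧
  (∀ (j : Fin 3) (k : ℕ), h < k → k < N + 1 - h →
    gh N h j (k + 1) - 2 * gh N h j k + gh N h j (k - 1) = 0) ∧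
  (∀ (j : Fin 3) (k : ℕ), 1 ≤ k → k ≤ h + 2 →
    |gh N h j k - (3 * k + A h * (((min k h : ℕ) : ℝ) / h - (2 - (j : ℕ))))| ≤ ε * A h) ∧
  (∀ (j : Fin 3) (k : ℕ), 1 ≤ k → k < N → gh N h j k + 1 ≤ gh N h j (k + 1))

/-- What is used about the iterated composition. -/
def TreeOK (n : ℕ) : Prop :=
    ∃ (Q : Type) (_ : Fintype Q) (top : Q → Prop) (c : Q → ℕ) (ν : ℕ → Q → ℝ)
      (a w : ℕ → Fin (3 ^ n) → ℝ),
      (∀ (X : Type) [Fintype X] (r : X → X → Prop), (LE r).Nonempty → 1 ≤ Fintype.card X →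
        ∃ (Y : Type) (_ : Fintype Y) (R : Y → Y → Prop) (e : Y ≃ Q ⊕ (Fin (3 ^ n) × X)),
          (LE R).Nonempty ∧ (1 ≤ n → 1 < (LE R).card) ∧
          (∀ q, ht R (e.symm (Sum.inl q)) = ν (Fintype.card X) q) ∧
          (∀ i x, ht R (e.symm (Sum.inr (i, x))) = a (Fintype.card X) i +
            (w (Fintype.card X) i - a (Fintype.card X) i) * ht r x /
              ((Fintype.card X : ℝ) + 1))) ∧
      (∀ i, Tendsto (fun s => a s i) atTop (𝓝 (3 * (i : ℕ)))) ∧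
      (∀ i, Tendsto (fun s : ℕ => (3 ^ n * ((s : ℝ) + 1) + 2 * (3 ^ n - 1)) - w s i) atTop
        (𝓝 (3 * (3 ^ n - 1 - (i : ℕ))))) ∧
      (∀ q, ¬ top q → Tendsto (fun s => ν s q) atTop (𝓝 (3 / 2 * c q))) ∧
      (∀ q, top q → Tendsto (fun s : ℕ => (3 ^ n * ((s : ℝ) + 1) + 2 * (3 ^ n - 1)) - ν s q) atTop
        (𝓝 (3 / 2 * c q))) ∧
      (∀ q q', (top q ↔ top q') → c q = c q' → q = q') ∧
      (∀ q, 1 ≤ c q ∧ c q ≤ 2 * (3 ^ n - 1))

theorem beta_est (M s a w T i δ : ℝ) (hM : 1 ≤ M) (hs : 0 ≤ s) (hδ : δ ≤ 1)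
    (ha : |a - 3 * i| ≤ δ) (hw : |T - w - 3 * (M - 1 - i)| ≤ δ)
    (hT : T = M * (s + 1) + 2 * (M - 1)) : |(w - a) / (s + 1) - M| ≤ (M + 1) / (s + 1) := by
  have hs1 : 0 < s + 1 := by linarith
  have h1 : (w - a) / (s + 1) - M = (w - a - M * (s + 1)) / (s + 1) := by
    field_simp
  rw [h1, abs_div, abs_of_pos hs1]
  apply div_le_div_of_nonneg_right _ hs1.le
  have ha' := abs_le.1 ha
  have hw' := abs_le.1 hw
  rw [abs_le]
  constructor <;> linarith [ha'.1, ha'.2, hw'.1, hw'.2]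

theorem leaf_est (M A' x β g i k u δ ε B : ℝ) (hε : 0 ≤ ε) (hM : 1 ≤ M)
    (hA : |M * A' - 1| ≤ ε) (hA0 : 0 ≤ A')
    (hx : |x - 3 * i| ≤ δ) (hβ : |β - M| * B ≤ δ) (hg : |g - (3 * k + A' * u)| ≤ ε * A')
    (hgB : |g| ≤ B) (hu : |u| ≤ 2) (hε1 : ε ≤ 1) :
    |x + β * g - (3 * i + 3 * M * k + u)| ≤ 2 * δ + 4 * ε := by
  have h1 : x + β * g - (3 * i + 3 * M * k + u) =
      (x - 3 * i) + (β - M) * g + M * (g - (3 * k + A' * u)) + (M * A' - 1) * u := by ring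
  rw [h1]
  have b1 : |(β - M) * g| ≤ δ := by
    rw [abs_mul]
    exact le_trans (mul_le_mul_of_nonneg_left hgB (abs_nonneg _)) hβ
  have b2 : |M * (g - (3 * k + A' * u))| ≤ 2 * ε := by
    rw [abs_mul, abs_of_nonneg (by linarith : (0 : ℝ) ≤ M)]
    have h2 : M * |g - (3 * k + A' * u)| ≤ M * (ε * A') :=
      mul_le_mul_of_nonneg_left hg (by linarith)
    have h3 := (abs_le.1 hA).2
    have h4 : ε * (M * A') ≤ ε * 2 := mul_le_mul_of_nonneg_left (by linarith) hε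
    linarith
  have b3 : |(M * A' - 1) * u| ≤ 2 * ε := by
    rw [abs_mul]
    have := mul_le_mul hA hu (abs_nonneg _) hε
    linarith
  calc |(x - 3 * i) + (β - M) * g + M * (g - (3 * k + A' * u)) + (M * A' - 1) * u|
      ≤ |(x - 3 * i) + (β - M) * g + M * (g - (3 * k + A' * u))| + |(M * A' - 1) * u| :=
        abs_add_le _ _
    _ ≤ (|(x - 3 * i) + (β - M) * g| + |M * (g - (3 * k + A' * u))|) + |(M * A' - 1) * u| := by
        gcongr
        exact abs_add_le _ _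
    _ ≤ ((|x - 3 * i| + |(β - M) * g|) + |M * (g - (3 * k + A' * u))|) +
          |(M * A' - 1) * u| := by
        gcongr
        exact abs_add_le _ _
    _ ≤ 2 * δ + 4 * ε := by linarith

theorem A_pos (h : ℕ) (hh : 1 ≤ h) : 0 < A h := by
  unfold A
  have : (0 : ℝ) < h := by exact_mod_cast hh
  positivity

theorem A_le (h : ℕ) : A h ≤ 1 := by
  unfold A
  have key : ∀ n : ℕ, 3 * n ≤ 2 * 2 ^ n := by
    intro n
    induction n with
    | zero => simp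
    | succ n ih =>
      rcases Nat.lt_or_ge n 2 with h2 | h2
      · interval_cases n <;> norm_num
      · have : 4 ≤ 2 ^ n := by
          calc 4 = 2 ^ 2 := by norm_num
            _ ≤ 2 ^ n := Nat.pow_le_pow_right (by norm_num) h2
        rw [pow_succ]
        omega
  have h1 : (3 * (h : ℝ)) ≤ 2 * 2 ^ h := by exact_mod_cast key h
  rw [div_le_one (by positivity)]
  linarith

end

end Pool.Agent.KS
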