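import Pool.Agent.H875KS.Asm

set_option autoImplicit false

namespace Pool.Agent.KS

open Finset Filter Topology

theorem gh_eq (N h : ℕ) (j : Fin 3) (m : Fin N) :
    gh N h j ((m : ℕ) + 1) = ht (gad N h) (j, m) := by
  unfold gh
  have h1 : 1 ≤ (m : ℕ) + 1 ∧ (m : ℕ) + 1 ≤ N := ⟨by omega, m.2⟩
  rw [dif_pos h1]
  congr 1

/-- Estimates for the leaves. -/
theorem leaves_est (N h n : ℕ) (ε T : ℝ) (hh : 3 ≤ h) (hN : 2 * h + 4 ≤ N)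
    (hε0 : 0 < ε) (hε1 : ε ≤ 1 / 100) (hA : |(3 : ℝ) ^ n * A h - 1| ≤ ε)
    (hG : GadOK N h ε) (a w : Fin (3 ^ n) → ℝ)
    (hT : T = 3 ^ n * (3 * (N : ℝ) + 1) + 2 * (3 ^ n - 1))
    (ha : ∀ i, |a i - 3 * (i : ℕ)| ≤ ε)
    (hw : ∀ i, |T - w i - 3 * (3 ^ n - 1 - (i : ℕ))| ≤ ε)
    (hs : ((3 : ℝ) ^ n + 1) / (3 * (N : ℝ) + 1) * (3 * h + 9) ≤ ε)
    (H : Fin (3 ^ n) → Fin 3 → ℕ → ℝ)
    (hH : ∀ i j k, H i j k = a i + (w i - a i) / (3 * (N : ℝ) + 1) * gh N h j k) :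
    (∀ (i : Fin (3 ^ n)) (j : Fin 3) (k : ℕ), 1 ≤ k → k ≤ h + 2 →
      |H i j k - (3 * (i : ℕ) + 3 * ((3 ^ n : ℕ) : ℝ) * k - (2 - (j : ℕ)) +
        ((min k h : ℕ) : ℝ) / h)| ≤ 6 * ε) ∧
    (∀ (i : Fin (3 ^ n)) (j : Fin 3) (k : ℕ), 1 ≤ k → k ≤ h + 2 →
      |T - H i j (N + 1 - k) - (3 * (((3 ^ n : ℕ) : ℝ) - 1 - (i : ℕ)) +
        3 * ((3 ^ n : ℕ) : ℝ) * k - (j : ℕ) + ((min k h : ℕ) : ℝ) / h)| ≤ 6 * ε) ∧
    (∀ (i : Fin (3 ^ n)) (j : Fin 3) (k : ℕ), h < k → k < N + 1 - h →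
      H i j (k + 1) - 2 * H i j k + H i j (k - 1) = 0) ∧
    (∀ (i : Fin (3 ^ n)) (j : Fin 3) (k : ℕ), 1 ≤ k → k < N → H i j k ≤ H i j (k + 1)) := by
  obtain ⟨hne, hdual, haff, hbot, hmono⟩ := hG
  have hM : (1 : ℝ) ≤ 3 ^ n := one_le_pow₀ (by norm_num)
  have hN0 : (0 : ℝ) ≤ 3 * (N : ℝ) := by positivity
  have hs1 : (0 : ℝ) < 3 * (N : ℝ) + 1 := by positivity
  have hh0 : (0 : ℝ) < h := by exact_mod_cast (by omega : 0 < h)
  have hA0 := A_pos h (by omega)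
  have hA1 := A_le h
  have hβ : ∀ i, |(w i - a i) / (3 * (N : ℝ) + 1) - 3 ^ n| ≤ (3 ^ n + 1) / (3 * (N : ℝ) + 1) :=
    fun i => beta_est (3 ^ n) (3 * N) (a i) (w i) T (i : ℕ) ε hM hN0 (by linarith) (ha i) (hw i) hT
  have hβ2 : ∀ i, |(w i - a i) / (3 * (N : ℝ) + 1) - 3 ^ n| * (3 * h + 9) ≤ ε := by
    intro i
    refine le_trans (mul_le_mul_of_nonneg_right (hβ i) (by positivity)) hs
  have hu : ∀ (j : Fin 3) (k : ℕ), |((min k h : ℕ) : ℝ) / h - (2 - (j : ℕ))| ≤ 2 := by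
    intro j k
    have h1 : (0 : ℝ) ≤ ((min k h : ℕ) : ℝ) / h := by positivity
    have h2 : ((min k h : ℕ) : ℝ) / h ≤ 1 := by
      rw [div_le_one hh0]
      exact_mod_cast min_le_right k h
    have h3 : ((j : ℕ) : ℝ) ≤ 2 := by exact_mod_cast (by omega : (j : ℕ) ≤ 2)
    have h4 : (0 : ℝ) ≤ ((j : ℕ) : ℝ) := Nat.cast_nonneg _
    rw [abs_le]
    constructor <;> linarith
  have hgB : ∀ (j : Fin 3) (k : ℕ), 1 ≤ k → k ≤ h + 2 → |gh N h j k| ≤ 3 * h + 9 := by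
    intro j k hk1 hk2
    have h1 := abs_le.1 (hbot j k hk1 hk2)
    have h2 := abs_le.1 (hu j k)
    have h3 : (k : ℝ) ≤ h + 2 := by exact_mod_cast hk2
    have h4 : (1 : ℝ) ≤ k := by exact_mod_cast hk1
    have h5 : |A h * (((min k h : ℕ) : ℝ) / h - (2 - (j : ℕ)))| ≤ 2 := by
      rw [abs_mul, abs_of_pos hA0]
      calc A h * |((min k h : ℕ) : ℝ) / h - (2 - (j : ℕ))| ≤ 1 * 2 :=
            mul_le_mul hA1 (hu j k) (abs_nonneg _) (by norm_num)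
        _ = 2 := by norm_num
    have h6 := abs_le.1 h5
    have h7 : ε * A h ≤ 1 := by
      calc ε * A h ≤ 1 * 1 := mul_le_mul (by linarith) hA1 hA0.le (by norm_num)
        _ = 1 := by norm_num
    rw [abs_le]
    constructor <;> linarith [h1.1, h1.2, h6.1, h6.2]
  refine ⟨?_, ?_, ?_, ?_⟩
  · intro i j k hk1 hk2
    have := leaf_est (3 ^ n) (A h) (a i) ((w i - a i) / (3 * (N : ℝ) + 1)) (gh N h j k) (i : ℕ)
      k (((min k h : ℕ) : ℝ) / h - (2 - (j : ℕ))) ε ε (3 * h + 9) hε0.le hM hA hA0.le (ha i)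
      (hβ2 i) (hbot j k hk1 hk2) (hgB j k hk1 hk2) (hu j k) (by linarith)
    rw [hH]
    push_cast at this ⊢
    have e1 : a i + (w i - a i) / (3 * (N : ℝ) + 1) * gh N h j k - (3 * (i : ℕ) + 3 * 3 ^ n * k -
        (2 - (j : ℕ)) + min (k : ℝ) h / h) =
        a i + (w i - a i) / (3 * (N : ℝ) + 1) * gh N h j k - (3 * (i : ℕ) + 3 * 3 ^ n * k +
        (min (k : ℝ) h / h - (2 - (j : ℕ)))) := by ring
    rw [e1]
    linarith
  · intro i j k hk1 hk2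
    have := leaf_est (3 ^ n) (A h) (T - w i) ((w i - a i) / (3 * (N : ℝ) + 1))
      (gh N h (Fin.rev j) k) (3 ^ n - 1 - (i : ℕ))
      k (((min k h : ℕ) : ℝ) / h - (2 - ((Fin.rev j : Fin 3) : ℕ))) ε ε (3 * h + 9) hε0.le hM hA
      hA0.le (hw i) (hβ2 i) (hbot (Fin.rev j) k hk1 hk2) (hgB (Fin.rev j) k hk1 hk2)
      (hu (Fin.rev j) k) (by linarith)
    have hd := hdual (Fin.rev j) k (by omega)
    rw [Fin.rev_rev] at hd
    rw [hH, hd]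
    have hrev : (((Fin.rev j : Fin 3) : ℕ) : ℝ) = 2 - (j : ℕ) := by
      rw [Fin.val_rev, Nat.cast_sub (by omega)]
      push_cast
      ring
    rw [hrev] at this
    have e0 : (w i - a i) / (3 * (N : ℝ) + 1) * (3 * (N : ℝ) + 1 - gh N h (Fin.rev j) k) =
        (w i - a i) - (w i - a i) / (3 * (N : ℝ) + 1) * gh N h (Fin.rev j) k := by
      field_simp
    rw [e0]
    push_cast at this ⊢
    have e1 : T - (a i + ((w i - a i) - (w i - a i) / (3 * (N : ℝ) + 1) *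
        gh N h (Fin.rev j) k)) -
        (3 * (3 ^ n - 1 - (i : ℕ)) + 3 * 3 ^ n * k - (j : ℕ) + min (k : ℝ) h / h) =
        T - w i + (w i - a i) / (3 * (N : ℝ) + 1) * gh N h (Fin.rev j) k -
        (3 * (3 ^ n - 1 - (i : ℕ)) + 3 * 3 ^ n * k +
        (min (k : ℝ) h / h - (2 - (2 - (j : ℕ))))) := by ring
    rw [e1]
    linarith
  · intro i j k h1 h2
    have h3 := haff j k h1 h2
    rw [hH, hH, hH]
    linear_combination ((w i - a i) / (3 * (N : ℝ) + 1)) * h3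
  · intro i j k h1 h2
    have h3 := hmono j k h1 h2
    rw [hH, hH]
    have h4 : 0 ≤ (w i - a i) / (3 * (N : ℝ) + 1) := by
      have h5 := (abs_le.1 (hβ i)).1
      have h6 : ((3 : ℝ) ^ n + 1) / (3 * (N : ℝ) + 1) ≤ ε := by
        have h7 : (1 : ℝ) ≤ 3 * h + 9 := by linarith
        have h8 : 0 ≤ ((3 : ℝ) ^ n + 1) / (3 * (N : ℝ) + 1) := by positivity
        calc ((3 : ℝ) ^ n + 1) / (3 * (N : ℝ) + 1) =
              ((3 : ℝ) ^ n + 1) / (3 * (N : ℝ) + 1) * 1 := by ring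
          _ ≤ ((3 : ℝ) ^ n + 1) / (3 * (N : ℝ) + 1) * (3 * h + 9) :=
              mul_le_mul_of_nonneg_left h7 h8
          _ ≤ ε := hs
      linarith
    nlinarith [mul_nonneg h4 (by linarith : 0 ≤ gh N h j (k + 1) - gh N h j k)]

end Pool.Agent.KS
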