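import Pool.Agent.H875KS.Asm2

set_option autoImplicit false

namespace Pool.Agent.KS

open Finset Filter Topology

theorem assemble
    (hgad : ∀ ε : ℝ, 0 < ε → ∃ h0 : ℕ, ∀ h ≥ h0, ∃ N0 : ℕ, ∀ N ≥ N0, GadOK N h ε)
    (hnum : ∀ ε : ℝ, 0 < ε → ∀ h0 : ℕ, ∃ h n : ℕ, h0 ≤ h ∧ 1 ≤ n ∧ |(3 : ℝ) ^ n * A h - 1| ≤ ε)
    (htree : ∀ n, TreeOK n) (γ : ℝ) (hγ : 0 < γ) :
    ∃ (Y : Type) (_ : Fintype Y) (R : Y → Y → Prop),
      1 < (LE R).card ∧ ∀ x y : Y, x ≠ y → 1 - γ < |ht R x - ht R y| := by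
  set ε : ℝ := min (γ / 100) (1 / 100) with hεdef
  have hε0 : 0 < ε := by
    rw [hεdef]
    exact lt_min (by linarith) (by norm_num)
  have hε1 : ε ≤ 1 / 100 := min_le_right _ _
  have hεγ : ε ≤ γ / 100 := min_le_left _ _
  obtain ⟨h0, hgad⟩ := hgad ε hε0
  obtain ⟨h, n, hh0, hn, hA⟩ := hnum ε hε0 (max h0 3)
  have hh : 3 ≤ h := le_trans (le_max_right _ _) hh0
  obtain ⟨N0, hgad⟩ := hgad h (le_trans (le_max_left _ _) hh0)
  obtain ⟨Q, hQ, top, c, ν, a, w, hY, ha, hw, hνb, hνt, hc, hcb⟩ := htree n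
  classical
  have lim3 : Tendsto (fun N : ℕ => 3 * N) atTop atTop :=
    tendsto_atTop_mono (fun N => (by show N ≤ 3 * N; omega : id N ≤ 3 * N)) tendsto_id
  have habs : ∀ (f : ℕ → ℝ) (L : ℝ), Tendsto f atTop (𝓝 L) →
      ∀ᶠ N : ℕ in atTop, |f (3 * N) - L| ≤ ε := by
    intro f L hf
    have h1 := (hf.comp lim3)
    have h2 := Metric.tendsto_nhds.1 h1 ε hε0
    filter_upwards [h2] with N hN
    rw [Real.dist_eq] at hN
    exact hN.le
  have E1 : ∀ᶠ N : ℕ in atTop, ∀ i, |a (3 * N) i - 3 * (i : ℕ)| ≤ ε :=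
    eventually_all.2 (fun i => habs (fun s => a s i) _ (ha i))
  have E2 : ∀ᶠ N : ℕ in atTop, ∀ i,
      |((3 ^ n * (((3 * N : ℕ) : ℝ) + 1) + 2 * (3 ^ n - 1)) - w (3 * N) i) -
        3 * (3 ^ n - 1 - (i : ℕ))| ≤ ε :=
    eventually_all.2 (fun i => habs (fun s : ℕ => (3 ^ n * ((s : ℝ) + 1) + 2 * (3 ^ n - 1)) - w s i)
      _ (hw i))
  have E3 : ∀ᶠ N : ℕ in atTop, ∀ q, ¬ top q → |ν (3 * N) q - 3 / 2 * c q| ≤ ε := by
    apply eventually_all.2
    intro q
    by_cases hq : top q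
    · exact Eventually.of_forall (fun N hN => absurd hq hN)
    · filter_upwards [habs (fun s => ν s q) _ (hνb q hq)] with N hN _
      exact hN
  have E4 : ∀ᶠ N : ℕ in atTop, ∀ q, top q →
      |((3 ^ n * (((3 * N : ℕ) : ℝ) + 1) + 2 * (3 ^ n - 1)) - ν (3 * N) q) - 3 / 2 * c q| ≤ ε := by
    apply eventually_all.2
    intro q
    by_cases hq : top q
    · filter_upwards [habs (fun s : ℕ => (3 ^ n * ((s : ℝ) + 1) + 2 * (3 ^ n - 1)) - ν s q) _
        (hνt q hq)] with N hN _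
      exact hN
    · exact Eventually.of_forall (fun N hN => absurd hN hq)
  have E5 : ∀ᶠ N : ℕ in atTop, ((3 : ℝ) ^ n + 1) / (3 * (N : ℝ) + 1) * (3 * h + 9) ≤ ε := by
    have h1 : Tendsto (fun N : ℕ => 3 * (N : ℝ) + 1) atTop atTop := by
      apply tendsto_atTop_add_const_right
      exact Tendsto.const_mul_atTop (by norm_num) tendsto_natCast_atTop_atTop
    have h2 : Tendsto (fun N : ℕ => ((3 : ℝ) ^ n + 1) / (3 * (N : ℝ) + 1) * (3 * h + 9)) atTop
        (𝓝 (0 * (3 * h + 9))) :=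
      Tendsto.mul_const _ (Tendsto.div_atTop tendsto_const_nhds h1)
    rw [zero_mul] at h2
    have h3 := Metric.tendsto_nhds.1 h2 ε hε0
    filter_upwards [h3] with N hN
    rw [Real.dist_eq, sub_zero] at hN
    exact le_trans (le_abs_self _) hN.le
  obtain ⟨N, hE1, hE2, hE3, hE4, hE5, hNN0, hN4⟩ := (E1.and (E2.and (E3.and (E4.and (E5.and
    ((eventually_ge_atTop N0).and (eventually_ge_atTop (2 * h + 4)))))))).exists
  have hG := hgad N hNN0
  have hG' := hG
  obtain ⟨hne, hdual, haff, hbot, hmono⟩ := hG'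
  have hcard : Fintype.card (Fin 3 × Fin N) = 3 * N := by simp
  obtain ⟨Y, hYf, R, e, hRne, hRc, hRq, hRl⟩ := hY (Fin 3 × Fin N) (gad N h) hne
    (by rw [hcard]; omega)
  rw [hcard] at hRq hRl
  refine ⟨Y, hYf, R, hRc hn, ?_⟩
  -- the total
  set T : ℝ := 3 ^ n * (3 * (N : ℝ) + 1) + 2 * (3 ^ n - 1) with hT
  have hT' : (3 : ℝ) ^ n * (((3 * N : ℕ) : ℝ) + 1) + 2 * (3 ^ n - 1) = T := by
    rw [hT]; push_cast; ring
  rw [hT'] at hE2 hE4
  set H : Fin (3 ^ n) → Fin 3 → ℕ → ℝ := fun i j k =>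
    a (3 * N) i + (w (3 * N) i - a (3 * N) i) / (3 * (N : ℝ) + 1) * gh N h j k with hH
  obtain ⟨lb, lt, la, lm⟩ := leaves_est N h n ε T hh hN4 hε0 hε1 hA hG (a (3 * N)) (w (3 * N)) hT
    hE1 hE2 hE5 H (fun i j k => rfl)
  have hleaf : ∀ i j (m : Fin N), ht R (e.symm (Sum.inr (i, (j, m)))) = H i j ((m : ℕ) + 1) := by
    intro i j m
    rw [hRl, hH]
    simp only
    rw [gh_eq]
    push_cast
    ring
  have hMn : (1 : ℝ) ≤ 3 ^ n := one_le_pow₀ (by norm_num)
  have hh0' : (0 : ℝ) < h := by exact_mod_cast (by omega : 0 < h)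
  have mono : ∀ (i : Fin (3 ^ n)) (j : Fin 3) (d k : ℕ), 1 ≤ k → k + d ≤ N →
      H i j k ≤ H i j (k + d) := by
    intro i j d
    induction d with
    | zero => intro k _ _; exact le_refl _
    | succ d ih =>
      intro k hk1 hk2
      have h1 := ih k hk1 (by omega)
      have h2 := lm i j (k + d) (by omega) (by omega)
      have e1 : k + (d + 1) = k + d + 1 := by omega
      rw [e1]
      linarith
  have hlow : ∀ i j k, 1 ≤ k → k ≤ N → 3 * (3 : ℝ) ^ n - 2 - 6 * ε ≤ H i j k := by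
    intro i j k hk1 hk2
    have h1 := (abs_le.1 (lb i j 1 (le_refl 1) (by omega))).1
    have h2 := mono i j (k - 1) 1 (le_refl 1) (by omega)
    have e1 : 1 + (k - 1) = k := by omega
    rw [e1] at h2
    have h3 : (0 : ℝ) ≤ ((min 1 h : ℕ) : ℝ) / h := by positivity
    have h4 : (0 : ℝ) ≤ ((i : ℕ) : ℝ) := Nat.cast_nonneg _
    have h5 : (0 : ℝ) ≤ ((j : ℕ) : ℝ) := Nat.cast_nonneg _
    push_cast at h1 h3
    linarith
  have hhigh : ∀ i j k, 1 ≤ k → k ≤ N → 3 * (3 : ℝ) ^ n - 2 - 6 * ε ≤ T - H i j k := by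
    intro i j k hk1 hk2
    have h1 := (abs_le.1 (lt i j 1 (le_refl 1) (by omega))).1
    have h2 := mono i j (N - k) k hk1 (by omega)
    have e1 : k + (N - k) = N := by omega
    have e2 : N + 1 - 1 = N := by omega
    rw [e1] at h2
    rw [e2] at h1
    have h3 : (0 : ℝ) ≤ ((min 1 h : ℕ) : ℝ) / h := by positivity
    have h4 : ((i : ℕ) : ℝ) ≤ 3 ^ n - 1 := by
      have : ((i : ℕ) : ℝ) + 1 ≤ ((3 ^ n : ℕ) : ℝ) := by exact_mod_cast i.2
      push_cast at this
      linarith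
    have h5 : ((j : ℕ) : ℝ) ≤ 2 := by exact_mod_cast (by omega : (j : ℕ) ≤ 2)
    push_cast at h1 h3
    linarith
  have hcr : ∀ q, (c q : ℝ) ≤ 2 * (3 ^ n - 1) := by
    intro q
    have h1 := (hcb q).2
    have h2 : 1 ≤ 3 ^ n := Nat.one_le_pow _ _ (by norm_num)
    have h3 : (c q : ℝ) ≤ ((2 * (3 ^ n - 1) : ℕ) : ℝ) := by exact_mod_cast h1
    rw [Nat.cast_mul, Nat.cast_sub h2] at h3
    push_cast at h3
    exact h3
  have hcr1 : ∀ q, (1 : ℝ) ≤ c q := fun q => by exact_mod_cast (hcb q).1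
  have hTbig : 7 * (3 : ℝ) ^ n ≤ T := by
    have h1 : (4 : ℝ) ≤ N := by exact_mod_cast (by omega : 4 ≤ N)
    have h2 : (3 : ℝ) ^ n * 13 ≤ 3 ^ n * (3 * (N : ℝ) + 1) :=
      mul_le_mul_of_nonneg_left (by linarith) (by positivity)
    rw [hT]
    linarith
  have node_leaf : ∀ q i j k, 1 ≤ k → k ≤ N → 1 - 7 * ε ≤ |ν (3 * N) q - H i j k| := by
    intro q i j k hk1 hk2
    by_cases hq : top q
    · have h1 := abs_le.1 (hE4 q hq)
      have h2 := hhigh i j k hk1 hk2
      have h3 := hcr q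
      refine le_trans ?_ (le_abs_self _)
      linarith [h1.1, h1.2]
    · have h1 := abs_le.1 (hE3 q hq)
      have h2 := hlow i j k hk1 hk2
      have h3 := hcr q
      rw [abs_sub_comm]
      refine le_trans ?_ (le_abs_self _)
      linarith [h1.1, h1.2]
  have code_gap : ∀ q q', (top q ↔ top q') → q ≠ q' → 3 / 2 ≤ |3 / 2 * (c q : ℝ) - 3 / 2 * c q'| := by
    intro q q' h1 h2
    have h3 : c q ≠ c q' := fun h4 => h2 (hc q q' h1 h4)
    have h4 : (1 : ℝ) ≤ |(c q : ℝ) - c q'| := by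
      have h5 : (1 : ℤ) ≤ |(c q : ℤ) - c q'| := by
        apply Int.one_le_abs
        intro h6
        apply h3
        omega
      exact_mod_cast h5
    have h5 : 3 / 2 * (c q : ℝ) - 3 / 2 * c q' = 3 / 2 * ((c q : ℝ) - c q') := by ring
    rw [h5, abs_mul, abs_of_pos (by norm_num : (0 : ℝ) < 3 / 2)]
    linarith
  have node_node : ∀ q q', q ≠ q' → 1 - 7 * ε ≤ |ν (3 * N) q - ν (3 * N) q'| := by
    intro q q' hqq
    by_cases hq : top q
    · by_cases hq' : top q'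
      · have h1 := hE4 q hq
        have h2 := hE4 q' hq'
        have h3 := code_gap q q' (by simp [hq, hq']) hqq
        have h4 : |3 / 2 * (c q : ℝ) - 3 / 2 * c q'| ≤ |T - ν (3 * N) q - 3 / 2 * c q| +
            |ν (3 * N) q - ν (3 * N) q'| + |T - ν (3 * N) q' - 3 / 2 * c q'| := by
          have e1 : 3 / 2 * (c q : ℝ) - 3 / 2 * c q' = -(T - ν (3 * N) q - 3 / 2 * c q) +
            (-(ν (3 * N) q - ν (3 * N) q')) + (T - ν (3 * N) q' - 3 / 2 * c q') := by ring
          rw [e1]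
          refine le_trans (abs_add_le _ _) ?_
          refine add_le_add (le_trans (abs_add_le _ _) ?_) (le_refl _)
          rw [abs_neg, abs_neg]
        linarith
      · have h1 := abs_le.1 (hE4 q hq)
        have h2 := abs_le.1 (hE3 q' hq')
        have h3 := hcr q
        have h4 := hcr q'
        refine le_trans ?_ (le_abs_self _)
        linarith [h1.1, h1.2, h2.1, h2.2]
    · by_cases hq' : top q'
      · have h1 := abs_le.1 (hE3 q hq)
        have h2 := abs_le.1 (hE4 q' hq')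
        have h3 := hcr q
        have h4 := hcr q'
        rw [abs_sub_comm]
        refine le_trans ?_ (le_abs_self _)
        linarith [h1.1, h1.2, h2.1, h2.2]
      · have h1 := hE3 q hq
        have h2 := hE3 q' hq'
        have h3 := code_gap q q' (by simp [hq, hq']) hqq
        have h4 : |3 / 2 * (c q : ℝ) - 3 / 2 * c q'| ≤ |ν (3 * N) q - 3 / 2 * c q| +
            |ν (3 * N) q - ν (3 * N) q'| + |ν (3 * N) q' - 3 / 2 * c q'| := by
          have e1 : 3 / 2 * (c q : ℝ) - 3 / 2 * c q' = -(ν (3 * N) q - 3 / 2 * c q) +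
            (ν (3 * N) q - ν (3 * N) q') + (ν (3 * N) q' - 3 / 2 * c q') := by ring
          rw [e1]
          refine le_trans (abs_add_le _ _) ?_
          refine add_le_add (le_trans (abs_add_le _ _) ?_) (le_refl _)
          rw [abs_neg]
        linarith
  have hlt : 1 - γ < 1 - 12 * ε := by linarith
  intro x y hxy
  obtain ⟨x', rfl⟩ := e.symm.surjective x
  obtain ⟨y', rfl⟩ := e.symm.surjective y
  have hxy' : x' ≠ y' := fun h1 => hxy (by rw [h1])
  refine lt_of_lt_of_le hlt ?_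
  rcases x' with q | ⟨i, j, m⟩
  · rcases y' with q' | ⟨i', j', m'⟩
    · rw [hRq, hRq]
      have := node_node q q' (fun h1 => hxy' (by rw [h1]))
      linarith
    · rw [hRq, hleaf]
      have := node_leaf q i' j' ((m' : ℕ) + 1) (by omega) m'.2
      linarith
  · rcases y' with q' | ⟨i', j', m'⟩
    · rw [hRq, hleaf, abs_sub_comm]
      have := node_leaf q' i j ((m : ℕ) + 1) (by omega) m.2
      linarith
    · rw [hleaf, hleaf]
      have := gaps_leaf (3 ^ n) N h hh hN4 H T (6 * ε) lb lt la lm i j ((m : ℕ) + 1) i' j'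
        ((m' : ℕ) + 1) (by omega) m.2 (by omega) m'.2 (by
          intro h1
          apply hxy'
          simp only [Prod.mk.injEq] at h1
          obtain ⟨h2, h3, h4⟩ := h1
          have h5 : m = m' := Fin.ext (by omega)
          rw [h2, h3, h5])
      linarith

end Pool.Agent.KS
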