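import Pool.Agent.H875KS.Defs2

set_option autoImplicit false

namespace Pool.Agent.KS

open Finset Filter Topology

noncomputable section

namespace J10135

namespace Bridge

theorem occ_eq (x : Fin 3) : ∀ (w : List (Fin 3)) (p k : ℕ) (hp : p < w.length), w[p] = x →
    (w.take p).count x = k → occ x (k + 1) w = p + 1 := by
  intro w
  induction w with
  | nil => intro p k hp; simp at hp
  | cons c w ih =>
    intro p k hp hx hc
    cases p with
    | zero =>
      simp at hx hc
      subst hc
      simp [occ, hx]
    | succ p =>
      simp only [List.length_cons, Nat.add_lt_add_iff_right] at hp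
      simp only [List.getElem_cons_succ] at hx
      rw [List.take_succ_cons, List.count_cons] at hc
      by_cases h : c = x
      · simp only [h, beq_self_eq_true, if_true] at hc
        cases k with
        | zero => omega
        | succ k =>
          have := ih p k hp hx (by omega)
          simp only [occ, h, if_true]
          rw [this]
      · have h' : (c == x) = false := by simpa using h
        simp only [h', Bool.false_eq_true, if_false] at hc
        have := ih p k hp hx (by omega)
        simp only [occ, h, if_false]
        rw [this]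

theorem occ_exists (x : Fin 3) : ∀ (w : List (Fin 3)) (k : ℕ), k < w.count x →
    ∃ (p : ℕ) (hp : p < w.length), w[p] = x ∧ (w.take p).count x = k := by
  intro w
  induction w with
  | nil => intro k hk; simp at hk
  | cons c w ih =>
    intro k hk
    rw [List.count_cons] at hk
    by_cases h : c = x
    · cases k with
      | zero => exact ⟨0, by simp, by simpa using h, by simp⟩
      | succ k =>
        simp only [h, beq_self_eq_true, if_true] at hk
        obtain ⟨p, hp, h1, h2⟩ := ih k (by omega)
        refine ⟨p + 1, by simpa using hp, by simpa using h1, ?_⟩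
        rw [List.take_succ_cons, List.count_cons, h2]
        simp [h]
    · have h' : (c == x) = false := by simpa using h
      simp only [h', Bool.false_eq_true, if_false] at hk
      obtain ⟨p, hp, h1, h2⟩ := ih k (by omega)
      refine ⟨p + 1, by simpa using hp, by simpa using h1, ?_⟩
      rw [List.take_succ_cons, List.count_cons, h2]
      simp [h']

theorem mem_words (m : Fin 3 → ℕ) (w : List (Fin 3)) : w ∈ words m ↔ ∀ c, w.count c = m c := by
  unfold words
  rw [Finset.mem_filter]
  constructor
  · exact fun h => h.2
  · intro h
    refine ⟨?_, h⟩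
    rw [Finset.mem_image]
    have hl : w.length = m 0 + m 1 + m 2 := by
      have : ∀ w : List (Fin 3), w.length = w.count 0 + w.count 1 + w.count 2 := by
        intro w
        induction w with
        | nil => simp
        | cons c w ih =>
          rw [List.length_cons, List.count_cons, List.count_cons, List.count_cons, ih]
          fin_cases c <;> simp <;> omega
      rw [this w, h 0, h 1, h 2]
    refine ⟨fun t => w[t.1]'(by rw [hl]; exact t.2), Finset.mem_univ _, ?_⟩
    apply List.ext_getElem
    · simp [hl]
    · intro i h1 h2
      simp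

/-- the word of a linear extension -/
def Ef {N : ℕ} (f : (Fin 3 × Fin N) ≃ Fin (Fintype.card (Fin 3 × Fin N))) : List (Fin 3) :=
  List.ofFn (fun t => (f.symm t).1)

theorem card_eq (N : ℕ) : Fintype.card (Fin 3 × Fin N) = N + N + N := by
  simp; ring

theorem count_take {N : ℕ} (f : (Fin 3 × Fin N) ≃ Fin (Fintype.card (Fin 3 × Fin N))) (j : Fin 3) (p : ℕ) :
    ((Ef f).take p).count j = (Finset.univ.filter (fun k : Fin N => (f (j, k) : ℕ) < p)).card := by
  induction p with
  | zero => simp
  | succ p ih =>
    by_cases hp : p < (Ef f).length
    · rw [List.take_succ_eq_append_getElem hp, List.count_append, ih]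
      have hp' : p < Fintype.card (Fin 3 × Fin N) := by simpa [Ef] using hp
      have e1 : (Ef f)[p] = (f.symm ⟨p, hp'⟩).1 := by simp [Ef]
      rw [e1]
      by_cases h : (f.symm ⟨p, hp'⟩).1 = j
      · have e2 : (Finset.univ.filter (fun k : Fin N => (f (j, k) : ℕ) < p + 1)) = 
            insert (f.symm ⟨p, hp'⟩).2 (Finset.univ.filter (fun k : Fin N => (f (j, k) : ℕ) < p)) := by
          ext k
          simp only [Finset.mem_filter, Finset.mem_univ, true_and, Finset.mem_insert]
          constructor
          · intro hk
            rcases Nat.lt_succ_iff_lt_or_eq.1 hk with h1 | h1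
            · exact Or.inr h1
            · left
              have : f (j, k) = ⟨p, hp'⟩ := Fin.ext h1
              rw [← this]; simp
          · rintro (h1 | h1)
            · have : (j, k) = f.symm ⟨p, hp'⟩ := by rw [← h, h1]
              rw [this]; simp
            · omega
        rw [e2, Finset.card_insert_of_notMem]
        · simp [h]
        · simp only [Finset.mem_filter, Finset.mem_univ, true_and, not_lt]
          have : (j, (f.symm ⟨p, hp'⟩).2) = f.symm ⟨p, hp'⟩ := by rw [← h]
          rw [this]; simp
      · have e2 : (Finset.univ.filter (fun k : Fin N => (f (j, k) : ℕ) < p + 1)) = 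
            (Finset.univ.filter (fun k : Fin N => (f (j, k) : ℕ) < p)) := by
          ext k
          simp only [Finset.mem_filter, Finset.mem_univ, true_and]
          constructor
          · intro hk
            rcases Nat.lt_succ_iff_lt_or_eq.1 hk with h1 | h1
            · exact h1
            · exfalso
              apply h
              have : f (j, k) = ⟨p, hp'⟩ := Fin.ext h1
              rw [← this]; simp
          · intro h1; omega
        rw [e2]
        simp [h]
    · push Not at hp
      rw [List.take_of_length_le (by omega)]
      rw [List.take_of_length_le (by omega)] at ih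
      rw [ih]
      congr 1
      ext k
      have hl : (Ef f).length = Fintype.card (Fin 3 × Fin N) := by simp [Ef]
      have := (f (j, k)).2
      simp only [Finset.mem_filter, Finset.mem_univ, true_and]
      constructor <;> intro _ <;> omega

theorem mono_chain {N : ℕ} {f : (Fin 3 × Fin N) ≃ Fin (Fintype.card (Fin 3 × Fin N))} {j : Fin 3}
    (hf : ∀ k k' : Fin N, (k : ℕ) + 1 = k' → f (j, k) < f (j, k')) : ∀ k k' : Fin N, k < k' → f (j, k) < f (j, k') := by
  intro k k' hk
  obtain ⟨d, hd⟩ : ∃ d, (k' : ℕ) = k + 1 + d := ⟨k' - (k + 1), by omega⟩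
  induction d generalizing k' with
  | zero => exact hf k k' (by omega)
  | succ d ih =>
    have hk' := k'.2
    have h1 := ih ⟨k + 1 + d, by omega⟩ (by rw [Fin.lt_def]; simp; omega) rfl
    exact h1.trans (hf ⟨k + 1 + d, by omega⟩ k' (by simp; omega))

theorem occ_pos {N : ℕ} {f : (Fin 3 × Fin N) ≃ Fin (Fintype.card (Fin 3 × Fin N))} (j : Fin 3)
    (hf : ∀ k k' : Fin N, (k : ℕ) + 1 = k' → f (j, k) < f (j, k')) (k : Fin N) : occ j ((k : ℕ) + 1) (Ef f) = pos f (j, k) := by
  have hm := mono_chain hf
  unfold pos
  have hp0 : ((f (j, k) : ℕ)) < (Ef f).length := by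
    unfold Ef; rw [List.length_ofFn]; exact (f (j, k)).2
  apply occ_eq j (Ef f) (f (j, k)) k hp0 (by simp [Ef])
  · rw [count_take]
    have : (Finset.univ.filter (fun k' : Fin N => (f (j, k') : ℕ) < f (j, k))) = Finset.Iio k := by
      ext k'
      simp only [Finset.mem_filter, Finset.mem_univ, true_and, Finset.mem_Iio]
      constructor
      · intro h
        by_contra h'
        push Not at h'
        rcases h'.eq_or_lt with e | e
        · rw [e] at h; exact lt_irrefl _ h
        · have := hm k k' e
          rw [Fin.lt_def] at this
          omega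
      · intro h
        exact hm k' k h
    rw [this]
    simp

theorem count_Ef {N : ℕ} (f : (Fin 3 × Fin N) ≃ Fin (Fintype.card (Fin 3 × Fin N))) (j : Fin 3) :
    (Ef f).count j = N := by
  have h := count_take f j (Ef f).length
  rw [List.take_length] at h
  rw [h]
  have : (Finset.univ.filter (fun k : Fin N => (f (j, k) : ℕ) < (Ef f).length)) = Finset.univ := by
    ext k
    simp only [Finset.mem_filter, Finset.mem_univ, true_and, iff_true]
    unfold Ef; rw [List.length_ofFn]; exact (f (j, k)).2
  rw [this]
  simp

theorem mem_LE {α : Type} [Fintype α] (r : α → α → Prop) (f : α ≃ Fin (Fintype.card α)) :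
    f ∈ LE r ↔ ∀ x y, r x y → f x < f y := by
  unfold LE
  simp

end Bridge

open Bridge

theorem bridge (N h : ℕ) (hh : 3 ≤ h) (hN : 2 * h + 2 ≤ N) :
    ∃ E : ((Fin 3 × Fin N) ≃ Fin (Fintype.card (Fin 3 × Fin N))) → List (Fin 3),
      Set.BijOn E (LE (gad N h)) (good N h) ∧
      ∀ f ∈ LE (gad N h), ∀ (j : Fin 3) (k : Fin N), pos f (j, k) = occ j ((k : ℕ) + 1) (E f) := by
  have hpos : ∀ f ∈ LE (gad N h), ∀ (j : Fin 3) (k : Fin N), pos f (j, k) = occ j ((k : ℕ) + 1) (Ef f) := by
    intro f hf j k
    rw [mem_LE] at hf
    rw [occ_pos j (fun k k' hk => hf _ _ (Or.inl ⟨rfl, hk⟩)) k]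
  have e1 : ∀ f ∈ LE (gad N h), ∀ (j : Fin 3) (m : ℕ) (h1 : 1 ≤ m) (h2 : m ≤ N), 
      occ j m (Ef f) = pos f (j, ⟨m - 1, by omega⟩) := by
    intro f hf j m h1 h2
    rw [hpos f hf]
    congr 1
    simp; omega
  refine ⟨Ef, ⟨?_, ?_, ?_⟩, hpos⟩
  · intro f hf
    have hf' : f ∈ LE (gad N h) := by simpa using hf
    have hr := (mem_LE _ _).1 hf'
    have key : ∀ x y, gad N h x y → pos f x < pos f y := by
      intro x y hxy
      unfold pos
      have := hr x y hxy
      rw [Fin.lt_def] at this
      omega
    have : Ef f ∈ good N h := by
      unfold good W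
      rw [Finset.mem_filter, mem_words]
      refine ⟨fun c => count_Ef f c, ?_, ?_, ?_, ?_, ?_, ?_⟩
      · rw [e1 f hf' 0 1 (by omega) (by omega), e1 f hf' 1 h (by omega) (by omega)]
        apply key
        unfold gad
        right; left
        refine ⟨rfl, rfl, rfl, ?_⟩
        show h - 1 + 1 = h
        omega
      · rw [e1 f hf' 0 1 (by omega) (by omega), e1 f hf' 2 h (by omega) (by omega)]
        apply key
        unfold gad
        right; right; left
        refine ⟨rfl, rfl, rfl, ?_⟩
        show h - 1 + 1 = h
        omega
      · rw [e1 f hf' 1 1 (by omega) (by omega), e1 f hf' 0 h (by omega) (by omega)]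
        apply key
        unfold gad
        right; right; right; left
        refine ⟨rfl, rfl, rfl, ?_⟩
        show h - 1 + 1 = h
        omega
      · rw [e1 f hf' 1 (N + 1 - h) (by omega) (by omega), e1 f hf' 2 N (by omega) (by omega)]
        apply key
        unfold gad
        right; right; right; right; left
        refine ⟨rfl, ?_, rfl, ?_⟩
        · show N + 1 - h - 1 + h = N
          omega
        · show N - 1 + 1 = N
          omega
      · rw [e1 f hf' 0 (N + 1 - h) (by omega) (by omega), e1 f hf' 2 N (by omega) (by omega)]
        apply key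
        unfold gad
        right; right; right; right; right; left
        refine ⟨rfl, ?_, rfl, ?_⟩
        · show N + 1 - h - 1 + h = N
          omega
        · show N - 1 + 1 = N
          omega
      · rw [e1 f hf' 2 (N + 1 - h) (by omega) (by omega), e1 f hf' 1 N (by omega) (by omega)]
        apply key
        unfold gad
        right; right; right; right; right; right
        refine ⟨rfl, ?_, rfl, ?_⟩
        · show N + 1 - h - 1 + h = N
          omega
        · show N - 1 + 1 = N
          omega
    simpa using this
  · intro f hf g hg hfg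
    have hf' : f ∈ LE (gad N h) := by simpa using hf
    have hg' : g ∈ LE (gad N h) := by simpa using hg
    apply Equiv.ext
    rintro ⟨j, k⟩
    have h1 := hpos f hf' j k
    have h2 := hpos g hg' j k
    rw [hfg, ← h2] at h1
    unfold pos at h1
    apply Fin.ext
    omega
  · intro w hw
    have hw' : w ∈ good N h := by simpa using hw
    unfold good W at hw'
    rw [Finset.mem_filter, mem_words] at hw'
    obtain ⟨hc, c1, c2, c3, c4, c5, c6⟩ := hw'
    have hl : w.length = Fintype.card (Fin 3 × Fin N) := by
      rw [card_eq]
      have : w ∈ words (fun _ => N) := (mem_words _ _).2 hc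
      unfold words at this
      rw [Finset.mem_filter, Finset.mem_image] at this
      obtain ⟨⟨g, _, hg⟩, _⟩ := this
      rw [← hg]
      simp
    have hex : ∀ x : Fin 3 × Fin N, ∃ (p : ℕ) (hp : p < w.length), w[p] = x.1 ∧ (w.take p).count x.1 = x.2 := by
      intro x
      apply occ_exists
      rw [hc]
      exact x.2.2
    choose p hp hp1 hp2 using hex
    let F : Fin 3 × Fin N → Fin (Fintype.card (Fin 3 × Fin N)) := fun x => ⟨p x, by rw [← hl]; exact hp x⟩
    have hF : Function.Injective F := by
      intro x y hxy
      have h1 : p x = p y := by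
        have := congrArg Fin.val hxy
        exact this
      have h2 : x.1 = y.1 := by
        rw [← hp1 x, ← hp1 y]
        congr 1
      have h3 : (x.2 : ℕ) = y.2 := by
        rw [← hp2 x, ← hp2 y, h1, h2]
      exact Prod.ext h2 (Fin.ext h3)
    have hFb : Function.Bijective F := by
      rw [Fintype.bijective_iff_injective_and_card]
      exact ⟨hF, by simp⟩
    let f := Equiv.ofBijective F hFb
    have hocc : ∀ x : Fin 3 × Fin N, occ x.1 ((x.2 : ℕ) + 1) w = (f x : ℕ) + 1 := by
      intro x
      exact occ_eq x.1 w (p x) x.2 (hp x) (hp1 x) (hp2 x)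
    have hocc' : ∀ (j : Fin 3) (m : ℕ) (h1 : 1 ≤ m) (h2 : m ≤ N), occ j m w = (f (j, ⟨m - 1, by omega⟩) : ℕ) + 1 := by
      intro j m h1 h2
      rw [← hocc]
      congr 1
      show m = m - 1 + 1
      omega
    have hchain : ∀ (j : Fin 3) (k k' : Fin N), (k : ℕ) < k' → f (j, k) < f (j, k') := by
      intro j k k' hk
      by_contra hcon
      rw [not_lt, Fin.le_def] at hcon
      have h1 : p (j, k') ≤ p (j, k) := hcon
      have h2 := hp2 (j, k)
      have h3 := hp2 (j, k')
      have h4 : (w.take (p (j, k'))).count j ≤ (w.take (p (j, k))).count j := by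
        apply List.Sublist.count_le
        exact (List.take_prefix_take_left h1).sublist
      simp only at h2 h3
      omega
    have hf : f ∈ LE (gad N h) := by
      rw [mem_LE]
      rintro ⟨j, k⟩ ⟨j', k'⟩ hr
      rw [Fin.lt_def]
      rcases hr with hr | hr | hr | hr | hr | hr | hr
      · obtain ⟨h1, h2⟩ := hr
        simp only at h1 h2
        subst h1
        exact hchain j k k' (by omega)
      · obtain ⟨h1, h2, h3, h4⟩ := hr
        simp only at h1 h2 h3 h4
        subst h1 h3
        have o1 := hocc (0, k)
        have o2 := hocc (1, k')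
        have r1 : (k : ℕ) + 1 = 1 := by omega
        have r2 : (k' : ℕ) + 1 = h := by omega
        simp only [r1, r2] at o1 o2
        omega
      · obtain ⟨h1, h2, h3, h4⟩ := hr
        simp only at h1 h2 h3 h4
        subst h1 h3
        have o1 := hocc (0, k)
        have o2 := hocc (2, k')
        have r1 : (k : ℕ) + 1 = 1 := by omega
        have r2 : (k' : ℕ) + 1 = h := by omega
        simp only [r1, r2] at o1 o2
        omega
      · obtain ⟨h1, h2, h3, h4⟩ := hr
        simp only at h1 h2 h3 h4
        subst h1 h3
        have o1 := hocc (1, k)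
        have o2 := hocc (0, k')
        have r1 : (k : ℕ) + 1 = 1 := by omega
        have r2 : (k' : ℕ) + 1 = h := by omega
        simp only [r1, r2] at o1 o2
        omega
      · obtain ⟨h1, h2, h3, h4⟩ := hr
        simp only at h1 h2 h3 h4
        subst h1 h3
        have o1 := hocc (1, k)
        have o2 := hocc (2, k')
        have r1 : (k : ℕ) + 1 = (N + 1 - h) := by omega
        have r2 : (k' : ℕ) + 1 = N := by omega
        simp only [r1, r2] at o1 o2
        omega
      · obtain ⟨h1, h2, h3, h4⟩ := hr
        simp only at h1 h2 h3 h4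
        subst h1 h3
        have o1 := hocc (0, k)
        have o2 := hocc (2, k')
        have r1 : (k : ℕ) + 1 = (N + 1 - h) := by omega
        have r2 : (k' : ℕ) + 1 = N := by omega
        simp only [r1, r2] at o1 o2
        omega
      · obtain ⟨h1, h2, h3, h4⟩ := hr
        simp only at h1 h2 h3 h4
        subst h1 h3
        have o1 := hocc (2, k)
        have o2 := hocc (1, k')
        have r1 : (k : ℕ) + 1 = (N + 1 - h) := by omega
        have r2 : (k' : ℕ) + 1 = N := by omega
        simp only [r1, r2] at o1 o2
        omega
    refine ⟨f, by simpa using hf, ?_⟩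
    apply List.ext_getElem
    · simp [Ef, hl]
    · intro i h1 h2
      obtain ⟨x, hx⟩ := f.surjective ⟨i, by rw [← hl]; exact h2⟩
      have e2 : (Ef f)[i] = x.1 := by
        simp only [Ef, List.getElem_ofFn]
        rw [← hx]; simp
      rw [e2]
      have e3 : p x = i := congrArg Fin.val hx
      rw [← hp1 x]
      congr 1

end J10135

end

end Pool.Agent.KS
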