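import Pool.Agent.H875KS.Defs2

set_option autoImplicit false

namespace Pool.Agent.KS

open Finset Filter Topology

noncomputable section

namespace J10131

section CA
variable {α : Type} [Fintype α] {r : α → α → Prop}

theorem ca_mem {f : α ≃ Fin (Fintype.card α)} (hf : f ∈ LE r) {x y : α} (h : r x y) : pos f x < pos f y := by
  classical
  unfold LE at hf
  rw [Finset.mem_filter] at hf
  have := hf.2 x y h
  unfold pos
  have h2 : (f x : ℕ) < f y := this
  omega

theorem ca_mem_LE {f : α ≃ Fin (Fintype.card α)} (h : ∀ x y, r x y → f x < f y) : f ∈ LE r := by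
  simp only [LE, Finset.mem_filter, Finset.mem_univ, true_and]
  exact h

theorem ca_pos_le (f : α ≃ Fin (Fintype.card α)) (x : α) : pos f x ≤ Fintype.card α := by
  unfold pos; exact (f x).2

theorem ca_lo {f : α ≃ Fin (Fintype.card α)} {x : α} (y0 : α) (h0 : r y0 x)
    (hm : ∀ y, r y x → pos f y ≤ pos f y0) : lo r f x = pos f y0 := by
  classical
  unfold lo
  apply le_antisymm
  · apply Finset.sup_le
    intro y hy
    exact hm y (Finset.mem_filter.1 hy).2
  · exact Finset.le_sup (f := fun y => pos f y) (Finset.mem_filter.2 ⟨Finset.mem_univ _, h0⟩)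

theorem ca_lo0 {f : α ≃ Fin (Fintype.card α)} {x : α} (hm : ∀ y, ¬ r y x) : lo r f x = 0 := by
  classical
  unfold lo
  rw [Finset.filter_false_of_mem (fun y _ => hm y)]
  simp

theorem ca_up {f : α ≃ Fin (Fintype.card α)} {x : α} (y0 : α) (h0 : r x y0)
    (hm : ∀ y, r x y → pos f y0 ≤ pos f y) : up r f x = pos f y0 := by
  classical
  unfold up
  have h1 : (Finset.univ.filter (fun y => r x y)).sup (fun y => Fintype.card α + 1 - pos f y) =
      Fintype.card α + 1 - pos f y0 := by
    apply le_antisymm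
    · apply Finset.sup_le
      intro y hy
      have := hm y (Finset.mem_filter.1 hy).2
      omega
    · exact Finset.le_sup (f := fun y => Fintype.card α + 1 - pos f y)
        (Finset.mem_filter.2 ⟨Finset.mem_univ _, h0⟩)
  rw [h1]
  have := ca_pos_le f y0
  omega

theorem ca_up0 {f : α ≃ Fin (Fintype.card α)} {x : α} (hm : ∀ y, ¬ r x y) :
    up r f x = Fintype.card α + 1 := by
  classical
  unfold up
  rw [Finset.filter_false_of_mem (fun y _ => hm y)]
  simp

theorem ca_avg_congr {F G : (α ≃ Fin (Fintype.card α)) → ℝ} (h : ∀ f ∈ LE r, F f = G f) :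
    avg r F = avg r G := by
  unfold avg
  rw [Finset.sum_congr rfl h]

theorem ca_avg_const (hne : (LE r).Nonempty) (c : ℝ) : avg r (fun _ => c) = c := by
  unfold avg
  rw [Finset.sum_const, nsmul_eq_mul]
  have : ((LE r).card : ℝ) ≠ 0 := by
    have := Finset.card_pos.2 hne
    positivity
  field_simp

end CA

theorem ca_ap (s : ℕ) (h : ℕ → ℝ) (hh : ∀ k, 1 ≤ k → k ≤ s → 2 * h k = h (k - 1) + h (k + 1)) :
    ∀ k, k ≤ s + 1 → h k = h 0 + (h (s + 1) - h 0) * k / (s + 1) := by
  have key : ∀ k, k ≤ s → h k = h 0 + k * (h 1 - h 0) ∧ h (k + 1) = h 0 + (k + 1) * (h 1 - h 0) := by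
    intro k
    induction k with
    | zero => intro _; constructor <;> push_cast <;> ring
    | succ k ih =>
      intro hk
      obtain ⟨h1, h2⟩ := ih (by omega)
      have h3 := hh (k + 1) (by omega) hk
      rw [Nat.add_sub_cancel] at h3
      refine ⟨by push_cast; linarith, ?_⟩
      push_cast at *
      linarith
  have hend := (key s le_rfl).2
  have hs : (0:ℝ) < (s:ℝ) + 1 := by positivity
  intro k hk
  rcases Nat.lt_or_ge k (s + 1) with h' | h'
  · rw [(key k (by omega)).1, hend]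
    field_simp
    ring
  · have : k = s + 1 := le_antisymm hk h'
    subst this
    push_cast
    field_simp
    ring

/-- explicit order -/
def ca_key (s : ℕ) : Fin 6 ⊕ (Fin 3 × Fin s) → ℕ
  | .inl i => if i = 3 then s else if i = 0 then s + 1 else if i = 1 then s + 2
      else if i = 4 then 2 * s + 3 else if i = 5 then 2 * s + 4 else 2 * s + 5
  | .inr p => if p.1 = 0 then p.2 else if p.1 = 1 then s + 3 + p.2 else 2 * s + 6 + p.2

theorem ca_card (s : ℕ) : Fintype.card (Fin 6 ⊕ (Fin 3 × Fin s)) = 3 * s + 6 := by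
  simp; ring

theorem ca_key_lt (s : ℕ) (x : Fin 6 ⊕ (Fin 3 × Fin s)) : ca_key s x < 3 * s + 6 := by
  rcases x with i | ⟨j, m⟩
  · fin_cases i <;> simp [ca_key] <;> omega
  · have := m.2
    fin_cases j <;> simp [ca_key] <;> omega

theorem ca_key_inj (s : ℕ) : Function.Injective (ca_key s) := by
  rintro (i | ⟨j, m⟩) (i' | ⟨j', m'⟩) h
  · fin_cases i <;> fin_cases i' <;> simp [ca_key] at h ⊢ <;> omega
  · exfalso
    have := m'.2
    fin_cases i <;> fin_cases j' <;> simp [ca_key] at h <;> omega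
  · exfalso
    have := m.2
    fin_cases i' <;> fin_cases j <;> simp [ca_key] at h <;> omega
  · have := m.2
    have := m'.2
    fin_cases j <;> fin_cases j' <;> simp [ca_key, Fin.ext_iff] at h ⊢ <;> omega

theorem ca_key_mono (s : ℕ) (x y : Fin 6 ⊕ (Fin 3 × Fin s)) (h : DR (cs s) x y) :
    ca_key s x < ca_key s y := by
  rcases x with i | ⟨j, m⟩ <;> rcases y with i' | ⟨j', m'⟩
  · rcases h with ⟨rfl, rfl⟩ | ⟨rfl, rfl⟩ | ⟨rfl, rfl⟩ | ⟨rfl, rfl⟩ <;> simp [ca_key] <;> omega
  · rcases h with ⟨rfl, h⟩ | ⟨rfl, h⟩ <;> simp only at h <;> subst h <;> simp [ca_key] <;> omega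
  · have := m.2
    rcases h with ⟨h, rfl⟩ | ⟨h, rfl⟩ <;> simp only at h <;> subst h <;> simp [ca_key] <;> omega
  · obtain ⟨h1, h2⟩ := h
    simp only at h1
    subst h1
    have h2' : (m : ℕ) + 1 = m' := h2
    fin_cases j <;> simp [ca_key] <;> omega

theorem ca_nonempty (s : ℕ) : (LE (DR (cs s))).Nonempty := by
  classical
  let f0 : Fin 6 ⊕ (Fin 3 × Fin s) → Fin (Fintype.card (Fin 6 ⊕ (Fin 3 × Fin s))) :=
    fun x => ⟨ca_key s x, by rw [ca_card]; exact ca_key_lt s x⟩
  have hinj : Function.Injective f0 := by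
    intro x y h
    exact ca_key_inj s (Fin.mk.inj_iff.1 h)
  have hbij : Function.Bijective f0 :=
    (Fintype.bijective_iff_injective_and_card f0).2 ⟨hinj, by simp⟩
  refine ⟨Equiv.ofBijective f0 hbij, ca_mem_LE (fun x y h => ?_)⟩
  show f0 x < f0 y
  exact ca_key_mono s x y h

/-- the duality -/
def ca_phi (s : ℕ) : (Fin 6 ⊕ (Fin 3 × Fin s)) ≃ (Fin 6 ⊕ (Fin 3 × Fin s)) :=
  Equiv.sumCongr Fin.revPerm (Equiv.prodCongr Fin.revPerm Fin.revPerm)

theorem ca_phi_rel (s : ℕ) (x y : Fin 6 ⊕ (Fin 3 × Fin s)) :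
    DR (cs s) x y ↔ DR (cs s) (ca_phi s y) (ca_phi s x) := by
  rcases x with i | ⟨j, m⟩ <;> rcases y with i' | ⟨j', m'⟩
  · simp only [ca_phi, Equiv.sumCongr_apply, Sum.map_inl, DR, Fin.revPerm_apply]
    fin_cases i <;> fin_cases i' <;> decide
  · simp only [ca_phi, Equiv.sumCongr_apply, Sum.map_inl, Sum.map_inr, DR, Fin.revPerm_apply,
      Equiv.prodCongr_apply, Prod.map]
    fin_cases i <;> fin_cases j' <;> decide
  · simp only [ca_phi, Equiv.sumCongr_apply, Sum.map_inl, Sum.map_inr, DR, Fin.revPerm_apply,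
      Equiv.prodCongr_apply, Prod.map]
    fin_cases i' <;> fin_cases j <;> decide
  · simp only [ca_phi, Equiv.sumCongr_apply, Sum.map_inr, DR, Fin.revPerm_apply,
      Equiv.prodCongr_apply, Prod.map, cs, Fin.val_rev, Fin.rev_inj]
    have := m.2
    have := m'.2
    constructor
    · rintro ⟨h1, h2⟩; exact ⟨h1.symm, by omega⟩
    · rintro ⟨h1, h2⟩; exact ⟨h1.symm, by omega⟩

/-- the chain of copy `j` -/
def ca_seq (s : ℕ) (j : Fin 3) (a b : ℝ) (k : ℕ) : ℝ :=
  if k = 0 then a else if h : k - 1 < s then ht (DR (cs s)) (Sum.inr (j, ⟨k - 1, h⟩)) else b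

theorem chain_affine
    (hharm : ∀ (α : Type) [Fintype α] (r : α → α → Prop) (x : α),
      2 * ht r x = avg r (fun f => (lo r f x : ℝ)) + avg r (fun f => (up r f x : ℝ)))
    (hdual : ∀ (α : Type) [Fintype α] (r : α → α → Prop) (φ : α ≃ α),
      (∀ x y, r x y ↔ r (φ y) (φ x)) → (LE r).Nonempty → ∀ x,
      ht r (φ x) = (Fintype.card α : ℝ) + 1 - ht r x)
    (s : ℕ) (hs : 1 ≤ s) (H : Fin 6 → ℝ)
    (hH : ∀ i, H i = ht (DR (cs s)) (Sum.inl i)) :
    H 5 = 3 * s + 7 - H 0 ∧ H 4 = 3 * s + 7 - H 1 ∧ H 3 = 3 * s + 7 - H 2 ∧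
    H 0 = H 1 / 2 ∧ H 2 = H 1 + (3 * s + 7 - H 1) / (s + 2) ∧
    (∀ m : Fin s, ht (DR (cs s)) (Sum.inr (0, m)) = H 3 * ((m : ℕ) + 1) / (s + 1)) ∧
    (∀ m : Fin s, ht (DR (cs s)) (Sum.inr (1, m)) =
      H 1 + (H 4 - H 1) * ((m : ℕ) + 1) / (s + 1)) ∧
    (∀ m : Fin s, ht (DR (cs s)) (Sum.inr (2, m)) =
      H 2 + (3 * s + 7 - H 2) * ((m : ℕ) + 1) / (s + 1)) := by
  have hne := ca_nonempty s
  have hcard : (Fintype.card (Fin 6 ⊕ (Fin 3 × Fin s)) : ℝ) + 1 = 3 * s + 7 := by
    rw [ca_card]; push_cast; ring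
  -- monotonicity along a copy
  have hchain : ∀ f ∈ LE (DR (cs s)), ∀ (j : Fin 3) (m m' : Fin s), m ≤ m' →
      pos f (Sum.inr (j, m)) ≤ pos f (Sum.inr (j, m')) := by
    intro f hf j m m' hmm
    obtain ⟨m, hm⟩ := m
    obtain ⟨m', hm'⟩ := m'
    have hmm' : m ≤ m' := hmm
    induction m', hmm' using Nat.le_induction with
    | base => exact le_rfl
    | succ k hk ih =>
      refine (ih (by omega) (by exact hk)).trans (ca_mem hf (x := Sum.inr (j, ⟨k, by omega⟩)) ?_).le
      exact ⟨rfl, rfl⟩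
  -- harmonic relation in explicit form
  have harm : ∀ (x : Fin 6 ⊕ (Fin 3 × Fin s)) (A B : (Fin 6 ⊕ (Fin 3 × Fin s) ≃ Fin (Fintype.card (Fin 6 ⊕ (Fin 3 × Fin s)))) → ℝ),
      (∀ f ∈ LE (DR (cs s)), (lo (DR (cs s)) f x : ℝ) = A f) →
      (∀ f ∈ LE (DR (cs s)), (up (DR (cs s)) f x : ℝ) = B f) →
      2 * ht (DR (cs s)) x = avg (DR (cs s)) A + avg (DR (cs s)) B := by
    intro x A B hA hB
    rw [hharm, ca_avg_congr hA, ca_avg_congr hB]
  have hc0 : avg (DR (cs s)) (fun _ => (0:ℝ)) = 0 := ca_avg_const hne 0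
  have hctop : avg (DR (cs s)) (fun _ => ((Fintype.card (Fin 6 ⊕ (Fin 3 × Fin s)) + 1 : ℕ) : ℝ)) = 3 * s + 7 := by
    rw [ca_avg_const hne]; push_cast; rw [← hcard]
  -- n1
  have e0 : 2 * H 0 = H 1 := by
    have := harm (Sum.inl 0) (fun _ => 0) (fun f => (pos f (Sum.inl 1) : ℝ)) (fun f hf => by
      rw [ca_lo0]
      · simp
      · rintro (i | p) h
        · simp [DR] at h
        · simp [DR] at h) (fun f hf => by
      rw [ca_up (Sum.inl 1) (by simp [DR])]
      rintro (i | p) h
      · simp [DR] at h; rw [h]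
      · simp [DR] at h)
    rw [hc0, zero_add] at this
    rw [hH 0, hH 1]
    exact this
  have e2 : 2 * H 2 = H 1 + ht (DR (cs s)) (Sum.inr (2, ⟨0, by omega⟩)) := by
    have := harm (Sum.inl 2) (fun f => (pos f (Sum.inl 1) : ℝ)) (fun f => (pos f (Sum.inr (2, ⟨0, by omega⟩)) : ℝ)) (fun f hf => by
      rw [ca_lo (Sum.inl 1) (by simp [DR])]
      rintro (i | p) h
      · simp [DR] at h; rw [h]
      · simp [DR] at h) (fun f hf => by
      rw [ca_up (Sum.inr (2, ⟨0, by omega⟩)) (by simp [DR])]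
      rintro (i | ⟨j, m⟩) h
      · simp [DR] at h
      · simp [DR] at h
        subst h
        exact hchain f hf 2 _ _ (Fin.mk_le_mk.2 (Nat.zero_le _)))
    rw [hH 2, hH 1]
    exact this
  -- copies
  have seq0 : ∀ k, 1 ≤ k → k ≤ s → 2 * ca_seq s 0 0 (H 3) k = ca_seq s 0 0 (H 3) (k - 1) + ca_seq s 0 0 (H 3) (k + 1) := by
    intro k hk1 hks
    obtain ⟨m, rfl⟩ : ∃ m, k = m + 1 := ⟨k - 1, by omega⟩
    have hm : m < s := by omega
    have hx : ca_seq s 0 0 (H 3) (m + 1) = ht (DR (cs s)) (Sum.inr (0, ⟨m, hm⟩)) := by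
      unfold ca_seq
      simp only [Nat.add_sub_cancel, hm, dif_pos]
      simp
    rw [hx, Nat.add_sub_cancel]
    refine (harm (Sum.inr (0, ⟨m, hm⟩))
      (fun f => if h : m = 0 then 0 else (pos f (Sum.inr (0, ⟨m - 1, by omega⟩)) : ℝ))
      (fun f => if h : m + 1 < s then (pos f (Sum.inr (0, ⟨m + 1, h⟩)) : ℝ) else (pos f (Sum.inl 3) : ℝ)) ?_ ?_).trans ?_
    · intro f hf
      by_cases h0 : m = 0
      · simp only [h0, dif_pos]
        rw [ca_lo0]
        · simp
        · rintro (i | ⟨j, m'⟩) h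
          · simp [DR] at h
          · exact absurd (show (m' : ℕ) + 1 = 0 from h.2) (Nat.succ_ne_zero _)
      · simp only [h0, dif_neg, not_false_eq_true]
        rw [ca_lo (Sum.inr (0, ⟨m - 1, by omega⟩)) ⟨rfl, show m - 1 + 1 = m by omega⟩]
        rintro (i | ⟨j, m'⟩) h
        · simp [DR] at h
        · have h2 : (m' : ℕ) + 1 = m := h.2
          have h1 : j = 0 := h.1
          subst h1
          exact hchain f hf 0 _ _ (Fin.le_def.2 (show (m' : ℕ) ≤ m - 1 by omega))
    · intro f hf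
      by_cases h0 : m + 1 < s
      · simp only [h0, dif_pos]
        rw [ca_up (Sum.inr (0, ⟨m + 1, h0⟩)) ⟨rfl, rfl⟩]
        rintro (i | ⟨j, m'⟩) h
        · have h3 : i = 3 := by simpa [DR] using h
          subst h3
          exact (ca_mem hf (x := Sum.inr (0, ⟨m + 1, h0⟩)) (y := Sum.inl 3) (by simp [DR])).le
        · have h2 : m + 1 = (m' : ℕ) := h.2
          have h1 : 0 = j := h.1
          subst h1
          exact hchain f hf 0 _ _ (Fin.le_def.2 (show m + 1 ≤ (m' : ℕ) by omega))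
      · simp only [h0, dif_neg, not_false_eq_true]
        rw [ca_up (Sum.inl 3) (by simp [DR])]
        rintro (i | ⟨j, m'⟩) h
        · have h3 : i = 3 := by simpa [DR] using h
          subst h3
          exact le_rfl
        · have h2 : m + 1 = (m' : ℕ) := h.2
          have := m'.2
          omega
    · congr 1
      · unfold ca_seq
        by_cases h0 : m = 0
        · subst h0
          simp only [dif_pos, if_true]
          exact hc0
        · simp only [h0, dif_neg, not_false_eq_true, if_neg]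
          rw [dif_pos (show m - 1 < s by omega)]
          rfl
      · unfold ca_seq
        by_cases h0 : m + 1 < s
        · simp only [h0, dif_pos, Nat.add_sub_cancel]
          simp
          rfl
        · simp only [h0, dif_neg, not_false_eq_true, Nat.add_sub_cancel]
          simp
          rw [hH 3]
          rfl
  have seq1 : ∀ k, 1 ≤ k → k ≤ s → 2 * ca_seq s 1 (H 1) (H 4) k = ca_seq s 1 (H 1) (H 4) (k - 1) + ca_seq s 1 (H 1) (H 4) (k + 1) := by
    intro k hk1 hks
    obtain ⟨m, rfl⟩ : ∃ m, k = m + 1 := ⟨k - 1, by omega⟩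
    have hm : m < s := by omega
    have hx : ca_seq s 1 (H 1) (H 4) (m + 1) = ht (DR (cs s)) (Sum.inr (1, ⟨m, hm⟩)) := by
      unfold ca_seq
      simp only [Nat.add_sub_cancel, hm, dif_pos]
      simp
    rw [hx, Nat.add_sub_cancel]
    refine (harm (Sum.inr (1, ⟨m, hm⟩))
      (fun f => if h : m = 0 then (pos f (Sum.inl 1) : ℝ) else (pos f (Sum.inr (1, ⟨m - 1, by omega⟩)) : ℝ))
      (fun f => if h : m + 1 < s then (pos f (Sum.inr (1, ⟨m + 1, h⟩)) : ℝ) else (pos f (Sum.inl 4) : ℝ)) ?_ ?_).trans ?_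
    · intro f hf
      by_cases h0 : m = 0
      · simp only [h0, dif_pos]
        rw [ca_lo (Sum.inl 1) (by simp [DR])]
        rintro (i | ⟨j, m'⟩) h
        · have h3 : i = 1 := by simpa [DR] using h
          subst h3
          exact le_rfl
        · exact absurd (show (m' : ℕ) + 1 = 0 from h.2) (Nat.succ_ne_zero _)
      · simp only [h0, dif_neg, not_false_eq_true]
        rw [ca_lo (Sum.inr (1, ⟨m - 1, by omega⟩)) ⟨rfl, show m - 1 + 1 = m by omega⟩]
        rintro (i | ⟨j, m'⟩) h
        · have h3 : i = 1 := by simpa [DR] using h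
          subst h3
          exact (ca_mem hf (x := Sum.inl 1) (y := Sum.inr (1, ⟨m - 1, by omega⟩)) (by simp [DR])).le
        · have h2 : (m' : ℕ) + 1 = m := h.2
          have h1 : j = 1 := h.1
          subst h1
          exact hchain f hf 1 _ _ (Fin.le_def.2 (show (m' : ℕ) ≤ m - 1 by omega))
    · intro f hf
      by_cases h0 : m + 1 < s
      · simp only [h0, dif_pos]
        rw [ca_up (Sum.inr (1, ⟨m + 1, h0⟩)) ⟨rfl, rfl⟩]
        rintro (i | ⟨j, m'⟩) h
        · have h3 : i = 4 := by simpa [DR] using h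
          subst h3
          exact (ca_mem hf (x := Sum.inr (1, ⟨m + 1, h0⟩)) (y := Sum.inl 4) (by simp [DR])).le
        · have h2 : m + 1 = (m' : ℕ) := h.2
          have h1 : 1 = j := h.1
          subst h1
          exact hchain f hf 1 _ _ (Fin.le_def.2 (show m + 1 ≤ (m' : ℕ) by omega))
      · simp only [h0, dif_neg, not_false_eq_true]
        rw [ca_up (Sum.inl 4) (by simp [DR])]
        rintro (i | ⟨j, m'⟩) h
        · have h3 : i = 4 := by simpa [DR] using h
          subst h3
          exact le_rfl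
        · have h2 : m + 1 = (m' : ℕ) := h.2
          have := m'.2
          omega
    · congr 1
      · unfold ca_seq
        by_cases h0 : m = 0
        · subst h0
          simp only [dif_pos, if_true]
          rw [hH 1]
          rfl
        · simp only [h0, dif_neg, not_false_eq_true, if_neg]
          rw [dif_pos (show m - 1 < s by omega)]
          rfl
      · unfold ca_seq
        by_cases h0 : m + 1 < s
        · simp only [h0, dif_pos, Nat.add_sub_cancel]
          simp
          rfl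
        · simp only [h0, dif_neg, not_false_eq_true, Nat.add_sub_cancel]
          simp
          rw [hH 4]
          rfl
  have seq2 : ∀ k, 1 ≤ k → k ≤ s → 2 * ca_seq s 2 (H 2) (3 * s + 7) k = ca_seq s 2 (H 2) (3 * s + 7) (k - 1) + ca_seq s 2 (H 2) (3 * s + 7) (k + 1) := by
    intro k hk1 hks
    obtain ⟨m, rfl⟩ : ∃ m, k = m + 1 := ⟨k - 1, by omega⟩
    have hm : m < s := by omega
    have hx : ca_seq s 2 (H 2) (3 * s + 7) (m + 1) = ht (DR (cs s)) (Sum.inr (2, ⟨m, hm⟩)) := by
      unfold ca_seq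
      simp only [Nat.add_sub_cancel, hm, dif_pos]
      simp
    rw [hx, Nat.add_sub_cancel]
    refine (harm (Sum.inr (2, ⟨m, hm⟩))
      (fun f => if h : m = 0 then (pos f (Sum.inl 2) : ℝ) else (pos f (Sum.inr (2, ⟨m - 1, by omega⟩)) : ℝ))
      (fun f => if h : m + 1 < s then (pos f (Sum.inr (2, ⟨m + 1, h⟩)) : ℝ) else ((Fintype.card (Fin 6 ⊕ (Fin 3 × Fin s)) + 1 : ℕ) : ℝ)) ?_ ?_).trans ?_
    · intro f hf
      by_cases h0 : m = 0
      · simp only [h0, dif_pos]
        rw [ca_lo (Sum.inl 2) (by simp [DR])]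
        rintro (i | ⟨j, m'⟩) h
        · have h3 : i = 2 := by simpa [DR] using h
          subst h3
          exact le_rfl
        · exact absurd (show (m' : ℕ) + 1 = 0 from h.2) (Nat.succ_ne_zero _)
      · simp only [h0, dif_neg, not_false_eq_true]
        rw [ca_lo (Sum.inr (2, ⟨m - 1, by omega⟩)) ⟨rfl, show m - 1 + 1 = m by omega⟩]
        rintro (i | ⟨j, m'⟩) h
        · have h3 : i = 2 := by simpa [DR] using h
          subst h3
          exact (ca_mem hf (x := Sum.inl 2) (y := Sum.inr (2, ⟨m - 1, by omega⟩)) (by simp [DR])).le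
        · have h2 : (m' : ℕ) + 1 = m := h.2
          have h1 : j = 2 := h.1
          subst h1
          exact hchain f hf 2 _ _ (Fin.le_def.2 (show (m' : ℕ) ≤ m - 1 by omega))
    · intro f hf
      by_cases h0 : m + 1 < s
      · simp only [h0, dif_pos]
        rw [ca_up (Sum.inr (2, ⟨m + 1, h0⟩)) ⟨rfl, rfl⟩]
        rintro (i | ⟨j, m'⟩) h
        · exfalso; simp [DR] at h
        · have h2 : m + 1 = (m' : ℕ) := h.2
          have h1 : 2 = j := h.1
          subst h1
          exact hchain f hf 2 _ _ (Fin.le_def.2 (show m + 1 ≤ (m' : ℕ) by omega))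
      · simp only [h0, dif_neg, not_false_eq_true]
        rw [ca_up0]
        rintro (i | ⟨j, m'⟩) h
        · simp [DR] at h
        · have h2 : m + 1 = (m' : ℕ) := h.2
          have := m'.2
          omega
    · congr 1
      · unfold ca_seq
        by_cases h0 : m = 0
        · subst h0
          simp only [dif_pos, if_true]
          rw [hH 2]
          rfl
        · simp only [h0, dif_neg, not_false_eq_true, if_neg]
          rw [dif_pos (show m - 1 < s by omega)]
          rfl
      · unfold ca_seq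
        by_cases h0 : m + 1 < s
        · simp only [h0, dif_pos, Nat.add_sub_cancel]
          simp
          rfl
        · simp only [h0, dif_neg, not_false_eq_true, Nat.add_sub_cancel]
          simp only [Nat.add_eq_zero_iff, one_ne_zero, and_false, if_false]
          exact hctop
  have val : ∀ (j : Fin 3) (a b : ℝ),
      (∀ k, 1 ≤ k → k ≤ s → 2 * ca_seq s j a b k = ca_seq s j a b (k - 1) + ca_seq s j a b (k + 1)) →
      ∀ m : Fin s, ht (DR (cs s)) (Sum.inr (j, m)) = a + (b - a) * ((m : ℕ) + 1) / (s + 1) := by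
    intro j a b hseq m
    have h1 := ca_ap s _ hseq (m + 1) (by have := m.2; omega)
    have hx : ca_seq s j a b (m + 1) = ht (DR (cs s)) (Sum.inr (j, m)) := by
      unfold ca_seq
      simp
    have h0 : ca_seq s j a b 0 = a := by unfold ca_seq; simp
    have hend : ca_seq s j a b (s + 1) = b := by unfold ca_seq; simp
    rw [hx, h0, hend] at h1
    push_cast at h1
    exact h1
  have v0 := val 0 _ _ seq0
  have v1 := val 1 _ _ seq1
  have v2 := val 2 _ _ seq2
  have hd := hdual (Fin 6 ⊕ (Fin 3 × Fin s)) (DR (cs s)) (ca_phi s) (ca_phi_rel s) hne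
  rw [hcard] at hd
  have hs1 : (0:ℝ) < (s:ℝ) + 1 := by positivity
  have hs2 : (0:ℝ) < (s:ℝ) + 2 := by positivity
  refine ⟨?_, ?_, ?_, ?_, ?_, ?_, v1, v2⟩
  · rw [hH 5, hH 0]; exact hd (Sum.inl 0)
  · rw [hH 4, hH 1]; exact hd (Sum.inl 1)
  · rw [hH 3, hH 2]; exact hd (Sum.inl 2)
  · linarith
  · rw [v2] at e2
    simp only [Nat.cast_zero, zero_add, mul_one] at e2
    field_simp at e2 ⊢
    linarith
  · intro m
    rw [v0 m]; ring

end J10131

end

end Pool.Agent.KS
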