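import Mathlib

set_option autoImplicit false

namespace Pool.Agent.KS

open Finset

noncomputable section

open Classical in
/-- The bijections of a finite type onto `Fin n` that respect the relation `r`
(the linear extensions of the order generated by `r`). -/
def LE {α : Type} [Fintype α] (r : α → α → Prop) : Finset (α ≃ Fin (Fintype.card α)) :=
  Finset.univ.filter (fun f => ∀ x y, r x y → f x < f y)

/-- Position of `x` in `f`, from `1` to `n`. -/
def pos {α : Type} [Fintype α] (f : α ≃ Fin (Fintype.card α)) (x : α) : ℕ := (f x : ℕ) + 1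

/-- Average of a real function over the linear extensions of `r`. -/
def avg {α : Type} [Fintype α] (r : α → α → Prop)
    (F : (α ≃ Fin (Fintype.card α)) → ℝ) : ℝ :=
  (∑ f ∈ LE r, F f) / ((LE r).card : ℝ)

/-- Average height of `x`. -/
def ht {α : Type} [Fintype α] (r : α → α → Prop) (x : α) : ℝ :=
  avg r (fun f => (pos f x : ℝ))

open Classical in
/-- Largest position of an element directly below `x` (`0` if there is none). -/
def lo {α : Type} [Fintype α] (r : α → α → Prop) (f : α ≃ Fin (Fintype.card α)) (x : α) : ℕ :=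
  (Finset.univ.filter (fun y => r y x)).sup (fun y => pos f y)

open Classical in
/-- Smallest position of an element directly above `x` (`n + 1` if there is none). -/
def up {α : Type} [Fintype α] (r : α → α → Prop) (f : α ≃ Fin (Fintype.card α)) (x : α) : ℕ :=
  Fintype.card α + 1 -
    (Finset.univ.filter (fun y => r x y)).sup (fun y => Fintype.card α + 1 - pos f y)

/-- The chain with `s` elements. -/
def cs (s : ℕ) : Fin s → Fin s → Prop := fun x y => (x : ℕ) + 1 = y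

/-- The composition: six new elements `0 = n1, 1 = n2, 2 = n3, 3 = m3, 4 = m2, 5 = m1` and three
copies of `r`. -/
def DR {X : Type} (r : X → X → Prop) : (Fin 6 ⊕ (Fin 3 × X)) → (Fin 6 ⊕ (Fin 3 × X)) → Prop
  | .inl i, .inl j => (i = 0 ∧ j = 1) ∨ (i = 1 ∧ j = 2) ∨ (i = 3 ∧ j = 4) ∨ (i = 4 ∧ j = 5)
  | .inl i, .inr p => (i = 1 ∧ p.1 = 1) ∨ (i = 2 ∧ p.1 = 2)
  | .inr p, .inl i => (p.1 = 0 ∧ i = 3) ∨ (p.1 = 1 ∧ i = 4)
  | .inr p, .inr q => p.1 = q.1 ∧ r p.2 q.2

/-- Three free chains with `N` elements each. -/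
def fr (N : ℕ) : (Fin 3 × Fin N) → (Fin 3 × Fin N) → Prop :=
  fun x y => x.1 = y.1 ∧ (x.2 : ℕ) + 1 = y.2

/-- The gadget: three chains `0 = a, 1 = b, 2 = c` with `N` elements each, with
`a_1 < b_h, a_1 < c_h, b_1 < a_h` and the dual relations
`b_(N+1-h) < c_N, a_(N+1-h) < c_N, c_(N+1-h) < b_N`. -/
def gad (N h : ℕ) : (Fin 3 × Fin N) → (Fin 3 × Fin N) → Prop := fun x y =>
  (x.1 = y.1 ∧ (x.2 : ℕ) + 1 = y.2) ∨
  (x.1 = 0 ∧ (x.2 : ℕ) = 0 ∧ y.1 = 1 ∧ (y.2 : ℕ) + 1 = h) ∨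
  (x.1 = 0 ∧ (x.2 : ℕ) = 0 ∧ y.1 = 2 ∧ (y.2 : ℕ) + 1 = h) ∨
  (x.1 = 1 ∧ (x.2 : ℕ) = 0 ∧ y.1 = 0 ∧ (y.2 : ℕ) + 1 = h) ∨
  (x.1 = 1 ∧ (x.2 : ℕ) + h = N ∧ y.1 = 2 ∧ (y.2 : ℕ) + 1 = N) ∨
  (x.1 = 0 ∧ (x.2 : ℕ) + h = N ∧ y.1 = 2 ∧ (y.2 : ℕ) + 1 = N) ∨
  (x.1 = 2 ∧ (x.2 : ℕ) + h = N ∧ y.1 = 1 ∧ (y.2 : ℕ) + 1 = N)

/-- Position of the `k`-th letter `x` of a word (positions from `1`); junk if there are fewer. -/
def occ (x : Fin 3) : ℕ → List (Fin 3) → ℕ
  | 0, _ => 0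
  | (_ + 1), [] => 0
  | (k + 1), (c :: w) => if c = x then occ x k w + 1 else occ x (k + 1) w + 1

/-- The words with exactly `m c` letters `c`, for `c = 0, 1, 2`. -/
def words (m : Fin 3 → ℕ) : Finset (List (Fin 3)) :=
  ((Finset.univ : Finset (Fin (m 0 + m 1 + m 2) → Fin 3)).image List.ofFn).filter
    (fun w => ∀ c, w.count c = m c)

/-- The words with `N` letters of each kind. -/
def W (N : ℕ) : Finset (List (Fin 3)) := words (fun _ => N)

/-- The words that obey the six relations of the gadget. -/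
def good (N h : ℕ) : Finset (List (Fin 3)) :=
  (W N).filter (fun w => occ 0 1 w < occ 1 h w ∧ occ 0 1 w < occ 2 h w ∧ occ 1 1 w < occ 0 h w ∧
    occ 1 (N + 1 - h) w < occ 2 N w ∧ occ 0 (N + 1 - h) w < occ 2 N w ∧
    occ 2 (N + 1 - h) w < occ 1 N w)

end

end Pool.Agent.KS
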