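import Pool.Agent.H875KS.Defs2

set_option autoImplicit false

namespace Pool.Agent.KS

open Finset Filter Topology

noncomputable section

namespace J10129

theorem j10129_sum {α : Type} [Fintype α] (r : α → α → Prop) (φ : α ≃ α)
    (hφ : ∀ x y, r x y ↔ r (φ y) (φ x)) (x : α) :
    ∑ g ∈ LE r, (pos g (φ x) : ℝ) = ∑ f ∈ LE r, ((Fintype.card α : ℝ) + 1 - (pos f x : ℝ)) := by
  symm
  refine Finset.sum_nbij' (fun f => φ.symm.trans (f.trans Fin.revPerm))
    (fun g => φ.trans (g.trans Fin.revPerm)) ?_ ?_ ?_ ?_ ?_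
  · intro f hf
    simp only [LE, Finset.mem_filter, Finset.mem_univ, true_and] at hf ⊢
    intro a b hab
    have h1 : r (φ.symm b) (φ.symm a) := by
      rw [hφ, Equiv.apply_symm_apply, Equiv.apply_symm_apply]
      exact hab
    have h2 := hf _ _ h1
    simp only [Equiv.trans_apply, Fin.revPerm_apply]
    exact Fin.rev_lt_rev.2 h2
  · intro f hf
    simp only [LE, Finset.mem_filter, Finset.mem_univ, true_and] at hf ⊢
    intro a b hab
    have h2 := hf _ _ ((hφ a b).1 hab)
    simp only [Equiv.trans_apply, Fin.revPerm_apply]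
    exact Fin.rev_lt_rev.2 h2
  · intro f _
    ext a
    simp
  · intro f _
    ext a
    simp
  · intro f _
    have h1 : ((φ.symm.trans (f.trans Fin.revPerm)) (φ x) : ℕ) = Fintype.card α - ((f x : ℕ) + 1) := by
      simp [Fin.val_rev]
    have h2 : (f x : ℕ) + 1 ≤ Fintype.card α := (f x).2
    simp only [pos, h1]
    push_cast [Nat.cast_sub h2]
    ring

theorem dual {α : Type} [Fintype α] (r : α → α → Prop) (φ : α ≃ α)
    (hφ : ∀ x y, r x y ↔ r (φ y) (φ x)) (hne : (LE r).Nonempty) (x : α) :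
    ht r (φ x) = (Fintype.card α : ℝ) + 1 - ht r x := by
  have hc : ((LE r).card : ℝ) ≠ 0 := by
    have := Finset.card_pos.2 hne
    positivity
  unfold ht avg
  rw [j10129_sum r φ hφ x, Finset.sum_sub_distrib, Finset.sum_const, nsmul_eq_mul, sub_div,
    mul_div_cancel_left₀ _ hc]

end J10129

end

end Pool.Agent.KS
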