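import Pool.Agent.H875KS.Defs2

set_option autoImplicit false

namespace Pool.Agent.KS

open Finset Filter Topology

noncomputable section

namespace J10153

theorem el_length (w : List (Fin 3)) : w.length = w.count 0 + w.count 1 + w.count 2 := by
  induction w with
  | nil => simp
  | cons c w ih =>
    rw [List.length_cons, ih, List.count_cons, List.count_cons, List.count_cons]
    fin_cases c <;> simp <;> omega

theorem el_mem (m : Fin 3 → ℕ) (w : List (Fin 3)) : w ∈ words m ↔ ∀ c, w.count c = m c := by
  unfold words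
  rw [Finset.mem_filter, Finset.mem_image]
  constructor
  · rintro ⟨-, h⟩
    exact h
  · intro h
    refine ⟨?_, h⟩
    have hlen : w.length = m 0 + m 1 + m 2 := by
      rw [el_length, h, h, h]
    rw [← hlen]
    exact ⟨w.get, Finset.mem_univ _, List.ofFn_get w⟩

open Classical in
theorem el_sum_words (m : Fin 3 → ℕ) (hm : ∃ i, 0 < m i) (f : List (Fin 3) → ℕ) :
    ∑ w ∈ words m, f w = ∑ i : Fin 3, if 0 < m i then
      ∑ w ∈ words (Function.update m i (m i - 1)), f (i :: w) else 0 := by
  have hdec : words m = (Finset.univ : Finset (Fin 3)).biUnion (fun i =>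
      (if 0 < m i then words (Function.update m i (m i - 1)) else ∅).image (List.cons i)) := by
    ext w
    rw [Finset.mem_biUnion]
    constructor
    · intro hw
      rw [el_mem] at hw
      cases w with
      | nil =>
        obtain ⟨i, hi⟩ := hm
        have := hw i
        simp at this
        omega
      | cons i w =>
        refine ⟨i, Finset.mem_univ _, ?_⟩
        rw [Finset.mem_image]
        refine ⟨w, ?_, rfl⟩
        have hi := hw i
        rw [List.count_cons_self] at hi
        rw [if_pos (by omega), el_mem]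
        intro c
        by_cases hc : c = i
        · subst hc
          rw [Function.update_self]
          omega
        · rw [Function.update_of_ne hc, ← hw c, List.count_cons_of_ne (Ne.symm hc)]
    · rintro ⟨i, -, hw⟩
      rw [Finset.mem_image] at hw
      obtain ⟨w', hw', rfl⟩ := hw
      split_ifs at hw' with hi
      · rw [el_mem] at hw' ⊢
        intro c
        by_cases hc : c = i
        · subst hc
          have := hw' c
          rw [Function.update_self] at this
          rw [List.count_cons_self, this]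
          omega
        · have := hw' c
          rw [Function.update_of_ne hc] at this
          rw [List.count_cons_of_ne (Ne.symm hc), this]
      · simp at hw'
  rw [hdec, Finset.sum_biUnion]
  · apply Finset.sum_congr rfl
    intro i _
    rw [Finset.sum_image (fun a _ b _ h => (List.cons.inj h).2)]
    split_ifs <;> simp
  · intro i _ j _ hij
    rw [Function.onFun, Finset.disjoint_left]
    intro w hw hw'
    rw [Finset.mem_image] at hw hw'
    obtain ⟨a, -, rfl⟩ := hw
    obtain ⟨b, -, hb⟩ := hw'
    exact hij (List.cons.inj hb).1.symm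

/-- counts -/
def elm (x y : Fin 3) (a b c : ℕ) : Fin 3 → ℕ := fun i => if i = x then a else if i = y then b else c

/-- sums over words -/
def elS (x y : Fin 3) (f : List (Fin 3) → ℕ) (a b c : ℕ) : ℕ := ∑ w ∈ words (elm x y a b c), f w

theorem el_all : ∀ x y z : Fin 3, x ≠ y → z ≠ x → z ≠ y → ∀ i : Fin 3, i = x ∨ i = y ∨ i = z := by
  decide

theorem el_rec (x y z : Fin 3) (hxy : x ≠ y) (hzx : z ≠ x) (hzy : z ≠ y) (f : List (Fin 3) → ℕ)
    (a b c : ℕ) (h : 0 < a + b + c) :
    elS x y f a b c = (if 0 < a then elS x y (fun w => f (x :: w)) (a - 1) b c else 0) +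
      ((if 0 < b then elS x y (fun w => f (y :: w)) a (b - 1) c else 0) +
      (if 0 < c then elS x y (fun w => f (z :: w)) a b (c - 1) else 0)) := by
  have hx : elm x y a b c x = a := by simp [elm]
  have hy : elm x y a b c y = b := by simp [elm, hxy.symm]
  have hz : elm x y a b c z = c := by simp [elm, hzx, hzy]
  have hall : ∀ i : Fin 3, i = x ∨ i = y ∨ i = z := el_all x y z hxy hzx hzy
  have huniv : (Finset.univ : Finset (Fin 3)) = {x, y, z} := by
    ext i
    simp [hall i]
  have e1 : Function.update (elm x y a b c) x (a - 1) = elm x y (a - 1) b c := by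
    funext i
    rcases hall i with rfl | rfl | rfl
    · simp [elm]
    · rw [Function.update_of_ne hxy.symm]; simp [elm, hxy.symm]
    · rw [Function.update_of_ne hzx]; simp [elm, hzx, hzy]
  have e2 : Function.update (elm x y a b c) y (b - 1) = elm x y a (b - 1) c := by
    funext i
    rcases hall i with rfl | rfl | rfl
    · rw [Function.update_of_ne hxy]; simp [elm]
    · simp [elm, hxy.symm]
    · rw [Function.update_of_ne hzy]; simp [elm, hzx, hzy]
  have e3 : Function.update (elm x y a b c) z (c - 1) = elm x y a b (c - 1) := by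
    funext i
    rcases hall i with rfl | rfl | rfl
    · rw [Function.update_of_ne hzx.symm]; simp [elm]
    · rw [Function.update_of_ne hzy.symm]; simp [elm, hxy.symm]
    · simp [elm, hzx, hzy]
  unfold elS
  rw [el_sum_words _ (by
    by_contra hne
    push Not at hne
    have h1 := hne x
    have h2 := hne y
    have h3 := hne z
    rw [hx] at h1
    rw [hy] at h2
    rw [hz] at h3
    omega), huniv, Finset.sum_insert (by simp [hxy, hzx.symm]), Finset.sum_insert (by simp [hzy.symm]),
    Finset.sum_singleton, hx, hy, hz, e1, e2, e3]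

theorem el_add (x y : Fin 3) (f g : List (Fin 3) → ℕ) (a b c : ℕ) :
    elS x y (fun w => f w + g w) a b c = elS x y f a b c + elS x y g a b c := by
  unfold elS
  exact Finset.sum_add_distrib

theorem el_zero (x y : Fin 3) (a b c : ℕ) : elS x y (fun _ => 0) a b c = 0 := by
  unfold elS
  exact Finset.sum_const_zero

/-- cardinality -/
theorem el_card (x y z : Fin 3) (hxy : x ≠ y) (hzx : z ≠ x) (hzy : z ≠ y) (n : ℕ) :
    ∀ a b c : ℕ, a + b + c = n →
    elS x y (fun _ => 1) a b c = (a + b + c).choose c * (a + b).choose a := by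
  induction n with
  | zero =>
    intro a b c h
    obtain ⟨rfl, rfl, rfl⟩ : a = 0 ∧ b = 0 ∧ c = 0 := by omega
    unfold elS
    have : words (elm x y 0 0 0) = {[]} := by
      ext w
      rw [el_mem, Finset.mem_singleton]
      have e0 : ∀ i, elm x y 0 0 0 i = 0 := by intro i; simp [elm]
      constructor
      · intro hw
        rw [← List.length_eq_zero_iff, el_length, hw, hw, hw, e0, e0, e0]
      · rintro rfl
        intro i
        rw [e0]
        simp
    rw [this]
    simp
  | succ n ih =>
    intro a b c h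
    rw [el_rec x y z hxy hzx hzy _ a b c (by omega)]
    rcases a with _ | a <;> rcases b with _ | b <;> rcases c with _ | c
    · omega
    · simp only [lt_irrefl, if_false, Nat.succ_pos, if_true, Nat.add_sub_cancel]
      rw [ih 0 0 c (by omega)]
      simp
    · simp only [lt_irrefl, if_false, Nat.succ_pos, if_true, Nat.add_sub_cancel]
      rw [ih 0 b 0 (by omega)]
      simp
    · simp only [lt_irrefl, if_false, Nat.succ_pos, if_true, Nat.add_sub_cancel]
      rw [ih 0 b (c + 1) (by omega), ih 0 (b + 1) c (by omega)]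
      have e : 0 + (b + 1) + (c + 1) = (b + c + 1) + 1 := by ring
      have e2 : 0 + b + (c + 1) = b + c + 1 := by ring
      have e3 : 0 + (b + 1) + c = b + c + 1 := by ring
      rw [e, e2, e3, Nat.choose_succ_succ' (b + c + 1) c, Nat.choose_zero_right,
        Nat.choose_zero_right]
      ring
    · simp only [lt_irrefl, if_false, Nat.succ_pos, if_true, Nat.add_sub_cancel]
      rw [ih a 0 0 (by omega)]
      simp
    · simp only [lt_irrefl, if_false, Nat.succ_pos, if_true, Nat.add_sub_cancel]
      rw [ih a 0 (c + 1) (by omega), ih (a + 1) 0 c (by omega)]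
      have e : a + 1 + 0 + (c + 1) = (a + c + 1) + 1 := by ring
      have e2 : a + 0 + (c + 1) = a + c + 1 := by ring
      have e3 : a + 1 + 0 + c = a + c + 1 := by ring
      rw [e, e2, e3, Nat.choose_succ_succ' (a + c + 1) c, Nat.add_zero a, Nat.add_zero (a + 1),
        Nat.choose_self, Nat.choose_self]
      ring
    · simp only [lt_irrefl, if_false, Nat.succ_pos, if_true, Nat.add_sub_cancel]
      rw [ih a (b + 1) 0 (by omega), ih (a + 1) b 0 (by omega)]
      have e : a + 1 + (b + 1) = (a + b + 1) + 1 := by ring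
      have e2 : a + (b + 1) = a + b + 1 := by ring
      have e3 : a + 1 + b = a + b + 1 := by ring
      rw [e, e2, e3, Nat.choose_succ_succ' (a + b + 1) a]
      simp only [Nat.choose_zero_right, one_mul, add_zero]
    · simp only [lt_irrefl, if_false, Nat.succ_pos, if_true, Nat.add_sub_cancel]
      rw [ih a (b + 1) (c + 1) (by omega), ih (a + 1) b (c + 1) (by omega),
        ih (a + 1) (b + 1) c (by omega)]
      have e : a + 1 + (b + 1) = (a + b + 1) + 1 := by ring
      have e2 : a + (b + 1) = a + b + 1 := by ring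
      have e3 : a + 1 + b = a + b + 1 := by ring
      have e4 : a + b + 1 + 1 + (c + 1) = (a + b + c + 2) + 1 := by ring
      have e5 : a + b + 1 + (c + 1) = a + b + c + 2 := by ring
      have e6 : a + b + 1 + 1 + c = a + b + c + 2 := by ring
      rw [e, e2, e3, e4, e5, e6, Nat.choose_succ_succ' (a + b + c + 2) c,
        Nat.choose_succ_succ' (a + b + 1) a]
      ring

theorem occ_zero (x : Fin 3) (w : List (Fin 3)) : occ x 0 w = 0 := by
  cases w <;> rfl

theorem occ_self (x : Fin 3) (k : ℕ) (w : List (Fin 3)) :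
    occ x (k + 1) (x :: w) = occ x k w + 1 := by
  simp [occ]

theorem occ_ne {x c : Fin 3} (h : c ≠ x) (k : ℕ) (w : List (Fin 3)) :
    occ x (k + 1) (c :: w) = occ x (k + 1) w + 1 := by
  simp [occ, h]

theorem occ_self1 (x : Fin 3) (w : List (Fin 3)) : occ x 1 (x :: w) = 1 := by
  rw [occ_self, occ_zero]

theorem occ_self2 (x : Fin 3) (w : List (Fin 3)) : occ x 2 (x :: w) = occ x 1 w + 1 :=
  occ_self x 1 w

theorem occ_ne1 {x c : Fin 3} (h : c ≠ x) (w : List (Fin 3)) :
    occ x 1 (c :: w) = occ x 1 w + 1 := occ_ne h 0 w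

theorem occ_ne2 {x c : Fin 3} (h : c ≠ x) (w : List (Fin 3)) :
    occ x 2 (c :: w) = occ x 2 w + 1 := occ_ne h 1 w

theorem occ_eq_zero {x : Fin 3} {k : ℕ} {w : List (Fin 3)} (h : occ x (k + 1) w = 0) : w = [] := by
  cases w with
  | nil => rfl
  | cons c w =>
    exfalso
    by_cases hc : c = x
    · subst hc
      rw [occ_self] at h
      omega
    · rw [occ_ne hc] at h
      omega

theorem el_O (x y z : Fin 3) (hxy : x ≠ y) (hzx : z ≠ x) (hzy : z ≠ y) (a : ℕ) (n : ℕ) :
    ∀ b c : ℕ, b + c = n →
    elS x y (fun w => occ x 1 w) (a + 1) b c =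
      (a + b + c + 2).choose c * (a + b + 2).choose (a + 2) := by
  induction n with
  | zero =>
    intro b c h
    obtain ⟨rfl, rfl⟩ : b = 0 ∧ c = 0 := by omega
    rw [el_rec x y z hxy hzx hzy _ _ _ _ (by omega)]
    simp only [lt_irrefl, if_false, Nat.succ_pos, if_true, Nat.add_sub_cancel, occ_self, occ_zero,
      zero_add]
    rw [el_card x y z hxy hzx hzy _ a 0 0 rfl]
    simp
  | succ n ih =>
    intro b c h
    have hcd := el_card x y z hxy hzx hzy _ (a + 1) b c rfl
    rw [el_rec x y z hxy hzx hzy _ _ _ _ (by omega)] at hcd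
    rw [el_rec x y z hxy hzx hzy _ _ _ _ (by omega)]
    simp only [Nat.succ_pos, if_true, Nat.add_sub_cancel, occ_self, occ_zero, zero_add,
      occ_ne hxy.symm, occ_ne hzx, el_add] at hcd ⊢
    rcases b with _ | b <;> rcases c with _ | c
    · omega
    · simp only [lt_irrefl, if_false, Nat.succ_pos, if_true, Nat.add_sub_cancel] at hcd ⊢
      rw [ih 0 c (by omega)]
      have e1 : a + 0 + (c + 1) + 2 = (a + c + 2) + 1 := by ring
      have e2 : a + 0 + c + 2 = a + c + 2 := by ring
      have e3 : a + 1 + 0 + (c + 1) = a + c + 2 := by ring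
      rw [e3] at hcd
      rw [e1, e2, Nat.choose_succ_succ' (a + c + 2) c]
      simp at hcd ⊢
      linarith
    · simp only [lt_irrefl, if_false, Nat.succ_pos, if_true, Nat.add_sub_cancel] at hcd ⊢
      rw [ih b 0 (by omega)]
      have e1 : a + (b + 1) + 2 = (a + b + 2) + 1 := by ring
      have e3 : a + 1 + (b + 1) = a + b + 2 := by ring
      rw [e3] at hcd
      rw [e1, Nat.choose_succ_succ' (a + b + 2) (a + 1)]
      simp at hcd ⊢
      linarith
    · simp only [Nat.succ_pos, if_true, Nat.add_sub_cancel] at hcd ⊢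
      rw [ih b (c + 1) (by omega), ih (b + 1) c (by omega)]
      have e1 : a + (b + 1) + (c + 1) + 2 = (a + b + c + 3) + 1 := by ring
      have e2 : a + b + (c + 1) + 2 = a + b + c + 3 := by ring
      have e3 : a + 1 + (b + 1) = a + b + 2 := by ring
      have e4 : a + b + 2 + (c + 1) = a + b + c + 3 := by ring
      have e5 : a + (b + 1) + c + 2 = a + b + c + 3 := by ring
      have e6 : a + (b + 1) + 2 = (a + b + 2) + 1 := by ring
      rw [e3, e4] at hcd
      rw [e1, e2, e5, e6, Nat.choose_succ_succ' (a + b + c + 3) c,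
        Nat.choose_succ_succ' (a + b + 2) (a + 1)]
      have key : (a + b + c + 3).choose (c + 1) * (a + b + 2).choose (a + 1) +
          ((a + b + c + 3).choose (c + 1) * (a + b + 2).choose (a + 2) +
          (a + b + c + 3).choose c * ((a + b + 2).choose (a + 1) + (a + b + 2).choose (a + 2))) =
          ((a + b + c + 3).choose c + (a + b + c + 3).choose (c + 1)) *
          ((a + b + 2).choose (a + 1) + (a + b + 2).choose (a + 2)) := by ring
      have e7 : a + 1 + 1 = a + 2 := rfl
      rw [e7, ← key, ← hcd]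
      ring

theorem el_S' (x y z : Fin 3) (hxy : x ≠ y) (hzx : z ≠ x) (hzy : z ≠ y) (a : ℕ) (n : ℕ) :
    ∀ b c h : ℕ, b + c = n →
    elS x y (fun w => occ x 1 w - occ y h w) (a + 1) b c =
      (a + b + c + 2).choose c * (a + b + 2 - h).choose (a + 2) := by
  induction n with
  | zero =>
    intro b c h hn
    rcases h with _ | h
    · simp only [occ_zero, Nat.sub_zero]
      exact el_O x y z hxy hzx hzy a _ b c rfl
    obtain ⟨rfl, rfl⟩ : b = 0 ∧ c = 0 := by omega
    rw [el_rec x y z hxy hzx hzy _ _ _ _ (by omega)]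
    simp only [lt_irrefl, if_false, Nat.succ_pos, if_true, Nat.add_sub_cancel, occ_self, occ_zero,
      zero_add, occ_ne hxy, Nat.add_sub_cancel_left]
    have : ∀ w : List (Fin 3), 1 - (occ y (h + 1) w + 1) = 0 := by intro w; omega
    simp only [this, el_zero]
    rw [Nat.choose_eq_zero_of_lt (n := a + 0 + 2 - (h + 1)) (by omega)]
    simp
  | succ n ih =>
    intro b c h hn
    rcases h with _ | h
    · simp only [occ_zero, Nat.sub_zero]
      exact el_O x y z hxy hzx hzy a _ b c rfl
    rw [el_rec x y z hxy hzx hzy _ _ _ _ (by omega)]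
    have h0 : ∀ w : List (Fin 3), 1 - (occ y (h + 1) w + 1) = 0 := by intro w; omega
    simp only [Nat.succ_pos, if_true, Nat.add_sub_cancel, occ_self, occ_zero, zero_add,
      occ_ne hxy.symm, occ_ne hzx, occ_ne hxy, occ_ne hzy, h0, el_zero, Nat.add_sub_add_right]
    rcases b with _ | b <;> rcases c with _ | c
    · omega
    · simp only [lt_irrefl, if_false, Nat.succ_pos, if_true, Nat.add_sub_cancel, zero_add]
      rw [ih 0 c (h + 1) (by omega)]
      rw [Nat.choose_eq_zero_of_lt (n := a + 0 + 2 - (h + 1)) (by omega)]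
      simp
    · simp only [lt_irrefl, if_false, Nat.succ_pos, if_true, Nat.add_sub_cancel, add_zero]
      rw [ih b 0 h (by omega)]
      have e : a + (b + 1) + 2 - (h + 1) = a + b + 2 - h := by omega
      rw [e]
      simp
    · simp only [Nat.succ_pos, if_true, Nat.add_sub_cancel]
      rw [ih b (c + 1) h (by omega), ih (b + 1) c (h + 1) (by omega)]
      have e : a + (b + 1) + 2 - (h + 1) = a + b + 2 - h := by omega
      have e1 : a + (b + 1) + (c + 1) + 2 = (a + b + c + 3) + 1 := by ring
      have e2 : a + b + (c + 1) + 2 = a + b + c + 3 := by ring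
      have e5 : a + (b + 1) + c + 2 = a + b + c + 3 := by ring
      rw [e, e1, e2, e5, Nat.choose_succ_succ' (a + b + c + 3) c]
      ring

theorem el_Sg (x y z : Fin 3) (hxy : x ≠ y) (hzx : z ≠ x) (hzy : z ≠ y) (a : ℕ) (n : ℕ) :
    ∀ b c h : ℕ, b + c = n →
    elS x y (fun w => if occ x 1 w < occ y h w then occ x 2 w - occ y h w else 0) (a + 2) b c =
      h * ((a + b + c + 3).choose c * (a + 2 + b - h).choose (a + 2)) := by
  have hzero : ∀ b c, elS x y (fun w => if occ x 1 w < occ y 0 w then occ x 2 w - occ y 0 w else 0)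
      (a + 2) b c = 0 := by
    intro b c
    simp only [occ_zero, Nat.not_lt_zero, if_false, el_zero]
  have hx : ∀ (h : ℕ) (w : List (Fin 3)), (if occ x 1 (x :: w) < occ y (h + 1) (x :: w) then
      occ x 2 (x :: w) - occ y (h + 1) (x :: w) else 0) = occ x 1 w - occ y (h + 1) w := by
    intro h w
    rw [occ_self1, occ_ne hxy, occ_self2]
    split_ifs with hlt
    · omega
    · have h1 : occ y (h + 1) w = 0 := by omega
      have h2 := occ_eq_zero h1
      subst h2
      rfl
  have hy : ∀ (h : ℕ) (w : List (Fin 3)), (if occ x 1 (y :: w) < occ y (h + 1) (y :: w) then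
      occ x 2 (y :: w) - occ y (h + 1) (y :: w) else 0) =
      if occ x 1 w < occ y h w then occ x 2 w - occ y h w else 0 := by
    intro h w
    rw [occ_self, occ_ne1 hxy.symm, occ_ne2 hxy.symm]
    split_ifs <;> omega
  have hz : ∀ (h : ℕ) (w : List (Fin 3)), (if occ x 1 (z :: w) < occ y (h + 1) (z :: w) then
      occ x 2 (z :: w) - occ y (h + 1) (z :: w) else 0) =
      if occ x 1 w < occ y (h + 1) w then occ x 2 w - occ y (h + 1) w else 0 := by
    intro h w
    rw [occ_ne1 hzx, occ_ne2 hzx, occ_ne hzy]
    split_ifs <;> omega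
  induction n with
  | zero =>
    intro b c h hn
    rcases h with _ | h
    · rw [hzero]; simp
    obtain ⟨rfl, rfl⟩ : b = 0 ∧ c = 0 := by omega
    rw [el_rec x y z hxy hzx hzy _ _ _ _ (by omega)]
    simp only [hx, hy, hz]
    simp only [lt_irrefl, if_false, Nat.succ_pos, if_true, add_zero]
    rw [show a + 2 - 1 = a + 1 by omega, el_S' x y z hxy hzx hzy a _ 0 0 (h + 1) rfl]
    rw [Nat.choose_eq_zero_of_lt (n := a + 0 + 2 - (h + 1)) (by omega)]
    simp
  | succ n ih =>
    intro b c h hn
    rcases h with _ | h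
    · rw [hzero]; simp
    rw [el_rec x y z hxy hzx hzy _ _ _ _ (by omega)]
    simp only [hx, hy, hz]
    simp only [Nat.succ_pos, if_true]
    rw [show a + 2 - 1 = a + 1 by omega, el_S' x y z hxy hzx hzy a _ b c (h + 1) rfl]
    rcases b with _ | b <;> rcases c with _ | c
    · omega
    · simp only [lt_irrefl, if_false, Nat.succ_pos, if_true, Nat.add_sub_cancel, zero_add]
      rw [ih 0 c (h + 1) (by omega)]
      rw [Nat.choose_eq_zero_of_lt (n := a + 0 + 2 - (h + 1)) (by omega)]
      simp
    · simp only [lt_irrefl, if_false, Nat.succ_pos, if_true, Nat.add_sub_cancel, add_zero]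
      rw [ih b 0 h (by omega)]
      have e : a + (b + 1) + 2 - (h + 1) = a + 2 + b - h := by omega
      have e2 : a + 2 + (b + 1) - (h + 1) = a + 2 + b - h := by omega
      rw [e, e2]
      simp
      ring
    · simp only [Nat.succ_pos, if_true, Nat.add_sub_cancel]
      rw [ih b (c + 1) h (by omega), ih (b + 1) c (h + 1) (by omega)]
      have e : a + (b + 1) + 2 - (h + 1) = a + 2 + b - h := by omega
      have e' : a + 2 + (b + 1) - (h + 1) = a + 2 + b - h := by omega
      have e1 : a + (b + 1) + (c + 1) + 3 = (a + b + c + 4) + 1 := by ring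
      have e2 : a + b + (c + 1) + 3 = a + b + c + 4 := by ring
      have e5 : a + (b + 1) + c + 3 = a + b + c + 4 := by ring
      have e6 : a + (b + 1) + (c + 1) + 2 = a + b + c + 4 := by ring
      rw [e, e', e1, e2, e5, e6, Nat.choose_succ_succ' (a + b + c + 4) c]
      ring

theorem el_tend_half (h : ℕ) : Tendsto (fun N : ℕ => ((N : ℝ) - h) / (2 * N - h)) atTop (𝓝 (1 / 2)) := by
  have h1 : Tendsto (fun N : ℕ => (h : ℝ) / N) atTop (𝓝 0) :=
    tendsto_const_div_atTop_nhds_zero_nat _
  have h2 : Tendsto (fun N : ℕ => (1 - (h : ℝ) / N) / (2 - (h : ℝ) / N)) atTop (𝓝 ((1 - 0) / (2 - 0))) :=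
    (tendsto_const_nhds.sub h1).div (tendsto_const_nhds.sub h1) (by norm_num)
  rw [sub_zero, sub_zero] at h2
  refine h2.congr' ?_
  filter_upwards [eventually_gt_atTop 0] with N hN
  have hN' : (N : ℝ) ≠ 0 := by positivity
  have e1 : (1 - (h : ℝ) / N) = (N - h) / N := by field_simp
  have e2 : (2 - (h : ℝ) / N) = (2 * N - h) / N := by field_simp
  rw [e1, e2, div_div_div_cancel_right₀ hN']

theorem el_tend_choose (h : ℕ) : Tendsto (fun N : ℕ => ((2 * N - h).choose N : ℝ) / ((2 * N).choose N : ℝ))
    atTop (𝓝 (1 / 2 ^ h)) := by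
  induction h with
  | zero =>
    rw [pow_zero, div_one]
    refine tendsto_const_nhds.congr (fun N => ?_)
    rw [Nat.sub_zero, div_self]
    have : 0 < (2 * N).choose N := Nat.choose_pos (by omega)
    positivity
  | succ h ih =>
    have := ih.mul (el_tend_half h)
    have e : (1 : ℝ) / 2 ^ (h + 1) = 1 / 2 ^ h * (1 / 2) := by rw [pow_succ]; field_simp
    rw [e]
    refine this.congr' ?_
    filter_upwards [eventually_gt_atTop h] with N hN
    -- choose (n+1) k * (n+1-k) = choose n k * (n+1)
    have hnat : (2 * N - (h + 1)).choose N * (2 * N - h) = (2 * N - h).choose N * (N - h) := by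
      obtain ⟨n, hn⟩ : ∃ n, 2 * N - h = n + 1 := ⟨2 * N - h - 1, by omega⟩
      have hn2 : 2 * N - (h + 1) = n := by omega
      have hn3 : N - h = n + 1 - N := by omega
      rw [hn2, hn, hn3]
      have := Nat.choose_mul_succ_eq n N
      exact this
    have hreal : ((2 * N - (h + 1)).choose N : ℝ) * (2 * N - h) =
        ((2 * N - h).choose N : ℝ) * (N - h) := by
      have := congrArg (fun t : ℕ => (t : ℝ)) hnat
      push_cast [Nat.cast_sub (show h ≤ 2 * N by omega), Nat.cast_sub hN.le] at this
      exact this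
    have hpos : (0 : ℝ) < 2 * N - h := by
      have : (h : ℝ) < N := by exact_mod_cast hN
      have : (0 : ℝ) ≤ N := Nat.cast_nonneg _
      linarith
    have hpos2 : (0 : ℝ) < ((2 * N).choose N : ℝ) := by
      have : 0 < (2 * N).choose N := Nat.choose_pos (by omega)
      exact_mod_cast this
    rw [div_mul_div_comm, div_eq_div_iff (by positivity) hpos2.ne']
    linear_combination (-((2 * N).choose N : ℝ)) * hreal

/-- Limit of the average of the source functional over all words. -/
theorem eta_limit (x y : Fin 3) (hxy : x ≠ y) (h : ℕ) (hh : 2 ≤ h) :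
    Tendsto (fun N : ℕ => (∑ w ∈ (W N).filter (fun w => occ x 1 w < occ y h w),
        ((occ x 2 w - occ y h w : ℕ) : ℝ)) / ((W N).card : ℝ)) atTop
      (𝓝 (3 / 2 * h / 2 ^ h)) := by
  obtain ⟨z, hzx, hzy⟩ : ∃ z : Fin 3, z ≠ x ∧ z ≠ y := by
    revert x y
    decide
  have hm : ∀ N, elm x y N N N = fun _ => N := by
    intro N
    funext i
    simp [elm]
  have hcard : ∀ N, (W N).card = (3 * N).choose N * (2 * N).choose N := by
    intro N
    have h1 := el_card x y z hxy hzx hzy _ N N N rfl
    unfold elS at h1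
    rw [hm, Finset.sum_const, smul_eq_mul, mul_one] at h1
    have e1 : N + N + N = 3 * N := by ring
    have e2 : N + N = 2 * N := by ring
    rw [e1, e2] at h1
    exact h1
  have hsum : ∀ N, 2 ≤ N → (∑ w ∈ (W N).filter (fun w => occ x 1 w < occ y h w),
      (occ x 2 w - occ y h w : ℕ)) = h * ((3 * N + 1).choose N * (2 * N - h).choose N) := by
    intro N hN
    obtain ⟨a, rfl⟩ : ∃ a, N = a + 2 := ⟨N - 2, by omega⟩
    have h1 := el_Sg x y z hxy hzx hzy a _ (a + 2) (a + 2) h rfl
    unfold elS at h1
    rw [hm] at h1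
    rw [Finset.sum_filter]
    have e1 : a + (a + 2) + (a + 2) + 3 = 3 * (a + 2) + 1 := by ring
    have e2 : a + 2 + (a + 2) - h = 2 * (a + 2) - h := by omega
    rw [e1, e2] at h1
    exact h1
  have hlim : Tendsto (fun N : ℕ => (h : ℝ) * ((3 * (N : ℝ) + 1) / (2 * N + 1)) *
      (((2 * N - h).choose N : ℝ) / ((2 * N).choose N : ℝ))) atTop
      (𝓝 ((h : ℝ) * (3 / 2) * (1 / 2 ^ h))) := by
    apply Tendsto.mul _ (el_tend_choose h)
    apply Tendsto.mul tendsto_const_nhds
    have h1 : Tendsto (fun N : ℕ => (1 : ℝ) / N) atTop (𝓝 0) :=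
      tendsto_const_div_atTop_nhds_zero_nat _
    have h2 : Tendsto (fun N : ℕ => (3 + (1 : ℝ) / N) / (2 + (1 : ℝ) / N)) atTop
        (𝓝 ((3 + 0) / (2 + 0))) :=
      (tendsto_const_nhds.add h1).div (tendsto_const_nhds.add h1) (by norm_num)
    rw [add_zero, add_zero] at h2
    refine h2.congr' ?_
    filter_upwards [eventually_gt_atTop 0] with N hN
    have hN' : (N : ℝ) ≠ 0 := by positivity
    field_simp
  have e : (3 : ℝ) / 2 * h / 2 ^ h = (h : ℝ) * (3 / 2) * (1 / 2 ^ h) := by ring
  rw [e]
  refine hlim.congr' ?_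
  filter_upwards [eventually_ge_atTop 2] with N hN
  have h1 := hsum N hN
  have h2 : (∑ w ∈ (W N).filter (fun w => occ x 1 w < occ y h w),
      ((occ x 2 w - occ y h w : ℕ) : ℝ)) =
      ((h * ((3 * N + 1).choose N * (2 * N - h).choose N) : ℕ) : ℝ) := by
    rw [← h1]
    push_cast
    rfl
  rw [h2, hcard]
  have hnat : (3 * N).choose N * (3 * N + 1) = (3 * N + 1).choose N * (2 * N + 1) := by
    have := Nat.choose_mul_succ_eq (3 * N) N
    have e1 : 3 * N + 1 - N = 2 * N + 1 := by omega
    rw [e1] at this
    exact this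
  have hreal : ((3 * N).choose N : ℝ) * (3 * N + 1) = ((3 * N + 1).choose N : ℝ) * (2 * N + 1) := by
    exact_mod_cast hnat
  have hp1 : (0 : ℝ) < ((3 * N).choose N : ℝ) := by
    have : 0 < (3 * N).choose N := Nat.choose_pos (by omega)
    exact_mod_cast this
  have hp2 : (0 : ℝ) < ((2 * N).choose N : ℝ) := by
    have : 0 < (2 * N).choose N := Nat.choose_pos (by omega)
    exact_mod_cast this
  have e3 : (3 * (N : ℝ) + 1) / (2 * N + 1) =
      ((3 * N + 1).choose N : ℝ) / ((3 * N).choose N : ℝ) := by
    rw [div_eq_div_iff (by positivity) hp1.ne']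
    linarith
  rw [e3]
  push_cast
  field_simp

end J10153

end

end Pool.Agent.KS
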