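import Pool.Agent.H875KS.Defs

set_option autoImplicit false

namespace Pool.Agent.KS

open Finset Filter Topology

theorem avg_const {α : Type} [Fintype α] (r : α → α → Prop) (hr : (LE r).Nonempty) (c : ℝ) :
    avg r (fun _ => c) = c := by
  have hc : ((LE r).card : ℝ) ≠ 0 := by
    have := Finset.card_pos.2 hr
    positivity
  unfold avg
  rw [Finset.sum_const, nsmul_eq_mul]
  field_simp

theorem avg_add {α : Type} [Fintype α] (r : α → α → Prop)
    (F G : (α ≃ Fin (Fintype.card α)) → ℝ) :
    avg r (fun f => F f + G f) = avg r F + avg r G := by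
  unfold avg
  rw [Finset.sum_add_distrib, add_div]

theorem avg_mul {α : Type} [Fintype α] (r : α → α → Prop) (c : ℝ)
    (F : (α ≃ Fin (Fintype.card α)) → ℝ) :
    avg r (fun f => c * F f) = c * avg r F := by
  unfold avg
  rw [← Finset.mul_sum, mul_div_assoc]

theorem avg_mono {α : Type} [Fintype α] (r : α → α → Prop)
    (F G : (α ≃ Fin (Fintype.card α)) → ℝ) (h : ∀ f ∈ LE r, F f ≤ G f) :
    avg r F ≤ avg r G := by
  unfold avg
  exact div_le_div_of_nonneg_right (Finset.sum_le_sum h) (Nat.cast_nonneg _)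

theorem mem_LE {α : Type} [Fintype α] (r : α → α → Prop) (f : α ≃ Fin (Fintype.card α)) :
    f ∈ LE r ↔ ∀ x y, r x y → f x < f y := by
  simp [LE]

theorem ht_lt {α : Type} [Fintype α] (r : α → α → Prop) (hr : (LE r).Nonempty) (x y : α)
    (h : r x y) : ht r x + 1 ≤ ht r y := by
  have h1 : avg r (fun f => (pos f x : ℝ) + 1) ≤ avg r (fun f => (pos f y : ℝ)) := by
    apply avg_mono
    intro f hf
    have h2 := (mem_LE r f).1 hf x y h
    have h3 : pos f x + 1 ≤ pos f y := by
      unfold pos
      have : (f x : ℕ) < (f y : ℕ) := h2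
      omega
    exact_mod_cast h3
  rw [avg_add, avg_const r hr] at h1
  exact h1

/-- Reduction of the frozen statement. -/
theorem final_of (h : ∀ γ : ℝ, 0 < γ → ∃ (Y : Type) (_ : Fintype Y) (R : Y → Y → Prop),
      1 < (LE R).card ∧ ∀ x y : Y, x ≠ y → 1 - γ < |ht R x - ht R y|) :
    ¬ (∃ γ : ℝ, 0 < γ ∧
      ∀ (α : Type) [Fintype α] [PartialOrder α],
        (∃ a b : α, ¬ a ≤ b ∧ ¬ b ≤ a) →
        ∀ L : Finset (α ≃ Fin (Fintype.card α)),
          (∀ f : α ≃ Fin (Fintype.card α), f ∈ L ↔ ∀ x y : α, x < y → f x < f y) →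
          ∃ x y : α, x ≠ y ∧
            0 ≤ (∑ f ∈ L, ((f y : ℕ) : ℝ)) / (L.card : ℝ)
                - (∑ f ∈ L, ((f x : ℕ) : ℝ)) / (L.card : ℝ) ∧
            (∑ f ∈ L, ((f y : ℕ) : ℝ)) / (L.card : ℝ)
                - (∑ f ∈ L, ((f x : ℕ) : ℝ)) / (L.card : ℝ) ≤ 1 - γ) := by
  rintro ⟨γ, hγ, hall⟩
  obtain ⟨Y, hY, R, hcard, hgap⟩ := h γ hγ
  have hne : (LE R).Nonempty := Finset.card_pos.1 (by omega)
  have htg : ∀ f ∈ LE R, ∀ x y, Relation.TransGen R x y → f x < f y := by
    intro f hf x y hxy
    induction hxy with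
    | single h => exact (mem_LE R f).1 hf _ _ h
    | tail _ h ih => exact lt_trans ih ((mem_LE R f).1 hf _ _ h)
  obtain ⟨f0, hf0⟩ := hne
  have hirr : ∀ x, ¬ Relation.TransGen R x x := fun x hx => lt_irrefl _ (htg f0 hf0 x x hx)
  letI P : PartialOrder Y :=
    { le := fun x y => x = y ∨ Relation.TransGen R x y
      le_refl := fun x => Or.inl rfl
      le_trans := by
        rintro x y z (rfl | hxy) (rfl | hyz)
        · exact Or.inl rfl
        · exact Or.inr hyz
        · exact Or.inr hxy
        · exact Or.inr (hxy.trans hyz)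
      le_antisymm := by
        rintro x y (rfl | hxy) (h2 | hyx)
        · rfl
        · rfl
        · exact h2.symm
        · exact absurd (hxy.trans hyx) (hirr x) }
  have hlt : ∀ x y : Y, x < y ↔ Relation.TransGen R x y := by
    intro x y
    rw [lt_iff_le_and_ne]
    constructor
    · rintro ⟨h1 | h1, h2⟩
      · exact absurd h1 h2
      · exact h1
    · intro h1
      refine ⟨Or.inr h1, ?_⟩
      rintro rfl
      exact hirr x h1
  have hmem : ∀ f : Y ≃ Fin (Fintype.card Y), f ∈ LE R ↔ ∀ x y : Y, x < y → f x < f y := by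
    intro f
    constructor
    · intro hf x y hxy
      exact htg f hf x y ((hlt x y).1 hxy)
    · intro hf
      rw [mem_LE]
      intro x y hxy
      exact hf x y ((hlt x y).2 (Relation.TransGen.single hxy))
  have hinc : ∃ a b : Y, ¬ a ≤ b ∧ ¬ b ≤ a := by
    by_contra hcon
    push Not at hcon
    have htot : ∀ a b : Y, a ≤ b ∨ b ≤ a := by
      intro a b
      by_cases hab : a ≤ b
      · exact Or.inl hab
      · exact Or.inr (hcon a b hab)
    obtain ⟨f, hf, g, hg, hfg⟩ := Finset.one_lt_card.1 hcard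
    apply hfg
    have key : ∀ f ∈ LE R, ∀ x y, f x < f y ↔ x < y := by
      intro f hf x y
      constructor
      · intro h1
        rcases htot x y with h2 | h2
        · rcases h2.lt_or_eq with h3 | h3
          · exact h3
          · subst h3
            exact absurd h1 (lt_irrefl _)
        · rcases h2.lt_or_eq with h3 | h3
          · exact absurd ((hmem f).1 hf _ _ h3) (not_lt.2 h1.le)
          · subst h3
            exact absurd h1 (lt_irrefl _)
      · exact (hmem f).1 hf x y
    have hsm : StrictMono (fun i => g (f.symm i)) := by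
      intro i j hij
      show g (f.symm i) < g (f.symm j)
      rw [key g hg, ← key f hf, Equiv.apply_symm_apply, Equiv.apply_symm_apply]
      exact hij
    have hid : (fun i => g (f.symm i)) = id := by
      apply StrictMono.range_inj hsm strictMono_id |>.1
      rw [Set.range_id]
      exact Set.range_eq_univ.2 ((f.symm.trans g).surjective)
    ext x
    have := congrFun hid (f x)
    simp only [Equiv.symm_apply_apply, id] at this
    rw [this]
  obtain ⟨x, y, hxy, h0, h1⟩ := hall Y hinc (LE R) hmem
  have hne' : (LE R).Nonempty := ⟨f0, hf0⟩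
  have hht : ∀ z : Y, (∑ f ∈ LE R, ((f z : ℕ) : ℝ)) / ((LE R).card : ℝ) = ht R z - 1 := by
    intro z
    have h2 : ht R z = avg R (fun f => ((f z : ℕ) : ℝ) + 1) := by
      unfold ht
      congr 1
      funext f
      unfold pos
      push_cast
      ring
    rw [avg_add, avg_const R hne'] at h2
    rw [h2]
    unfold avg
    ring
  rw [hht x, hht y] at h0 h1
  have h2 := hgap y x (Ne.symm hxy)
  rw [abs_of_nonneg (by linarith)] at h2
  linarith

end Pool.Agent.KS
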