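import Pool.Agent.H875KS.Defs2

set_option autoImplicit false

namespace Pool.Agent.KS

open Finset Filter Topology

noncomputable section

namespace J10136

theorem gad_rev_imp (N h : ℕ) (hh : 3 ≤ h) (hN : 2 * h + 2 ≤ N) (x y : Fin 3 × Fin N)
    (hg : gad N h x y) : gad N h (Fin.rev y.1, Fin.rev y.2) (Fin.rev x.1, Fin.rev x.2) := by
  obtain ⟨i, k⟩ := x
  obtain ⟨j, l⟩ := y
  have hk := k.2
  have hl := l.2
  have hi := i.2
  have hj := j.2
  have e0 : ((0 : Fin 3) : ℕ) = 0 := rfl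
  have e1 : ((1 : Fin 3) : ℕ) = 1 := rfl
  have e2 : ((2 : Fin 3) : ℕ) = 2 := rfl
  simp only [gad, Fin.ext_iff, Fin.val_rev, e0, e1, e2] at hg ⊢
  rcases hg with ⟨h1, h2⟩ | ⟨h1, h2, h3, h4⟩ | ⟨h1, h2, h3, h4⟩ | ⟨h1, h2, h3, h4⟩ |
    ⟨h1, h2, h3, h4⟩ | ⟨h1, h2, h3, h4⟩ | ⟨h1, h2, h3, h4⟩
  · exact Or.inl ⟨by omega, by omega⟩
  · exact Or.inr (Or.inr (Or.inr (Or.inr (Or.inl ⟨by omega, by omega, by omega, by omega⟩))))
  · exact Or.inr (Or.inr (Or.inr (Or.inr (Or.inr (Or.inl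
      ⟨by omega, by omega, by omega, by omega⟩)))))
  · exact Or.inr (Or.inr (Or.inr (Or.inr (Or.inr (Or.inr
      ⟨by omega, by omega, by omega, by omega⟩)))))
  · exact Or.inr (Or.inl ⟨by omega, by omega, by omega, by omega⟩)
  · exact Or.inr (Or.inr (Or.inl ⟨by omega, by omega, by omega, by omega⟩))
  · exact Or.inr (Or.inr (Or.inr (Or.inl ⟨by omega, by omega, by omega, by omega⟩)))

theorem gad_rev_iff (N h : ℕ) (hh : 3 ≤ h) (hN : 2 * h + 2 ≤ N) (x y : Fin 3 × Fin N) :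
    gad N h x y ↔ gad N h (Fin.rev y.1, Fin.rev y.2) (Fin.rev x.1, Fin.rev x.2) := by
  refine ⟨gad_rev_imp N h hh hN x y, fun hg => ?_⟩
  have h1 := gad_rev_imp N h hh hN _ _ hg
  simp only [Fin.rev_rev, Prod.mk.eta] at h1
  exact h1

theorem gad_dual
    (hdual : ∀ (α : Type) [Fintype α] (r : α → α → Prop) (φ : α ≃ α),
      (∀ x y, r x y ↔ r (φ y) (φ x)) → (LE r).Nonempty → ∀ x,
      ht r (φ x) = (Fintype.card α : ℝ) + 1 - ht r x)
    (N h : ℕ) (hh : 3 ≤ h) (hN : 2 * h + 2 ≤ N) (hne : (LE (gad N h)).Nonempty)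
    (j : Fin 3) (k : ℕ) (hk : k ≤ N + 1) :
    gh N h (Fin.rev j) (N + 1 - k) = 3 * (N : ℝ) + 1 - gh N h j k := by
  rcases Nat.eq_zero_or_pos k with h0 | h0
  · subst h0
    have h1 : ¬ (1 ≤ N + 1 - 0 ∧ N + 1 - 0 ≤ N) := by omega
    have h2 : ¬ (N + 1 - 0 = 0) := by omega
    have h3 : ¬ (1 ≤ 0 ∧ 0 ≤ N) := by omega
    rw [gh, dif_neg h1, if_neg h2, gh, dif_neg h3, if_pos rfl, sub_zero]
  rcases Nat.lt_or_ge N k with h1 | h1
  · have hk' : k = N + 1 := by omega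
    subst hk'
    have h2 : ¬ (1 ≤ N + 1 - (N + 1) ∧ N + 1 - (N + 1) ≤ N) := by omega
    have h3 : N + 1 - (N + 1) = 0 := by omega
    have h4 : ¬ (1 ≤ N + 1 ∧ N + 1 ≤ N) := by omega
    have h5 : ¬ (N + 1 = 0) := by omega
    rw [gh, dif_neg h2, if_pos h3, gh, dif_neg h4, if_neg h5, sub_self]
  · have h2 : 1 ≤ N + 1 - k ∧ N + 1 - k ≤ N := by omega
    have h3 : 1 ≤ k ∧ k ≤ N := ⟨h0, h1⟩
    rw [gh, dif_pos h2, gh, dif_pos h3]
    have h4 := hdual (Fin 3 × Fin N) (gad N h) (Equiv.prodCongr Fin.revPerm Fin.revPerm)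
      (fun x y => gad_rev_iff N h hh hN x y) hne (j, ⟨k - 1, by omega⟩)
    have h5 : (Equiv.prodCongr Fin.revPerm Fin.revPerm) (j, (⟨k - 1, by omega⟩ : Fin N)) =
        (Fin.rev j, (⟨N + 1 - k - 1, by omega⟩ : Fin N)) := by
      rw [Equiv.prodCongr_apply]
      simp only [Prod.map_apply, Fin.revPerm_apply, Prod.mk.injEq, true_and]
      apply Fin.ext
      rw [Fin.val_rev]
      simp only
      omega
    rw [h5] at h4
    rw [h4]
    simp only [Fintype.card_prod, Fintype.card_fin]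
    push_cast
    ring

end J10136

end

end Pool.Agent.KS
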