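import Pool.Agent.H875KS.Defs2

set_option autoImplicit false

namespace Pool.Agent.KS

open Finset Filter Topology

noncomputable section

namespace J10137

theorem GS_lo_eq {α : Type} [Fintype α] (r : α → α → Prop) (f : α ≃ Fin (Fintype.card α)) (x : α)
    (M : ℕ) (h1 : ∀ y, r y x → pos f y ≤ M) (h2 : M = 0 ∨ ∃ y, r y x ∧ pos f y = M) :
    lo r f x = M := by
  classical
  unfold lo
  apply le_antisymm
  · refine Finset.sup_le ?_
    intro y hy
    exact h1 y (Finset.mem_filter.1 hy).2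
  · rcases h2 with h2 | ⟨y, hy, rfl⟩
    · rw [h2]; exact Nat.zero_le _
    · exact Finset.le_sup (f := fun y => pos f y) (Finset.mem_filter.2 ⟨Finset.mem_univ _, hy⟩)

theorem GS_up_eq {α : Type} [Fintype α] (r : α → α → Prop) (f : α ≃ Fin (Fintype.card α)) (x : α)
    (M : ℕ) (h1 : ∀ y, r x y → M ≤ pos f y) (h2 : ∃ y, r x y ∧ pos f y = M) :
    up r f x = M := by
  classical
  unfold up
  obtain ⟨y, hy, hyM⟩ := h2
  have hM : M ≤ Fintype.card α := by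
    rw [← hyM]; unfold pos; have := (f y).2; omega
  have : (Finset.univ.filter (fun y => r x y)).sup (fun y => Fintype.card α + 1 - pos f y)
      = Fintype.card α + 1 - M := by
    apply le_antisymm
    · refine Finset.sup_le ?_
      intro z hz
      have := h1 z (Finset.mem_filter.1 hz).2
      omega
    · rw [← hyM]
      exact Finset.le_sup (f := fun y => Fintype.card α + 1 - pos f y)
        (Finset.mem_filter.2 ⟨Finset.mem_univ _, hy⟩)
  rw [this]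
  omega

theorem GS_avg_add {α : Type} [Fintype α] (r : α → α → Prop)
    (F G : (α ≃ Fin (Fintype.card α)) → ℝ) : avg r F + avg r G = avg r (fun f => F f + G f) := by
  unfold avg; rw [Finset.sum_add_distrib, add_div]

theorem GS_avg_sub {α : Type} [Fintype α] (r : α → α → Prop)
    (F G : (α ≃ Fin (Fintype.card α)) → ℝ) : avg r F - avg r G = avg r (fun f => F f - G f) := by
  unfold avg; rw [Finset.sum_sub_distrib, sub_div]

theorem GS_avg_neg {α : Type} [Fintype α] (r : α → α → Prop)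
    (F : (α ≃ Fin (Fintype.card α)) → ℝ) : - avg r F = avg r (fun f => - F f) := by
  unfold avg; rw [Finset.sum_neg_distrib, neg_div]

theorem GS_avg_zero {α : Type} [Fintype α] (r : α → α → Prop) :
    avg r (fun _ => (0 : ℝ)) = 0 := by
  unfold avg; simp

theorem GS_avg_congr {α : Type} [Fintype α] (r : α → α → Prop)
    (F G : (α ≃ Fin (Fintype.card α)) → ℝ) (h : ∀ f ∈ LE r, F f = G f) : avg r F = avg r G := by
  unfold avg; rw [Finset.sum_congr rfl h]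

/-- position of the `m`-th element of chain `j` -/
def GS_Q {N : ℕ} (f : (Fin 3 × Fin N) ≃ Fin (Fintype.card (Fin 3 × Fin N))) (j : Fin 3) (m : ℕ) : ℕ :=
  if hm : 1 ≤ m ∧ m ≤ N then pos f (j, ⟨m - 1, by omega⟩) else 0

theorem GS_pos {N : ℕ} (f : (Fin 3 × Fin N) ≃ Fin (Fintype.card (Fin 3 × Fin N))) (j : Fin 3)
    (i : Fin N) (m : ℕ) (hm : (i : ℕ) + 1 = m) : pos f (j, i) = GS_Q f j m := by
  subst hm
  unfold GS_Q
  have : 1 ≤ (i : ℕ) + 1 ∧ (i : ℕ) + 1 ≤ N := ⟨by omega, by have := i.2; omega⟩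
  rw [dif_pos this]
  congr

theorem GS_Q_zero {N : ℕ} (f : (Fin 3 × Fin N) ≃ Fin (Fintype.card (Fin 3 × Fin N))) (j : Fin 3) :
    GS_Q f j 0 = 0 := by
  unfold GS_Q; rw [dif_neg (by omega)]

theorem GS_gh (N h : ℕ) (j : Fin 3) (m : ℕ) (hm : m ≤ N) :
    gh N h j m = avg (gad N h) (fun f => (GS_Q f j m : ℝ)) := by
  unfold gh
  by_cases h1 : 1 ≤ m
  · rw [dif_pos ⟨h1, hm⟩]
    unfold ht
    congr 1
    funext f
    rw [GS_pos f j _ m (by simp; omega)]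
  · have : m = 0 := by omega
    subst this
    rw [dif_neg (by omega), if_pos rfl]
    simp only [GS_Q_zero, Nat.cast_zero, GS_avg_zero]

theorem GS_main (hharm : ∀ (α : Type) [Fintype α] (r : α → α → Prop) (x : α),
      2 * ht r x = avg r (fun f => (lo r f x : ℝ)) + avg r (fun f => (up r f x : ℝ)))
    (N h : ℕ) (j : Fin 3) (k : ℕ) (hk1 : 1 ≤ k) (hkN : k + 1 ≤ N)
    (L U : ((Fin 3 × Fin N) ≃ Fin (Fintype.card (Fin 3 × Fin N))) → ℕ)
    (hL : ∀ f, lo (gad N h) f (j, ⟨k - 1, by omega⟩) = L f)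
    (hU : ∀ f, up (gad N h) f (j, ⟨k - 1, by omega⟩) = U f) :
    gh N h j (k + 1) - 2 * gh N h j k + gh N h j (k - 1) =
      avg (gad N h) (fun f => ((GS_Q f j (k + 1) : ℝ) - (U f : ℝ))
        + ((GS_Q f j (k - 1) : ℝ) - (L f : ℝ))) := by
  have h1 : 2 * gh N h j k = avg (gad N h) (fun f => (L f : ℝ)) + avg (gad N h) (fun f => (U f : ℝ)) := by
    have : gh N h j k = ht (gad N h) (j, ⟨k - 1, by omega⟩) := by
      unfold gh; rw [dif_pos ⟨hk1, by omega⟩]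
    rw [this, hharm]
    simp only [hL, hU]
  rw [h1, GS_gh N h j (k + 1) hkN, GS_gh N h j (k - 1) (by omega), ← GS_avg_add, ← GS_avg_sub,
    ← GS_avg_sub]
  ring

theorem GS_up_single (N h : ℕ) (f : (Fin 3 × Fin N) ≃ Fin (Fintype.card (Fin 3 × Fin N)))
    (j : Fin 3) (k : ℕ) (hk1 : 1 ≤ k) (hkN : k + 1 ≤ N)
    (hy : ∀ y, gad N h (j, ⟨k - 1, by omega⟩) y → y.1 = j ∧ (y.2 : ℕ) = k) :
    up (gad N h) f (j, ⟨k - 1, by omega⟩) = GS_Q f j (k + 1) := by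
  apply GS_up_eq
  · rintro ⟨j', i⟩ hr
    obtain ⟨h1, h2⟩ := hy _ hr
    simp only at h1 h2
    subst h1
    rw [GS_pos f j' i (k + 1) (by omega)]
  · refine ⟨(j, ⟨k, by omega⟩), ?_, GS_pos f j _ (k + 1) rfl⟩
    left
    refine ⟨rfl, ?_⟩
    simp only
    omega

theorem GS_lo_single (N h : ℕ) (f : (Fin 3 × Fin N) ≃ Fin (Fintype.card (Fin 3 × Fin N)))
    (j : Fin 3) (k : ℕ) (hk1 : 1 ≤ k) (hkN : k ≤ N)
    (hy : ∀ y, gad N h y (j, ⟨k - 1, by omega⟩) → y.1 = j ∧ (y.2 : ℕ) + 1 = k - 1) :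
    lo (gad N h) f (j, ⟨k - 1, by omega⟩) = GS_Q f j (k - 1) := by
  apply GS_lo_eq
  · rintro ⟨j', i⟩ hr
    obtain ⟨h1, h2⟩ := hy _ hr
    simp only at h1 h2
    subst h1
    rw [GS_pos f j' i (k - 1) (by omega)]
  · by_cases h1 : k = 1
    · left
      subst h1
      exact GS_Q_zero f j
    · right
      refine ⟨(j, ⟨k - 2, by omega⟩), ?_, GS_pos f j _ (k - 1) (by simp only; omega)⟩
      left
      refine ⟨rfl, ?_⟩
      simp only
      omega

theorem GS_lo_double (N h : ℕ) (f : (Fin 3 × Fin N) ≃ Fin (Fintype.card (Fin 3 × Fin N)))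
    (j j' : Fin 3) (k m : ℕ) (hk1 : 2 ≤ k) (hkN : k ≤ N) (hm1 : 1 ≤ m) (hmN : m ≤ N)
    (hex : gad N h (j', ⟨m - 1, by omega⟩) (j, ⟨k - 1, by omega⟩))
    (hy : ∀ y, gad N h y (j, ⟨k - 1, by omega⟩) → (y.1 = j ∧ (y.2 : ℕ) + 1 = k - 1) ∨
      (y.1 = j' ∧ (y.2 : ℕ) + 1 = m)) :
    lo (gad N h) f (j, ⟨k - 1, by omega⟩) = max (GS_Q f j (k - 1)) (GS_Q f j' m) := by
  apply GS_lo_eq
  · rintro ⟨j'', i⟩ hr
    rcases hy _ hr with ⟨h1, h2⟩ | ⟨h1, h2⟩
    · simp only at h1 h2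
      subst h1
      rw [GS_pos f j'' i (k - 1) (by omega)]
      exact le_max_left _ _
    · simp only at h1 h2
      subst h1
      rw [GS_pos f j'' i m (by omega)]
      exact le_max_right _ _
  · right
    rcases max_choice (GS_Q f j (k - 1)) (GS_Q f j' m) with h1 | h1
    · rw [h1]
      refine ⟨(j, ⟨k - 2, by omega⟩), ?_, GS_pos f j _ (k - 1) (by simp only; omega)⟩
      left
      refine ⟨rfl, ?_⟩
      simp only
      omega
    · rw [h1]
      exact ⟨_, hex, GS_pos f j' _ m (by simp only; omega)⟩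

theorem GS_card (N h : ℕ) (E : ((Fin 3 × Fin N) ≃ Fin (Fintype.card (Fin 3 × Fin N))) → List (Fin 3))
    (hE : Set.BijOn E (LE (gad N h)) (good N h)) (F : List (Fin 3) → ℝ) :
    avg (gad N h) (fun f => F (E f)) = gavg N h F := by
  unfold avg gavg
  have h1 : ∑ f ∈ LE (gad N h), F (E f) = ∑ w ∈ good N h, F w :=
    Finset.sum_nbij E (fun a ha => hE.mapsTo ha) hE.injOn hE.surjOn (fun _ _ => rfl)
  have h2 : (LE (gad N h)).card = (good N h).card :=
    Finset.card_nbij E (fun a ha => hE.mapsTo ha) hE.injOn hE.surjOn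
  rw [h1, h2]

theorem gad_second
    (hharm : ∀ (α : Type) [Fintype α] (r : α → α → Prop) (x : α),
      2 * ht r x = avg r (fun f => (lo r f x : ℝ)) + avg r (fun f => (up r f x : ℝ)))
    (hbridge : ∀ N h : ℕ, 3 ≤ h → 2 * h + 2 ≤ N →
      ∃ E : ((Fin 3 × Fin N) ≃ Fin (Fintype.card (Fin 3 × Fin N))) → List (Fin 3),
      Set.BijOn E (LE (gad N h)) (good N h) ∧
      ∀ f ∈ LE (gad N h), ∀ (j : Fin 3) (k : Fin N), pos f (j, k) = occ j ((k : ℕ) + 1) (E f))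
    (N h : ℕ) (hh : 3 ≤ h) (hN : 2 * h + 2 ≤ N) (hne : (LE (gad N h)).Nonempty) :
    (∀ (j : Fin 3) (k : ℕ), 1 ≤ k → k ≤ N → k ≠ 1 → k ≠ h → k ≠ N + 1 - h → k ≠ N →
      gh N h j (k + 1) - 2 * gh N h j k + gh N h j (k - 1) = 0) ∧
    gh N h 2 2 - 2 * gh N h 2 1 + gh N h 2 0 = 0 ∧
    gh N h 0 2 - 2 * gh N h 0 1 + gh N h 0 0 = K0 N h ∧
    gh N h 1 2 - 2 * gh N h 1 1 + gh N h 1 0 = K1 N h ∧
    gh N h 0 (h + 1) - 2 * gh N h 0 h + gh N h 0 (h - 1) = - Z0 N h ∧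
    gh N h 1 (h + 1) - 2 * gh N h 1 h + gh N h 1 (h - 1) = - Z1 N h ∧
    gh N h 2 (h + 1) - 2 * gh N h 2 h + gh N h 2 (h - 1) = - Z2 N h := by
  obtain ⟨E, hE, hEpos⟩ := hbridge N h hh hN
  have hQocc : ∀ f ∈ LE (gad N h), ∀ (j : Fin 3) (m : ℕ), 1 ≤ m → m ≤ N →
      GS_Q f j m = occ j m (E f) := by
    intro f hf j m hm1 hm2
    have := hEpos f hf j ⟨m - 1, by omega⟩
    simp only at this
    rw [show m - 1 + 1 = m by omega] at this
    rw [← this]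
    exact (GS_pos f j _ m (by simp only; omega)).symm
  refine ⟨?_, ?_, ?_, ?_, ?_, ?_, ?_⟩
  · intro j k hk1 hk2 hk3 hk4 hk5 hk6
    rw [GS_main hharm N h j k hk1 (by omega) (fun f => GS_Q f j (k - 1))
      (fun f => GS_Q f j (k + 1))
      (fun f => GS_lo_single N h f j k hk1 hk2 ?_) (fun f => GS_up_single N h f j k hk1 (by omega) ?_)]
    · simp only [sub_self, add_zero]
      exact GS_avg_zero _
    · rintro ⟨j', i⟩ hy
      simp only [gad] at hy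
      rcases hy with ⟨h1, h2⟩ | ⟨h1, h2, h3, h4⟩ | ⟨h1, h2, h3, h4⟩ | ⟨h1, h2, h3, h4⟩ |
        ⟨h1, h2, h3, h4⟩ | ⟨h1, h2, h3, h4⟩ | ⟨h1, h2, h3, h4⟩
      · exact ⟨h1, h2⟩
      all_goals (exfalso; omega)
    · rintro ⟨j', i⟩ hy
      simp only [gad] at hy
      rcases hy with ⟨h1, h2⟩ | ⟨h1, h2, h3, h4⟩ | ⟨h1, h2, h3, h4⟩ | ⟨h1, h2, h3, h4⟩ |
        ⟨h1, h2, h3, h4⟩ | ⟨h1, h2, h3, h4⟩ | ⟨h1, h2, h3, h4⟩
      · exact ⟨h1.symm, by simp only; omega⟩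
      all_goals (exfalso; omega)
  · have := GS_main hharm N h 2 1 le_rfl (by omega) (fun f => GS_Q f 2 0)
      (fun f => GS_Q f 2 2)
      (fun f => GS_lo_single N h f 2 1 le_rfl (by omega) ?_)
      (fun f => GS_up_single N h f 2 1 le_rfl (by omega) ?_)
    · rw [show (1 : ℕ) + 1 = 2 by rfl, show (1 : ℕ) - 1 = 0 by rfl] at this
      rw [this]
      simp only [sub_self, add_zero]
      exact GS_avg_zero _
    · rintro ⟨j', i⟩ hy
      simp only [gad] at hy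
      rcases hy with ⟨h1, h2⟩ | ⟨h1, h2, h3, h4⟩ | ⟨h1, h2, h3, h4⟩ | ⟨h1, h2, h3, h4⟩ |
        ⟨h1, h2, h3, h4⟩ | ⟨h1, h2, h3, h4⟩ | ⟨h1, h2, h3, h4⟩
      · exact ⟨h1, h2⟩
      all_goals (exfalso; omega)
    · rintro ⟨j', i⟩ hy
      simp only [gad] at hy
      rcases hy with ⟨h1, h2⟩ | ⟨h1, h2, h3, h4⟩ | ⟨h1, h2, h3, h4⟩ | ⟨h1, h2, h3, h4⟩ |
        ⟨h1, h2, h3, h4⟩ | ⟨h1, h2, h3, h4⟩ | ⟨h1, h2, h3, h4⟩
      · exact ⟨h1.symm, by simp only; omega⟩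
      all_goals (exfalso; omega)
  · have := GS_main hharm N h 0 1 le_rfl (by omega) (fun f => GS_Q f 0 0)
      (fun f => min (GS_Q f 0 2) (min (GS_Q f 1 h) (GS_Q f 2 h)))
      (fun f => GS_lo_single N h f 0 1 le_rfl (by omega) ?_)
      (fun f => GS_up_eq _ f _ _ ?_ ?_)
    · rw [show (1 : ℕ) + 1 = 2 by rfl, show (1 : ℕ) - 1 = 0 by rfl] at this
      rw [this, K0, ← GS_card N h E hE]
      apply GS_avg_congr
      intro f hf
      rw [← hQocc f hf 0 2 (by omega) (by omega), ← hQocc f hf 1 h (by omega) (by omega),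
        ← hQocc f hf 2 h (by omega) (by omega), sub_self, add_zero]
      rw [← Nat.cast_sub (min_le_left _ _)]
      congr 1
      omega
    · rintro ⟨j', i⟩ hy
      simp only [gad] at hy
      rcases hy with ⟨h1, h2⟩ | ⟨h1, h2, h3, h4⟩ | ⟨h1, h2, h3, h4⟩ | ⟨h1, h2, h3, h4⟩ |
        ⟨h1, h2, h3, h4⟩ | ⟨h1, h2, h3, h4⟩ | ⟨h1, h2, h3, h4⟩
      · exact ⟨h1, h2⟩
      all_goals (exfalso; omega)
    · rintro ⟨j', i⟩ hy
      simp only [gad] at hy
      rcases hy with ⟨h1, h2⟩ | ⟨h1, h2, h3, h4⟩ | ⟨h1, h2, h3, h4⟩ | ⟨h1, h2, h3, h4⟩ |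
        ⟨h1, h2, h3, h4⟩ | ⟨h1, h2, h3, h4⟩ | ⟨h1, h2, h3, h4⟩
      · rw [← h1, GS_pos f 0 i 2 (by omega)]
        exact min_le_left _ _
      · rw [h3, GS_pos f 1 i h h4]
        exact (min_le_right _ _).trans (min_le_left _ _)
      · rw [h3, GS_pos f 2 i h h4]
        exact (min_le_right _ _).trans (min_le_right _ _)
      all_goals (exfalso; omega)
    · rcases min_choice (GS_Q f 0 2) (min (GS_Q f 1 h) (GS_Q f 2 h)) with h1 | h1
      · rw [h1]
        refine ⟨(0, ⟨1, by omega⟩), ?_, GS_pos f 0 _ 2 rfl⟩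
        left; exact ⟨rfl, rfl⟩
      · rw [h1]
        rcases min_choice (GS_Q f 1 h) (GS_Q f 2 h) with h2 | h2
        · rw [h2]
          refine ⟨(1, ⟨h - 1, by omega⟩), ?_, GS_pos f 1 _ h (by simp only; omega)⟩
          right; left; exact ⟨rfl, rfl, rfl, by simp only; omega⟩
        · rw [h2]
          refine ⟨(2, ⟨h - 1, by omega⟩), ?_, GS_pos f 2 _ h (by simp only; omega)⟩
          right; right; left; exact ⟨rfl, rfl, rfl, by simp only; omega⟩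
  · have := GS_main hharm N h 1 1 le_rfl (by omega) (fun f => GS_Q f 1 0)
      (fun f => min (GS_Q f 1 2) (GS_Q f 0 h))
      (fun f => GS_lo_single N h f 1 1 le_rfl (by omega) ?_)
      (fun f => GS_up_eq _ f _ _ ?_ ?_)
    · rw [show (1 : ℕ) + 1 = 2 by rfl, show (1 : ℕ) - 1 = 0 by rfl] at this
      rw [this, K1, ← GS_card N h E hE]
      apply GS_avg_congr
      intro f hf
      rw [← hQocc f hf 1 2 (by omega) (by omega), ← hQocc f hf 0 h (by omega) (by omega),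
        sub_self, add_zero]
      rw [← Nat.cast_sub (min_le_left _ _)]
      congr 1
      omega
    · rintro ⟨j', i⟩ hy
      simp only [gad] at hy
      rcases hy with ⟨h1, h2⟩ | ⟨h1, h2, h3, h4⟩ | ⟨h1, h2, h3, h4⟩ | ⟨h1, h2, h3, h4⟩ |
        ⟨h1, h2, h3, h4⟩ | ⟨h1, h2, h3, h4⟩ | ⟨h1, h2, h3, h4⟩
      · exact ⟨h1, h2⟩
      all_goals (exfalso; omega)
    · rintro ⟨j', i⟩ hy
      simp only [gad] at hy
      rcases hy with ⟨h1, h2⟩ | ⟨h1, h2, h3, h4⟩ | ⟨h1, h2, h3, h4⟩ | ⟨h1, h2, h3, h4⟩ |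
        ⟨h1, h2, h3, h4⟩ | ⟨h1, h2, h3, h4⟩ | ⟨h1, h2, h3, h4⟩
      · rw [← h1, GS_pos f 1 i 2 (by omega)]
        exact min_le_left _ _
      · exfalso; omega
      · exfalso; omega
      · rw [h3, GS_pos f 0 i h h4]
        exact min_le_right _ _
      all_goals (exfalso; omega)
    · rcases min_choice (GS_Q f 1 2) (GS_Q f 0 h) with h1 | h1
      · rw [h1]
        refine ⟨(1, ⟨1, by omega⟩), ?_, GS_pos f 1 _ 2 rfl⟩
        left; exact ⟨rfl, rfl⟩
      · rw [h1]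
        refine ⟨(0, ⟨h - 1, by omega⟩), ?_, GS_pos f 0 _ h (by simp only; omega)⟩
        right; right; right; left; exact ⟨rfl, rfl, rfl, by simp only; omega⟩
  · rw [GS_main hharm N h 0 h (by omega) (by omega)
      (fun f => max (GS_Q f 0 (h - 1)) (GS_Q f 1 1)) (fun f => GS_Q f 0 (h + 1))
      (fun f => GS_lo_double N h f 0 1 h 1 (by omega) (by omega) le_rfl (by omega) ?_ ?_)
      (fun f => GS_up_single N h f 0 h (by omega) (by omega) ?_)]
    · rw [Z0, ← GS_card N h E hE, GS_avg_neg]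
      apply GS_avg_congr
      intro f hf
      rw [← hQocc f hf 1 1 (by omega) (by omega), ← hQocc f hf 0 (h - 1) (by omega) (by omega),
        sub_self, zero_add, ← neg_sub, ← Nat.cast_sub (le_max_left _ _)]
      congr 2
      omega
    · right; right; right; left; exact ⟨rfl, rfl, rfl, by simp only; omega⟩
    · rintro ⟨j', i⟩ hy
      simp only [gad] at hy
      rcases hy with ⟨h1, h2⟩ | ⟨h1, h2, h3, h4⟩ | ⟨h1, h2, h3, h4⟩ | ⟨h1, h2, h3, h4⟩ |
        ⟨h1, h2, h3, h4⟩ | ⟨h1, h2, h3, h4⟩ | ⟨h1, h2, h3, h4⟩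
      · exact Or.inl ⟨h1, h2⟩
      · exfalso; omega
      · exfalso; omega
      · exact Or.inr ⟨h1, by simp only; omega⟩
      all_goals (exfalso; omega)
    · rintro ⟨j', i⟩ hy
      simp only [gad] at hy
      rcases hy with ⟨h1, h2⟩ | ⟨h1, h2, h3, h4⟩ | ⟨h1, h2, h3, h4⟩ | ⟨h1, h2, h3, h4⟩ |
        ⟨h1, h2, h3, h4⟩ | ⟨h1, h2, h3, h4⟩ | ⟨h1, h2, h3, h4⟩
      · exact ⟨h1.symm, by simp only; omega⟩
      all_goals (exfalso; omega)
  · rw [GS_main hharm N h 1 h (by omega) (by omega)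
      (fun f => max (GS_Q f 1 (h - 1)) (GS_Q f 0 1)) (fun f => GS_Q f 1 (h + 1))
      (fun f => GS_lo_double N h f 1 0 h 1 (by omega) (by omega) le_rfl (by omega) ?_ ?_)
      (fun f => GS_up_single N h f 1 h (by omega) (by omega) ?_)]
    · rw [Z1, ← GS_card N h E hE, GS_avg_neg]
      apply GS_avg_congr
      intro f hf
      rw [← hQocc f hf 0 1 (by omega) (by omega), ← hQocc f hf 1 (h - 1) (by omega) (by omega),
        sub_self, zero_add, ← neg_sub, ← Nat.cast_sub (le_max_left _ _)]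
      congr 2
      omega
    · right; left; exact ⟨rfl, rfl, rfl, by simp only; omega⟩
    · rintro ⟨j', i⟩ hy
      simp only [gad] at hy
      rcases hy with ⟨h1, h2⟩ | ⟨h1, h2, h3, h4⟩ | ⟨h1, h2, h3, h4⟩ | ⟨h1, h2, h3, h4⟩ |
        ⟨h1, h2, h3, h4⟩ | ⟨h1, h2, h3, h4⟩ | ⟨h1, h2, h3, h4⟩
      · exact Or.inl ⟨h1, h2⟩
      · exact Or.inr ⟨h1, by simp only; omega⟩
      all_goals (exfalso; omega)
    · rintro ⟨j', i⟩ hy
      simp only [gad] at hy
      rcases hy with ⟨h1, h2⟩ | ⟨h1, h2, h3, h4⟩ | ⟨h1, h2, h3, h4⟩ | ⟨h1, h2, h3, h4⟩ |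
        ⟨h1, h2, h3, h4⟩ | ⟨h1, h2, h3, h4⟩ | ⟨h1, h2, h3, h4⟩
      · exact ⟨h1.symm, by simp only; omega⟩
      all_goals (exfalso; omega)
  · rw [GS_main hharm N h 2 h (by omega) (by omega)
      (fun f => max (GS_Q f 2 (h - 1)) (GS_Q f 0 1)) (fun f => GS_Q f 2 (h + 1))
      (fun f => GS_lo_double N h f 2 0 h 1 (by omega) (by omega) le_rfl (by omega) ?_ ?_)
      (fun f => GS_up_single N h f 2 h (by omega) (by omega) ?_)]
    · rw [Z2, ← GS_card N h E hE, GS_avg_neg]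
      apply GS_avg_congr
      intro f hf
      rw [← hQocc f hf 0 1 (by omega) (by omega), ← hQocc f hf 2 (h - 1) (by omega) (by omega),
        sub_self, zero_add, ← neg_sub, ← Nat.cast_sub (le_max_left _ _)]
      congr 2
      omega
    · right; right; left; exact ⟨rfl, rfl, rfl, by simp only; omega⟩
    · rintro ⟨j', i⟩ hy
      simp only [gad] at hy
      rcases hy with ⟨h1, h2⟩ | ⟨h1, h2, h3, h4⟩ | ⟨h1, h2, h3, h4⟩ | ⟨h1, h2, h3, h4⟩ |
        ⟨h1, h2, h3, h4⟩ | ⟨h1, h2, h3, h4⟩ | ⟨h1, h2, h3, h4⟩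
      · exact Or.inl ⟨h1, h2⟩
      · exfalso; omega
      · exact Or.inr ⟨h1, by simp only; omega⟩
      all_goals (exfalso; omega)
    · rintro ⟨j', i⟩ hy
      simp only [gad] at hy
      rcases hy with ⟨h1, h2⟩ | ⟨h1, h2, h3, h4⟩ | ⟨h1, h2, h3, h4⟩ | ⟨h1, h2, h3, h4⟩ |
        ⟨h1, h2, h3, h4⟩ | ⟨h1, h2, h3, h4⟩ | ⟨h1, h2, h3, h4⟩
      · exact ⟨h1.symm, by simp only; omega⟩
      all_goals (exfalso; omega)

end J10137

end

end Pool.Agent.KS
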