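import Pool.Agent.H875KS.Final

set_option autoImplicit false

namespace Pool.Agent.KS

open Finset Filter Topology

/-- A sequence with vanishing second differences is bounded below by its end values. -/
theorem affine_min (F : ℕ → ℝ) (a b : ℕ) (hab : a ≤ b)
    (h : ∀ k, a < k → k < b → F (k + 1) - 2 * F k + F (k - 1) = 0) (c : ℝ)
    (ha : c ≤ F a) (hb : c ≤ F b) : ∀ k, a ≤ k → k ≤ b → c ≤ F k := by
  have key : ∀ d, a + d ≤ b → F (a + d) = F a + d * (F (a + 1) - F a) := by
    intro d
    induction d using Nat.strong_induction_on with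
    | _ d ih =>
      intro hd
      match d, ih, hd with
      | 0, _, _ => simp
      | 1, _, _ => simp
      | (d + 2), ih, hd =>
        have h1 := ih d (by omega) (by omega)
        have h2 := ih (d + 1) (by omega) (by omega)
        have h3 := h (a + (d + 1)) (by omega) (by omega)
        have e1 : a + (d + 1) - 1 = a + d := by omega
        have e2 : a + (d + 1) + 1 = a + (d + 2) := by omega
        rw [e1, e2] at h3
        rw [h1, h2] at h3
        have e3 : F (a + (d + 2)) = 2 * (F a + ((d + 1 : ℕ) : ℝ) * (F (a + 1) - F a)) -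
          (F a + (d : ℝ) * (F (a + 1) - F a)) := by linarith
        rw [e3]
        push_cast
        ring
  intro k hak hkb
  obtain ⟨d, rfl⟩ := Nat.exists_eq_add_of_le hak
  obtain ⟨e, he⟩ := Nat.exists_eq_add_of_le hab
  have h1 := key d hkb
  have h2 := key e (by omega)
  rw [← he] at h2
  have hde : d ≤ e := by omega
  have hde' : (d : ℝ) ≤ e := by exact_mod_cast hde
  rw [h1]
  by_cases hs : 0 ≤ F (a + 1) - F a
  · have : 0 ≤ (d : ℝ) * (F (a + 1) - F a) := by positivity
    linarith
  · push Not at hs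
    have : (e : ℝ) * (F (a + 1) - F a) ≤ (d : ℝ) * (F (a + 1) - F a) := by
      exact mul_le_mul_of_nonpos_right hde' hs.le
    linarith

theorem gaps_leaf (M N h : ℕ) (hh : 3 ≤ h) (hN : 2 * h + 4 ≤ N) (H : Fin M → Fin 3 → ℕ → ℝ)
    (T η : ℝ)
    (hbot : ∀ (i : Fin M) (j : Fin 3) (k : ℕ), 1 ≤ k → k ≤ h + 2 →
      |H i j k - (3 * (i : ℕ) + 3 * M * k - (2 - (j : ℕ)) + ((min k h : ℕ) : ℝ) / h)| ≤ η)
    (htop : ∀ (i : Fin M) (j : Fin 3) (k : ℕ), 1 ≤ k → k ≤ h + 2 →
      |T - H i j (N + 1 - k) - (3 * (M - 1 - (i : ℕ)) + 3 * M * k - (j : ℕ) +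
        ((min k h : ℕ) : ℝ) / h)| ≤ η)
    (haff : ∀ (i : Fin M) (j : Fin 3) (k : ℕ), h < k → k < N + 1 - h →
      H i j (k + 1) - 2 * H i j k + H i j (k - 1) = 0)
    (hmono : ∀ (i : Fin M) (j : Fin 3) (k : ℕ), 1 ≤ k → k < N → H i j k ≤ H i j (k + 1))
    (i : Fin M) (j : Fin 3) (k : ℕ) (i' : Fin M) (j' : Fin 3) (k' : ℕ)
    (hk : 1 ≤ k) (hkN : k ≤ N) (hk' : 1 ≤ k') (hkN' : k' ≤ N) (hne : (i, j, k) ≠ (i', j', k')) :
    1 - 2 * η ≤ |H i j k - H i' j' k'| := by
  have hh0 : (0 : ℝ) < h := by exact_mod_cast (by omega : 0 < h)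
  -- the claim
  have claim : ∀ (e : ℕ) (i i' : Fin M) (j j' : Fin 3), e ≤ 1 →
      (e = 0 → 3 * (i : ℕ) + (j : ℕ) + 1 ≤ 3 * (i' : ℕ) + (j' : ℕ)) →
      ∀ k, 1 ≤ k → k + e ≤ N → 1 - 2 * η ≤ H i' j' (k + e) - H i j k := by
    intro e i i' j j' he he0 
    have hD : (1 : ℝ) ≤ 3 * ((i' : ℕ) - (i : ℕ)) + 3 * M * e + ((j' : ℕ) - (j : ℕ)) := by
      have h1 : (1 : ℤ) ≤ 3 * ((i' : ℕ) - (i : ℕ)) + 3 * M * e + ((j' : ℕ) - (j : ℕ)) := by
        rcases Nat.eq_zero_or_pos e with h0 | h0
        · have := he0 h0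
          subst h0
          push_cast
          omega
        · have : e = 1 := by omega
          subst this
          have h2 := i.2
          have h3 := j.2
          push_cast
          omega
      exact_mod_cast h1
    have hbotF : ∀ k, 1 ≤ k → k ≤ h + 1 → 1 - 2 * η ≤ H i' j' (k + e) - H i j k := by
      intro k hk1 hk2
      have h1 := abs_le.1 (hbot i j k hk1 (by omega))
      have h2 := abs_le.1 (hbot i' j' (k + e) (by omega) (by omega))
      have h3 : ((min k h : ℕ) : ℝ) / h ≤ ((min (k + e) h : ℕ) : ℝ) / h := by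
        apply div_le_div_of_nonneg_right _ hh0.le
        exact_mod_cast (by omega : min k h ≤ min (k + e) h)
      push_cast at h1 h2 h3
      nlinarith [h1.1, h1.2, h2.1, h2.2, h3]
    have htopF : ∀ k, 1 ≤ k → k + e ≤ N → N ≤ k + h + e → 1 - 2 * η ≤ H i' j' (k + e) - H i j k := by
      intro k hk1 hk2 hk3
      have h1 := abs_le.1 (htop i j (N + 1 - k) (by omega) (by omega))
      have h2 := abs_le.1 (htop i' j' (N + 1 - k - e) (by omega) (by omega))
      have e1 : N + 1 - (N + 1 - k) = k := by omega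
      have e2 : N + 1 - (N + 1 - k - e) = k + e := by omega
      rw [e1] at h1
      rw [e2] at h2
      have h3 : ((min (N + 1 - k - e) h : ℕ) : ℝ) / h ≤ ((min (N + 1 - k) h : ℕ) : ℝ) / h := by
        apply div_le_div_of_nonneg_right _ hh0.le
        exact_mod_cast (by omega : min (N + 1 - k - e) h ≤ min (N + 1 - k) h)
      have e3 : ((N + 1 - k - e : ℕ) : ℝ) = N + 1 - k - e := by
        rw [Nat.cast_sub (by omega), Nat.cast_sub (by omega)]
        push_cast
        ring
      have e4 : ((N + 1 - k : ℕ) : ℝ) = N + 1 - k := by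
        rw [Nat.cast_sub (by omega)]
        push_cast
        ring
      rw [e4] at h1
      rw [e3] at h2
      nlinarith [h1.1, h1.2, h2.1, h2.2, h3]
    intro k hk1 hk2
    by_cases c1 : k ≤ h + 1
    · exact hbotF k hk1 c1
    by_cases c2 : N ≤ k + h + e
    · exact htopF k hk1 hk2 c2
    have := affine_min (fun k => H i' j' (k + e) - H i j k) (h + 1) (N - h - e) (by omega) (by
      intro k h1 h2
      have a1 := haff i j k (by omega) (by omega)
      have a2 := haff i' j' (k + e) (by omega) (by omega)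
      have e1 : k + e + 1 = k + 1 + e := by omega
      have e2 : k + e - 1 = k - 1 + e := by omega
      rw [e1, e2] at a2
      show H i' j' (k + 1 + e) - H i j (k + 1) - 2 * (H i' j' (k + e) - H i j k) +
        (H i' j' (k - 1 + e) - H i j (k - 1)) = 0
      linarith) (1 - 2 * η) (hbotF (h + 1) (by omega) (by omega))
      (htopF (N - h - e) (by omega) (by omega) (by omega)) k (by omega) (by omega)
    exact this
  have mono : ∀ (i : Fin M) (j : Fin 3) (d k : ℕ), 1 ≤ k → k + d ≤ N → H i j k ≤ H i j (k + d) := by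
    intro i j d
    induction d with
    | zero => intro k _ _; exact le_refl _
    | succ d ih =>
      intro k hk1 hk2
      have h1 := ih k hk1 (by omega)
      have h2 := hmono i j (k + d) (by omega) (by omega)
      have e1 : k + (d + 1) = k + d + 1 := by omega
      rw [e1]
      linarith
  have lt_case : ∀ (i i' : Fin M) (j j' : Fin 3) (k k' : ℕ), 1 ≤ k → k < k' → k' ≤ N →
      1 - 2 * η ≤ H i' j' k' - H i j k := by
    intro i i' j j' k k' h1 h2 h3
    have c1 := claim 1 i i' j j' (le_refl 1) (by omega) k h1 (by omega)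
    have c2 := mono i' j' (k' - (k + 1)) (k + 1) (by omega) (by omega)
    have e1 : k + 1 + (k' - (k + 1)) = k' := by omega
    rw [e1] at c2
    linarith
  rcases lt_trichotomy k k' with hlt | heq | hgt
  · have := lt_case i i' j j' k k' hk hlt hkN'
    rw [abs_sub_comm]
    exact le_trans this (le_abs_self _)
  · subst heq
    have hne2 : 3 * (i : ℕ) + (j : ℕ) ≠ 3 * (i' : ℕ) + (j' : ℕ) := by
      intro hcon
      apply hne
      have h1 := j.2
      have h2 := j'.2
      have h3 : (i : ℕ) = i' := by omega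
      have h4 : (j : ℕ) = j' := by omega
      rw [Fin.ext h3, Fin.ext h4]
    rcases Nat.lt_or_gt_of_ne hne2 with h1 | h1
    · have := claim 0 i i' j j' (by omega) (by intro _; omega) k hk (by omega)
      rw [abs_sub_comm]
      exact le_trans this (le_abs_self _)
    · have := claim 0 i' i j' j (by omega) (by intro _; omega) k hk (by omega)
      exact le_trans this (le_abs_self _)
  · have := lt_case i' i j' j k' k hk' hgt hkN
    exact le_trans this (le_abs_self _)

end Pool.Agent.KS
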