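import Pool.Agent.H875KS.Final

set_option autoImplicit false

namespace Pool.Agent.KS

open Finset Filter Topology

theorem hD_all
    (h_comp : ∀ (X : Type) [Fintype X] (r : X → X → Prop), (LE r).Nonempty → 1 ≤ Fintype.card X →
      1 < (LE (DR r)).card ∧
      (∀ i : Fin 6, ht (DR r) (Sum.inl i) = ht (DR (cs (Fintype.card X))) (Sum.inl i)) ∧
      (∀ (j : Fin 3) (x : X), ht (DR r) (Sum.inr (j, x)) =
        avg r (fun f => ht (DR (cs (Fintype.card X))) (Sum.inr (j, f x)))))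
    (h_chain : ∀ (s : ℕ), 1 ≤ s → ∀ (H : Fin 6 → ℝ),
      (∀ i, H i = ht (DR (cs s)) (Sum.inl i)) →
      H 5 = 3 * s + 7 - H 0 ∧ H 4 = 3 * s + 7 - H 1 ∧ H 3 = 3 * s + 7 - H 2 ∧
      H 0 = H 1 / 2 ∧ H 2 = H 1 + (3 * s + 7 - H 1) / (s + 2) ∧
      (∀ m : Fin s, ht (DR (cs s)) (Sum.inr (0, m)) = H 3 * ((m : ℕ) + 1) / (s + 1)) ∧
      (∀ m : Fin s, ht (DR (cs s)) (Sum.inr (1, m)) =
        H 1 + (H 4 - H 1) * ((m : ℕ) + 1) / (s + 1)) ∧
      (∀ m : Fin s, ht (DR (cs s)) (Sum.inr (2, m)) =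
        H 2 + (3 * s + 7 - H 2) * ((m : ℕ) + 1) / (s + 1)))
    (X : Type) [Fintype X] (r : X → X → Prop) (hr : (LE r).Nonempty) (hX : 1 ≤ Fintype.card X) :
    1 < (LE (DR r)).card ∧
      ∀ (s t T : ℝ), s = Fintype.card X → t = ht (DR (cs (Fintype.card X))) (Sum.inl 1) →
      T = 3 * s + 7 →
      ht (DR r) (Sum.inl 0) = t / 2 ∧ ht (DR r) (Sum.inl 1) = t ∧
      ht (DR r) (Sum.inl 2) = t + (T - t) / (s + 2) ∧
      ht (DR r) (Sum.inl 3) = T - (t + (T - t) / (s + 2)) ∧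
      ht (DR r) (Sum.inl 4) = T - t ∧ ht (DR r) (Sum.inl 5) = T - t / 2 ∧
      (∀ x : X, ht (DR r) (Sum.inr (0, x)) = (T - (t + (T - t) / (s + 2))) * ht r x / (s + 1)) ∧
      (∀ x : X, ht (DR r) (Sum.inr (1, x)) = t + (T - t - t) * ht r x / (s + 1)) ∧
      (∀ x : X, ht (DR r) (Sum.inr (2, x)) =
        (t + (T - t) / (s + 2)) + (T - (t + (T - t) / (s + 2))) * ht r x / (s + 1)) := by
  obtain ⟨hc, hn, hm⟩ := h_comp X r hr hX
  refine ⟨hc, ?_⟩
  intro s t T hs ht' hT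
  obtain ⟨h5, h4, h3, h0, h2, m0, m1, m2⟩ := h_chain (Fintype.card X) hX
    (fun i => ht (DR (cs (Fintype.card X))) (Sum.inl i)) (fun i => rfl)

  rw [← hs, ← ht'] at h2
  rw [← ht'] at h0
  rw [← hs, ← ht', ← hT] at h4
  rw [← hs, ← hT] at h5 h3
  rw [← hT] at h2
  have hH3 : ht (DR (cs (Fintype.card X))) (Sum.inl 3) = T - (t + (T - t) / (s + 2)) := by
    rw [h3, h2]
  have haff : ∀ (a b : ℝ) (x : X), avg r (fun f => a + b * (((f x : ℕ) : ℝ) + 1) / (s + 1)) =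
      a + b * ht r x / (s + 1) := by
    intro a b x
    rw [avg_add, avg_const r hr]
    have h1 : (fun f : X ≃ Fin (Fintype.card X) => b * (((f x : ℕ) : ℝ) + 1) / (s + 1)) =
        fun f => (b / (s + 1)) * (pos f x : ℝ) := by
      funext f
      unfold pos
      push_cast
      ring
    rw [h1, avg_mul]
    unfold ht
    ring
  refine ⟨by rw [hn, h0], by rw [hn, ht'], by rw [hn, h2], by rw [hn, hH3], by rw [hn, h4],
    by rw [hn, h5, h0], ?_, ?_, ?_⟩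
  · intro x
    rw [hm]
    simp only [m0, hH3]
    rw [← hs]
    have := haff 0 (T - (t + (T - t) / (s + 2))) x
    simp only [zero_add] at this
    exact this
  · intro x
    rw [hm]
    simp only [m1]
    rw [← hs, ← ht', h4]
    exact haff t (T - t - t) x
  · intro x
    rw [hm]
    simp only [m2]
    rw [← hs, ← hT, h2]
    exact haff _ _ x

theorem theta_tendsto
    (h_f : ∀ s : ℕ, 1 ≤ s →
      ht (DR (cs s)) (Sum.inl 1) =
        (∑ j ∈ range (s + 2), ((j : ℝ) + 2) * ((j : ℝ) + 1) *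
          ((2 * s - j + 1).choose s : ℝ) * ((3 * s - j + 4).choose (s + 1) : ℝ)) /
        (∑ j ∈ range (s + 2), ((j : ℝ) + 1) *
          ((2 * s - j + 1).choose s : ℝ) * ((3 * s - j + 4).choose (s + 1) : ℝ)))
    (h_l : Tendsto (fun s : ℕ => (∑ j ∈ range (s + 2), ((j : ℝ) + 2) * ((j : ℝ) + 1) *
        ((2 * s - j + 1).choose s : ℝ) * ((3 * s - j + 4).choose (s + 1) : ℝ)) /
      (∑ j ∈ range (s + 2), ((j : ℝ) + 1) *
        ((2 * s - j + 1).choose s : ℝ) * ((3 * s - j + 4).choose (s + 1) : ℝ)))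
      atTop (𝓝 3)) :
    Tendsto (fun s : ℕ => ht (DR (cs s)) (Sum.inl 1)) atTop (𝓝 3) := by
  refine h_l.congr' ?_
  filter_upwards [eventually_ge_atTop 1] with s hs
  exact (h_f s hs).symm

end Pool.Agent.KS
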