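import Pool.Agent.H875KS.Defs2

set_option autoImplicit false

namespace Pool.Agent.KS

open Finset Filter Topology

noncomputable section

namespace J10128

def mv {n : ℕ} (a b t : Fin n) : Fin n :=
  ⟨if (t : ℕ) = a then b else if (a : ℕ) < t ∧ (t : ℕ) ≤ b then t - 1 else
    if (b : ℕ) ≤ t ∧ (t : ℕ) < a then t + 1 else t, by
    have h1 := a.2
    have h2 := b.2
    have h3 := t.2
    split_ifs <;> omega⟩

theorem mv_val {n : ℕ} (a b t : Fin n) : (mv a b t : ℕ) =
    if (t : ℕ) = a then (b : ℕ) else if (a : ℕ) < t ∧ (t : ℕ) ≤ b then (t : ℕ) - 1 else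
    if (b : ℕ) ≤ t ∧ (t : ℕ) < a then (t : ℕ) + 1 else t := rfl

theorem mv_mv {n : ℕ} (a b t : Fin n) : mv b a (mv a b t) = t := by
  apply Fin.ext
  have h1 := a.2
  have h2 := b.2
  have h3 := t.2
  rw [mv_val, mv_val]
  split_ifs <;> omega

def mvE {n : ℕ} (a b : Fin n) : Fin n ≃ Fin n := ⟨mv a b, mv b a, mv_mv a b, mv_mv b a⟩

theorem mv_self {n : ℕ} (a b : Fin n) : mv a b a = b := by
  apply Fin.ext
  rw [mv_val, if_pos rfl]

theorem mv_lt {n : ℕ} (a b s t : Fin n) (hs : (s : ℕ) ≠ a) (ht : (t : ℕ) ≠ a)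
    (h : (s : ℕ) < t) : (mv a b s : ℕ) < mv a b t := by
  rw [mv_val, mv_val]
  split_ifs <;> omega

theorem mv_lo {n : ℕ} (a b t : Fin n) (h1 : (t : ℕ) < a) (h2 : (t : ℕ) < b) :
    (mv a b t : ℕ) = t := by
  rw [mv_val]
  split_ifs <;> omega

theorem mv_hi {n : ℕ} (a b t : Fin n) (h1 : (a : ℕ) < t) (h2 : (b : ℕ) < t) :
    (mv a b t : ℕ) = t := by
  rw [mv_val]
  split_ifs <;> omega

open Classical in
def hinv {α : Type} [Fintype α] (r : α → α → Prop) (x : α) (f : α ≃ Fin (Fintype.card α)) :
    α ≃ Fin (Fintype.card α) :=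
  if h : lo r f x + up r f x - pos f x - 1 < Fintype.card α then
    f.trans (mvE (f x) ⟨_, h⟩) else f

theorem hinv_eq {α : Type} [Fintype α] (r : α → α → Prop) (x : α) (f : α ≃ Fin (Fintype.card α))
    (h : lo r f x + up r f x - pos f x - 1 < Fintype.card α) :
    hinv r x f = f.trans (mvE (f x) ⟨_, h⟩) := by
  unfold hinv
  rw [dif_pos h]

theorem mem_LE {α : Type} [Fintype α] {r : α → α → Prop} {f : α ≃ Fin (Fintype.card α)} :
    f ∈ LE r ↔ ∀ x y, r x y → f x < f y := by
  unfold LE
  simp

open Classical in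
theorem lo_lt {α : Type} [Fintype α] {r : α → α → Prop} {f : α ≃ Fin (Fintype.card α)}
    (hf : f ∈ LE r) (x : α) : lo r f x < pos f x := by
  unfold lo
  rw [Finset.sup_lt_iff (by unfold pos; exact Nat.succ_pos _)]
  intro y hy
  have := (mem_LE.1 hf) y x (Finset.mem_filter.1 hy).2
  unfold pos
  have h2 : (f y : ℕ) < f x := this
  omega

open Classical in
theorem le_lo {α : Type} [Fintype α] {r : α → α → Prop} {f : α ≃ Fin (Fintype.card α)}
    (x y : α) (h : r y x) : pos f y ≤ lo r f x := by
  unfold lo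
  exact Finset.le_sup (f := fun y => pos f y) (Finset.mem_filter.2 ⟨Finset.mem_univ _, h⟩)

open Classical in
theorem lt_up {α : Type} [Fintype α] {r : α → α → Prop} {f : α ≃ Fin (Fintype.card α)}
    (hf : f ∈ LE r) (x : α) : pos f x < up r f x := by
  unfold up
  have h1 : (f x : ℕ) < Fintype.card α := (f x).2
  have h2 : (Finset.univ.filter (fun y => r x y)).sup (fun y => Fintype.card α + 1 - pos f y) ≤
      Fintype.card α - pos f x := by
    apply Finset.sup_le
    intro y hy
    have := (mem_LE.1 hf) x y (Finset.mem_filter.1 hy).2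
    have h2 : (f x : ℕ) < f y := this
    unfold pos
    omega
  unfold pos at *
  omega

open Classical in
theorem up_le {α : Type} [Fintype α] {r : α → α → Prop} {f : α ≃ Fin (Fintype.card α)}
    (x y : α) (h : r x y) : up r f x ≤ pos f y := by
  unfold up
  have h1 : (f y : ℕ) < Fintype.card α := (f y).2
  have h2 : Fintype.card α + 1 - pos f y ≤
      (Finset.univ.filter (fun y => r x y)).sup (fun y => Fintype.card α + 1 - pos f y) :=
    Finset.le_sup (f := fun y => Fintype.card α + 1 - pos f y)
      (Finset.mem_filter.2 ⟨Finset.mem_univ _, h⟩)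
  unfold pos at *
  omega

theorem up_le' {α : Type} [Fintype α] {r : α → α → Prop} (f : α ≃ Fin (Fintype.card α))
    (x : α) : up r f x ≤ Fintype.card α + 1 := by
  unfold up
  omega

open Classical in
theorem hinv_spec {α : Type} [Fintype α] {r : α → α → Prop} {f : α ≃ Fin (Fintype.card α)}
    (hf : f ∈ LE r) (x : α) : hinv r x f ∈ LE r ∧ lo r (hinv r x f) x = lo r f x ∧
      up r (hinv r x f) x = up r f x ∧ pos (hinv r x f) x = lo r f x + up r f x - pos f x ∧
      hinv r x (hinv r x f) = f := by
  have h1 := lo_lt hf x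
  have h2 := lt_up hf x
  have h3 := up_le' (r := r) f x
  have hxx : ¬ r x x := fun h => absurd ((mem_LE.1 hf) x x h) (lt_irrefl _)
  have hlt : lo r f x + up r f x - pos f x - 1 < Fintype.card α := by omega
  set b : Fin (Fintype.card α) := ⟨lo r f x + up r f x - pos f x - 1, hlt⟩ with hb
  have hbv : (b : ℕ) = lo r f x + up r f x - pos f x - 1 := rfl
  have hfx : pos f x = (f x : ℕ) + 1 := rfl
  have hi : hinv r x f = f.trans (mvE (f x) b) := by
    exact hinv_eq r x f hlt
  have hiv : ∀ y, hinv r x f y = mv (f x) b (f y) := by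
    intro y
    rw [hi]
    rfl
  have hix : hinv r x f x = b := by rw [hiv, mv_self]
  have hlow : ∀ y, r y x → (hinv r x f y : ℕ) = f y := by
    intro y hy
    rw [hiv]
    have h4 := le_lo (f := f) x y hy
    have h5 : pos f y = (f y : ℕ) + 1 := rfl
    exact mv_lo _ _ _ (by omega) (by omega)
  have hup : ∀ y, r x y → (hinv r x f y : ℕ) = f y := by
    intro y hy
    rw [hiv]
    have h4 := up_le (f := f) x y hy
    have h5 : pos f y = (f y : ℕ) + 1 := rfl
    exact mv_hi _ _ _ (by omega) (by omega)
  have hmem : hinv r x f ∈ LE r := by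
    rw [mem_LE]
    intro y z hyz
    by_cases hy : y = x
    · subst hy
      have hz : z ≠ y := fun h => hxx (h ▸ hyz)
      have h4 := up_le (f := f) y z hyz
      have h5 : pos f z = (f z : ℕ) + 1 := rfl
      show (hinv r y f y : ℕ) < hinv r y f z
      rw [hix, hup z hyz]
      omega
    · by_cases hz : z = x
      · subst hz
        have h4 := le_lo (f := f) z y hyz
        have h5 : pos f y = (f y : ℕ) + 1 := rfl
        show (hinv r z f y : ℕ) < hinv r z f z
        rw [hix, hlow y hyz]
        omega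
      · have h4 : (f y : ℕ) < f z := (mem_LE.1 hf) y z hyz
        show (hinv r x f y : ℕ) < hinv r x f z
        rw [hiv, hiv]
        refine mv_lt _ _ _ _ ?_ ?_ h4
        · intro h
          exact hy (f.injective (Fin.ext h))
        · intro h
          exact hz (f.injective (Fin.ext h))
  have hlo : lo r (hinv r x f) x = lo r f x := by
    unfold lo
    apply Finset.sup_congr rfl
    intro y hy
    have := hlow y (Finset.mem_filter.1 hy).2
    unfold pos
    omega
  have hup' : up r (hinv r x f) x = up r f x := by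
    unfold up
    congr 1
    apply Finset.sup_congr rfl
    intro y hy
    have := hup y (Finset.mem_filter.1 hy).2
    unfold pos
    omega
  have hpos : pos (hinv r x f) x = lo r f x + up r f x - pos f x := by
    unfold pos
    rw [hix, hbv]
    unfold pos at *
    omega
  refine ⟨hmem, hlo, hup', hpos, ?_⟩
  have hlt' : lo r (hinv r x f) x + up r (hinv r x f) x - pos (hinv r x f) x - 1
      < Fintype.card α := by
    rw [hlo, hup', hpos]
    have := (f x).2
    omega
  apply Equiv.ext
  intro y
  have hii : hinv r x (hinv r x f) = (hinv r x f).trans (mvE (hinv r x f x) ⟨_, hlt'⟩) := hinv_eq r x _ hlt'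
  have hc : (⟨lo r (hinv r x f) x + up r (hinv r x f) x - pos (hinv r x f) x - 1, hlt'⟩ :
      Fin (Fintype.card α)) = f x := by
    apply Fin.ext
    show lo r (hinv r x f) x + up r (hinv r x f) x - pos (hinv r x f) x - 1 = f x
    rw [hlo, hup', hpos]
    omega
  rw [hii, hc]
  show mv (hinv r x f x) (f x) (hinv r x f y) = f y
  rw [hix, hiv, mv_mv]


theorem harm {α : Type} [Fintype α] (r : α → α → Prop) (x : α) :
    2 * ht r x = avg r (fun f => (lo r f x : ℝ)) + avg r (fun f => (up r f x : ℝ)) := by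
  have key : ∑ f ∈ LE r, (pos f x : ℝ) =
      ∑ f ∈ LE r, ((lo r f x : ℝ) + (up r f x : ℝ) - (pos f x : ℝ)) := by
    apply Finset.sum_nbij' (hinv r x) (hinv r x)
    · intro f hf
      exact (hinv_spec hf x).1
    · intro f hf
      exact (hinv_spec hf x).1
    · intro f hf
      exact (hinv_spec hf x).2.2.2.2
    · intro f hf
      exact (hinv_spec hf x).2.2.2.2
    · intro f hf
      obtain ⟨h1, h2, h3, h4, h5⟩ := hinv_spec hf x
      rw [h2, h3, h4]
      have h6 := lt_up hf x
      rw [Nat.cast_sub (by omega)]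
      push_cast
      ring
  unfold ht avg
  rw [← add_div, ← Finset.sum_add_distrib, mul_div_assoc']
  congr 1
  rw [Finset.sum_sub_distrib] at key
  linarith

end J10128

end

end Pool.Agent.KS
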