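import Pool.Agent.H875KS.Defs2

set_option autoImplicit false

namespace Pool.Agent.KS

open Finset Filter Topology

noncomputable section

namespace J10161

theorem occ_take (x : Fin 3) (k : ℕ) (w : List (Fin 3)) (R : ℕ) :
    occ x k (w.take R) = min (occ x k w) R := by
  induction w generalizing k R with
  | nil => cases k <;> simp [occ]
  | cons c w ih =>
    cases R with
    | zero => cases k <;> simp [occ]
    | succ R =>
      cases k with
      | zero => simp [occ]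
      | succ k =>
        simp only [List.take_succ_cons, occ]
        split_ifs with h
        · rw [ih]; omega
        · rw [ih]; omega

theorem occ_zero (x : Fin 3) (w : List (Fin 3)) : occ x 0 w = 0 := by
  cases w <;> simp [occ]

theorem occ_lt_succ (x : Fin 3) (k : ℕ) (w : List (Fin 3)) (hk : k + 1 ≤ w.count x) :
    occ x k w < occ x (k + 1) w := by
  induction w generalizing k with
  | nil => simp at hk
  | cons c w ih =>
    by_cases h : c = x
    · subst h
      rw [List.count_cons_self] at hk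
      cases k with
      | zero => simp [occ]
      | succ k =>
        have := ih k (by omega)
        simp only [occ, if_true]
        omega
    · rw [List.count_cons_of_ne h] at hk
      have := ih k hk
      cases k with
      | zero => simp [occ, h]
      | succ k =>
        simp only [occ, if_neg h]
        omega

theorem occ_mono (x : Fin 3) (k l : ℕ) (w : List (Fin 3)) (hkl : k ≤ l) (hl : l ≤ w.count x) :
    occ x k w ≤ occ x l w := by
  induction l, hkl using Nat.le_induction with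
  | base => exact le_rfl
  | succ l hkl ih =>
    have h1 := ih (by omega)
    have h2 := occ_lt_succ x l w hl
    omega

theorem occ_ne (x y : Fin 3) (hxy : x ≠ y) (k l : ℕ) (w : List (Fin 3))
    (hk1 : 1 ≤ k) (hk : k ≤ w.count x) (hl1 : 1 ≤ l) (hl : l ≤ w.count y) :
    occ x k w ≠ occ y l w := by
  induction w generalizing k l with
  | nil => simp at hk; omega
  | cons c w ih =>
    obtain ⟨k, rfl⟩ : ∃ k', k = k' + 1 := ⟨k - 1, by omega⟩
    obtain ⟨l, rfl⟩ : ∃ l', l = l' + 1 := ⟨l - 1, by omega⟩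
    by_cases hx : c = x
    · subst hx
      rw [List.count_cons_self] at hk
      rw [List.count_cons_of_ne hxy] at hl
      simp only [occ, if_true, if_neg hxy]
      cases k with
      | zero =>
        rw [occ_zero]
        have := occ_mono y 1 (l + 1) w (by omega) hl
        have h2 := occ_lt_succ y 0 w (by omega)
        rw [occ_zero] at h2
        simp only [Nat.zero_add] at h2
        omega
      | succ k =>
        have := ih (k + 1) (l + 1) (by omega) (by omega) (by omega) hl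
        omega
    · by_cases hy : c = y
      · subst hy
        rw [List.count_cons_self] at hl
        rw [List.count_cons_of_ne hx] at hk
        simp only [occ, if_true, if_neg hx]
        cases l with
        | zero =>
          rw [occ_zero]
          have := occ_mono x 1 (k + 1) w (by omega) hk
          have h2 := occ_lt_succ x 0 w (by omega)
          rw [occ_zero] at h2
          simp only [Nat.zero_add] at h2
          omega
        | succ l =>
          have := ih (k + 1) (l + 1) (by omega) hk (by omega) (by omega)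
          omega
      · rw [List.count_cons_of_ne hx] at hk
        rw [List.count_cons_of_ne hy] at hl
        have := ih (k + 1) (l + 1) (by omega) hk (by omega) hl
        simp only [occ, if_neg hx, if_neg hy]
        omega

theorem occ_le (x : Fin 3) (k : ℕ) (w : List (Fin 3)) (hk : k ≤ w.count x) :
    k ≤ occ x k w := by
  induction k with
  | zero => omega
  | succ k ih =>
    have h1 := ih (by omega)
    have h2 := occ_lt_succ x k w hk
    omega

theorem occ_add (x y : Fin 3) (hxy : x ≠ y) (k l : ℕ) (w : List (Fin 3))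
    (hk : k ≤ w.count x) (hl : l ≤ w.count y) :
    k + l ≤ max (occ x k w) (occ y l w) := by
  induction w generalizing k l with
  | nil => simp at hk hl; omega
  | cons c w ih =>
    cases k with
    | zero =>
      have := occ_le y l (c :: w) hl
      omega
    | succ k =>
      cases l with
      | zero =>
        have := occ_le x (k + 1) (c :: w) hk
        omega
      | succ l =>
        by_cases hx : c = x
        · subst hx
          rw [List.count_cons_self] at hk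
          rw [List.count_cons_of_ne hxy] at hl
          have := ih k (l + 1) (by omega) hl
          simp only [occ, if_true, if_neg hxy]
          omega
        · by_cases hy : c = y
          · subst hy
            rw [List.count_cons_self] at hl
            rw [List.count_cons_of_ne hx] at hk
            have := ih (k + 1) l hk (by omega)
            simp only [occ, if_true, if_neg hx]
            omega
          · rw [List.count_cons_of_ne hx] at hk
            rw [List.count_cons_of_ne hy] at hl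
            have := ih (k + 1) (l + 1) hk hl
            simp only [occ, if_neg hx, if_neg hy]
            omega

theorem mem_W_count {N : ℕ} {w : List (Fin 3)} (hw : w ∈ W N) (c : Fin 3) : w.count c = N := by
  unfold W words at hw
  exact (Finset.mem_filter.1 hw).2 c

def eta (x y : Fin 3) (h : ℕ) (w : List (Fin 3)) : ℕ :=
  if occ x 1 w < occ y h w then occ x 2 w - occ y h w else 0

def zeta (x y : Fin 3) (h : ℕ) (w : List (Fin 3)) : ℕ :=
  if occ x 1 w < occ y h w then occ x 1 w - occ y (h - 1) w else 0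

def tl (h : ℕ) (z : Fin 3) (w : List (Fin 3)) : ℕ :=
  if 2 * h - 1 ≤ occ z 2 w then occ z 2 w else 0

def bot (h : ℕ) (w : List (Fin 3)) : Prop :=
  occ 1 h w < occ 0 1 w ∨ occ 2 h w < occ 0 1 w ∨ occ 0 h w < occ 1 1 w

def good3 (x y : Fin 3) : Prop := (x = 0 ∧ y = 1) ∨ (x = 0 ∧ y = 2) ∨ (x = 1 ∧ y = 0)

structure Facts (h : ℕ) (w : List (Fin 3)) : Prop where
  s : ∀ x : Fin 3, occ x 1 w < occ x 2 w
  t : ∀ x : Fin 3, occ x 2 w ≤ occ x h w
  u : ∀ x : Fin 3, occ x 1 w ≤ occ x (h - 1) w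
  v : ∀ x : Fin 3, occ x (h - 1) w < occ x h w
  p : ∀ x y : Fin 3, x ≠ y → h + h ≤ max (occ x h w) (occ y h w)
  q : ∀ x y : Fin 3, x ≠ y → (h - 1) + h ≤ max (occ x (h - 1) w) (occ y h w)

theorem facts {N h : ℕ} (h2 : 2 ≤ h) (hN : h ≤ N) {w : List (Fin 3)} (hw : w ∈ W N) :
    Facts h w := by
  have hc := mem_W_count hw
  refine ⟨fun x => ?_, fun x => ?_, fun x => ?_, fun x => ?_, fun x y hxy => ?_,
    fun x y hxy => ?_⟩
  · exact occ_lt_succ x 1 w (by rw [hc]; omega)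
  · exact occ_mono x 2 h w h2 (by rw [hc]; omega)
  · exact occ_mono x 1 (h - 1) w (by omega) (by rw [hc]; omega)
  · have := occ_lt_succ x (h - 1) w (by rw [hc]; omega)
    rwa [Nat.sub_add_cancel (by omega)] at this
  · exact occ_add x y hxy h h w (by rw [hc]; omega) (by rw [hc]; omega)
  · exact occ_add x y hxy (h - 1) h w (by rw [hc]; omega) (by rw [hc]; omega)

theorem eta_bad {h : ℕ} (h2 : 2 ≤ h) {w : List (Fin 3)} (F : Facts h w) {x y : Fin 3}
    (hxy : good3 x y) (hb : bot h w) :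
    eta x y h w ≤ tl h 0 w + tl h 1 w := by
  have s0 := F.s 0
  have s1 := F.s 1
  have s2 := F.s 2
  have t0 := F.t 0
  have t1 := F.t 1
  have t2 := F.t 2
  have p01 := F.p 0 1 (by decide)
  have p02 := F.p 0 2 (by decide)
  have p12 := F.p 1 2 (by decide)
  unfold eta tl
  unfold bot at hb
  rcases hxy with ⟨rfl, rfl⟩ | ⟨rfl, rfl⟩ | ⟨rfl, rfl⟩ <;> split_ifs <;> omega

theorem zeta_bad {h : ℕ} (h2 : 2 ≤ h) {w : List (Fin 3)} (F : Facts h w) {x y : Fin 3}
    (hxy : good3 x y) (hb : bot h w) :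
    zeta x y h w ≤ tl h 0 w + tl h 1 w := by
  have s0 := F.s 0
  have s1 := F.s 1
  have s2 := F.s 2
  have u0 := F.u 0
  have u1 := F.u 1
  have u2 := F.u 2
  have v0 := F.v 0
  have v1 := F.v 1
  have v2 := F.v 2
  have q01 := F.q 0 1 (by decide)
  have q02 := F.q 0 2 (by decide)
  have q12 := F.q 1 2 (by decide)
  have q10 := F.q 1 0 (by decide)
  have q20 := F.q 2 0 (by decide)
  have q21 := F.q 2 1 (by decide)
  unfold zeta tl
  unfold bot at hb
  rcases hxy with ⟨rfl, rfl⟩ | ⟨rfl, rfl⟩ | ⟨rfl, rfl⟩ <;> split_ifs <;> omega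

theorem min_bad {h : ℕ} (h2 : 2 ≤ h) {w : List (Fin 3)} (F : Facts h w) :
    min (eta 0 1 h w) (eta 0 2 h w) ≤ tl h 0 w := by
  have s0 := F.s 0
  have t0 := F.t 0
  have p12 := F.p 1 2 (by decide)
  unfold eta tl
  split_ifs <;> omega

theorem not_good_cases {N h : ℕ} (h1 : 1 ≤ h) (hN : h ≤ N) {w : List (Fin 3)} (hw : w ∈ W N)
    (hg : w ∉ good N h) :
    bot h w ∨ occ 2 N w < occ 1 (N + 1 - h) w ∨ occ 2 N w < occ 0 (N + 1 - h) w ∨
    occ 1 N w < occ 2 (N + 1 - h) w := by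
  have hc := mem_W_count hw
  have e1 := occ_ne 0 1 (by decide) 1 h w (by omega) (by rw [hc]; omega) h1 (by rw [hc]; omega)
  have e2 := occ_ne 0 2 (by decide) 1 h w (by omega) (by rw [hc]; omega) h1 (by rw [hc]; omega)
  have e3 := occ_ne 1 0 (by decide) 1 h w (by omega) (by rw [hc]; omega) h1 (by rw [hc]; omega)
  have e4 := occ_ne 1 2 (by decide) (N + 1 - h) N w (by omega) (by rw [hc]; omega) (by omega)
    (by rw [hc])
  have e5 := occ_ne 0 2 (by decide) (N + 1 - h) N w (by omega) (by rw [hc]; omega) (by omega)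
    (by rw [hc])
  have e6 := occ_ne 2 1 (by decide) (N + 1 - h) N w (by omega) (by rw [hc]; omega) (by omega)
    (by rw [hc])
  unfold good at hg
  rw [Finset.mem_filter] at hg
  unfold bot
  by_contra hcon
  apply hg
  refine ⟨hw, ?_⟩
  omega

theorem pw {N h R : ℕ} (h2 : 2 ≤ h) (hN : h ≤ N) {x : Fin 3}
    (φ : List (Fin 3) → ℕ) {w : List (Fin 3)} (hw : w ∈ W N)
    (hb : φ w ≤ occ x 2 w)
    (ht1 : occ x 2 w ≤ R → φ w ≤ φ (w.take R))
    (hbad : bot h w → φ w ≤ tl h 0 w + tl h 1 w) :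
    φ w ≤ (if w ∈ good N h then φ w else 0) + tl h 0 w + tl h 1 w
      + (if occ 2 N w < occ 1 (N + 1 - h) w then φ (w.take R) else 0)
      + (if occ 2 N w < occ 0 (N + 1 - h) w then φ (w.take R) else 0)
      + (if occ 1 N w < occ 2 (N + 1 - h) w then φ (w.take R) else 0)
      + (if R + 1 ≤ occ x 2 w then occ x 2 w else 0) := by
  by_cases hg : w ∈ good N h
  · rw [if_pos hg]; omega
  · rcases not_good_cases (by omega) hN hw hg with hc | hc | hc | hc
    · have := hbad hc; omega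
    · rw [if_pos hc]
      split_ifs <;> omega
    · rw [if_pos hc]
      split_ifs <;> omega
    · rw [if_pos hc]
      split_ifs <;> omega

theorem sum_tl {C : ℝ}
    (h_tail : ∀ (x : Fin 3) (N m : ℕ), 4 ≤ N →
      (∑ w ∈ (W N).filter (fun w => m ≤ occ x 2 w), (occ x 2 w : ℝ)) ≤
        C * ((m : ℝ) + 1) ^ 2 * (2 / 3) ^ m * ((W N).card : ℝ))
    {N h : ℕ} (h1 : 1 ≤ h) (hN4 : 4 ≤ N) (z : Fin 3) :
    ∑ w ∈ W N, (tl h z w : ℝ) ≤ C * (2 * h) ^ 2 * (2 / 3) ^ (2 * h - 1) * ((W N).card : ℝ) := by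
  have := h_tail z N (2 * h - 1) hN4
  have e : (((2 * h - 1 : ℕ) : ℝ) + 1) = 2 * h := by
    rw [Nat.cast_sub (by omega)]; push_cast; ring
  rw [e] at this
  refine le_trans (le_of_eq ?_) this
  rw [Finset.sum_filter]
  refine Finset.sum_congr rfl (fun w _ => ?_)
  unfold tl
  split_ifs <;> simp

theorem core {C : ℝ}
    (h_tail : ∀ (x : Fin 3) (N m : ℕ), 4 ≤ N →
      (∑ w ∈ (W N).filter (fun w => m ≤ occ x 2 w), (occ x 2 w : ℝ)) ≤
        C * ((m : ℝ) + 1) ^ 2 * (2 / 3) ^ m * ((W N).card : ℝ))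
    (h_take : ∀ (x y : Fin 3) (_ : x ≠ y) (N h R : ℕ) (_ : 1 ≤ h) (_ : h + R ≤ N)
      (G : List (Fin 3) → ℝ) (_ : ∀ w, 0 ≤ G w) (_ : ∀ w ∈ W N, G w = G (w.take R)),
      (∑ w ∈ (W N).filter (fun w => occ x N w < occ y (N + 1 - h) w), G w) ≤
        ((N : ℝ) / (2 * N - R)) ^ h * ∑ w ∈ W N, G w)
    {N h R : ℕ} (h2 : 2 ≤ h) (hN4 : 4 ≤ N) (hR : h + R ≤ N) (hR2 : 2 * R ≤ N) {x : Fin 3}
    (φ : List (Fin 3) → ℕ)
    (hb : ∀ w ∈ W N, φ w ≤ occ x 2 w)
    (ht1 : ∀ w ∈ W N, occ x 2 w ≤ R → φ w ≤ φ (w.take R))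
    (ht2 : ∀ w ∈ W N, φ (w.take R) ≤ φ w)
    (hbad : ∀ w ∈ W N, bot h w → φ w ≤ tl h 0 w + tl h 1 w) :
    ∑ w ∈ W N, (φ w : ℝ) ≤ ∑ w ∈ good N h, (φ w : ℝ)
      + (2 * (C * (2 * h) ^ 2 * (2 / 3) ^ (2 * h - 1))) * ((W N).card : ℝ)
      + (3 * (3 / 4) ^ h) * ∑ w ∈ W N, (φ w : ℝ)
      + (C * ((R : ℝ) + 2) ^ 2 * (2 / 3) ^ (R + 1)) * ((W N).card : ℝ) := by
  have hG0 : ∀ w : List (Fin 3), (0 : ℝ) ≤ (φ (w.take R) : ℝ) := fun w => Nat.cast_nonneg _
  have hGt : ∀ w ∈ W N, (φ (w.take R) : ℝ) = (φ ((w.take R).take R) : ℝ) := by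
    intro w _
    rw [List.take_take, min_self]
  have hsub : ∑ w ∈ W N, (φ (w.take R) : ℝ) ≤ ∑ w ∈ W N, (φ w : ℝ) :=
    Finset.sum_le_sum (fun w hw => by exact_mod_cast ht2 w hw)
  have hS0 : (0 : ℝ) ≤ ∑ w ∈ W N, (φ (w.take R) : ℝ) := Finset.sum_nonneg (fun w _ => hG0 w)
  have hNpos : (0 : ℝ) < N := by
    have : 0 < N := by omega
    exact_mod_cast this
  have hR2' : 2 * (R : ℝ) ≤ N := by exact_mod_cast hR2
  have hfrac : (N : ℝ) / (2 * N - R) ≤ 3 / 4 := by
    rw [div_le_iff₀ (by linarith)]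
    linarith
  have hfrac0 : (0 : ℝ) ≤ (N : ℝ) / (2 * N - R) := div_nonneg hNpos.le (by linarith)
  have hpow : ((N : ℝ) / (2 * N - R)) ^ h ≤ (3 / 4) ^ h := pow_le_pow_left₀ hfrac0 hfrac h
  have htop : ∀ u v : Fin 3, u ≠ v →
      ∑ w ∈ W N, (if occ u N w < occ v (N + 1 - h) w then (φ (w.take R) : ℝ) else 0) ≤
        (3 / 4) ^ h * ∑ w ∈ W N, (φ w : ℝ) := by
    intro u v huv
    have := h_take u v huv N h R (by omega) hR (fun w => (φ (w.take R) : ℝ)) hG0 hGt
    rw [Finset.sum_filter] at this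
    refine this.trans ?_
    calc ((N : ℝ) / (2 * N - R)) ^ h * ∑ w ∈ W N, (φ (w.take R) : ℝ)
        ≤ (3 / 4) ^ h * ∑ w ∈ W N, (φ (w.take R) : ℝ) :=
          mul_le_mul_of_nonneg_right hpow hS0
      _ ≤ _ := mul_le_mul_of_nonneg_left hsub (by positivity)
  have ht := h_tail x N (R + 1) hN4
  rw [Finset.sum_filter] at ht
  have hgood : ∑ w ∈ W N, (if w ∈ good N h then (φ w : ℝ) else 0) =
      ∑ w ∈ good N h, (φ w : ℝ) := by
    rw [← Finset.sum_filter]
    congr 1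
    ext w
    rw [Finset.mem_filter]
    constructor
    · exact fun hh => hh.2
    · intro hh
      exact ⟨(Finset.mem_filter.1 hh).1, hh⟩
  have hpw : ∑ w ∈ W N, (φ w : ℝ) ≤ ∑ w ∈ W N, ((if w ∈ good N h then (φ w : ℝ) else 0)
      + (tl h 0 w : ℝ) + (tl h 1 w : ℝ)
      + (if occ 2 N w < occ 1 (N + 1 - h) w then (φ (w.take R) : ℝ) else 0)
      + (if occ 2 N w < occ 0 (N + 1 - h) w then (φ (w.take R) : ℝ) else 0)
      + (if occ 1 N w < occ 2 (N + 1 - h) w then (φ (w.take R) : ℝ) else 0)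
      + (if R + 1 ≤ occ x 2 w then (occ x 2 w : ℝ) else 0)) := by
    refine Finset.sum_le_sum (fun w hw => ?_)
    have := pw h2 (by omega : h ≤ N) (R := R) (x := x) φ hw (hb w hw) (ht1 w hw) (hbad w hw)
    have h' : (φ w : ℝ) ≤ (((if w ∈ good N h then φ w else 0) + tl h 0 w + tl h 1 w
      + (if occ 2 N w < occ 1 (N + 1 - h) w then φ (w.take R) else 0)
      + (if occ 2 N w < occ 0 (N + 1 - h) w then φ (w.take R) else 0)
      + (if occ 1 N w < occ 2 (N + 1 - h) w then φ (w.take R) else 0)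
      + (if R + 1 ≤ occ x 2 w then occ x 2 w else 0) : ℕ) : ℝ) := by exact_mod_cast this
    push_cast at h'
    exact h'
  rw [Finset.sum_add_distrib, Finset.sum_add_distrib, Finset.sum_add_distrib,
    Finset.sum_add_distrib, Finset.sum_add_distrib, Finset.sum_add_distrib, hgood] at hpw
  have e1 := sum_tl h_tail (by omega : 1 ≤ h) hN4 0
  have e2 := sum_tl h_tail (by omega : 1 ≤ h) hN4 1
  have e3 := htop 2 1 (by decide)
  have e4 := htop 2 0 (by decide)
  have e5 := htop 1 2 (by decide)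
  push_cast at ht
  have e6 : (R : ℝ) + 1 + 1 = R + 2 := by ring
  rw [e6] at ht
  linarith

theorem card_good {N h : ℕ} (h1 : 1 ≤ h) (hN : h ≤ N)
    (h_viol : ∀ (x y : Fin 3) (_ : x ≠ y) (N h : ℕ) (_ : 1 ≤ h) (_ : h ≤ N),
      (((W N).filter (fun w => occ y h w < occ x 1 w)).card : ℝ) ≤
        (1 / 2) ^ h * ((W N).card : ℝ))
    (h_take : ∀ (x y : Fin 3) (_ : x ≠ y) (N h R : ℕ) (_ : 1 ≤ h) (_ : h + R ≤ N)
      (G : List (Fin 3) → ℝ) (_ : ∀ w, 0 ≤ G w) (_ : ∀ w ∈ W N, G w = G (w.take R)),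
      (∑ w ∈ (W N).filter (fun w => occ x N w < occ y (N + 1 - h) w), G w) ≤
        ((N : ℝ) / (2 * N - R)) ^ h * ∑ w ∈ W N, G w) :
    (1 - 6 * (1 / 2) ^ h) * ((W N).card : ℝ) ≤ ((good N h).card : ℝ) := by
  have hNpos : (0 : ℝ) < N := by
    have : 0 < N := by omega
    exact_mod_cast this
  have htop : ∀ u v : Fin 3, u ≠ v →
      ((((W N).filter (fun w => occ u N w < occ v (N + 1 - h) w)).card : ℕ) : ℝ) ≤
        (1 / 2) ^ h * ((W N).card : ℝ) := by
    intro u v huv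
    have := h_take u v huv N h 0 h1 (by omega) (fun _ => 1) (fun _ => zero_le_one)
      (fun _ _ => rfl)
    have e : (N : ℝ) / (2 * N - ((0 : ℕ) : ℝ)) = 1 / 2 := by
      push_cast
      field_simp
      ring
    rw [e] at this
    simpa using this
  have hsub : W N ⊆ good N h ∪ ((W N).filter (fun w => occ 1 h w < occ 0 1 w) ∪
      ((W N).filter (fun w => occ 2 h w < occ 0 1 w) ∪
      ((W N).filter (fun w => occ 0 h w < occ 1 1 w) ∪
      ((W N).filter (fun w => occ 2 N w < occ 1 (N + 1 - h) w) ∪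
      ((W N).filter (fun w => occ 2 N w < occ 0 (N + 1 - h) w) ∪
      (W N).filter (fun w => occ 1 N w < occ 2 (N + 1 - h) w)))))) := by
    intro w hw
    simp only [Finset.mem_union, Finset.mem_filter]
    by_cases hg : w ∈ good N h
    · exact Or.inl hg
    · right
      rcases not_good_cases h1 hN hw hg with hc | hc | hc | hc
      · rcases hc with hc | hc | hc
        · exact Or.inl ⟨hw, hc⟩
        · exact Or.inr (Or.inl ⟨hw, hc⟩)
        · exact Or.inr (Or.inr (Or.inl ⟨hw, hc⟩))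
      · exact Or.inr (Or.inr (Or.inr (Or.inl ⟨hw, hc⟩)))
      · exact Or.inr (Or.inr (Or.inr (Or.inr (Or.inl ⟨hw, hc⟩))))
      · exact Or.inr (Or.inr (Or.inr (Or.inr (Or.inr ⟨hw, hc⟩))))
  have hcard := Finset.card_le_card hsub
  have hle : (W N).card ≤ (good N h).card + (((W N).filter (fun w => occ 1 h w < occ 0 1 w)).card +
      (((W N).filter (fun w => occ 2 h w < occ 0 1 w)).card +
      (((W N).filter (fun w => occ 0 h w < occ 1 1 w)).card +
      (((W N).filter (fun w => occ 2 N w < occ 1 (N + 1 - h) w)).card +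
      (((W N).filter (fun w => occ 2 N w < occ 0 (N + 1 - h) w)).card +
      ((W N).filter (fun w => occ 1 N w < occ 2 (N + 1 - h) w)).card))))) := by
    refine hcard.trans ?_
    refine (Finset.card_union_le _ _).trans (Nat.add_le_add_left ?_ _)
    refine (Finset.card_union_le _ _).trans (Nat.add_le_add_left ?_ _)
    refine (Finset.card_union_le _ _).trans (Nat.add_le_add_left ?_ _)
    refine (Finset.card_union_le _ _).trans (Nat.add_le_add_left ?_ _)
    refine (Finset.card_union_le _ _).trans (Nat.add_le_add_left ?_ _)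
    exact Finset.card_union_le _ _
  have hle' : ((W N).card : ℝ) ≤ (good N h).card +
      (((W N).filter (fun w => occ 1 h w < occ 0 1 w)).card +
      (((W N).filter (fun w => occ 2 h w < occ 0 1 w)).card +
      (((W N).filter (fun w => occ 0 h w < occ 1 1 w)).card +
      (((W N).filter (fun w => occ 2 N w < occ 1 (N + 1 - h) w)).card +
      (((W N).filter (fun w => occ 2 N w < occ 0 (N + 1 - h) w)).card +
      ((W N).filter (fun w => occ 1 N w < occ 2 (N + 1 - h) w)).card))))) := by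
    exact_mod_cast hle
  have v1 := h_viol 0 1 (by decide) N h h1 hN
  have v2 := h_viol 0 2 (by decide) N h h1 hN
  have v3 := h_viol 1 0 (by decide) N h h1 hN
  have t1 := htop 2 1 (by decide)
  have t2 := htop 2 0 (by decide)
  have t3 := htop 1 2 (by decide)
  linarith

theorem ratio_bound {ε L S G Wc gc q E1 E2 r : ℝ} (hε : 0 < ε) (hε1 : ε ≤ 1) (hL : 0 < L)
    (hW : 0 < Wc) (hgW : gc ≤ Wc) (hg : (1 - q) * Wc ≤ gc) (hq : q ≤ ε / 8)
    (hS : |S / Wc - L| ≤ ε / 8 * L) (hG0 : 0 ≤ G) (hGS : G ≤ S)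
    (hmain : S ≤ G + E1 * Wc + r * S + E2 * Wc)
    (hE1 : E1 ≤ ε / 8 * L) (hE2 : E2 ≤ ε / 8 * L) (hr : r ≤ ε / 8) :
    |G / gc - L| ≤ ε * L := by
  set s := S / Wc with hs
  have hSs : S = s * Wc := by rw [hs]; field_simp
  rw [abs_le] at hS
  obtain ⟨hS1, hS2⟩ := hS
  have hgc : 0 < gc := by
    refine lt_of_lt_of_le ?_ hg
    apply mul_pos _ hW
    linarith
  have hεL : 0 < ε * L := mul_pos hε hL
  have hs0 : 0 ≤ s := by nlinarith
  rw [abs_le]
  constructor
  · have h1 : G / Wc ≤ G / gc := div_le_div_of_nonneg_left hG0 hgc hgW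
    have h2 : s - E1 - r * s - E2 ≤ G / Wc := by
      rw [le_div_iff₀ hW]
      rw [hSs] at hmain
      nlinarith
    have h3 : r * s ≤ ε / 8 * s := mul_le_mul_of_nonneg_right hr hs0
    have h4 : ε / 8 * s ≤ ε / 8 * (2 * L) := by
      apply mul_le_mul_of_nonneg_left _ (by linarith)
      nlinarith
    nlinarith
  · have h1 : G / gc ≤ (1 + ε) * L := by
      rw [div_le_iff₀ hgc]
      have h2 : (1 + ε) * L * ((1 - ε / 8) * Wc) ≤ (1 + ε) * L * gc := by
        apply mul_le_mul_of_nonneg_left _ (by positivity)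
        refine le_trans ?_ hg
        apply mul_le_mul_of_nonneg_right _ hW.le
        linarith
      have h3 : s * Wc ≤ (1 + ε / 8) * L * Wc := by
        apply mul_le_mul_of_nonneg_right _ hW.le
        linarith
      have h4 : (1 + ε / 8) * L * Wc ≤ (1 + ε) * L * ((1 - ε / 8) * Wc) := by
        have : (1 + ε / 8) ≤ (1 + ε) * (1 - ε / 8) := by nlinarith
        calc (1 + ε / 8) * L * Wc = (1 + ε / 8) * (L * Wc) := by ring
          _ ≤ (1 + ε) * (1 - ε / 8) * (L * Wc) :=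
            mul_le_mul_of_nonneg_right this (by positivity)
          _ = _ := by ring
      linarith
    linarith

theorem sum_eta (x y : Fin 3) (N h : ℕ) :
    ∑ w ∈ W N, (eta x y h w : ℝ) = ∑ w ∈ (W N).filter (fun w => occ x 1 w < occ y h w),
        ((occ x 2 w - occ y h w : ℕ) : ℝ) := by
  rw [Finset.sum_filter]
  refine Finset.sum_congr rfl (fun w _ => ?_)
  unfold eta
  split_ifs <;> simp

theorem sum_zeta (x y : Fin 3) (N h : ℕ) :
    ∑ w ∈ W N, (zeta x y h w : ℝ) = ∑ w ∈ (W N).filter (fun w => occ x 1 w < occ y h w),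
        ((occ x 1 w - occ y (h - 1) w : ℕ) : ℝ) := by
  rw [Finset.sum_filter]
  refine Finset.sum_congr rfl (fun w _ => ?_)
  unfold zeta
  split_ifs <;> simp

theorem exists_R {C δ : ℝ} (hC : 0 < C) (hδ : 0 < δ) :
    ∃ R : ℕ, C * ((R : ℝ) + 2) ^ 2 * (2 / 3) ^ (R + 1) ≤ δ := by
  have h := tendsto_pow_const_mul_const_pow_of_lt_one 2 (r := (2 / 3 : ℝ)) (by norm_num)
    (by norm_num)
  have h1 : ∀ᶠ n : ℕ in atTop, (n : ℝ) ^ 2 * (2 / 3) ^ n < δ / (C * (3 / 2)) :=
    h.eventually (gt_mem_nhds (by positivity))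
  obtain ⟨n, hn, hn2⟩ := (h1.and (eventually_ge_atTop 2)).exists
  obtain ⟨R, rfl⟩ : ∃ R, n = R + 2 := ⟨n - 2, by omega⟩
  refine ⟨R, ?_⟩
  rw [lt_div_iff₀ (by positivity)] at hn
  push_cast at hn
  have e : (2 / 3 : ℝ) ^ (R + 2) = (2 / 3) ^ (R + 1) * (2 / 3) := pow_succ _ _
  rw [e] at hn
  nlinarith

theorem exists_h {C ε : ℝ} (hC : 0 < C) (hε : 0 < ε) :
    ∀ᶠ h : ℕ in atTop, 2 ≤ h ∧ 6 * (1 / 2 : ℝ) ^ h ≤ ε / 8 ∧ 3 * (3 / 4 : ℝ) ^ h ≤ ε / 8 ∧
      2 * (C * (2 * (h : ℝ)) ^ 2 * (2 / 3) ^ (2 * h - 1)) ≤ ε / 8 * (3 / 2 / 2 ^ h) := by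
  have h1 : ∀ᶠ n : ℕ in atTop, (1 / 2 : ℝ) ^ n < ε / 8 / 6 :=
    (tendsto_pow_atTop_nhds_zero_of_lt_one (by norm_num) (by norm_num)).eventually
      (gt_mem_nhds (by positivity))
  have h2 : ∀ᶠ n : ℕ in atTop, (3 / 4 : ℝ) ^ n < ε / 8 / 3 :=
    (tendsto_pow_atTop_nhds_zero_of_lt_one (by norm_num) (by norm_num)).eventually
      (gt_mem_nhds (by positivity))
  have h3 : ∀ᶠ n : ℕ in atTop, (n : ℝ) ^ 2 * (8 / 9) ^ n < ε / (64 * C) :=
    (tendsto_pow_const_mul_const_pow_of_lt_one 2 (r := (8 / 9 : ℝ)) (by norm_num)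
      (by norm_num)).eventually (gt_mem_nhds (by positivity))
  filter_upwards [h1, h2, h3, eventually_ge_atTop 2] with h a1 a2 a3 a4
  refine ⟨a4, by linarith, by linarith, ?_⟩
  obtain ⟨m, rfl⟩ : ∃ m, h = m + 1 := ⟨h - 1, by omega⟩
  have e1 : 2 * (m + 1) - 1 = 2 * m + 1 := by omega
  rw [e1]
  rw [lt_div_iff₀ (by positivity)] at a3
  have e2 : (2 / 3 : ℝ) ^ (2 * m + 1) = 3 / 2 * ((8 / 9) ^ (m + 1) * (1 / 2) ^ (m + 1)) := by
    rw [← mul_pow, pow_succ, pow_mul, pow_succ]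
    norm_num
    ring
  rw [e2]
  have e3 : (3 / 2 / 2 ^ (m + 1) : ℝ) = 3 / 2 * (1 / 2) ^ (m + 1) := by
    rw [one_div, inv_pow]; ring
  rw [e3]
  have hp : (0 : ℝ) < (1 / 2) ^ (m + 1) := by positivity
  generalize (1 / 2 : ℝ) ^ (m + 1) = p at *
  generalize (8 / 9 : ℝ) ^ (m + 1) = q at *
  have : (((m + 1 : ℕ) : ℝ) ^ 2 * q * (64 * C)) * (p * (3 / 16)) ≤ ε * (p * (3 / 16)) :=
    mul_le_mul_of_nonneg_right a3.le (by positivity)
  nlinarith

theorem eventually_ratio {f : ℕ → ℝ} {L δ : ℝ} (hf : Tendsto f atTop (𝓝 L)) (hδ : 0 < δ) :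
    ∀ᶠ N in atTop, |f N - L| ≤ δ := by
  filter_upwards [(Metric.tendsto_nhds.1 hf) δ hδ] with N hN
  rw [Real.dist_eq] at hN
  exact hN.le

theorem good3_ne {x y : Fin 3} (h : good3 x y) : x ≠ y := by
  rcases h with ⟨rfl, rfl⟩ | ⟨rfl, rfl⟩ | ⟨rfl, rfl⟩ <;> decide

theorem pair_bound {C : ℝ} (hC : 0 < C)
    (h_eta : ∀ (x y : Fin 3) (_ : x ≠ y) (h : ℕ) (_ : 2 ≤ h),
      Tendsto (fun N : ℕ => (∑ w ∈ (W N).filter (fun w => occ x 1 w < occ y h w),
        ((occ x 2 w - occ y h w : ℕ) : ℝ)) / ((W N).card : ℝ)) atTop (𝓝 (3 / 2 * h / 2 ^ h)))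
    (h_zeta : ∀ (x y : Fin 3) (_ : x ≠ y) (h : ℕ) (_ : 2 ≤ h),
      Tendsto (fun N : ℕ => (∑ w ∈ (W N).filter (fun w => occ x 1 w < occ y h w),
        ((occ x 1 w - occ y (h - 1) w : ℕ) : ℝ)) / ((W N).card : ℝ)) atTop (𝓝 (3 / 2 / 2 ^ h)))
    (h_viol : ∀ (x y : Fin 3) (_ : x ≠ y) (N h : ℕ) (_ : 1 ≤ h) (_ : h ≤ N),
      (((W N).filter (fun w => occ y h w < occ x 1 w)).card : ℝ) ≤
        (1 / 2) ^ h * ((W N).card : ℝ))
    (h_tail : ∀ (x : Fin 3) (N m : ℕ), 4 ≤ N →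
      (∑ w ∈ (W N).filter (fun w => m ≤ occ x 2 w), (occ x 2 w : ℝ)) ≤
        C * ((m : ℝ) + 1) ^ 2 * (2 / 3) ^ m * ((W N).card : ℝ))
    (h_take : ∀ (x y : Fin 3) (_ : x ≠ y) (N h R : ℕ) (_ : 1 ≤ h) (_ : h + R ≤ N)
      (G : List (Fin 3) → ℝ) (_ : ∀ w, 0 ≤ G w) (_ : ∀ w ∈ W N, G w = G (w.take R)),
      (∑ w ∈ (W N).filter (fun w => occ x N w < occ y (N + 1 - h) w), G w) ≤
        ((N : ℝ) / (2 * N - R)) ^ h * ∑ w ∈ W N, G w)
    {ε : ℝ} (hε : 0 < ε) (hε1 : ε ≤ 1) {h : ℕ} (h2 : 2 ≤ h)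
    (hq : 6 * (1 / 2 : ℝ) ^ h ≤ ε / 8) (hr : 3 * (3 / 4 : ℝ) ^ h ≤ ε / 8)
    (hE1 : 2 * (C * (2 * (h : ℝ)) ^ 2 * (2 / 3) ^ (2 * h - 1)) ≤ ε / 8 * (3 / 2 / 2 ^ h)) :
    ∀ᶠ N in atTop, 4 ≤ N ∧ h ≤ N ∧ 0 < (good N h).card ∧
      (∀ x y, good3 x y → |gavg N h (fun w => (eta x y h w : ℝ)) - A h| ≤ ε * A h ∧
        |gavg N h (fun w => (zeta x y h w : ℝ)) - 3 / 2 / 2 ^ h| ≤ ε * (3 / 2 / 2 ^ h)) ∧
      gavg N h (fun w => (tl h 0 w : ℝ)) ≤ ε * (3 / 2 / 2 ^ h) := by
  have hLpos : (0 : ℝ) < 3 / 2 / 2 ^ h := by positivity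
  have hh1 : (1 : ℝ) ≤ h := by
    have : 1 ≤ h := by omega
    exact_mod_cast this
  have hAe : A h = h * (3 / 2 / 2 ^ h) := by unfold A; ring
  have hAL : 3 / 2 / 2 ^ h ≤ A h := by
    rw [hAe]
    nlinarith
  have hApos : 0 < A h := lt_of_lt_of_le hLpos hAL
  obtain ⟨R, hRd⟩ := exists_R hC (δ := ε / 8 * (3 / 2 / 2 ^ h)) (by positivity)
  have ev1 : ∀ᶠ N in atTop, ∀ x y : Fin 3, x ≠ y →
      |(∑ w ∈ W N, (eta x y h w : ℝ)) / ((W N).card : ℝ) - A h| ≤ ε / 8 * A h := by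
    refine Filter.eventually_all.2 (fun x => Filter.eventually_all.2 (fun y => ?_))
    by_cases hxy : x = y
    · exact Filter.Eventually.of_forall (fun N hne => absurd hxy hne)
    · filter_upwards [eventually_ratio (h_eta x y hxy h h2) (δ := ε / 8 * A h) (by positivity)]
        with N hN _
      rw [sum_eta]
      exact hN
  have ev2 : ∀ᶠ N in atTop, ∀ x y : Fin 3, x ≠ y →
      |(∑ w ∈ W N, (zeta x y h w : ℝ)) / ((W N).card : ℝ) - 3 / 2 / 2 ^ h| ≤
        ε / 8 * (3 / 2 / 2 ^ h) := by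
    refine Filter.eventually_all.2 (fun x => Filter.eventually_all.2 (fun y => ?_))
    by_cases hxy : x = y
    · exact Filter.Eventually.of_forall (fun N hne => absurd hxy hne)
    · filter_upwards [eventually_ratio (h_zeta x y hxy h h2) (δ := ε / 8 * (3 / 2 / 2 ^ h))
        (by positivity)] with N hN _
      rw [sum_zeta]
      exact hN
  filter_upwards [ev1, ev2, eventually_ge_atTop (4 + h + 2 * R)] with N he hz hN
  have hN4 : 4 ≤ N := by omega
  have hhN : h ≤ N := by omega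
  have hWpos : (0 : ℝ) < ((W N).card : ℝ) := by
    have h01 := he 0 1 (by decide)
    by_contra hcon
    have h0 : ((W N).card : ℝ) = 0 := le_antisymm (not_lt.1 hcon) (Nat.cast_nonneg _)
    rw [h0, div_zero, abs_le] at h01
    nlinarith [h01.1]
  have hgsub : good N h ⊆ W N := Finset.filter_subset _ _
  have hgc := card_good (by omega : 1 ≤ h) hhN h_viol h_take
  have hgcW : ((good N h).card : ℝ) ≤ ((W N).card : ℝ) := by
    exact_mod_cast Finset.card_le_card hgsub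
  have hgpos : (0 : ℝ) < ((good N h).card : ℝ) := by
    refine lt_of_lt_of_le ?_ hgc
    apply mul_pos _ hWpos
    linarith
  have hgpos' : 0 < (good N h).card := by exact_mod_cast hgpos
  have hmono : ∀ φ : List (Fin 3) → ℕ, ∑ w ∈ good N h, (φ w : ℝ) ≤ ∑ w ∈ W N, (φ w : ℝ) :=
    fun φ => Finset.sum_le_sum_of_subset_of_nonneg hgsub (fun _ _ _ => Nat.cast_nonneg _)
  have hnn : ∀ φ : List (Fin 3) → ℕ, 0 ≤ ∑ w ∈ good N h, (φ w : ℝ) :=
    fun φ => Finset.sum_nonneg (fun _ _ => Nat.cast_nonneg _)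
  have hE1A : 2 * (C * (2 * (h : ℝ)) ^ 2 * (2 / 3) ^ (2 * h - 1)) ≤ ε / 8 * A h :=
    hE1.trans (mul_le_mul_of_nonneg_left hAL (by positivity))
  have hRdA : C * ((R : ℝ) + 2) ^ 2 * (2 / 3) ^ (R + 1) ≤ ε / 8 * A h :=
    hRd.trans (mul_le_mul_of_nonneg_left hAL (by positivity))
  refine ⟨hN4, hhN, hgpos', fun x y hxy => ⟨?_, ?_⟩, ?_⟩
  · have hm := core h_tail h_take h2 hN4 (by omega : h + R ≤ N) (by omega : 2 * R ≤ N) (x := x)
      (fun w => eta x y h w)
      (fun w _ => by unfold eta; split_ifs <;> omega)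
      (fun w hw hle => by
        have F := facts h2 hhN hw
        have s := F.s x
        simp only [eta, occ_take]
        split_ifs <;> omega)
      (fun w _ => by
        simp only [eta, occ_take]
        split_ifs <;> omega)
      (fun w hw hb => eta_bad h2 (facts h2 hhN hw) hxy hb)
    exact ratio_bound hε hε1 hApos hWpos hgcW hgc hq (he x y (good3_ne hxy)) (hnn _) (hmono _)
      hm hE1A hRdA hr
  · have hm := core h_tail h_take h2 hN4 (by omega : h + R ≤ N) (by omega : 2 * R ≤ N) (x := x)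
      (fun w => zeta x y h w)
      (fun w hw => by
        have F := facts h2 hhN hw
        have s := F.s x
        unfold zeta; split_ifs <;> omega)
      (fun w hw hle => by
        have F := facts h2 hhN hw
        have s := F.s x
        simp only [zeta, occ_take]
        split_ifs <;> omega)
      (fun w _ => by
        simp only [zeta, occ_take]
        split_ifs <;> omega)
      (fun w hw hb => zeta_bad h2 (facts h2 hhN hw) hxy hb)
    exact ratio_bound hε hε1 hLpos hWpos hgcW hgc hq (hz x y (good3_ne hxy)) (hnn _) (hmono _)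
      hm hE1 hRd hr
  · unfold gavg
    rw [div_le_iff₀ hgpos]
    have h1 := sum_tl h_tail (by omega : 1 ≤ h) hN4 0
    have h3 := hmono (fun w => tl h 0 w)
    have h4 : ((W N).card : ℝ) ≤ 2 * ((good N h).card : ℝ) := by
      have : (1 / 2 : ℝ) * ((W N).card : ℝ) ≤ (1 - 6 * (1 / 2) ^ h) * ((W N).card : ℝ) := by
        apply mul_le_mul_of_nonneg_right _ hWpos.le
        linarith
      linarith
    have hcpos : 0 ≤ C * (2 * (h : ℝ)) ^ 2 * (2 / 3) ^ (2 * h - 1) := by positivity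
    have h5 : C * (2 * (h : ℝ)) ^ 2 * (2 / 3) ^ (2 * h - 1) * ((W N).card : ℝ) ≤
        C * (2 * (h : ℝ)) ^ 2 * (2 / 3) ^ (2 * h - 1) * (2 * ((good N h).card : ℝ)) :=
      mul_le_mul_of_nonneg_left h4 hcpos
    have h6 : 2 * (C * (2 * (h : ℝ)) ^ 2 * (2 / 3) ^ (2 * h - 1)) * ((good N h).card : ℝ) ≤
        ε / 8 * (3 / 2 / 2 ^ h) * ((good N h).card : ℝ) :=
      mul_le_mul_of_nonneg_right hE1 hgpos.le
    have h7 : ε / 8 * (3 / 2 / 2 ^ h) * ((good N h).card : ℝ) ≤
        ε * (3 / 2 / 2 ^ h) * ((good N h).card : ℝ) := by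
      apply mul_le_mul_of_nonneg_right _ hgpos.le
      apply mul_le_mul_of_nonneg_right _ hLpos.le
      linarith
    linarith

theorem good_rel {N h : ℕ} {w : List (Fin 3)} (hw : w ∈ good N h) :
    w ∈ W N ∧ occ 0 1 w < occ 1 h w ∧ occ 0 1 w < occ 2 h w ∧ occ 1 1 w < occ 0 h w := by
  unfold good at hw
  rw [Finset.mem_filter] at hw
  exact ⟨hw.1, hw.2.1, hw.2.2.1, hw.2.2.2.1⟩

theorem gavg_congr {N h : ℕ} {F G : List (Fin 3) → ℝ} (hFG : ∀ w ∈ good N h, F w = G w) :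
    gavg N h F = gavg N h G := by
  unfold gavg
  rw [Finset.sum_congr rfl hFG]

theorem gavg_mono {N h : ℕ} {F G : List (Fin 3) → ℝ} (hFG : ∀ w ∈ good N h, F w ≤ G w) :
    gavg N h F ≤ gavg N h G := by
  unfold gavg
  exact div_le_div_of_nonneg_right (Finset.sum_le_sum hFG) (Nat.cast_nonneg _)

theorem gavg_add {N h : ℕ} {F G : List (Fin 3) → ℝ} :
    gavg N h (fun w => F w + G w) = gavg N h F + gavg N h G := by
  unfold gavg
  rw [Finset.sum_add_distrib, add_div]

theorem scale_bound {h Z L ε A : ℝ} (hh : 0 ≤ h) (hA : A = h * L) (hZ : |Z - L| ≤ ε * L) :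
    |h * Z - A| ≤ ε * A := by
  rw [hA]
  have : h * Z - h * L = h * (Z - L) := by ring
  rw [this, abs_mul, abs_of_nonneg hh]
  calc h * |Z - L| ≤ h * (ε * L) := mul_le_mul_of_nonneg_left hZ hh
    _ = ε * (h * L) := by ring

theorem kinks
    (h_eta : ∀ (x y : Fin 3) (_ : x ≠ y) (h : ℕ) (_ : 2 ≤ h),
      Tendsto (fun N : ℕ => (∑ w ∈ (W N).filter (fun w => occ x 1 w < occ y h w),
        ((occ x 2 w - occ y h w : ℕ) : ℝ)) / ((W N).card : ℝ)) atTop (𝓝 (3 / 2 * h / 2 ^ h)))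
    (h_zeta : ∀ (x y : Fin 3) (_ : x ≠ y) (h : ℕ) (_ : 2 ≤ h),
      Tendsto (fun N : ℕ => (∑ w ∈ (W N).filter (fun w => occ x 1 w < occ y h w),
        ((occ x 1 w - occ y (h - 1) w : ℕ) : ℝ)) / ((W N).card : ℝ)) atTop (𝓝 (3 / 2 / 2 ^ h)))
    (h_viol : ∀ (x y : Fin 3) (_ : x ≠ y) (N h : ℕ) (_ : 1 ≤ h) (_ : h ≤ N),
      (((W N).filter (fun w => occ y h w < occ x 1 w)).card : ℝ) ≤
        (1 / 2) ^ h * ((W N).card : ℝ))
    (h_tail : ∃ C : ℝ, 0 < C ∧ ∀ (x : Fin 3) (N m : ℕ), 4 ≤ N →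
      (∑ w ∈ (W N).filter (fun w => m ≤ occ x 2 w), (occ x 2 w : ℝ)) ≤
        C * ((m : ℝ) + 1) ^ 2 * (2 / 3) ^ m * ((W N).card : ℝ))
    (h_take : ∀ (x y : Fin 3) (_ : x ≠ y) (N h R : ℕ) (_ : 1 ≤ h) (_ : h + R ≤ N)
      (G : List (Fin 3) → ℝ) (_ : ∀ w, 0 ≤ G w) (_ : ∀ w ∈ W N, G w = G (w.take R)),
      (∑ w ∈ (W N).filter (fun w => occ x N w < occ y (N + 1 - h) w), G w) ≤
        ((N : ℝ) / (2 * N - R)) ^ h * ∑ w ∈ W N, G w)
    (ε : ℝ) (hε : 0 < ε) :
    ∃ h0 : ℕ, ∀ h ≥ h0, ∃ N0 : ℕ, ∀ N ≥ N0, (good N h).Nonempty ∧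
      |K0 N h - 2 * A h| ≤ ε * A h ∧ |K1 N h - A h| ≤ ε * A h ∧
      |h * Z0 N h - A h| ≤ ε * A h ∧ |h * Z1 N h - A h| ≤ ε * A h ∧
      |h * Z2 N h - A h| ≤ ε * A h := by
  obtain ⟨C, hC, h_tail⟩ := h_tail
  set ε' : ℝ := min ε 1 / 4 with hε'
  have hm1 : min ε 1 ≤ ε := min_le_left _ _
  have hm2 : min ε 1 ≤ 1 := min_le_right _ _
  have hm3 : 0 < min ε 1 := lt_min hε one_pos
  have hε0 : 0 < ε' := by rw [hε']; linarith
  have hε1 : ε' ≤ 1 := by rw [hε']; linarith
  have hεε : 4 * ε' ≤ ε := by rw [hε']; linarith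
  obtain ⟨h0, hh0⟩ := Filter.eventually_atTop.1 (exists_h hC hε0)
  refine ⟨h0, fun h hh => ?_⟩
  obtain ⟨h2, hq, hr, hE1⟩ := hh0 h hh
  obtain ⟨N0, hN0⟩ := Filter.eventually_atTop.1
    (pair_bound hC h_eta h_zeta h_viol h_tail h_take hε0 hε1 h2 hq hr hE1)
  refine ⟨N0, fun N hN => ?_⟩
  obtain ⟨hN4, hhN, hgc, hpair, htl⟩ := hN0 N hN
  have hLpos : (0 : ℝ) < 3 / 2 / 2 ^ h := by positivity
  have hh1 : (1 : ℝ) ≤ h := by
    have : 1 ≤ h := by omega
    exact_mod_cast this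
  have hAe : A h = h * (3 / 2 / 2 ^ h) := by unfold A; ring
  have hAL : 3 / 2 / 2 ^ h ≤ A h := by
    rw [hAe]
    nlinarith
  have hApos : 0 < A h := lt_of_lt_of_le hLpos hAL
  have hεA : ε' * A h ≤ ε * A h := mul_le_mul_of_nonneg_right (by linarith) hApos.le
  obtain ⟨p01e, p01z⟩ := hpair 0 1 (Or.inl ⟨rfl, rfl⟩)
  obtain ⟨p02e, p02z⟩ := hpair 0 2 (Or.inr (Or.inl ⟨rfl, rfl⟩))
  obtain ⟨p10e, p10z⟩ := hpair 1 0 (Or.inr (Or.inr ⟨rfl, rfl⟩))
  refine ⟨Finset.card_pos.1 hgc, ?_, ?_, ?_, ?_, ?_⟩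
  · have hup : K0 N h ≤ gavg N h (fun w => (eta 0 1 h w : ℝ)) +
        gavg N h (fun w => (eta 0 2 h w : ℝ)) := by
      rw [← gavg_add]
      refine gavg_mono (fun w hw => ?_)
      obtain ⟨hW, g1, g2, g3⟩ := good_rel hw
      have : (occ 0 2 w - min (occ 1 h w) (occ 2 h w)) ≤ eta 0 1 h w + eta 0 2 h w := by
        unfold eta
        rw [if_pos g1, if_pos g2]
        omega
      exact_mod_cast this
    have hlo : gavg N h (fun w => (eta 0 1 h w : ℝ)) +
        gavg N h (fun w => (eta 0 2 h w : ℝ)) ≤ K0 N h + gavg N h (fun w => (tl h 0 w : ℝ)) := by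
      rw [← gavg_add]
      unfold K0
      rw [← gavg_add]
      refine gavg_mono (fun w hw => ?_)
      obtain ⟨hW, g1, g2, g3⟩ := good_rel hw
      have F := facts h2 hhN hW
      have hmin := min_bad h2 F
      have : eta 0 1 h w + eta 0 2 h w ≤
          (occ 0 2 w - min (occ 1 h w) (occ 2 h w)) + tl h 0 w := by
        unfold eta at hmin ⊢
        rw [if_pos g1, if_pos g2] at hmin ⊢
        omega
      exact_mod_cast this
    rw [abs_le] at p01e p02e ⊢
    have htl' : gavg N h (fun w => (tl h 0 w : ℝ)) ≤ ε' * A h :=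
      htl.trans (mul_le_mul_of_nonneg_left hAL hε0.le)
    have h4 : 4 * ε' * A h ≤ ε * A h := mul_le_mul_of_nonneg_right hεε hApos.le
    constructor <;> linarith [p01e.1, p01e.2, p02e.1, p02e.2, mul_pos hε0 hApos]
  · have : K1 N h = gavg N h (fun w => (eta 1 0 h w : ℝ)) := by
      unfold K1
      refine gavg_congr (fun w hw => ?_)
      obtain ⟨hW, g1, g2, g3⟩ := good_rel hw
      unfold eta
      rw [if_pos g3]
    rw [this]
    exact p10e.trans hεA
  · have : Z0 N h = gavg N h (fun w => (zeta 1 0 h w : ℝ)) := by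
      unfold Z0
      refine gavg_congr (fun w hw => ?_)
      obtain ⟨hW, g1, g2, g3⟩ := good_rel hw
      unfold zeta
      rw [if_pos g3]
    rw [this]
    exact (scale_bound (by linarith) hAe p10z).trans hεA
  · have : Z1 N h = gavg N h (fun w => (zeta 0 1 h w : ℝ)) := by
      unfold Z1
      refine gavg_congr (fun w hw => ?_)
      obtain ⟨hW, g1, g2, g3⟩ := good_rel hw
      unfold zeta
      rw [if_pos g1]
    rw [this]
    exact (scale_bound (by linarith) hAe p01z).trans hεA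
  · have : Z2 N h = gavg N h (fun w => (zeta 0 2 h w : ℝ)) := by
      unfold Z2
      refine gavg_congr (fun w hw => ?_)
      obtain ⟨hW, g1, g2, g3⟩ := good_rel hw
      unfold zeta
      rw [if_pos g2]
    rw [this]
    exact (scale_bound (by linarith) hAe p02z).trans hεA

end J10161

end

end Pool.Agent.KS
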