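import Pool.Agent.H875KS.Defs2

set_option autoImplicit false

namespace Pool.Agent.KS

open Finset Filter Topology

noncomputable section

namespace J10130

theorem mem_LE {α : Type} [Fintype α] (r : α → α → Prop) (f : α ≃ Fin (Fintype.card α)) :
    f ∈ LE r ↔ ∀ x y, r x y → f x < f y := by
  unfold LE
  simp

theorem exists_rank {α : Type} [Fintype α] (κ : α → ℕ) (hκ : Function.Injective κ) :
    ∃ f : α ≃ Fin (Fintype.card α), ∀ x y, f x < f y ↔ κ x < κ y := by
  classical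
  have hS : (Finset.univ.image κ).card = Fintype.card α := by
    rw [Finset.card_image_of_injective _ hκ]; rfl
  have hb : Function.Bijective (fun x : α =>
      (⟨κ x, Finset.mem_image_of_mem κ (Finset.mem_univ x)⟩ : (Finset.univ.image κ : Finset ℕ))) := by
    constructor
    · intro x y h
      exact hκ (congrArg Subtype.val h)
    · rintro ⟨y, hy⟩
      obtain ⟨x, _, rfl⟩ := Finset.mem_image.1 hy
      exact ⟨x, rfl⟩
  refine ⟨(Equiv.ofBijective _ hb).trans ((Finset.univ.image κ).orderIsoOfFin hS).symm.toEquiv,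
    fun x y => ?_⟩
  change ((Finset.univ.image κ).orderIsoOfFin hS).symm _ < ((Finset.univ.image κ).orderIsoOfFin hS).symm _ ↔ _
  rw [OrderIso.lt_iff_lt]
  rfl

/-- relabelling of the copies -/
def tau {X : Type} [Fintype X] (l : Fin 3 → (X ≃ Fin (Fintype.card X))) :
    (Fin 6 ⊕ (Fin 3 × X)) ≃ (Fin 6 ⊕ (Fin 3 × Fin (Fintype.card X))) :=
  Equiv.sumCongr (Equiv.refl _) (Equiv.prodShear (Equiv.refl _) l)

theorem tau_inl {X : Type} [Fintype X] (l : Fin 3 → (X ≃ Fin (Fintype.card X))) (i : Fin 6) :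
    tau l (Sum.inl i) = Sum.inl i := rfl

theorem tau_inr {X : Type} [Fintype X] (l : Fin 3 → (X ≃ Fin (Fintype.card X))) (j : Fin 3) (x : X) :
    tau l (Sum.inr (j, x)) = Sum.inr (j, l j x) := rfl

theorem card_eq' {X : Type} [Fintype X] : Fintype.card (Fin 6 ⊕ (Fin 3 × Fin (Fintype.card X))) =
    Fintype.card (Fin 6 ⊕ (Fin 3 × X)) := by simp

/-- the bijection -/
def Phi {X : Type} [Fintype X] (l : Fin 3 → (X ≃ Fin (Fintype.card X)))
    (g : (Fin 6 ⊕ (Fin 3 × Fin (Fintype.card X))) ≃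
      Fin (Fintype.card (Fin 6 ⊕ (Fin 3 × Fin (Fintype.card X))))) :
    (Fin 6 ⊕ (Fin 3 × X)) ≃ Fin (Fintype.card (Fin 6 ⊕ (Fin 3 × X))) :=
  (tau l).trans (g.trans (finCongr card_eq'))

theorem Phi_val {X : Type} [Fintype X] (l : Fin 3 → (X ≃ Fin (Fintype.card X)))
    (g : (Fin 6 ⊕ (Fin 3 × Fin (Fintype.card X))) ≃
      Fin (Fintype.card (Fin 6 ⊕ (Fin 3 × Fin (Fintype.card X))))) (a : Fin 6 ⊕ (Fin 3 × X)) :
    ((Phi l g a : Fin _) : ℕ) = (g (tau l a) : ℕ) := rfl

theorem chain_mono {s : ℕ} {g : (Fin 6 ⊕ (Fin 3 × Fin s)) ≃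
      Fin (Fintype.card (Fin 6 ⊕ (Fin 3 × Fin s)))} (hg : g ∈ LE (DR (cs s))) (j : Fin 3) :
    StrictMono (fun u : Fin s => g (Sum.inr (j, u))) := by
  rw [mem_LE] at hg
  cases s with
  | zero => intro u; exact u.elim0
  | succ s =>
    rw [Fin.strictMono_iff_lt_succ]
    intro u
    apply hg
    exact ⟨rfl, by simp [cs]⟩

theorem Phi_mem {X : Type} [Fintype X] {r : X → X → Prop}
    {l : Fin 3 → (X ≃ Fin (Fintype.card X))} (hl : ∀ j, l j ∈ LE r)
    {g : (Fin 6 ⊕ (Fin 3 × Fin (Fintype.card X))) ≃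
      Fin (Fintype.card (Fin 6 ⊕ (Fin 3 × Fin (Fintype.card X))))}
    (hg : g ∈ LE (DR (cs (Fintype.card X)))) : Phi l g ∈ LE (DR r) := by
  rw [mem_LE]
  intro a b hab
  rw [Fin.lt_def, Phi_val, Phi_val, ← Fin.lt_def]
  have hg' := (mem_LE _ _).1 hg
  rcases a with i | ⟨j, x⟩ <;> rcases b with i' | ⟨j', y⟩
  · exact hg' _ _ hab
  · exact hg' _ _ hab
  · exact hg' _ _ hab
  · obtain ⟨h1, h2⟩ := hab
    simp only at h1 h2
    subst h1
    rw [tau_inr, tau_inr]
    exact chain_mono hg j ((mem_LE _ _).1 (hl j) x y h2)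

theorem Phi_inj {X : Type} [Fintype X]
    {l l' : Fin 3 → (X ≃ Fin (Fintype.card X))}
    {g g' : (Fin 6 ⊕ (Fin 3 × Fin (Fintype.card X))) ≃
      Fin (Fintype.card (Fin 6 ⊕ (Fin 3 × Fin (Fintype.card X))))}
    (hg : g ∈ LE (DR (cs (Fintype.card X)))) (hg' : g' ∈ LE (DR (cs (Fintype.card X))))
    (h : Phi l g = Phi l' g') : l = l' ∧ g = g' := by
  have hval : ∀ a, g (tau l a) = g' (tau l' a) := by
    intro a
    apply Fin.ext
    rw [← Phi_val, ← Phi_val, h]
  have hl : l = l' := by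
    funext j
    have h1 := chain_mono hg j
    have h2 := chain_mono hg' j
    have h3 : ∀ u : Fin (Fintype.card X), g (Sum.inr (j, u)) =
        g' (Sum.inr (j, (l' j) ((l j).symm u))) := by
      intro u
      have := hval (Sum.inr (j, (l j).symm u))
      rwa [tau_inr, tau_inr, Equiv.apply_symm_apply] at this
    have h4 : StrictMono (fun u : Fin (Fintype.card X) => (l' j) ((l j).symm u)) := by
      intro u v huv
      have h5 := h1 huv
      simp only [h3] at h5
      exact h2.lt_iff_lt.1 h5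
    have h5 : (fun u : Fin (Fintype.card X) => (l' j) ((l j).symm u)) = id := by
      refine h4.range_inj (g := id) strictMono_id |>.1 ?_
      rw [Set.range_id]
      exact (Equiv.surjective ((l j).symm.trans (l' j))).range_eq
    apply Equiv.ext
    intro x
    have := congrFun h5 (l j x)
    simp only [Equiv.symm_apply_apply, id] at this
    exact this.symm
  refine ⟨hl, ?_⟩
  apply Equiv.ext
  intro b
  have := hval ((tau l).symm b)
  rw [← hl, Equiv.apply_symm_apply] at this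
  exact this

theorem Phi_surj {X : Type} [Fintype X] {r : X → X → Prop}
    (f : (Fin 6 ⊕ (Fin 3 × X)) ≃ Fin (Fintype.card (Fin 6 ⊕ (Fin 3 × X)))) (hf : f ∈ LE (DR r)) :
    ∃ (l : Fin 3 → (X ≃ Fin (Fintype.card X))) (g : (Fin 6 ⊕ (Fin 3 × Fin (Fintype.card X))) ≃
      Fin (Fintype.card (Fin 6 ⊕ (Fin 3 × Fin (Fintype.card X))))),
      (∀ j, l j ∈ LE r) ∧ g ∈ LE (DR (cs (Fintype.card X))) ∧ Phi l g = f := by
  rw [mem_LE] at hf
  have hex : ∀ j : Fin 3, ∃ lj : X ≃ Fin (Fintype.card X), ∀ x y,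
      lj x < lj y ↔ ((f (Sum.inr (j, x)) : Fin _) : ℕ) < (f (Sum.inr (j, y)) : ℕ) := by
    intro j
    refine exists_rank (fun x => ((f (Sum.inr (j, x)) : Fin _) : ℕ)) ?_
    intro x y h
    have h1 := f.injective (Fin.ext h)
    simpa using h1
  choose l hl using hex
  refine ⟨l, ((tau l).symm.trans f).trans (finCongr card_eq').symm, ?_, ?_, ?_⟩
  · intro j
    rw [mem_LE]
    intro x y hxy
    rw [hl]
    exact hf _ _ ⟨rfl, hxy⟩
  · rw [mem_LE]
    intro a b hab
    rw [Fin.lt_def]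
    change ((f ((tau l).symm a) : Fin _) : ℕ) < (f ((tau l).symm b) : ℕ)
    rw [← Fin.lt_def]
    have hs1 : ∀ i, (tau l).symm (Sum.inl i) = Sum.inl i := fun i => rfl
    have hs2 : ∀ j u, (tau l).symm (Sum.inr (j, u)) = Sum.inr (j, (l j).symm u) := fun j u => rfl
    rcases a with i | ⟨j, x⟩ <;> rcases b with i' | ⟨j', y⟩
    · exact hf _ _ hab
    · exact hf _ _ hab
    · exact hf _ _ hab
    · obtain ⟨h1, h2⟩ := hab
      simp only at h1 h2
      subst h1
      rw [hs2, hs2, Fin.lt_def, ← hl, Equiv.apply_symm_apply, Equiv.apply_symm_apply, Fin.lt_def]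
      unfold cs at h2
      omega
  · apply Equiv.ext
    intro a
    apply Fin.ext
    rw [Phi_val]
    change ((f ((tau l).symm (tau l a)) : Fin _) : ℕ) = _
    rw [Equiv.symm_apply_apply]

theorem sum_LE {X : Type} [Fintype X] (r : X → X → Prop)
    (F : ((Fin 6 ⊕ (Fin 3 × X)) ≃ Fin (Fintype.card (Fin 6 ⊕ (Fin 3 × X)))) → ℝ) :
    ∑ f ∈ LE (DR r), F f = ∑ g ∈ LE (DR (cs (Fintype.card X))),
      ∑ l ∈ Fintype.piFinset (fun _ : Fin 3 => LE r), F (Phi l g) := by
  classical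
  rw [← Finset.sum_product']
  symm
  refine Finset.sum_bij (fun p _ => Phi p.2 p.1) ?_ ?_ ?_ ?_
  · intro p hp
    rw [Finset.mem_product, Fintype.mem_piFinset] at hp
    exact Phi_mem hp.2 hp.1
  · intro p hp p' hp' h
    rw [Finset.mem_product] at hp hp'
    obtain ⟨h1, h2⟩ := Phi_inj hp.1 hp'.1 h
    exact Prod.ext h2 h1
  · intro f hf
    obtain ⟨l, g, h1, h2, h3⟩ := Phi_surj f hf
    refine ⟨(g, l), ?_, h3⟩
    rw [Finset.mem_product, Fintype.mem_piFinset]
    exact ⟨h2, h1⟩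
  · intro p _
    rfl

theorem card_gt {X : Type} [Fintype X] (r : X → X → Prop) (hr : (LE r).Nonempty)
    (hX : 1 ≤ Fintype.card X) : 1 < (LE (DR r)).card := by
  classical
  obtain ⟨l, hl⟩ := hr
  rw [mem_LE] at hl
  obtain ⟨s, hs⟩ : ∃ s, s = Fintype.card X := ⟨_, rfl⟩
  have hlt : ∀ x, (l x : ℕ) < s := fun x => by rw [hs]; exact (l x).isLt
  let κ₁ : (Fin 6 ⊕ (Fin 3 × X)) → ℕ := Sum.elim ![0, 1, 2, 3 + s, 4 + 2 * s, 5 + 2 * s]
    (fun p => ![3, 4 + s, 6 + 2 * s] p.1 + (l p.2 : ℕ))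
  let κ₂ : (Fin 6 ⊕ (Fin 3 × X)) → ℕ := Sum.elim ![0, 1, 2, 3 + s, 4 + 2 * s, 5 + 3 * s]
    (fun p => ![3, 4 + s, 5 + 2 * s] p.1 + (l p.2 : ℕ))
  have hinj₁ : Function.Injective κ₁ := by
    intro a b hab
    rcases a with i | ⟨j, x⟩ <;> rcases b with i' | ⟨j', y⟩
    · simp only [κ₁, Sum.elim_inl] at hab
      fin_cases i <;> fin_cases i' <;> simp at hab ⊢ <;> omega
    · exfalso
      have := hlt y
      simp only [κ₁, Sum.elim_inl, Sum.elim_inr] at hab
      fin_cases i <;> fin_cases j' <;> simp at hab <;> omega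
    · exfalso
      have := hlt x
      simp only [κ₁, Sum.elim_inl, Sum.elim_inr] at hab
      fin_cases i' <;> fin_cases j <;> simp at hab <;> omega
    · have h1 := hlt x
      have h2 := hlt y
      simp only [κ₁, Sum.elim_inr] at hab
      have h3 : j = j' ∧ (l x : ℕ) = l y := by
        fin_cases j <;> fin_cases j' <;> simp at hab ⊢ <;> omega
      rw [h3.1, l.injective (Fin.ext h3.2)]
  have hinj₂ : Function.Injective κ₂ := by
    intro a b hab
    rcases a with i | ⟨j, x⟩ <;> rcases b with i' | ⟨j', y⟩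
    · simp only [κ₂, Sum.elim_inl] at hab
      fin_cases i <;> fin_cases i' <;> simp at hab ⊢ <;> omega
    · exfalso
      have := hlt y
      simp only [κ₂, Sum.elim_inl, Sum.elim_inr] at hab
      fin_cases i <;> fin_cases j' <;> simp at hab <;> omega
    · exfalso
      have := hlt x
      simp only [κ₂, Sum.elim_inl, Sum.elim_inr] at hab
      fin_cases i' <;> fin_cases j <;> simp at hab <;> omega
    · have h1 := hlt x
      have h2 := hlt y
      simp only [κ₂, Sum.elim_inr] at hab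
      have h3 : j = j' ∧ (l x : ℕ) = l y := by
        fin_cases j <;> fin_cases j' <;> simp at hab ⊢ <;> omega
      rw [h3.1, l.injective (Fin.ext h3.2)]
  obtain ⟨f₁, hf₁⟩ := exists_rank κ₁ hinj₁
  obtain ⟨f₂, hf₂⟩ := exists_rank κ₂ hinj₂
  have hm₁ : f₁ ∈ LE (DR r) := by
    rw [mem_LE]
    intro a b hab
    rw [hf₁]
    rcases a with i | ⟨j, x⟩ <;> rcases b with i' | ⟨j', y⟩
    · simp only [κ₁, Sum.elim_inl]
      rcases hab with ⟨rfl, rfl⟩ | ⟨rfl, rfl⟩ | ⟨rfl, rfl⟩ | ⟨rfl, rfl⟩ <;> simp <;> omega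
    · simp only [κ₁, Sum.elim_inl, Sum.elim_inr]
      rcases hab with ⟨rfl, h⟩ | ⟨rfl, h⟩ <;> simp only at h <;> rw [h] <;> simp <;> omega
    · have := hlt x
      simp only [κ₁, Sum.elim_inl, Sum.elim_inr]
      rcases hab with ⟨h, rfl⟩ | ⟨h, rfl⟩ <;> simp only at h <;> rw [h] <;> simp <;> omega
    · obtain ⟨h, h'⟩ := hab
      simp only at h h'
      subst h
      have := hl x y h'
      simp only [κ₁, Sum.elim_inr]
      rw [Fin.lt_def] at this
      omega
  have hm₂ : f₂ ∈ LE (DR r) := by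
    rw [mem_LE]
    intro a b hab
    rw [hf₂]
    rcases a with i | ⟨j, x⟩ <;> rcases b with i' | ⟨j', y⟩
    · simp only [κ₂, Sum.elim_inl]
      rcases hab with ⟨rfl, rfl⟩ | ⟨rfl, rfl⟩ | ⟨rfl, rfl⟩ | ⟨rfl, rfl⟩ <;> simp <;> omega
    · simp only [κ₂, Sum.elim_inl, Sum.elim_inr]
      rcases hab with ⟨rfl, h⟩ | ⟨rfl, h⟩ <;> simp only at h <;> rw [h] <;> simp <;> omega
    · have := hlt x
      simp only [κ₂, Sum.elim_inl, Sum.elim_inr]
      rcases hab with ⟨h, rfl⟩ | ⟨h, rfl⟩ <;> simp only at h <;> rw [h] <;> simp <;> omega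
    · obtain ⟨h, h'⟩ := hab
      simp only at h h'
      subst h
      have := hl x y h'
      simp only [κ₂, Sum.elim_inr]
      rw [Fin.lt_def] at this
      omega
  have hne : f₁ ≠ f₂ := by
    intro h
    obtain ⟨x⟩ : Nonempty X := Fintype.card_pos_iff.1 hX
    have h1 : f₁ (Sum.inl 5) < f₁ (Sum.inr (2, x)) := by
      rw [hf₁]
      simp only [κ₁, Sum.elim_inl, Sum.elim_inr]
      simp
      omega
    have h2 : f₂ (Sum.inr (2, x)) < f₂ (Sum.inl 5) := by
      rw [hf₂]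
      have := hlt x
      simp only [κ₂, Sum.elim_inl, Sum.elim_inr]
      simp
      omega
    rw [h] at h1
    exact lt_asymm h1 h2
  exact Finset.one_lt_card.2 ⟨f₁, hm₁, f₂, hm₂, hne⟩

theorem prod3 (j : Fin 3) (a b : ℝ) : ∏ i, (if i = j then a else b) = b ^ 2 * a := by
  rw [Fin.prod_univ_three]
  fin_cases j
  · simp; ring
  · simp; ring
  · simp
    left
    ring

theorem module_comp {X : Type} [Fintype X] (r : X → X → Prop) (hr : (LE r).Nonempty)
    (hX : 1 ≤ Fintype.card X) :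
    1 < (LE (DR r)).card ∧
    (∀ i : Fin 6, ht (DR r) (Sum.inl i) = ht (DR (cs (Fintype.card X))) (Sum.inl i)) ∧
    (∀ (j : Fin 3) (x : X), ht (DR r) (Sum.inr (j, x)) =
      avg r (fun f => ht (DR (cs (Fintype.card X))) (Sum.inr (j, f x)))) := by
  classical
  refine ⟨card_gt r hr hX, ?_, ?_⟩
  · intro i
    have hc : ((LE r).card : ℝ) ≠ 0 := by
      exact_mod_cast hr.card_pos.ne'
    unfold ht avg
    have hcard : ((LE (DR r)).card : ℝ) = ((LE r).card : ℝ) ^ 3 *
        (LE (DR (cs (Fintype.card X)))).card := by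
      have h := sum_LE r (fun _ => (1 : ℝ))
      simp only [Finset.sum_const, nsmul_eq_mul, mul_one, Fintype.card_piFinset_const] at h
      rw [h]
      push_cast
      ring
    rw [sum_LE, hcard]
    have h2 : ∀ (l : Fin 3 → (X ≃ Fin (Fintype.card X))) (g : (Fin 6 ⊕ (Fin 3 × Fin (Fintype.card X))) ≃
      Fin (Fintype.card (Fin 6 ⊕ (Fin 3 × Fin (Fintype.card X))))),
        (pos (Phi l g) (Sum.inl i) : ℝ) = (pos g (Sum.inl i) : ℝ) := fun l g => rfl
    simp only [h2, Finset.sum_const, nsmul_eq_mul, Fintype.card_piFinset_const]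
    rw [← Finset.mul_sum]
    push_cast
    rw [mul_div_mul_left _ _ (pow_ne_zero 3 hc)]
  · intro j x
    have hc : ((LE r).card : ℝ) ≠ 0 := by
      exact_mod_cast hr.card_pos.ne'
    unfold ht avg
    have hcard : ((LE (DR r)).card : ℝ) = ((LE r).card : ℝ) ^ 3 *
        (LE (DR (cs (Fintype.card X)))).card := by
      have h := sum_LE r (fun _ => (1 : ℝ))
      simp only [Finset.sum_const, nsmul_eq_mul, mul_one, Fintype.card_piFinset_const] at h
      rw [h]
      push_cast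
      ring
    rw [sum_LE, hcard]
    have h2 : ∀ (l : Fin 3 → (X ≃ Fin (Fintype.card X))) (g : (Fin 6 ⊕ (Fin 3 × Fin (Fintype.card X))) ≃
      Fin (Fintype.card (Fin 6 ⊕ (Fin 3 × Fin (Fintype.card X))))),
        (pos (Phi l g) (Sum.inr (j, x)) : ℝ) = (pos g (Sum.inr (j, l j x)) : ℝ) := fun l g => rfl
    simp only [h2]
    rw [Finset.sum_comm]
    have h3 : ∀ H : (X ≃ Fin (Fintype.card X)) → ℝ,
        ∑ l ∈ Fintype.piFinset (fun _ : Fin 3 => LE r), H (l j) =
          ((LE r).card : ℝ) ^ 2 * ∑ f ∈ LE r, H f := by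
      intro H
      have h4 := Finset.prod_univ_sum (fun _ : Fin 3 => LE r)
        (fun i f => if i = j then H f else (1 : ℝ))
      have h5 : ∀ l : Fin 3 → (X ≃ Fin (Fintype.card X)),
          ∏ i, (if i = j then H (l i) else (1 : ℝ)) = H (l j) := by
        intro l
        rw [Finset.prod_ite_eq' Finset.univ j (fun i => H (l i)), if_pos (Finset.mem_univ j)]
      simp only [h5] at h4
      have h6 : ∀ i : Fin 3, ∑ f ∈ LE r, (if i = j then H f else (1 : ℝ)) =
          if i = j then ∑ f ∈ LE r, H f else ((LE r).card : ℝ) := by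
        intro i
        split_ifs <;> simp
      simp only [h6] at h4
      rw [← h4, prod3]
    rw [h3 (fun f => ∑ g ∈ LE (DR (cs (Fintype.card X))), (pos g (Sum.inr (j, f x)) : ℝ)),
      ← Finset.sum_div]
    by_cases hB : ((LE (DR (cs (Fintype.card X)))).card : ℝ) = 0
    · rw [hB]; simp
    · field_simp

end J10130

end

end Pool.Agent.KS
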