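import Pool.Agent.H875KS.Defs2

set_option autoImplicit false

namespace Pool.Agent.KS

open Finset Filter Topology

noncomputable section

namespace J10163

theorem walk_10163 (G : ℕ → ℝ) (s D : ℝ) (hs : 0 < s) (h0 : G 0 ≤ 0)
    (hinc : ∀ j, s ≤ G (j + 1) - G j ∧ G (j + 1) - G j ≤ D) : ∃ j, |G j| ≤ D := by
  classical
  have h1 : ∀ j : ℕ, G 0 + j * s ≤ G j := by
    intro j
    induction j with
    | zero => simp
    | succ j ih =>
      have := (hinc j).1
      push_cast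
      linarith
  have h2 : ∃ j, 0 ≤ G j := by
    obtain ⟨j, hj⟩ := exists_nat_gt (-G 0 / s)
    refine ⟨j, ?_⟩
    rw [div_lt_iff₀ hs] at hj
    linarith [h1 j]
  have hD : 0 ≤ D := by linarith [(hinc 0).1, (hinc 0).2]
  obtain ⟨j, hj⟩ : ∃ j, j = Nat.find h2 := ⟨_, rfl⟩
  have hj0 : 0 ≤ G j := hj ▸ Nat.find_spec h2
  refine ⟨j, ?_⟩
  rw [abs_of_nonneg hj0]
  rcases Nat.eq_zero_or_pos j with h3 | h3
  · subst h3
    linarith
  · obtain ⟨i, rfl⟩ : ∃ i, j = i + 1 := ⟨j - 1, by omega⟩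
    have h4 : ¬ 0 ≤ G i := Nat.find_min h2 (by omega)
    have h5 := (hinc i).2
    linarith [not_le.mp h4]

theorem dirichlet_10163 (δ : ℝ) (hδ : 0 < δ) : ∃ p q : ℕ, 1 ≤ q ∧
    (p : ℝ) * Real.log 3 - q * Real.log 2 ≠ 0 ∧ |(p : ℝ) * Real.log 3 - q * Real.log 2| < δ := by
  have hl3 : 0 < Real.log 3 := Real.log_pos (by norm_num)
  have hl2 : 0 < Real.log 2 := Real.log_pos (by norm_num)
  obtain ⟨n, hn⟩ := exists_nat_gt (Real.log 3 / δ)
  have hn0 : 0 < n := by
    have : (0 : ℝ) < n := lt_trans (div_pos hl3 hδ) hn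
    exact_mod_cast this
  obtain ⟨j, k, hk, hkn, hjk⟩ := Real.exists_int_int_abs_mul_sub_le (Real.log 2 / Real.log 3) hn0
  have hj : 0 ≤ j := by
    by_contra hj
    have h1 : (j : ℝ) ≤ -1 := by
      have : j ≤ -1 := by omega
      exact_mod_cast this
    have h2 : (0 : ℝ) < k * (Real.log 2 / Real.log 3) := by
      have : (0 : ℝ) < k := by exact_mod_cast hk
      positivity
    have h3 : 1 < |(k : ℝ) * (Real.log 2 / Real.log 3) - j| := by
      rw [lt_abs]; left; linarith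
    have h4 : (1 : ℝ) / (n + 1) ≤ 1 := by
      rw [div_le_one (by positivity)]
      have : (0 : ℝ) ≤ n := Nat.cast_nonneg n
      linarith
    linarith
  obtain ⟨p, rfl⟩ := Int.eq_ofNat_of_zero_le hj
  obtain ⟨q, rfl⟩ := Int.eq_ofNat_of_zero_le hk.le
  have hq : 1 ≤ q := by omega
  refine ⟨p, q, hq, ?_, ?_⟩
  · intro h0
    have h1 : Real.log ((3 : ℝ) ^ p) = Real.log ((2 : ℝ) ^ q) := by
      rw [Real.log_pow, Real.log_pow]; linarith
    have h2 : (3 : ℝ) ^ p = (2 : ℝ) ^ q :=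
      Real.log_injOn_pos (Set.mem_Ioi.mpr (by positivity)) (Set.mem_Ioi.mpr (by positivity)) h1
    have h3 : 3 ^ p = 2 ^ q := by exact_mod_cast h2
    have h4 : Odd (3 ^ p) := Odd.pow (by decide)
    have h5 : Even (2 ^ q) := (Nat.even_pow.mpr ⟨by decide, by omega⟩)
    rw [h3] at h4
    exact (Nat.not_odd_iff_even.mpr h5) h4
  · have h1 : (p : ℝ) * Real.log 3 - q * Real.log 2 =
        -(Real.log 3 * ((q : ℝ) * (Real.log 2 / Real.log 3) - p)) := by
      field_simp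
      ring
    rw [h1, abs_neg, abs_mul, abs_of_pos hl3]
    have h2 : |(q : ℝ) * (Real.log 2 / Real.log 3) - p| ≤ 1 / (n + 1) := by exact_mod_cast hjk
    have h3 : Real.log 3 * |(q : ℝ) * (Real.log 2 / Real.log 3) - p| ≤
        Real.log 3 * (1 / (n + 1)) := mul_le_mul_of_nonneg_left h2 hl3.le
    have h4 : Real.log 3 * (1 / (n + 1)) < δ := by
      rw [mul_one_div, div_lt_iff₀ (by positivity)]
      rw [div_lt_iff₀ hδ] at hn
      linarith
    linarith

theorem A_pos_10163 (h : ℕ) (hh : 1 ≤ h) : 0 < A h := by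
  unfold A
  have : (0 : ℝ) < h := by exact_mod_cast hh
  positivity

theorem logA_10163 (h q : ℕ) (hh : 1 ≤ h) : ∃ r : ℝ, 0 ≤ r ∧ r ≤ q / h ∧
    Real.log (A (h + q)) - Real.log (A h) = r - q * Real.log 2 := by
  have hh' : (0 : ℝ) < h := by exact_mod_cast hh
  have hq : (0 : ℝ) ≤ q := Nat.cast_nonneg q
  refine ⟨Real.log (1 + q / h), Real.log_nonneg (by
    have : (0 : ℝ) ≤ q / h := by positivity
    linarith), ?_, ?_⟩
  · have h1 := Real.log_le_sub_one_of_pos (x := 1 + (q : ℝ) / h) (by positivity)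
    linarith
  · have h1 : A (h + q) = A h * (1 + q / h) / 2 ^ q := by
      unfold A
      push_cast
      rw [pow_add]
      field_simp
    have h2 := A_pos_10163 h hh
    rw [h1, Real.log_div (by positivity) (by positivity), Real.log_mul (by positivity)
      (by positivity), Real.log_pow]
    ring

theorem A_small_10163 (h : ℕ) (hh : 5 ≤ h) : Real.log 3 + Real.log (A h) ≤ 0 := by
  have h1 : 9 * h ≤ 2 * 2 ^ h := by
    induction h, hh using Nat.le_induction with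
    | base => norm_num
    | succ h hh ih =>
      rw [pow_succ]
      have : 9 ≤ 2 * 2 ^ h := by omega
      omega
  have h2 : (9 : ℝ) * h ≤ 2 * 2 ^ h := by exact_mod_cast h1
  have h3 := A_pos_10163 h (by omega)
  rw [← Real.log_mul (by norm_num) h3.ne']
  apply Real.log_nonpos (by positivity)
  unfold A
  have h4 : (3 : ℝ) * (3 / 2 * h / 2 ^ h) = (9 * h) / (2 * 2 ^ h) := by
    field_simp
    ring
  rw [h4, div_le_one (by positivity)]
  exact h2

theorem numbers (ε : ℝ) (hε : 0 < ε) (h0 : ℕ) :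
    ∃ h n : ℕ, h0 ≤ h ∧ 1 ≤ n ∧ |(3 : ℝ) ^ n * A h - 1| ≤ ε := by
  obtain ⟨δ, hδd⟩ : ∃ δ : ℝ, δ = min (1 / 2) (ε / 4) := ⟨_, rfl⟩
  have hδ : 0 < δ := by rw [hδd]; positivity
  have hδ1 : δ ≤ 1 / 2 := by rw [hδd]; exact min_le_left _ _
  have hδ2 : δ ≤ ε / 4 := by rw [hδd]; exact min_le_right _ _
  have hl3 : 0 < Real.log 3 := Real.log_pos (by norm_num)
  -- it suffices to bound the logarithm
  suffices hkey : ∃ h n : ℕ, h0 ≤ h ∧ 1 ≤ h ∧ 1 ≤ n ∧
      |(n : ℝ) * Real.log 3 + Real.log (A h)| ≤ 2 * δ by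
    obtain ⟨h, n, hh0, hh1, hn, hle⟩ := hkey
    refine ⟨h, n, hh0, hn, ?_⟩
    have h1 := A_pos_10163 h hh1
    have h2 : (3 : ℝ) ^ n * A h = Real.exp ((n : ℝ) * Real.log 3 + Real.log (A h)) := by
      rw [Real.exp_add, Real.exp_log h1, ← Real.log_pow, Real.exp_log (by positivity)]
    rw [h2]
    have h3 := Real.abs_exp_sub_one_le (x := (n : ℝ) * Real.log 3 + Real.log (A h))
      (by linarith)
    linarith
  obtain ⟨p, q, hq, hne, hlt⟩ := dirichlet_10163 δ hδ
  obtain ⟨σ, hσ⟩ : ∃ σ : ℝ, σ = (p : ℝ) * Real.log 3 - q * Real.log 2 := ⟨_, rfl⟩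
  rw [← hσ] at hne hlt
  have hq0 : (0 : ℝ) < q := by exact_mod_cast hq
  have hstep : ∀ (h1 n1 : ℕ) (D : ℝ), 1 ≤ h1 → (q : ℝ) / D ≤ h1 → 0 < D → ∀ j : ℕ,
      ∃ r : ℝ, 0 ≤ r ∧ r ≤ D ∧
      (((n1 + (j + 1) * p : ℕ) : ℝ) * Real.log 3 + Real.log (A (h1 + (j + 1) * q))) -
        (((n1 + j * p : ℕ) : ℝ) * Real.log 3 + Real.log (A (h1 + j * q))) = σ + r := by
    intro h1 n1 D hh1 hD hD0 j
    obtain ⟨r, hr0, hr1, hr2⟩ := logA_10163 (h1 + j * q) q (by omega)
    refine ⟨r, hr0, hr1.trans ?_, ?_⟩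
    · have h2 : (h1 : ℝ) ≤ ((h1 + j * q : ℕ) : ℝ) := by exact_mod_cast Nat.le_add_right _ _
      have h3 : (0 : ℝ) < ((h1 + j * q : ℕ) : ℝ) := by
        have : 0 < h1 + j * q := by omega
        exact_mod_cast this
      rw [div_le_iff₀ h3]
      rw [div_le_iff₀ hD0] at hD
      calc (q : ℝ) ≤ h1 * D := hD
        _ ≤ ((h1 + j * q : ℕ) : ℝ) * D := mul_le_mul_of_nonneg_right h2 hD0.le
        _ = D * ((h1 + j * q : ℕ) : ℝ) := mul_comm _ _
    · have h2 : h1 + (j + 1) * q = h1 + j * q + q := by ring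
      rw [h2]
      have h3 : ((n1 + (j + 1) * p : ℕ) : ℝ) = ((n1 + j * p : ℕ) : ℝ) + p := by
        push_cast; ring
      rw [h3, hσ]
      linarith
  rcases lt_or_gt_of_ne hne with hneg | hpos
  · -- σ < 0
    rw [abs_of_neg hneg] at hlt
    obtain ⟨h1, hh1⟩ := exists_nat_ge ((q : ℝ) / (-σ / 2))
    obtain ⟨H, hH⟩ : ∃ H : ℕ, H = max h0 (max h1 1) := ⟨_, rfl⟩
    have hH0 : h0 ≤ H := by rw [hH]; exact le_max_left _ _
    have hH1 : h1 ≤ H := by rw [hH]; exact (le_max_left _ _).trans (le_max_right _ _)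
    have hH2 : 1 ≤ H := by rw [hH]; exact (le_max_right _ _).trans (le_max_right _ _)
    obtain ⟨m, hm⟩ := exists_nat_ge (-Real.log (A H) / Real.log 3)
    have hst := hstep H (m + 1) (-σ / 2) hH2 (hh1.trans (by exact_mod_cast hH1)) (by linarith)
    obtain ⟨j, hj⟩ := walk_10163 (fun j => -(((m + 1 + j * p : ℕ) : ℝ) * Real.log 3 +
      Real.log (A (H + j * q)))) (-σ / 2) (2 * δ) (by linarith) (by
        simp only [Nat.zero_mul, Nat.add_zero]
        rw [div_le_iff₀ hl3] at hm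
        push_cast
        linarith) (by
        intro j
        obtain ⟨r, hr0, hr1, hr2⟩ := hst j
        constructor
        · linarith
        · linarith)
    rw [abs_neg] at hj
    exact ⟨H + j * q, m + 1 + j * p, by omega, by omega, by omega, hj⟩
  · rw [abs_of_pos hpos] at hlt
    obtain ⟨h1, hh1⟩ := exists_nat_ge ((q : ℝ) / δ)
    obtain ⟨H, hH⟩ : ∃ H : ℕ, H = max h0 (max h1 5) := ⟨_, rfl⟩
    have hH0 : h0 ≤ H := by rw [hH]; exact le_max_left _ _
    have hH1 : h1 ≤ H := by rw [hH]; exact (le_max_left _ _).trans (le_max_right _ _)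
    have hH2 : 5 ≤ H := by rw [hH]; exact (le_max_right _ _).trans (le_max_right _ _)
    have hst := hstep H 1 δ (by omega) (hh1.trans (by exact_mod_cast hH1)) hδ
    obtain ⟨j, hj⟩ := walk_10163 (fun j => ((1 + j * p : ℕ) : ℝ) * Real.log 3 +
      Real.log (A (H + j * q))) σ (2 * δ) hpos (by
        simp only [Nat.zero_mul, Nat.add_zero, Nat.cast_one, one_mul]
        exact A_small_10163 H hH2) (by
        intro j
        obtain ⟨r, hr0, hr1, hr2⟩ := hst j
        constructor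
        · linarith
        · linarith)
    exact ⟨H + j * q, 1 + j * p, by omega, by omega, by omega, hj⟩

end J10163

end

end Pool.Agent.KS
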