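import Pool.Agent.H875KS.Defs2

set_option autoImplicit false

namespace Pool.Agent.KS

open Finset Filter Topology

noncomputable section

namespace J10162

lemma kink (c k : ℕ) (hk : 1 ≤ k) (_hc : 1 ≤ c) :
    ((k + 1 - c : ℕ) : ℝ) - 2 * ((k - c : ℕ) : ℝ) + ((k - 1 - c : ℕ) : ℝ) =
      if k = c then 1 else 0 := by
  rcases lt_trichotomy k c with h | h | h
  · have e1 : k + 1 - c = 0 := by omega
    have e2 : k - c = 0 := by omega
    have e3 : k - 1 - c = 0 := by omega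
    rw [e1, e2, e3, if_neg (by omega)]; simp
  · subst h
    have e1 : k + 1 - k = 1 := by omega
    have e2 : k - k = 0 := by omega
    have e3 : k - 1 - k = 0 := by omega
    rw [e1, e2, e3, if_pos rfl]; simp
  · obtain ⟨d, rfl⟩ : ∃ d, k = c + 1 + d := ⟨k - (c + 1), by omega⟩
    have e1 : c + 1 + d + 1 - c = d + 2 := by omega
    have e2 : c + 1 + d - c = d + 1 := by omega
    have e3 : c + 1 + d - 1 - c = d := by omega
    rw [e1, e2, e3, if_neg (by omega)]; push_cast; ring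

lemma pl (N h : ℕ) (hh : 3 ≤ h) (hN : 2 * h + 2 ≤ N) (f : ℕ → ℝ) (a1 a2 a3 a4 : ℝ)
    (f0 : f 0 = 0)
    (D0 : ∀ k : ℕ, 1 ≤ k → k ≤ N → k ≠ 1 → k ≠ h → k ≠ N + 1 - h → k ≠ N →
      f (k + 1) - 2 * f k + f (k - 1) = 0)
    (D1 : f 2 - 2 * f 1 + f 0 = a1) (D2 : f (h + 1) - 2 * f h + f (h - 1) = a2)
    (D3 : f (N + 1 - h + 1) - 2 * f (N + 1 - h) + f (N + 1 - h - 1) = a3)
    (D4 : f (N + 1) - 2 * f N + f (N - 1) = a4) :
    ∀ k ≤ N + 1, f k = k * f 1 + a1 * ((k - 1 : ℕ) : ℝ) + a2 * ((k - h : ℕ) : ℝ) +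
      a3 * ((k - (N + 1 - h) : ℕ) : ℝ) + a4 * ((k - N : ℕ) : ℝ) := by
  have DD : ∀ m, 1 ≤ m → m ≤ N → f (m + 1) - 2 * f m + f (m - 1) =
      a1 * (if m = 1 then 1 else 0) + a2 * (if m = h then 1 else 0) +
      a3 * (if m = N + 1 - h then 1 else 0) + a4 * (if m = N then 1 else 0) := by
    intro m h1 h2
    by_cases c1 : m = 1
    · subst c1
      rw [if_pos rfl, if_neg (by omega), if_neg (by omega), if_neg (by omega), ← D1]
      simp
    by_cases c2 : m = h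
    · subst c2
      rw [if_neg (by omega), if_pos rfl, if_neg (by omega), if_neg (by omega), ← D2]
      simp
    by_cases c3 : m = N + 1 - h
    · subst c3
      rw [if_neg (by omega), if_neg (by omega), if_pos rfl, if_neg (by omega), ← D3]
      simp
    by_cases c4 : m = N
    · subst c4
      rw [if_neg (by omega), if_neg (by omega), if_neg (by omega), if_pos rfl, ← D4]
      simp
    rw [if_neg c1, if_neg c2, if_neg c3, if_neg c4, D0 m h1 h2 c1 c2 c3 c4]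
    simp
  intro k
  induction k using Nat.strong_induction_on with
  | _ k ih =>
    intro hk
    rcases Nat.lt_or_ge k 2 with hk2 | hk2
    · have e2 : k - h = 0 := by omega
      have e3 : k - (N + 1 - h) = 0 := by omega
      have e4 : k - N = 0 := by omega
      have e1 : k - 1 = 0 := by omega
      rw [e1, e2, e3, e4]
      interval_cases k
      · simp [f0]
      · simp
    · obtain ⟨m, rfl⟩ : ∃ m, k = m + 2 := ⟨k - 2, by omega⟩
      have i1 := ih (m + 1) (by omega) (by omega)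
      have i0 := ih m (by omega) (by omega)
      have d := DD (m + 1) (by omega) (by omega)
      rw [← kink 1 (m + 1) (by omega) (by omega), ← kink h (m + 1) (by omega) (by omega),
        ← kink (N + 1 - h) (m + 1) (by omega) (by omega),
        ← kink N (m + 1) (by omega) (by omega)] at d
      have em : m + 1 - 1 = m := by omega
      rw [em] at d
      have e5 : m + 1 + 1 = m + 2 := rfl
      rw [e5] at d
      have e6 : ((m + 1 - 1 : ℕ) : ℝ) = (m : ℝ) := by rw [em]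
      push_cast at i1 i0 d ⊢
      linarith

lemma chain (N h : ℕ) (hh : 3 ≤ h) (hN : 2 * h + 2 ≤ N) (f : ℕ → ℝ) (a1 a2 a3 a4 : ℝ)
    (f0 : f 0 = 0)
    (D0 : ∀ k : ℕ, 1 ≤ k → k ≤ N → k ≠ 1 → k ≠ h → k ≠ N + 1 - h → k ≠ N →
      f (k + 1) - 2 * f k + f (k - 1) = 0)
    (D1 : f 2 - 2 * f 1 + f 0 = a1) (D2 : f (h + 1) - 2 * f h + f (h - 1) = a2)
    (D3 : f (N + 1 - h + 1) - 2 * f (N + 1 - h) + f (N + 1 - h - 1) = a3)
    (D4 : f (N + 1) - 2 * f N + f (N - 1) = a4) (hf : f (N + 1) = 3 * (N : ℝ) + 1)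
    (k : ℕ) (hk : k ≤ h + 2) :
    f k = 3 * k - a1 * (if k = 0 then 0 else 1) - a2 * ((min k h : ℕ) : ℝ) +
      k * ((-2 + a1 + h * a2 - h * a3 - a4) / (N + 1)) := by
  have P := pl N h hh hN f a1 a2 a3 a4 f0 D0 D1 D2 D3 D4
  have hN1 : ((N : ℝ) + 1) ≠ 0 := by positivity
  have q := P (N + 1) le_rfl
  have e1 : N + 1 - 1 = N := by omega
  have e3 : N + 1 - (N + 1 - h) = h := by omega
  have e4 : N + 1 - N = 1 := by omega
  rw [e1, e3, e4, hf, Nat.cast_sub (by omega : h ≤ N + 1)] at q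
  push_cast at q
  have hv : f 1 = 3 - a1 - a2 + (-2 + a1 + h * a2 - h * a3 - a4) / (N + 1) := by
    field_simp
    linarith
  have r := P k (by omega)
  have e5 : k - (N + 1 - h) = 0 := by omega
  have e6 : k - N = 0 := by omega
  rw [e5, e6] at r
  have e7 : ((k - h : ℕ) : ℝ) = (k : ℝ) - ((min k h : ℕ) : ℝ) := by
    rcases le_total k h with c | c
    · rw [min_eq_left c, Nat.sub_eq_zero_of_le c]; simp
    · rw [min_eq_right c, Nat.cast_sub c]
  rw [e7] at r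
  rcases Nat.eq_zero_or_pos k with rfl | hk0
  · simp [f0]
  · rw [if_neg (by omega)]
    rw [Nat.cast_sub (by omega : 1 ≤ k)] at r
    rw [r, hv]
    push_cast
    ring

lemma est (A ε M a1 a2 b c E s t N h k : ℝ) (hA : 0 < A) (hε : 0 < ε) (hh : 0 < h)
    (hk : 0 ≤ k) (hkh : k ≤ h + 2) (hs0 : 0 ≤ s) (hs1 : s ≤ h)
    (h1 : |a1 - b * A| ≤ ε * A) (h2 : |h * a2 - A| ≤ ε * A) (hE : |E| ≤ M) (hN : 0 < N)
    (hNb : (h + 2) * M ≤ ε * A * N)
    (ht : t = c - a1 + a2 * s + k * (E / N)) :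
    |t - (c - A * (b - s / h))| ≤ 10 * ε * A := by
  have e1 : t - (c - A * (b - s / h)) = -(a1 - b * A) + (s / h) * (h * a2 - A) + k * (E / N) := by
    rw [ht]; field_simp; ring
  rw [e1]
  have b1 : |-(a1 - b * A)| ≤ ε * A := by rwa [abs_neg]
  have b2 : |(s / h) * (h * a2 - A)| ≤ ε * A := by
    rw [abs_mul, abs_of_nonneg (by positivity : 0 ≤ s / h)]
    have : s / h ≤ 1 := by rw [div_le_one hh]; exact hs1
    calc s / h * |h * a2 - A| ≤ 1 * (ε * A) :=
          mul_le_mul this h2 (abs_nonneg _) (by norm_num)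
      _ = ε * A := by ring
  have b3 : |k * (E / N)| ≤ ε * A := by
    rw [abs_mul, abs_of_nonneg hk, abs_div, abs_of_pos hN]
    have hM : 0 ≤ M := (abs_nonneg _).trans hE
    calc k * (|E| / N) ≤ (h + 2) * (M / N) := by
          apply mul_le_mul hkh _ (by positivity) (by linarith)
          exact div_le_div_of_nonneg_right hE hN.le
      _ = ((h + 2) * M) / N := by ring
      _ ≤ (ε * A * N) / N := div_le_div_of_nonneg_right hNb hN.le
      _ = ε * A := by field_simp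
  have hεA : 0 < ε * A := by positivity
  calc |-(a1 - b * A) + s / h * (h * a2 - A) + k * (E / N)|
      ≤ |-(a1 - b * A)| + |s / h * (h * a2 - A)| + |k * (E / N)| := abs_add_three _ _ _
    _ ≤ 10 * ε * A := by nlinarith

/-- From the kinks to the heights near the bottom (elementary). -/
theorem solve (ε : ℝ) (hε : 0 < ε) (h : ℕ) (hh : 3 ≤ h) :
    ∃ N0 : ℕ, ∀ N ≥ N0, ∀ (g : Fin 3 → ℕ → ℝ) (k0 k1 z0 z1 z2 : ℝ),
      (∀ j k, k ≤ N + 1 → g (Fin.rev j) (N + 1 - k) = 3 * (N : ℝ) + 1 - g j k) →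
      (∀ j, g j 0 = 0) →
      (∀ (j : Fin 3) (k : ℕ), 1 ≤ k → k ≤ N → k ≠ 1 → k ≠ h → k ≠ N + 1 - h → k ≠ N →
        g j (k + 1) - 2 * g j k + g j (k - 1) = 0) →
      g 2 2 - 2 * g 2 1 + g 2 0 = 0 →
      g 0 2 - 2 * g 0 1 + g 0 0 = k0 →
      g 1 2 - 2 * g 1 1 + g 1 0 = k1 →
      g 0 (h + 1) - 2 * g 0 h + g 0 (h - 1) = - z0 →
      g 1 (h + 1) - 2 * g 1 h + g 1 (h - 1) = - z1 →
      g 2 (h + 1) - 2 * g 2 h + g 2 (h - 1) = - z2 →
      |k0 - 2 * A h| ≤ ε * A h → |k1 - A h| ≤ ε * A h →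
      |h * z0 - A h| ≤ ε * A h → |h * z1 - A h| ≤ ε * A h → |h * z2 - A h| ≤ ε * A h →
      ∀ k, 1 ≤ k → k ≤ h + 2 →
        |g 0 k - (3 * k - A h * (2 - min k h / h))| ≤ 10 * ε * A h ∧
        |g 1 k - (3 * k - A h * (1 - min k h / h))| ≤ 10 * ε * A h ∧
        |g 2 k - (3 * k + A h * (min k h / h))| ≤ 10 * ε * A h := by
  have hh0 : (0 : ℝ) < h := by exact_mod_cast (by omega : 0 < h)
  have hA : 0 < A h := by unfold A; positivity
  obtain ⟨N0, hN0⟩ := exists_nat_ge (((h : ℝ) + 2) * (2 + 4 * (1 + ε) * A h) / (ε * A h))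
  refine ⟨max N0 (2 * h + 2), fun N hN g k0 k1 z0 z1 z2 hdual g0 D0 d21 d01 d11 d0h d1h d2h
    bk0 bk1 bz0 bz1 bz2 k hk1 hk2 => ?_⟩
  have hNN0 : N0 ≤ N := (le_max_left _ _).trans hN
  have hNh : 2 * h + 2 ≤ N := (le_max_right _ _).trans hN
  have hεA : 0 < ε * A h := by positivity
  have hNb : ((h : ℝ) + 2) * (2 + 4 * (1 + ε) * A h) ≤ ε * A h * ((N : ℝ) + 1) := by
    have h1 : ((h : ℝ) + 2) * (2 + 4 * (1 + ε) * A h) / (ε * A h) ≤ (N : ℝ) + 1 := by
      have : (N0 : ℝ) ≤ N := by exact_mod_cast hNN0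
      linarith
    rw [div_le_iff₀ hεA] at h1
    linarith
  have r0 : Fin.rev (0 : Fin 3) = 2 := rfl
  have r1 : Fin.rev (1 : Fin 3) = 1 := rfl
  have r2 : Fin.rev (2 : Fin 3) = 0 := rfl
  -- dual second differences
  have DU : ∀ (j : Fin 3) (m : ℕ), 1 ≤ m → m ≤ N →
      g (Fin.rev j) (N + 1 - m + 1) - 2 * g (Fin.rev j) (N + 1 - m) +
        g (Fin.rev j) (N + 1 - m - 1) = - (g j (m + 1) - 2 * g j m + g j (m - 1)) := by
    intro j m hm1 hm2
    have a := hdual j m (by omega)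
    have b := hdual j (m + 1) (by omega)
    have c := hdual j (m - 1) (by omega)
    have e1 : N + 1 - (m + 1) = N + 1 - m - 1 := by omega
    have e2 : N + 1 - (m - 1) = N + 1 - m + 1 := by omega
    rw [e1] at b; rw [e2] at c
    rw [a, b, c]; ring
  have hend : ∀ j : Fin 3, g j (N + 1) = 3 * (N : ℝ) + 1 := by
    intro j
    have a := hdual (Fin.rev j) 0 (by omega)
    rw [Fin.rev_rev, g0] at a
    simpa using a
  have u1 : N + 1 - 1 = N := by omega
  have q2h := DU 2 h (by omega) (by omega)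
  have q1h := DU 1 h (by omega) (by omega)
  have q0h := DU 0 h (by omega) (by omega)
  have q21 := DU 2 1 (by omega) (by omega)
  have q11 := DU 1 1 (by omega) (by omega)
  have q01 := DU 0 1 (by omega) (by omega)
  rw [r2, d2h] at q2h
  rw [r1, d1h] at q1h
  rw [r0, d0h] at q0h
  rw [r2, u1] at q21
  rw [r1, u1] at q11
  rw [r0, u1] at q01
  have v2 : g 2 (1 + 1) - 2 * g 2 1 + g 2 (1 - 1) = 0 := d21
  have v0 : g 0 (1 + 1) - 2 * g 0 1 + g 0 (1 - 1) = k0 := d01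
  have v1 : g 1 (1 + 1) - 2 * g 1 1 + g 1 (1 - 1) = k1 := d11
  rw [v2] at q21
  rw [v1] at q11
  rw [v0] at q01
  have c0 := chain N h hh hNh (g 0) k0 (-z0) (-(-z2)) (-0) (g0 0) (D0 0) d01 d0h q2h q21 (hend 0)
    k hk2
  have c1 := chain N h hh hNh (g 1) k1 (-z1) (-(-z1)) (-k1) (g0 1) (D0 1) d11 d1h q1h q11 (hend 1)
    k hk2
  have c2 := chain N h hh hNh (g 2) 0 (-z2) (-(-z0)) (-k0) (g0 2) (D0 2) d21 d2h q0h q01 (hend 2)
    k hk2
  rw [if_neg (by omega)] at c0 c1 c2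
  have hN1 : (0 : ℝ) < (N : ℝ) + 1 := by positivity
  have hkr : (0 : ℝ) ≤ k := Nat.cast_nonneg _
  have hkr2 : (k : ℝ) ≤ (h : ℝ) + 2 := by exact_mod_cast hk2
  have hs0 : (0 : ℝ) ≤ ((min k h : ℕ) : ℝ) := Nat.cast_nonneg _
  have hs1 : ((min k h : ℕ) : ℝ) ≤ h := by exact_mod_cast min_le_right _ _
  have hmin : min (k : ℝ) (h : ℝ) = ((min k h : ℕ) : ℝ) := (Nat.cast_min k h).symm
  have ak0 := abs_le.mp bk0
  have ak1 := abs_le.mp bk1
  have az0 := abs_le.mp bz0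
  have az1 := abs_le.mp bz1
  have az2 := abs_le.mp bz2
  refine ⟨?_, ?_, ?_⟩
  · have := est (A h) ε (2 + 4 * (1 + ε) * A h) k0 z0 2 (3 * k)
      (-2 + k0 + h * (-z0) - h * (-(-z2)) - (-0)) ((min k h : ℕ) : ℝ) (g 0 k) (N + 1) h k hA hε hh0
      hkr hkr2 hs0 hs1 bk0 bz0 (by rw [abs_le]; constructor <;> nlinarith) hN1 hNb
      (by rw [c0]; ring)
    simpa only [hmin] using this
  · have := est (A h) ε (2 + 4 * (1 + ε) * A h) k1 z1 1 (3 * k)
      (-2 + k1 + h * (-z1) - h * (-(-z1)) - (-k1)) ((min k h : ℕ) : ℝ) (g 1 k) (N + 1) h k hA hε hh0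
      hkr hkr2 hs0 hs1 (by rwa [one_mul]) bz1
      (by rw [abs_le]; constructor <;> nlinarith) hN1 hNb
      (by rw [c1]; ring)
    simpa only [hmin] using this
  · have := est (A h) ε (2 + 4 * (1 + ε) * A h) 0 z2 0 (3 * k)
      (-2 + 0 + h * (-z2) - h * (-(-z0)) - (-k0)) ((min k h : ℕ) : ℝ) (g 2 k) (N + 1) h k hA hε hh0
      hkr hkr2 hs0 hs1 (by simp; positivity) bz2
      (by rw [abs_le]; constructor <;> nlinarith) hN1 hNb
      (by rw [c2]; ring)
    have e : 3 * (k : ℝ) - A h * (0 - ((min k h : ℕ) : ℝ) / h) =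
        3 * k + A h * (((min k h : ℕ) : ℝ) / h) := by ring
    rw [e] at this
    simpa only [hmin] using this

end J10162

end

end Pool.Agent.KS
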