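import Pool.Agent.H875KS.Defs2

set_option autoImplicit false

namespace Pool.Agent.KS

open Finset Filter Topology

noncomputable section

namespace J10159

theorem tail_bound_len (w : List (Fin 3)) : w.length = w.count 0 + w.count 1 + w.count 2 := by
  induction w with
  | nil => rfl
  | cons c w ih =>
    simp only [List.length_cons, List.count_cons, ih]
    fin_cases c <;> simp <;> omega

theorem tail_bound_mem {m : Fin 3 → ℕ} {w : List (Fin 3)} : w ∈ words m ↔ ∀ c, w.count c = m c := by
  unfold words
  rw [Finset.mem_filter, Finset.mem_image]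
  constructor
  · exact fun h => h.2
  · intro h
    refine ⟨?_, h⟩
    have hl : w.length = m 0 + m 1 + m 2 := by rw [tail_bound_len, h 0, h 1, h 2]
    rw [← hl]
    exact ⟨w.get, Finset.mem_univ _, List.ofFn_get w⟩

/-- the words after removal of a first letter `c` -/
def tail_bound_wc (m : Fin 3 → ℕ) (c : Fin 3) : Finset (List (Fin 3)) :=
  if m c = 0 then ∅ else words (Function.update m c (m c - 1))

theorem tail_bound_mem_wc {m : Fin 3 → ℕ} {c : Fin 3} {w : List (Fin 3)} :
    w ∈ tail_bound_wc m c ↔ c :: w ∈ words m := by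
  unfold tail_bound_wc
  rw [tail_bound_mem]
  split_ifs with h
  · constructor
    · intro h1; exact absurd h1 (Finset.notMem_empty _)
    · intro h1
      have := h1 c
      rw [List.count_cons_self, h] at this
      omega
  · rw [tail_bound_mem]
    constructor
    · intro h1 d
      have h2 := h1 d
      by_cases hd : d = c
      · subst hd
        rw [Function.update_self] at h2
        rw [List.count_cons_self, h2]; omega
      · rw [Function.update_of_ne hd] at h2
        rw [List.count_cons_of_ne (Ne.symm hd), h2]
    · intro h1 d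
      have h2 := h1 d
      by_cases hd : d = c
      · subst hd
        rw [Function.update_self]
        rw [List.count_cons_self] at h2; omega
      · rw [Function.update_of_ne hd]
        rw [List.count_cons_of_ne (Ne.symm hd)] at h2
        exact h2

theorem tail_bound_dec (m : Fin 3 → ℕ) (hm : 0 < m 0 + m 1 + m 2) (p : List (Fin 3) → Prop)
    [DecidablePred p] : ((words m).filter p).card =
      ∑ c : Fin 3, ((tail_bound_wc m c).filter (fun w => p (c :: w))).card := by
  have h1 : (words m).filter p = Finset.univ.biUnion (fun c : Fin 3 =>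
      ((tail_bound_wc m c).filter (fun w => p (c :: w))).image (List.cons c)) := by
    ext w
    rw [Finset.mem_filter, Finset.mem_biUnion]
    constructor
    · rintro ⟨hw, hp⟩
      cases w with
      | nil =>
        exfalso
        have h0 := tail_bound_mem.1 hw
        have h1 := tail_bound_len ([] : List (Fin 3))
        rw [h0 0, h0 1, h0 2] at h1
        simp at h1
        omega
      | cons c w =>
        refine ⟨c, Finset.mem_univ _, Finset.mem_image.2 ⟨w, Finset.mem_filter.2 ⟨?_, hp⟩, rfl⟩⟩
        exact tail_bound_mem_wc.2 hw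
    · rintro ⟨c, _, hc⟩
      obtain ⟨w', hw', rfl⟩ := Finset.mem_image.1 hc
      obtain ⟨h1, h2⟩ := Finset.mem_filter.1 hw'
      exact ⟨tail_bound_mem_wc.1 h1, h2⟩
  rw [h1, Finset.card_biUnion]
  · refine Finset.sum_congr rfl fun c _ => ?_
    exact Finset.card_image_of_injective _ (List.cons_injective)
  · intro c _ d _ hcd
    rw [Function.onFun, Finset.disjoint_left]
    intro w hw hw'
    obtain ⟨w1, _, h1⟩ := Finset.mem_image.1 hw
    obtain ⟨w2, _, h2⟩ := Finset.mem_image.1 hw'
    rw [← h2] at h1
    exact hcd (List.cons.inj h1).1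

theorem tail_bound_sumwc (m : Fin 3 → ℕ) (hm : 0 < m 0 + m 1 + m 2) :
    (words m).card = ∑ c : Fin 3, (tail_bound_wc m c).card := by
  have := tail_bound_dec m hm (fun _ => True)
  simpa using this

theorem tail_bound_upd (m : Fin 3 → ℕ) (c : Fin 3) (h : m c ≠ 0) :
    (Function.update m c (m c - 1)) 0 + (Function.update m c (m c - 1)) 1 +
      (Function.update m c (m c - 1)) 2 + 1 = m 0 + m 1 + m 2 := by
  fin_cases c
  · simp at h ⊢; omega
  · simp at h ⊢; omega
  · simp at h ⊢; omega

theorem tail_bound_fac (m : Fin 3 → ℕ) (c : Fin 3) (h : m c ≠ 0) :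
    (m 0).factorial * (m 1).factorial * (m 2).factorial = m c *
    (((Function.update m c (m c - 1)) 0).factorial * ((Function.update m c (m c - 1)) 1).factorial *
      ((Function.update m c (m c - 1)) 2).factorial) := by
  have h1 := Nat.mul_factorial_pred h
  fin_cases c
  · simp at h1 ⊢; rw [← h1]; ring
  · simp at h1 ⊢; rw [← h1]; ring
  · simp at h1 ⊢; rw [← h1]; ring

theorem tail_bound_card : ∀ (n : ℕ) (m : Fin 3 → ℕ), m 0 + m 1 + m 2 = n →
    (words m).card * ((m 0).factorial * (m 1).factorial * (m 2).factorial) = n.factorial := by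
  intro n
  induction n with
  | zero =>
    intro m hm
    have h0 : m 0 = 0 := by omega
    have h1 : m 1 = 0 := by omega
    have h2 : m 2 = 0 := by omega
    have h3 : words m = {[]} := by
      ext w
      rw [tail_bound_mem, Finset.mem_singleton]
      constructor
      · intro h
        have := tail_bound_len w
        rw [h 0, h 1, h 2, hm] at this
        exact List.eq_nil_of_length_eq_zero this
      · rintro rfl c
        fin_cases c
        · simp [h0]
        · simp [h1]
        · simp [h2]
    rw [h3, h0, h1, h2]; simp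
  | succ n ih =>
    intro m hm
    rw [tail_bound_sumwc m (by omega), Finset.sum_mul]
    have key : ∀ c : Fin 3, (tail_bound_wc m c).card *
        ((m 0).factorial * (m 1).factorial * (m 2).factorial) = m c * n.factorial := by
      intro c
      by_cases h : m c = 0
      · unfold tail_bound_wc
        rw [if_pos h, h]; simp
      · have h1 := tail_bound_upd m c h
        have h2 := ih (Function.update m c (m c - 1)) (by omega)
        rw [tail_bound_fac m c h, ← h2]
        unfold tail_bound_wc
        rw [if_neg h]
        ring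
    rw [Fin.sum_univ_three, key, key, key, ← add_mul, ← add_mul, hm, Nat.factorial_succ]

theorem tail_bound_wccard (m : Fin 3 → ℕ) (c : Fin 3) :
    (m 0 + m 1 + m 2) * (tail_bound_wc m c).card = m c * (words m).card := by
  by_cases h : m c = 0
  · unfold tail_bound_wc
    rw [if_pos h, h]; simp
  · have h1 := tail_bound_upd m c h
    have h2 := tail_bound_card _ (Function.update m c (m c - 1)) rfl
    have h3 := tail_bound_card _ m rfl
    have hpos : 0 < (m 0).factorial * (m 1).factorial * (m 2).factorial := by positivity
    apply Nat.eq_of_mul_eq_mul_right hpos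
    rw [mul_assoc (m c), h3, ← h1, Nat.factorial_succ, ← h2, h1, tail_bound_fac m c h]
    unfold tail_bound_wc
    rw [if_neg h]
    ring

/-- number of words with a first letter different from `x` -/
def tail_bound_S (m : Fin 3 → ℕ) (x : Fin 3) : ℕ :=
  ∑ c : Fin 3, if c = x then 0 else (tail_bound_wc m c).card

theorem tail_bound_S_le (m : Fin 3 → ℕ) (x : Fin 3) (hm : 0 < m 0 + m 1 + m 2) :
    tail_bound_S m x ≤ (words m).card := by
  rw [tail_bound_sumwc m hm]
  unfold tail_bound_S
  refine Finset.sum_le_sum fun c _ => ?_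
  split_ifs
  · exact Nat.zero_le _
  · exact le_rfl

theorem tail_bound_S_le' (m : Fin 3 → ℕ) (x : Fin 3) (hm : 0 < m 0 + m 1 + m 2)
    (hx : m 0 + m 1 + m 2 ≤ 3 * m x) :
    (tail_bound_S m x : ℝ) ≤ 2 / 3 * ((words m).card : ℝ) := by
  have h1 : tail_bound_S m x + (tail_bound_wc m x).card = (words m).card := by
    rw [tail_bound_sumwc m hm]
    unfold tail_bound_S
    have : (tail_bound_wc m x).card = ∑ c : Fin 3, if c = x then (tail_bound_wc m c).card else 0 := by
      rw [Finset.sum_ite_eq' Finset.univ x]; simp
    rw [this, ← Finset.sum_add_distrib]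
    refine Finset.sum_congr rfl fun c _ => ?_
    split_ifs <;> simp
  have h2 := tail_bound_wccard m x
  have h3 : (words m).card ≤ 3 * (tail_bound_wc m x).card := by
    have h4 : (m 0 + m 1 + m 2) * (words m).card ≤ (m 0 + m 1 + m 2) * (3 * (tail_bound_wc m x).card) := by
      calc (m 0 + m 1 + m 2) * (words m).card ≤ 3 * m x * (words m).card := Nat.mul_le_mul_right _ hx
        _ = 3 * (m x * (words m).card) := by ring
        _ = 3 * ((m 0 + m 1 + m 2) * (tail_bound_wc m x).card) := by rw [h2]
        _ = _ := by ring
    exact Nat.le_of_mul_le_mul_left h4 hm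
  have h5 : (tail_bound_S m x : ℝ) + ((tail_bound_wc m x).card : ℝ) = ((words m).card : ℝ) := by
    exact_mod_cast h1
  have h6 : ((words m).card : ℝ) ≤ 3 * ((tail_bound_wc m x).card : ℝ) := by exact_mod_cast h3
  linarith

theorem tail_bound_nil (m : Fin 3 → ℕ) (x : Fin 3) (k : ℕ) (hm : ¬ 0 < m 0 + m 1 + m 2) (t : ℕ) :
    ((words m).filter (fun w => t + 1 ≤ occ x k w)).card = 0 := by
  rw [Finset.card_eq_zero, Finset.filter_eq_empty_iff]
  intro w hw
  have h0 := tail_bound_mem.1 hw
  have h1 := tail_bound_len w
  rw [h0 0, h0 1, h0 2] at h1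
  have h2 : w = [] := List.eq_nil_of_length_eq_zero (by omega)
  rw [h2]
  cases k with
  | zero => simp [occ]
  | succ k => simp [occ]

theorem tail_bound_occ_ne (x c : Fin 3) (h : c ≠ x) (k : ℕ) (w : List (Fin 3)) :
    occ x (k + 1) (c :: w) = occ x (k + 1) w + 1 := by
  simp only [occ, if_neg h]

theorem tail_bound_one (x : Fin 3) : ∀ (t : ℕ) (m : Fin 3 → ℕ) (j : ℕ),
    m 0 + m 1 + m 2 ≤ 3 * m x + j →
    (((words m).filter (fun w => t ≤ occ x 1 w)).card : ℝ) ≤
      (3 / 2) ^ (j + 1) * (2 / 3) ^ t * ((words m).card : ℝ) := by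
  intro t
  induction t with
  | zero =>
    intro m j _
    have h1 : (((words m).filter (fun w => 0 ≤ occ x 1 w)).card : ℝ) ≤ ((words m).card : ℝ) := by
      exact_mod_cast Finset.card_filter_le _ _
    have h2 : (1 : ℝ) ≤ (3 / 2) ^ (j + 1) := one_le_pow₀ (by norm_num)
    rw [pow_zero, mul_one]
    nlinarith [Nat.cast_nonneg (α := ℝ) (words m).card]
  | succ t ih =>
    intro m j hj
    by_cases hm : 0 < m 0 + m 1 + m 2
    · rcases Nat.eq_zero_or_pos t with ht | ht
      · subst ht
        have h1 : (((words m).filter (fun w => 0 + 1 ≤ occ x 1 w)).card : ℝ)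
            ≤ ((words m).card : ℝ) := by
          exact_mod_cast Finset.card_filter_le _ _
        have h2 : (1 : ℝ) ≤ (3 / 2) ^ j := one_le_pow₀ (by norm_num)
        have h3 : (3 / 2 : ℝ) ^ (j + 1) * (2 / 3) ^ (0 + 1) = (3 / 2) ^ j := by
          rw [pow_succ]; ring
        rw [h3]
        nlinarith [Nat.cast_nonneg (α := ℝ) (words m).card]
      · have hterm : ∀ (K : ℝ), (∀ c, c ≠ x → m c ≠ 0 →
            (((words (Function.update m c (m c - 1))).filter (fun w => t ≤ occ x 1 w)).card : ℝ) ≤
            K * ((words (Function.update m c (m c - 1))).card : ℝ)) →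
            (((words m).filter (fun w => t + 1 ≤ occ x 1 w)).card : ℝ) ≤ K * tail_bound_S m x := by
          intro K hK
          rw [tail_bound_dec m hm]
          unfold tail_bound_S
          push_cast
          rw [Finset.mul_sum]
          refine Finset.sum_le_sum fun c _ => ?_
          by_cases hc : c = x
          · subst hc
            rw [if_pos rfl]
            have : ((tail_bound_wc m c).filter (fun w => t + 1 ≤ occ c 1 (c :: w))) = ∅ := by
              rw [Finset.filter_eq_empty_iff]
              intro w _
              simp only [occ, if_pos]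
              omega
            rw [this]; simp
          · rw [if_neg hc]
            unfold tail_bound_wc
            by_cases h0 : m c = 0
            · rw [if_pos h0]; simp
            · rw [if_neg h0]
              have h1 := hK c hc h0
              have h2 : ((words (Function.update m c (m c - 1))).filter
                  (fun w => t + 1 ≤ occ x 1 (c :: w))) =
                  ((words (Function.update m c (m c - 1))).filter (fun w => t ≤ occ x 1 w)) := by
                refine Finset.filter_congr fun w _ => ?_
                have h3 : occ x 1 (c :: w) = occ x 1 w + 1 := tail_bound_occ_ne x c hc 0 w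
                rw [h3]
                omega
              rw [h2]
              exact h1
        cases j with
        | zero =>
          have h1 := hterm ((3 / 2) ^ (0 + 1) * (2 / 3) ^ t) (fun c hc h0 => ih _ 0 (by
            have := tail_bound_upd m c h0
            rw [Function.update_of_ne (Ne.symm hc)]
            omega))
          have h2 := tail_bound_S_le' m x hm (by omega)
          calc _ ≤ _ := h1
            _ ≤ (3 / 2) ^ (0 + 1) * (2 / 3) ^ t * (2 / 3 * ((words m).card : ℝ)) :=
                mul_le_mul_of_nonneg_left h2 (by positivity)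
            _ = _ := by rw [pow_succ (2 / 3 : ℝ) t]; ring
        | succ j =>
          have h1 := hterm ((3 / 2) ^ (j + 1) * (2 / 3) ^ t) (fun c hc h0 => ih _ j (by
            have := tail_bound_upd m c h0
            rw [Function.update_of_ne (Ne.symm hc)]
            omega))
          have h2 : (tail_bound_S m x : ℝ) ≤ ((words m).card : ℝ) := by
            exact_mod_cast tail_bound_S_le m x hm
          calc _ ≤ _ := h1
            _ ≤ (3 / 2) ^ (j + 1) * (2 / 3) ^ t * (((words m).card : ℝ)) :=
                mul_le_mul_of_nonneg_left h2 (by positivity)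
            _ = _ := by rw [pow_succ (2 / 3 : ℝ) t, pow_succ (3 / 2 : ℝ) (j + 1)]; ring
    · rw [tail_bound_nil m x 1 hm t]
      push_cast
      positivity

theorem tail_bound_two (x : Fin 3) : ∀ (t : ℕ) (m : Fin 3 → ℕ),
    m 0 + m 1 + m 2 ≤ 3 * m x →
    (((words m).filter (fun w => t ≤ occ x 2 w)).card : ℝ) ≤
      6 * ((t : ℝ) + 1) * (2 / 3) ^ t * ((words m).card : ℝ) := by
  intro t
  induction t with
  | zero =>
    intro m _
    have h1 : (((words m).filter (fun w => 0 ≤ occ x 2 w)).card : ℝ) ≤ ((words m).card : ℝ) := by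
      exact_mod_cast Finset.card_filter_le _ _
    rw [pow_zero, mul_one]
    push_cast
    nlinarith [Nat.cast_nonneg (α := ℝ) (words m).card]
  | succ t ih =>
    intro m hj
    by_cases hm : 0 < m 0 + m 1 + m 2
    · have hx0 : m x ≠ 0 := by omega
      have h1 : (((words m).filter (fun w => t + 1 ≤ occ x 2 w)).card : ℝ) ≤
          (27 / 8) * (2 / 3) ^ t * ((words m).card : ℝ) +
          6 * ((t : ℝ) + 1) * (2 / 3) ^ t * tail_bound_S m x := by
        have hwx : ((tail_bound_wc m x).card : ℝ) ≤ ((words m).card : ℝ) := by
          have : (tail_bound_wc m x).card ≤ (words m).card := by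
            rw [tail_bound_sumwc m hm]
            exact Finset.single_le_sum (f := fun c => (tail_bound_wc m c).card)
              (fun c _ => Nat.zero_le _) (Finset.mem_univ x)
          exact_mod_cast this
        have h2 : (((words m).filter (fun w => t + 1 ≤ occ x 2 w)).card : ℝ) ≤
          ∑ c : Fin 3, ((if c = x then (27 / 8) * (2 / 3) ^ t * ((tail_bound_wc m c).card : ℝ) else 0) +
            6 * ((t : ℝ) + 1) * (2 / 3) ^ t *
              (if c = x then 0 else ((tail_bound_wc m c).card : ℝ))) := by
          rw [tail_bound_dec m hm]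
          push_cast
          refine Finset.sum_le_sum fun c _ => ?_
          by_cases hc : c = x
          · subst hc
            rw [if_pos rfl, if_pos rfl, mul_zero, add_zero]
            unfold tail_bound_wc
            rw [if_neg hx0]
            have h2 : ((words (Function.update m c (m c - 1))).filter
                (fun w => t + 1 ≤ occ c 2 (c :: w))) =
                ((words (Function.update m c (m c - 1))).filter (fun w => t ≤ occ c 1 w)) := by
              refine Finset.filter_congr fun w _ => ?_
              simp only [occ, if_pos]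
              omega
            rw [h2]
            have h3 := tail_bound_one c t (Function.update m c (m c - 1)) 2 (by
              have := tail_bound_upd m c hx0
              rw [Function.update_self]
              omega)
            norm_num at h3 ⊢
            exact h3
          · rw [if_neg hc, if_neg hc, zero_add]
            unfold tail_bound_wc
            by_cases h0 : m c = 0
            · rw [if_pos h0]; simp
            · rw [if_neg h0]
              have h2 : ((words (Function.update m c (m c - 1))).filter
                  (fun w => t + 1 ≤ occ x 2 (c :: w))) =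
                  ((words (Function.update m c (m c - 1))).filter (fun w => t ≤ occ x 2 w)) := by
                refine Finset.filter_congr fun w _ => ?_
                have h3 : occ x 2 (c :: w) = occ x 2 w + 1 := tail_bound_occ_ne x c hc 1 w
                rw [h3]
                omega
              rw [h2]
              exact ih _ (by
                have := tail_bound_upd m c h0
                rw [Function.update_of_ne (Ne.symm hc)]
                omega)
        refine h2.trans ?_
        rw [Finset.sum_add_distrib, Finset.sum_ite_eq' Finset.univ x, if_pos (Finset.mem_univ x),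
          ← Finset.mul_sum]
        have h4 : (tail_bound_S m x : ℝ) =
            ∑ c : Fin 3, (if c = x then 0 else ((tail_bound_wc m c).card : ℝ)) := by
          unfold tail_bound_S; push_cast; rfl
        rw [← h4]
        have h5 := mul_le_mul_of_nonneg_left hwx
          (show (0 : ℝ) ≤ (27 / 8) * (2 / 3) ^ t by positivity)
        linarith
      have h2 := tail_bound_S_le' m x hm hj
      have h3 := mul_le_mul_of_nonneg_left h2
          (show (0 : ℝ) ≤ 6 * ((t : ℝ) + 1) * (2 / 3) ^ t by positivity)
      have h4 : 6 * (((t + 1 : ℕ) : ℝ) + 1) * (2 / 3 : ℝ) ^ (t + 1) * ((words m).card : ℝ) =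
          4 * (2 / 3) ^ t * ((words m).card : ℝ) +
          6 * ((t : ℝ) + 1) * (2 / 3) ^ t * (2 / 3 * ((words m).card : ℝ)) := by
        push_cast; rw [pow_succ]; ring
      rw [h4]
      have h5 : (0 : ℝ) ≤ (2 / 3) ^ t * ((words m).card : ℝ) := by positivity
      nlinarith
    · rw [tail_bound_nil m x 2 hm t]
      push_cast
      positivity

theorem tail_bound_tele (m L : ℕ) :
    ∑ i ∈ Finset.range L, (6 * (((m + i + 1 : ℕ) : ℝ) + 1) * (2 / 3 : ℝ) ^ (m + i + 1)) =
      6 * (2 * (m : ℝ) + 8) * (2 / 3) ^ m - 6 * (2 * ((m : ℝ) + L) + 8) * (2 / 3) ^ (m + L) := by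
  induction L with
  | zero => simp
  | succ L ih =>
    rw [Finset.sum_range_succ, ih, ← add_assoc m L 1, pow_succ]
    push_cast
    ring

theorem tail_bound : ∃ C : ℝ, 0 < C ∧ ∀ (x : Fin 3) (N m : ℕ), 4 ≤ N →
    (∑ w ∈ (W N).filter (fun w => m ≤ occ x 2 w), (occ x 2 w : ℝ)) ≤
      C * ((m : ℝ) + 1) ^ 2 * (2 / 3) ^ m * ((W N).card : ℝ) := by
  refine ⟨48, by norm_num, fun x N m _ => ?_⟩
  obtain ⟨L, hL⟩ : ∃ L, L = (W N).sup (occ x 2) := ⟨_, rfl⟩
  have hLle : ∀ w ∈ W N, occ x 2 w ≤ L := fun w hw => hL ▸ Finset.le_sup hw
  have hP : ∀ t, (((W N).filter (fun w => t ≤ occ x 2 w)).card : ℝ) ≤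
      6 * ((t : ℝ) + 1) * (2 / 3) ^ t * ((W N).card : ℝ) := fun t =>
    tail_bound_two x t (fun _ => N) (by omega)
  have h1 : (∑ w ∈ (W N).filter (fun w => m ≤ occ x 2 w), (occ x 2 w : ℝ)) =
      ∑ t ∈ Finset.range L, ((((W N).filter (fun w => m ≤ occ x 2 w)).filter
        (fun w => t < occ x 2 w)).card : ℝ) := by
    have h2 : ∀ w ∈ (W N).filter (fun w => m ≤ occ x 2 w), (occ x 2 w : ℝ) =
        ∑ t ∈ Finset.range L, if t < occ x 2 w then (1 : ℝ) else 0 := by
      intro w hw
      have h3 := hLle w (Finset.mem_filter.1 hw).1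
      rw [Finset.sum_boole]
      have h4 : (Finset.range L).filter (fun t => t < occ x 2 w) = Finset.range (occ x 2 w) := by
        ext t
        rw [Finset.mem_filter, Finset.mem_range, Finset.mem_range]
        omega
      rw [h4, Finset.card_range]
    rw [Finset.sum_congr rfl h2, Finset.sum_comm]
    refine Finset.sum_congr rfl fun t _ => ?_
    rw [Finset.sum_boole]
  rw [h1]
  have h2 : ∀ t ∈ Finset.range L, ((((W N).filter (fun w => m ≤ occ x 2 w)).filter
        (fun w => t < occ x 2 w)).card : ℝ) ≤
      (if t < m then 6 * ((m : ℝ) + 1) * (2 / 3) ^ m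
        else 6 * (((t + 1 : ℕ) : ℝ) + 1) * (2 / 3) ^ (t + 1)) * ((W N).card : ℝ) := by
    intro t _
    split_ifs with ht
    · refine le_trans ?_ (hP m)
      exact_mod_cast Finset.card_filter_le _ _
    · refine le_trans ?_ (hP (t + 1))
      have : ((W N).filter (fun w => m ≤ occ x 2 w)).filter (fun w => t < occ x 2 w) ⊆
          (W N).filter (fun w => t + 1 ≤ occ x 2 w) := by
        intro w hw
        obtain ⟨h3, h4⟩ := Finset.mem_filter.1 hw
        exact Finset.mem_filter.2 ⟨(Finset.mem_filter.1 h3).1, h4⟩
      exact_mod_cast Finset.card_le_card this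
  refine (Finset.sum_le_sum h2).trans ?_
  rw [← Finset.sum_mul]
  refine mul_le_mul_of_nonneg_right ?_ (Nat.cast_nonneg _)
  have h3 : (∑ t ∈ Finset.range L, (if t < m then 6 * ((m : ℝ) + 1) * (2 / 3) ^ m
        else 6 * (((t + 1 : ℕ) : ℝ) + 1) * (2 / 3) ^ (t + 1))) ≤
      ∑ t ∈ Finset.range (m + L), (if t < m then 6 * ((m : ℝ) + 1) * (2 / 3) ^ m
        else 6 * (((t + 1 : ℕ) : ℝ) + 1) * (2 / 3) ^ (t + 1)) := by
    refine Finset.sum_le_sum_of_subset_of_nonneg (Finset.range_mono (by omega)) fun t _ _ => ?_
    split_ifs <;> positivity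
  refine h3.trans ?_
  rw [Finset.sum_range_add]
  have h4 : ∑ t ∈ Finset.range m, (if t < m then 6 * ((m : ℝ) + 1) * (2 / 3) ^ m
        else 6 * (((t + 1 : ℕ) : ℝ) + 1) * (2 / 3) ^ (t + 1)) =
      (m : ℝ) * (6 * ((m : ℝ) + 1) * (2 / 3) ^ m) := by
    rw [Finset.sum_congr rfl (g := fun _ => 6 * ((m : ℝ) + 1) * (2 / 3) ^ m)
      (fun t ht => if_pos (Finset.mem_range.1 ht))]
    rw [Finset.sum_const, Finset.card_range, nsmul_eq_mul]
  have h5 : ∑ t ∈ Finset.range L, (if m + t < m then 6 * ((m : ℝ) + 1) * (2 / 3) ^ m
        else 6 * (((m + t + 1 : ℕ) : ℝ) + 1) * (2 / 3) ^ (m + t + 1)) =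
      6 * (2 * (m : ℝ) + 8) * (2 / 3) ^ m - 6 * (2 * ((m : ℝ) + L) + 8) * (2 / 3) ^ (m + L) := by
    rw [← tail_bound_tele]
    refine Finset.sum_congr rfl fun t _ => ?_
    rw [if_neg (by omega)]
  rw [h4, h5]
  have h6 : (0 : ℝ) ≤ 6 * (2 * ((m : ℝ) + L) + 8) * (2 / 3) ^ (m + L) := by positivity
  have h7 : (0 : ℝ) ≤ (2 / 3) ^ m := by positivity
  have h8 : (0 : ℝ) ≤ (m : ℝ) := Nat.cast_nonneg m
  have h9 : (0 : ℝ) ≤ (48 * ((m : ℝ) + 1) ^ 2 - (m * (6 * (m + 1)) + 6 * (2 * m + 8))) * (2 / 3) ^ m := by
    refine mul_nonneg ?_ h7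
    nlinarith
  nlinarith

end J10159

end

end Pool.Agent.KS
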