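import Pool.Agent.H875KS.Defs2

set_option autoImplicit false

namespace Pool.Agent.KS

open Finset Filter Topology

noncomputable section

namespace J10132

namespace ThetaAux

section gen

variable {α : Type}

open Classical in
def SS (r : α → α → Prop) : ℕ → Finset α → Finset (List α)
  | 0, U => if U = ∅ then {[]} else ∅
  | (m+1), U => (U.filter (fun x => ∀ y ∈ U, ¬ r y x)).biUnion
      (fun x => (SS r m (U.erase x)).image (List.cons x))

theorem mem_SS (r : α → α → Prop) (hr : ∀ x, ¬ r x x) : ∀ (m : ℕ) (U : Finset α) (l : List α),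
    l ∈ SS r m U ↔ l.length = m ∧ l.Nodup ∧ (∀ x, x ∈ l ↔ x ∈ U) ∧
      l.Pairwise (fun x y => ¬ r y x) := by
  classical
  intro m
  induction m with
  | zero =>
    intro U l
    unfold SS
    split_ifs with h
    · subst h
      constructor
      · intro hl
        have : l = [] := by simpa using hl
        subst this
        simp
      · rintro ⟨h1, -⟩
        have : l = [] := List.eq_nil_of_length_eq_zero h1
        simp [this]
    · constructor
      · intro hl
        simp at hl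
      · rintro ⟨h1, -, h2, -⟩
        exfalso
        have : l = [] := List.eq_nil_of_length_eq_zero h1
        subst this
        apply h
        ext x
        simpa using (h2 x).symm
  | succ m ih =>
    intro U l
    unfold SS
    simp only [Finset.mem_biUnion, Finset.mem_filter, Finset.mem_image]
    constructor
    · rintro ⟨x, ⟨hx, hmin⟩, l', hl', rfl⟩
      rw [ih] at hl'
      obtain ⟨h1, h2, h3, h4⟩ := hl'
      refine ⟨by simp [h1], ?_, ?_, ?_⟩
      · rw [List.nodup_cons]
        refine ⟨?_, h2⟩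
        rw [h3]
        simp
      · intro y
        rw [List.mem_cons, h3, Finset.mem_erase]
        constructor
        · rintro (rfl | ⟨-, h⟩)
          · exact hx
          · exact h
        · intro h
          by_cases hyx : y = x
          · exact Or.inl hyx
          · exact Or.inr ⟨hyx, h⟩
      · rw [List.pairwise_cons]
        refine ⟨?_, h4⟩
        intro y hy
        rw [h3] at hy
        exact hmin y (Finset.mem_of_mem_erase hy)
    · rintro ⟨h1, h2, h3, h4⟩
      cases l with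
      | nil => simp at h1
      | cons x l' =>
        rw [List.nodup_cons] at h2
        rw [List.pairwise_cons] at h4
        refine ⟨x, ⟨(h3 x).1 (by simp), ?_⟩, l', ?_, rfl⟩
        · intro y hy
          have := (h3 y).2 hy
          rw [List.mem_cons] at this
          rcases this with rfl | h
          · exact hr y
          · exact h4.1 y h
        · rw [ih]
          refine ⟨by simpa using h1, h2.2, ?_, h4.2⟩
          intro y
          rw [Finset.mem_erase, ← h3 y, List.mem_cons]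
          constructor
          · intro h
            refine ⟨?_, Or.inr h⟩
            rintro rfl
            exact h2.1 h
          · rintro ⟨h, h' | h'⟩
            · exact absurd h' h
            · exact h'

open Classical in
theorem sum_SS_succ (r : α → α → Prop) (m : ℕ) (U : Finset α) (g : List α → ℝ) :
    ∑ l ∈ SS r (m+1) U, g l = ∑ x ∈ U.filter (fun x => ∀ y ∈ U, ¬ r y x),
      ∑ l ∈ SS r m (U.erase x), g (x :: l) := by
  conv_lhs => unfold SS
  rw [Finset.sum_biUnion]
  · apply Finset.sum_congr rfl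
    intro x hx
    rw [Finset.sum_image]
    intro a _ b _ h
    simpa using h
  · intro x hx y hy hxy
    rw [Function.onFun, Finset.disjoint_left]
    intro l hl hl'
    simp only [Finset.mem_image] at hl hl'
    obtain ⟨l1, -, rfl⟩ := hl
    obtain ⟨l2, -, h⟩ := hl'
    apply hxy
    simp at h
    exact h.1.symm

theorem sum_LE_eq [Fintype α] (r : α → α → Prop) (hr : ∀ x, ¬ r x x)
    (G : (α ≃ Fin (Fintype.card α)) → ℝ) (g : List α → ℝ)
    (hG : ∀ f, G f = g (List.ofFn f.symm)) :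
    ∑ f ∈ LE r, G f = ∑ l ∈ SS r (Fintype.card α) Finset.univ, g l := by
  classical
  apply Finset.sum_bij (fun f _ => List.ofFn f.symm)
  · intro f hf
    rw [mem_SS r hr]
    refine ⟨by simp, ?_, ?_, ?_⟩
    · exact List.nodup_ofFn.2 f.symm.injective
    · intro x
      simp only [Finset.mem_univ, iff_true, List.mem_ofFn]
      exact ⟨f x, by simp⟩
    · rw [List.pairwise_ofFn]
      intro i j hij hrr
      have := (Finset.mem_filter.1 hf).2 _ _ hrr
      simp at this
      exact absurd this (not_lt.2 hij.le)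
  · intro f _ f' _ h
    have := List.ofFn_injective h
    have h2 : f.symm = f'.symm := DFunLike.coe_injective this
    have h3 := congrArg Equiv.symm h2
    simpa using h3
  · intro l hl
    rw [mem_SS r hr] at hl
    obtain ⟨h1, h2, h3, h4⟩ := hl
    have h3' : ∀ x, x ∈ l := fun x => (h3 x).2 (Finset.mem_univ x)
    set e := List.Nodup.getEquivOfForallMemList l h2 h3' with he
    have hel : ∀ i, e i = l.get i := fun i => rfl
    refine ⟨e.symm.trans (finCongr h1), ?_, ?_⟩
    · unfold LE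
      rw [Finset.mem_filter]
      refine ⟨Finset.mem_univ _, ?_⟩
      intro x y hxy
      by_contra hcon
      rw [not_lt] at hcon
      have hle : e.symm y ≤ e.symm x := by
        simpa using hcon
      rcases hle.lt_or_eq with hlt | heq
      · have := List.pairwise_iff_get.1 h4 _ _ hlt
        rw [← hel, ← hel] at this
        simp at this
        exact this hxy
      · have : y = x := e.symm.injective heq
        subst this
        exact hr _ hxy
    · apply List.ext_getElem
      · simp [h1]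
      · intro n h5 h6
        simp [hel]
  · intro f _
    exact hG f

end gen

section spec

variable (s : ℕ)

def tr : Fin 6 ⊕ (Fin 3 × Fin s) → Fin 3
  | .inl i => ![1,1,2,0,1,1] i
  | .inr p => p.1

def rk : Fin 6 ⊕ (Fin 3 × Fin s) → ℕ
  | .inl i => ![0,1,0,s,s+2,s+3] i
  | .inr p => ![0,2,1] p.1 + p.2

def ln : Fin 3 → ℕ := ![s+1, s+4, s+1]

theorem rk_lt (x : Fin 6 ⊕ (Fin 3 × Fin s)) : rk s x < ln s (tr s x) := by
  rcases x with i | ⟨j, t⟩
  · fin_cases i <;> simp [rk, tr, ln]
  · have := t.2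
    fin_cases j <;> simp [rk, tr, ln] <;> omega

theorem tr_rk_inj (x y : Fin 6 ⊕ (Fin 3 × Fin s)) (h1 : tr s x = tr s y) (h2 : rk s x = rk s y) :
    x = y := by
  rcases x with i | ⟨j, t⟩ <;> rcases y with i' | ⟨j', t'⟩
  · fin_cases i <;> fin_cases i' <;> simp_all [rk, tr]
  · have := t'.2
    fin_cases i <;> fin_cases j' <;> simp_all [rk, tr] <;> omega
  · have := t.2
    fin_cases i' <;> fin_cases j <;> simp_all [rk, tr] <;> omega
  · have := t.2
    have := t'.2
    simp only [tr] at h1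
    subst h1
    simp only [rk] at h2
    have : t = t' := Fin.ext (by omega)
    rw [this]

theorem exists_el (t : Fin 3) (i : ℕ) (hi : i < ln s t) : ∃ x, tr s x = t ∧ rk s x = i := by
  fin_cases t
  · simp [ln] at hi
    by_cases h : i = s
    · exact ⟨.inl 3, by simp [tr], by simp [rk, h]⟩
    · exact ⟨.inr (0, ⟨i, by omega⟩), by simp [tr], by simp [rk]⟩
  · simp [ln] at hi
    by_cases h : i = 0
    · exact ⟨.inl 0, by simp [tr], by simp [rk, h]⟩
    by_cases h1 : i = 1
    · exact ⟨.inl 1, by simp [tr], by simp [rk, h1]⟩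
    by_cases h2 : i = s + 2
    · exact ⟨.inl 4, by simp [tr], by simp [rk, h2]⟩
    by_cases h3 : i = s + 3
    · exact ⟨.inl 5, by simp [tr], by simp [rk, h3]⟩
    · exact ⟨.inr (1, ⟨i - 2, by omega⟩), by simp [tr], by simp [rk]; omega⟩
  · simp [ln] at hi
    by_cases h : i = 0
    · exact ⟨.inl 2, by simp [tr], by simp [rk, h]⟩
    · exact ⟨.inr (2, ⟨i - 1, by omega⟩), by simp [tr], by simp [rk]; omega⟩

theorem DR_imp (x y : Fin 6 ⊕ (Fin 3 × Fin s)) (h : DR (cs s) x y) :
    (tr s x = tr s y ∧ rk s x < rk s y) ∨ (x = .inl 1 ∧ y = .inl 2) ∨ (x = .inl 3 ∧ y = .inl 4) := by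
  rcases x with i | ⟨j, t⟩ <;> rcases y with i' | ⟨j', t'⟩
  · simp only [DR] at h
    rcases h with ⟨rfl, rfl⟩ | ⟨rfl, rfl⟩ | ⟨rfl, rfl⟩ | ⟨rfl, rfl⟩ <;> simp [tr, rk]
  · simp only [DR] at h
    have := t'.2
    rcases h with ⟨rfl, rfl⟩ | ⟨rfl, rfl⟩ <;> simp [tr, rk]
    omega
  · simp only [DR] at h
    have := t.2
    rcases h with ⟨rfl, rfl⟩ | ⟨rfl, rfl⟩ <;> simp [tr, rk]
    omega
  · simp only [DR, cs] at h
    obtain ⟨rfl, h⟩ := h
    simp [tr, rk]
    exact Fin.lt_def.2 (by omega)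

theorem DR_irr (x : Fin 6 ⊕ (Fin 3 × Fin s)) : ¬ DR (cs s) x x := by
  intro h
  rcases DR_imp s x x h with h | ⟨h1, h2⟩ | ⟨h1, h2⟩
  · omega
  · rw [h1] at h2
    simp at h2
  · rw [h1] at h2
    simp at h2

theorem DR_pred (hs : 1 ≤ s) (x : Fin 6 ⊕ (Fin 3 × Fin s)) (h : 0 < rk s x) :
    ∃ y, tr s y = tr s x ∧ rk s y + 1 = rk s x ∧ DR (cs s) y x := by
  rcases x with i | ⟨j, t⟩
  · fin_cases i
    · simp [rk] at h
    · exact ⟨.inl 0, by simp [tr], by simp [rk], by simp [DR]⟩
    · simp [rk] at h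
    · exact ⟨.inr (0, ⟨s - 1, by omega⟩), by simp [tr], by simp [rk]; omega, by simp [DR]⟩
    · exact ⟨.inr (1, ⟨s - 1, by omega⟩), by simp [tr], by simp [rk]; omega, by simp [DR]⟩
    · exact ⟨.inl 4, by simp [tr], by simp [rk], by simp [DR]⟩
  · by_cases ht : (t : ℕ) = 0
    · fin_cases j
      · simp [rk, ht] at h
      · exact ⟨.inl 1, by simp [tr], by simp [rk, ht], by simp [DR]⟩
      · exact ⟨.inl 2, by simp [tr], by simp [rk, ht], by simp [DR]⟩
    · have := t.2
      refine ⟨.inr (j, ⟨(t : ℕ) - 1, by omega⟩), by simp [tr], by simp [rk]; omega, ?_⟩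
      simp [DR, cs]
      omega

open Classical in
/-- remaining elements -/
def V (cut : Fin 3 → ℕ) : Finset (Fin 6 ⊕ (Fin 3 × Fin s)) :=
  Finset.univ.filter (fun x => cut (tr s x) ≤ rk s x)

theorem mem_V (cut : Fin 3 → ℕ) (x : Fin 6 ⊕ (Fin 3 × Fin s)) :
    x ∈ V s cut ↔ cut (tr s x) ≤ rk s x := by
  simp [V]

open Classical in
def el (t : Fin 3) (i : ℕ) : Fin 6 ⊕ (Fin 3 × Fin s) :=
  if h : ∃ x, tr s x = t ∧ rk s x = i then h.choose else .inl 0

theorem el_spec (t : Fin 3) (i : ℕ) (hi : i < ln s t) :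
    tr s (el s t i) = t ∧ rk s (el s t i) = i := by
  have h := exists_el s t i hi
  unfold el
  rw [dif_pos h]
  exact h.choose_spec

theorem el_eq (x : Fin 6 ⊕ (Fin 3 × Fin s)) : el s (tr s x) (rk s x) = x := by
  obtain ⟨h1, h2⟩ := el_spec s (tr s x) (rk s x) (rk_lt s x)
  exact tr_rk_inj s _ _ h1 h2

/-- allowed moves -/
def ok (cut : Fin 3 → ℕ) (t : Fin 3) : Prop :=
  cut t < ln s t ∧ (t = 2 → cut 2 = 0 → 2 ≤ cut 1) ∧ (t = 1 → cut 1 = s + 2 → s + 1 ≤ cut 0)

theorem min_iff (hs : 1 ≤ s) (cut : Fin 3 → ℕ) (x : Fin 6 ⊕ (Fin 3 × Fin s)) :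
    (x ∈ V s cut ∧ ∀ y ∈ V s cut, ¬ DR (cs s) y x) ↔
      (ok s cut (tr s x) ∧ rk s x = cut (tr s x)) := by
  constructor
  · rintro ⟨h1, h2⟩
    rw [mem_V] at h1
    have h3 : rk s x = cut (tr s x) := by
      by_contra hne
      obtain ⟨y, hy1, hy2, hy3⟩ := DR_pred s hs x (by omega)
      apply h2 y _ hy3
      rw [mem_V, hy1]
      omega
    refine ⟨⟨?_, ?_, ?_⟩, h3⟩
    · rw [← h3]; exact rk_lt s x
    · intro ht h0
      rw [ht, h0] at h3
      have hx : x = .inl 2 := tr_rk_inj s _ _ (by rw [ht]; simp [tr]) (by rw [h3]; simp [rk])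
      by_contra hcon
      apply h2 (.inl 1)
      · rw [mem_V]
        simp [tr, rk]
        omega
      · rw [hx]
        simp [DR]
    · intro ht h0
      rw [ht, h0] at h3
      have hx : x = .inl 4 := tr_rk_inj s _ _ (by rw [ht]; simp [tr]) (by rw [h3]; simp [rk])
      by_contra hcon
      apply h2 (.inl 3)
      · rw [mem_V]
        simp [tr, rk]
        omega
      · rw [hx]
        simp [DR]
  · rintro ⟨⟨h1, h2, h3⟩, h4⟩
    refine ⟨by rw [mem_V, h4], ?_⟩
    intro y hy hyx
    rw [mem_V] at hy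
    rcases DR_imp s y x hyx with ⟨h5, h6⟩ | ⟨rfl, rfl⟩ | ⟨rfl, rfl⟩
    · rw [h5] at hy
      omega
    · simp [tr, rk] at h2 h4 hy
      have := h2 h4.symm
      omega
    · simp [tr, rk] at h3 h4 hy
      have := h3 h4.symm
      omega

open Classical in
theorem V_erase (cut : Fin 3 → ℕ) (x : Fin 6 ⊕ (Fin 3 × Fin s)) (hx : rk s x = cut (tr s x)) :
    (V s cut).erase x = V s (Function.update cut (tr s x) (cut (tr s x) + 1)) := by
  ext y
  rw [Finset.mem_erase, mem_V, mem_V]
  by_cases h : tr s y = tr s x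
  · rw [h, Function.update_self]
    constructor
    · rintro ⟨h1, h2⟩
      have : rk s y ≠ rk s x := fun h' => h1 (tr_rk_inj s _ _ h h')
      omega
    · intro h1
      refine ⟨?_, by omega⟩
      rintro rfl
      omega
  · rw [Function.update_of_ne h]
    constructor
    · exact fun h => h.2
    · intro h1
      refine ⟨?_, h1⟩
      rintro rfl
      exact h rfl

open Classical in
theorem rec1 (hs : 1 ≤ s) (m : ℕ) (cut : Fin 3 → ℕ) (g : List (Fin 6 ⊕ (Fin 3 × Fin s)) → ℝ) :
    ∑ l ∈ SS (DR (cs s)) (m+1) (V s cut), g l =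
      ∑ t : Fin 3, if ok s cut t then ∑ l ∈ SS (DR (cs s)) m
        (V s (Function.update cut t (cut t + 1))), g (el s t (cut t) :: l) else 0 := by
  rw [sum_SS_succ, ← Finset.sum_filter]
  apply Finset.sum_bij (fun x _ => tr s x)
  · intro x hx
    simp only [Finset.mem_filter] at hx
    have := (min_iff s hs cut x).1 hx
    simp [this.1]
  · intro x hx y hy hxy
    simp only [Finset.mem_filter] at hx hy
    have h1 := (min_iff s hs cut x).1 hx
    have h2 := (min_iff s hs cut y).1 hy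
    apply tr_rk_inj s x y hxy
    rw [h1.2, h2.2, hxy]
  · intro t ht
    simp only [Finset.mem_filter] at ht
    obtain ⟨h1, h2⟩ := el_spec s t (cut t) ht.2.1
    refine ⟨el s t (cut t), ?_, h1⟩
    simp only [Finset.mem_filter]
    apply (min_iff s hs cut _).2
    rw [h1]
    exact ⟨ht.2, h2⟩
  · intro x hx
    simp only [Finset.mem_filter] at hx
    have h1 := (min_iff s hs cut x).1 hx
    have h2 := V_erase s cut x h1.2
    have h3 : el s (tr s x) (cut (tr s x)) = x := by
      rw [← h1.2, el_eq]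
    rw [h3]
    apply Finset.sum_congr _ (fun _ _ => rfl)
    congr 1
    convert h2

open Classical in
theorem rec2 (hs : 1 ≤ s) (m c a b : ℕ) (g : List (Fin 6 ⊕ (Fin 3 × Fin s)) → ℝ) :
    ∑ l ∈ SS (DR (cs s)) (m+1) (V s ![c,a,b]), g l =
      (if c < s + 1 then ∑ l ∈ SS (DR (cs s)) m (V s ![c+1,a,b]), g (el s 0 c :: l) else 0) +
      (if a < s + 4 ∧ (a = s + 2 → s + 1 ≤ c) then
        ∑ l ∈ SS (DR (cs s)) m (V s ![c,a+1,b]), g (el s 1 a :: l) else 0) +
      (if b < s + 1 ∧ (b = 0 → 2 ≤ a) then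
        ∑ l ∈ SS (DR (cs s)) m (V s ![c,a,b+1]), g (el s 2 b :: l) else 0) := by
  rw [rec1 s hs, Fin.sum_univ_three]
  have e0 : Function.update ![c,a,b] 0 (c+1) = ![c+1,a,b] := by
    ext i; fin_cases i <;> simp
  have e1 : Function.update ![c,a,b] 1 (a+1) = ![c,a+1,b] := by
    ext i; fin_cases i <;> simp
  have e2 : Function.update ![c,a,b] 2 (b+1) = ![c,a,b+1] := by
    ext i; fin_cases i <;> simp
  have f0 : ok s ![c,a,b] 0 ↔ c < s + 1 := by
    simp [ok, ln]
  have f1 : ok s ![c,a,b] 1 ↔ (a < s + 4 ∧ (a = s + 2 → s + 1 ≤ c)) := by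
    simp [ok, ln]
  have f2 : ok s ![c,a,b] 2 ↔ (b < s + 1 ∧ (b = 0 → 2 ≤ a)) := by
    simp [ok, ln]
  simp only [f0, f1, f2]
  congr 1
  · congr 1
    · congr 1
      have : (![c,a,b] : Fin 3 → ℕ) 0 = c := rfl
      rw [this, e0]
    · congr 1
      have : (![c,a,b] : Fin 3 → ℕ) 1 = a := rfl
      rw [this, e1]
  · congr 1
    have : (![c,a,b] : Fin 3 → ℕ) 2 = b := rfl
    rw [this, e2]


open Classical in
def cnt (m c a b : ℕ) : ℝ := ∑ l ∈ SS (DR (cs s)) m (V s ![c,a,b]), (1 : ℝ)

theorem cnt_succ (hs : 1 ≤ s) (m c a b : ℕ) :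
    cnt s (m+1) c a b = (if c < s + 1 then cnt s m (c+1) a b else 0) +
      (if a < s + 4 ∧ (a = s + 2 → s + 1 ≤ c) then cnt s m c (a+1) b else 0) +
      (if b < s + 1 ∧ (b = 0 → 2 ≤ a) then cnt s m c a (b+1) else 0) :=
  rec2 s hs m c a b (fun _ => 1)

theorem cnt_zero : cnt s 0 (s+1) (s+4) (s+1) = 1 := by
  have : V s ![s+1, s+4, s+1] = ∅ := by
    ext x
    rw [mem_V]
    have := rk_lt s x
    have h : (![s+1, s+4, s+1] : Fin 3 → ℕ) (tr s x) = ln s (tr s x) := rfl
    rw [h]
    simp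
    exact this
  unfold cnt
  rw [this]
  simp [SS]

theorem top4 (hs : 1 ≤ s) : ∀ m b, b + m = s + 1 → cnt s m (s+1) (s+4) b = 1 := by
  intro m
  induction m with
  | zero =>
    intro b hb
    have : b = s + 1 := by omega
    rw [this]
    exact cnt_zero s
  | succ m ih =>
    intro b hb
    rw [cnt_succ s hs, if_neg (by omega), if_neg (by omega), if_pos (by omega), ih _ (by omega)]
    simp

theorem top3 (hs : 1 ≤ s) : ∀ m b, b + m = s + 1 → cnt s (m+1) (s+1) (s+3) b = m + 1 := by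
  intro m
  induction m with
  | zero =>
    intro b hb
    rw [cnt_succ s hs, if_neg (by omega), if_pos (by omega), if_neg (by omega)]
    rw [top4 s hs _ _ (by omega)]
    simp
  | succ m ih =>
    intro b hb
    rw [cnt_succ s hs, if_neg (by omega), if_pos (by omega), if_pos (by omega), ih _ (by omega)]
    rw [top4 s hs _ _ (by omega)]
    push_cast
    ring

theorem ph3 (hs : 1 ≤ s) : ∀ m a' b' c' a b c, a + a' = s + 2 → 2 ≤ a → b + b' = s + 1 →
    c + c' = s + 1 → m = a' + b' + c' + 1 →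
    cnt s (m+1) c a b = ((a' + c').choose a' * (a' + b' + c' + 2).choose b' : ℕ) := by
  intro m
  induction m with
  | zero =>
    intro a' b' c' a b c h1 h2 h3 h4 h5
    omega
  | succ m ih =>
    intro a' b' c' a b c h1 h2 h3 h4 h5
    rw [cnt_succ s hs]
    have t1 : (if c < s + 1 then cnt s (m+1) (c+1) a b else 0) =
        if c' = 0 then (0 : ℝ) else
        (((a' + (c' - 1)).choose a' * (a' + b' + (c' - 1) + 2).choose b' : ℕ) : ℝ) := by
      by_cases h : c' = 0
      · rw [if_neg (by omega), if_pos h]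
      · rw [if_pos (by omega), if_neg h]
        exact ih a' b' (c'-1) a b (c+1) h1 h2 h3 (by omega) (by omega)
    have t2 : (if a < s + 4 ∧ (a = s + 2 → s + 1 ≤ c) then cnt s (m+1) c (a+1) b else 0) =
        if a' = 0 then (if c' = 0 then ((b' : ℝ) + 1) else 0) else
        ((((a' - 1) + c').choose (a' - 1) * ((a' - 1) + b' + c' + 2).choose b' : ℕ) : ℝ) := by
      by_cases h : a' = 0
      · rw [if_pos h]
        by_cases h' : c' = 0
        · rw [if_pos (by omega), if_pos h']
          have e1 : c = s + 1 := by omega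
          have e2 : a + 1 = s + 3 := by omega
          have e3 : m = b' := by omega
          rw [e1, e2, e3]
          exact top3 s hs b' b h3
        · rw [if_neg (by omega), if_neg h']
      · rw [if_pos (by omega), if_neg h]
        exact ih (a'-1) b' c' (a+1) b c (by omega) (by omega) h3 h4 (by omega)
    have t3 : (if b < s + 1 ∧ (b = 0 → 2 ≤ a) then cnt s (m+1) c a (b+1) else 0) =
        if b' = 0 then (0 : ℝ) else
        (((a' + c').choose a' * (a' + (b' - 1) + c' + 2).choose (b' - 1) : ℕ) : ℝ) := by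
      by_cases h : b' = 0
      · rw [if_neg (by omega), if_pos h]
      · rw [if_pos (by omega), if_neg h]
        exact ih a' (b'-1) c' a (b+1) c h1 h2 (by omega) h4 (by omega)
    rw [t1, t2, t3]
    clear t1 t2 t3 ih h1 h2 h3 h4 h5
    rcases a' with _ | a' <;> rcases b' with _ | b' <;> rcases c' with _ | c'
    · simp
    · simp
    · have e1 : (0 + (b' + 1) + 0 + 2).choose (b' + 1) = (b' + 2).choose b' + (b' + 2).choose (b' + 1) := by
        rw [show 0 + (b' + 1) + 0 + 2 = (b' + 2) + 1 by ring, Nat.choose_succ_succ]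
      have e2 : (b' + 2).choose (b' + 1) = b' + 2 := Nat.choose_succ_self_right (b' + 1)
      rw [e1, e2]
      simp
      ring
    · have e1 : (0 + (b' + 1) + (c' + 1) + 2).choose (b' + 1) =
          (b' + c' + 3).choose b' + (b' + c' + 3).choose (b' + 1) := by
        rw [show 0 + (b' + 1) + (c' + 1) + 2 = (b' + c' + 3) + 1 by ring, Nat.choose_succ_succ]
      rw [e1]
      simp
      rw [show b' + 1 + c' + 2 = b' + c' + 3 by ring, show b' + (c' + 1) + 2 = b' + c' + 3 by ring]
      ring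
    · simp
    · have e1 : (a' + 1 + (c' + 1)).choose (a' + 1) =
          (a' + c' + 1).choose a' + (a' + c' + 1).choose (a' + 1) := by
        rw [show a' + 1 + (c' + 1) = (a' + c' + 1) + 1 by ring, Nat.choose_succ_succ]
      rw [e1]
      simp
      rw [show a' + 1 + c' = a' + c' + 1 by ring, show a' + (c' + 1) = a' + c' + 1 by ring]
      ring
    · have e1 : (a' + 1 + (b' + 1) + 0 + 2).choose (b' + 1) =
          (a' + b' + 3).choose b' + (a' + b' + 3).choose (b' + 1) := by
        rw [show a' + 1 + (b' + 1) + 0 + 2 = (a' + b' + 3) + 1 by ring, Nat.choose_succ_succ]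
      rw [e1]
      simp
      rw [show a' + (b' + 1) + 2 = a' + b' + 3 by ring, show a' + 1 + b' + 2 = a' + b' + 3 by ring]
      ring
    · have e1 : (a' + 1 + (c' + 1)).choose (a' + 1) =
          (a' + c' + 1).choose a' + (a' + c' + 1).choose (a' + 1) := by
        rw [show a' + 1 + (c' + 1) = (a' + c' + 1) + 1 by ring, Nat.choose_succ_succ]
      have e2 : (a' + 1 + (b' + 1) + (c' + 1) + 2).choose (b' + 1) =
          (a' + b' + c' + 4).choose b' + (a' + b' + c' + 4).choose (b' + 1) := by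
        rw [show a' + 1 + (b' + 1) + (c' + 1) + 2 = (a' + b' + c' + 4) + 1 by ring,
          Nat.choose_succ_succ]
      rw [e1, e2]
      simp
      rw [show a' + 1 + c' = a' + c' + 1 by ring, show a' + (c' + 1) = a' + c' + 1 by ring,
        show a' + 1 + (b' + 1) + c' + 2 = a' + b' + c' + 4 by ring,
        show a' + (b' + 1) + (c' + 1) + 2 = a' + b' + c' + 4 by ring,
        show a' + 1 + b' + (c' + 1) + 2 = a' + b' + c' + 4 by ring]
      ring

def PP (k : ℕ) : ℝ := ((s + k).choose s * (2 * s + k + 3).choose (s + 1) : ℕ)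

theorem ph2 (hs : 1 ≤ s) (k c : ℕ) (h : c + k = s + 1) : cnt s (k + 2 * s + 3) c 2 0 = PP s k := by
  have := ph3 s hs (k + 2 * s + 2) s (s+1) k 2 0 c (by omega) le_rfl (by omega) h (by omega)
  rw [show k + 2 * s + 3 = k + 2 * s + 2 + 1 by ring, this, PP,
    show s + (s + 1) + k + 2 = 2 * s + k + 3 by ring]

theorem c1_succ (hs : 1 ≤ s) (k c : ℕ) (h : c + (k + 1) = s + 1) :
    cnt s (k + 1 + 2 * s + 4) c 1 0 = cnt s (k + 2 * s + 4) (c+1) 1 0 + PP s (k+1) := by
  rw [show k + 1 + 2 * s + 4 = (k + 1 + 2 * s + 3) + 1 by ring, cnt_succ s hs, if_pos (by omega),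
    if_pos (by omega), if_neg (by omega), ph2 s hs (k+1) c h,
    show k + 1 + 2 * s + 3 = k + 2 * s + 4 by ring]
  ring

theorem c1_zero (hs : 1 ≤ s) : cnt s (0 + 2 * s + 4) (s+1) 1 0 = PP s 0 := by
  rw [show 0 + 2 * s + 4 = (0 + 2 * s + 3) + 1 by ring, cnt_succ s hs, if_neg (by omega),
    if_pos (by omega), if_neg (by omega), ph2 s hs 0 (s+1) (by omega)]
  ring

theorem c0_succ (hs : 1 ≤ s) (k c : ℕ) (h : c + (k + 1) = s + 1) :
    cnt s (k + 1 + 2 * s + 5) c 0 0 = cnt s (k + 2 * s + 5) (c+1) 0 0 +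
      cnt s (k + 1 + 2 * s + 4) c 1 0 := by
  rw [show k + 1 + 2 * s + 5 = (k + 1 + 2 * s + 4) + 1 by ring, cnt_succ s hs, if_pos (by omega),
    if_pos (by omega), if_neg (by omega),
    show k + 1 + 2 * s + 4 = k + 2 * s + 5 by ring]
  ring

theorem c0_zero (hs : 1 ≤ s) : cnt s (0 + 2 * s + 5) (s+1) 0 0 = cnt s (0 + 2 * s + 4) (s+1) 1 0 := by
  rw [show 0 + 2 * s + 5 = (0 + 2 * s + 4) + 1 by ring, cnt_succ s hs, if_neg (by omega),
    if_pos (by omega), if_neg (by omega)]
  ring

abbrev bq : BEq (Fin 6 ⊕ (Fin 3 × Fin s)) := @instBEqOfDecidableEq _ (Classical.decEq _)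

def gg (c a : ℕ) (l : List (Fin 6 ⊕ (Fin 3 × Fin s))) : ℝ :=
  ((@List.idxOf _ (bq s) (Sum.inl 1) l : ℕ) : ℝ) + 1 + c + a

open Classical in
def wt (m c a b : ℕ) : ℝ := ∑ l ∈ SS (DR (cs s)) m (V s ![c,a,b]), gg s c a l

theorem gg_cons_ne (c a : ℕ) (x : Fin 6 ⊕ (Fin 3 × Fin s)) (hx : x ≠ .inl 1)
    (l : List (Fin 6 ⊕ (Fin 3 × Fin s))) : gg s c a (x :: l) = gg s c a l + 1 := by
  unfold gg
  rw [@List.idxOf_cons_ne _ (bq s) _ _ _ _ hx]
  push_cast
  ring

theorem gg_cons_eq (c a : ℕ) (l : List (Fin 6 ⊕ (Fin 3 × Fin s))) :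
    gg s c a (.inl 1 :: l) = 1 + c + a := by
  unfold gg
  have : @List.idxOf _ (bq s) (Sum.inl 1) (Sum.inl 1 :: l) = 0 := by
    letI := bq s
    simp
  rw [this]
  push_cast
  ring

theorem w1_gen (hs : 1 ≤ s) (m c : ℕ) :
    wt s (m + 1) c 1 0 = (if c < s + 1 then wt s m (c+1) 1 0 else 0) + (c + 2) * cnt s m c 2 0 := by
  unfold wt cnt
  rw [rec2 s hs, if_pos (show (1 < s + 4 ∧ (1 = s + 2 → s + 1 ≤ c)) by omega),
    if_neg (show ¬ (0 < s + 1 ∧ ((0:ℕ) = 0 → 2 ≤ 1)) by omega), add_zero]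
  congr 1
  · by_cases h : c < s + 1
    · rw [if_pos h, if_pos h]
      apply Finset.sum_congr rfl
      intro l _
      have h1 : el s 0 c ≠ .inl 1 := by
        intro h'
        have := (el_spec s 0 c (by simp [ln]; omega)).1
        rw [h'] at this
        simp [tr] at this
      rw [gg_cons_ne s _ _ _ h1]
      unfold gg
      push_cast
      ring
    · rw [if_neg h, if_neg h]
  · rw [Finset.mul_sum]
    apply Finset.sum_congr rfl
    intro l _
    have h1 : el s 1 1 = .inl 1 := by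
      obtain ⟨h2, h3⟩ := el_spec s 1 1 (by simp [ln])
      exact tr_rk_inj s _ _ (by rw [h2]; simp [tr]) (by rw [h3]; simp [rk])
    rw [h1, gg_cons_eq]
    push_cast
    ring

theorem w0_gen (hs : 1 ≤ s) (m c : ℕ) :
    wt s (m + 1) c 0 0 = (if c < s + 1 then wt s m (c+1) 0 0 else 0) + wt s m c 1 0 := by
  unfold wt
  rw [rec2 s hs, if_pos (show (0 < s + 4 ∧ (0 = s + 2 → s + 1 ≤ c)) by omega),
    if_neg (show ¬ (0 < s + 1 ∧ ((0:ℕ) = 0 → 2 ≤ 0)) by omega), add_zero]
  congr 1
  · by_cases h : c < s + 1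
    · rw [if_pos h, if_pos h]
      apply Finset.sum_congr rfl
      intro l _
      have h1 : el s 0 c ≠ .inl 1 := by
        intro h'
        have := (el_spec s 0 c (by simp [ln]; omega)).1
        rw [h'] at this
        simp [tr] at this
      rw [gg_cons_ne s _ _ _ h1]
      unfold gg
      push_cast
      ring
    · rw [if_neg h, if_neg h]
  · apply Finset.sum_congr rfl
    intro l _
    have h1 : el s 1 0 ≠ .inl 1 := by
      intro h'
      have := (el_spec s 1 0 (by simp [ln])).2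
      rw [h'] at this
      simp [rk] at this
    rw [gg_cons_ne s _ _ _ h1]
    unfold gg
    push_cast
    ring

def QQ (k : ℕ) : ℝ := (((s + 1 : ℕ) : ℝ) - k + 2) * PP s k

theorem w1_succ (hs : 1 ≤ s) (k c : ℕ) (h : c + (k + 1) = s + 1) :
    wt s (k + 1 + 2 * s + 4) c 1 0 = wt s (k + 2 * s + 4) (c+1) 1 0 + QQ s (k+1) := by
  rw [show k + 1 + 2 * s + 4 = (k + 1 + 2 * s + 3) + 1 by ring, w1_gen s hs, if_pos (by omega),
    ph2 s hs (k+1) c h, show k + 1 + 2 * s + 3 = k + 2 * s + 4 by ring, QQ, ← h]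
  push_cast
  ring

theorem w1_zero (hs : 1 ≤ s) : wt s (0 + 2 * s + 4) (s+1) 1 0 = QQ s 0 := by
  rw [show 0 + 2 * s + 4 = (0 + 2 * s + 3) + 1 by ring, w1_gen s hs, if_neg (by omega),
    ph2 s hs 0 (s+1) (by omega), QQ]
  push_cast
  ring

theorem w0_succ (hs : 1 ≤ s) (k c : ℕ) (h : c + (k + 1) = s + 1) :
    wt s (k + 1 + 2 * s + 5) c 0 0 = wt s (k + 2 * s + 5) (c+1) 0 0 +
      wt s (k + 1 + 2 * s + 4) c 1 0 := by
  rw [show k + 1 + 2 * s + 5 = (k + 1 + 2 * s + 4) + 1 by ring, w0_gen s hs, if_pos (by omega),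
    show k + 1 + 2 * s + 4 = k + 2 * s + 5 by ring]

theorem w0_zero (hs : 1 ≤ s) : wt s (0 + 2 * s + 5) (s+1) 0 0 = wt s (0 + 2 * s + 4) (s+1) 1 0 := by
  rw [show 0 + 2 * s + 5 = (0 + 2 * s + 4) + 1 by ring, w0_gen s hs, if_neg (by omega)]
  ring

theorem sum_gen (N : ℕ) (Q f0 f1 : ℕ → ℝ) (h1 : f1 0 = Q 0)
    (h2 : ∀ k, k + 1 ≤ N → f1 (k+1) = f1 k + Q (k+1)) (h3 : f0 0 = f1 0)
    (h4 : ∀ k, k + 1 ≤ N → f0 (k+1) = f0 k + f1 (k+1)) :
    f0 N = ∑ j ∈ range (N+1), ((j : ℝ) + 1) * Q (N - j) := by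
  have a1 : ∀ k, k ≤ N → f1 k = ∑ i ∈ range (k+1), Q i := by
    intro k
    induction k with
    | zero => intro _; simp [h1]
    | succ k ih =>
      intro hk
      rw [h2 k hk, ih (by omega), Finset.sum_range_succ Q (k+1)]
  have a0 : ∀ k, k ≤ N → f0 k = ∑ i ∈ range (k+1), ((k : ℝ) - i + 1) * Q i := by
    intro k
    induction k with
    | zero => intro _; simp [h3, h1]
    | succ k ih =>
      intro hk
      rw [h4 k hk, ih (by omega), a1 (k+1) hk, Finset.sum_range_succ Q (k+1),
        Finset.sum_range_succ _ (k+1), ← add_assoc, ← Finset.sum_add_distrib]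
      congr 1
      · apply Finset.sum_congr rfl
        intro i _
        push_cast
        ring
      · ring
  rw [a0 N le_rfl, ← Finset.sum_range_reflect]
  apply Finset.sum_congr rfl
  intro j hj
  rw [Finset.mem_range] at hj
  have : N + 1 - 1 - j = N - j := by omega
  rw [this, Nat.cast_sub (by omega)]
  ring

theorem V_univ : V s ![0,0,0] = Finset.univ := by
  ext x
  rw [mem_V]
  generalize tr s x = t
  fin_cases t <;> simp

theorem PP_eq (hs : 1 ≤ s) (j : ℕ) (hj : j < s + 2) : PP s (s + 1 - j) =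
    ((2 * s - j + 1).choose s : ℝ) * ((3 * s - j + 4).choose (s + 1) : ℝ) := by
  rw [PP, show s + (s + 1 - j) = 2 * s - j + 1 by omega,
    show 2 * s + (s + 1 - j) + 3 = 3 * s - j + 4 by omega]
  push_cast
  ring

theorem den (hs : 1 ≤ s) : cnt s (3 * s + 6) 0 0 0 = ∑ j ∈ range (s + 2), ((j : ℝ) + 1) *
        ((2 * s - j + 1).choose s : ℝ) * ((3 * s - j + 4).choose (s + 1) : ℝ) := by
  have := sum_gen (s+1) (PP s) (fun k => cnt s (k + 2 * s + 5) (s + 1 - k) 0 0)
    (fun k => cnt s (k + 2 * s + 4) (s + 1 - k) 1 0) (c1_zero s hs)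
    (fun k hk => by
      have := c1_succ s hs k (s + 1 - (k+1)) (by omega)
      rw [show s + 1 - (k + 1) + 1 = s + 1 - k by omega] at this
      exact this) (c0_zero s hs)
    (fun k hk => by
      have := c0_succ s hs k (s + 1 - (k+1)) (by omega)
      rw [show s + 1 - (k + 1) + 1 = s + 1 - k by omega] at this
      exact this)
  simp only [Nat.sub_self] at this
  rw [show 3 * s + 6 = s + 1 + 2 * s + 5 by ring, this]
  apply Finset.sum_congr rfl
  intro j hj
  rw [PP_eq s hs j (Finset.mem_range.1 hj)]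
  ring

theorem num (hs : 1 ≤ s) : wt s (3 * s + 6) 0 0 0 = ∑ j ∈ range (s + 2), ((j : ℝ) + 2) *
      ((j : ℝ) + 1) *
        ((2 * s - j + 1).choose s : ℝ) * ((3 * s - j + 4).choose (s + 1) : ℝ) := by
  have := sum_gen (s+1) (QQ s) (fun k => wt s (k + 2 * s + 5) (s + 1 - k) 0 0)
    (fun k => wt s (k + 2 * s + 4) (s + 1 - k) 1 0) (w1_zero s hs)
    (fun k hk => by
      have := w1_succ s hs k (s + 1 - (k+1)) (by omega)
      rw [show s + 1 - (k + 1) + 1 = s + 1 - k by omega] at this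
      exact this) (w0_zero s hs)
    (fun k hk => by
      have := w0_succ s hs k (s + 1 - (k+1)) (by omega)
      rw [show s + 1 - (k + 1) + 1 = s + 1 - k by omega] at this
      exact this)
  simp only [Nat.sub_self] at this
  rw [show 3 * s + 6 = s + 1 + 2 * s + 5 by ring, this]
  apply Finset.sum_congr rfl
  intro j hj
  have hj' := Finset.mem_range.1 hj
  rw [QQ, PP_eq s hs j hj', Nat.cast_sub (by omega)]
  ring

end spec

end ThetaAux

open ThetaAux in
theorem theta_formula (s : ℕ) (hs : 1 ≤ s) :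
    ht (DR (cs s)) (Sum.inl 1) =
      (∑ j ∈ range (s + 2), ((j : ℝ) + 2) * ((j : ℝ) + 1) *
        ((2 * s - j + 1).choose s : ℝ) * ((3 * s - j + 4).choose (s + 1) : ℝ)) /
      (∑ j ∈ range (s + 2), ((j : ℝ) + 1) *
        ((2 * s - j + 1).choose s : ℝ) * ((3 * s - j + 4).choose (s + 1) : ℝ)) := by
  classical
  have hc : Fintype.card (Fin 6 ⊕ (Fin 3 × Fin s)) = 3 * s + 6 := by
    simp; ring
  unfold ht avg
  rw [← num s hs, ← den s hs]
  congr 1
  · rw [sum_LE_eq (DR (cs s)) (DR_irr s) _ (gg s 0 0), hc, wt, V_univ]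
    intro f
    unfold pos gg
    have : @List.idxOf _ (bq s) (Sum.inl 1) (List.ofFn f.symm) = (f (Sum.inl 1) : ℕ) := by
      have h1 : (List.ofFn f.symm).Nodup := List.nodup_ofFn.2 f.symm.injective
      have h2 : (f (Sum.inl 1) : ℕ) < (List.ofFn f.symm).length := by
        rw [List.length_ofFn]; exact (f (Sum.inl 1)).2
      have h3 : (List.ofFn f.symm)[(f (Sum.inl 1) : ℕ)] = Sum.inl 1 := by simp
      conv_lhs => rw [← h3]
      exact @List.Nodup.idxOf_getElem _ (bq s) _ _ h1 _ h2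
    rw [this]
    push_cast
    ring
  · have := sum_LE_eq (DR (cs s)) (DR_irr s) (fun _ => 1) (fun _ => 1) (fun _ => rfl)
    rw [cnt, V_univ, ← hc, ← this]
    simp

end J10132

end

end Pool.Agent.KS
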