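import Pool.Agent.H875KS.Defs2

set_option autoImplicit false

namespace Pool.Agent.KS

open Finset Filter Topology

noncomputable section

namespace J10133

/-- normalised terms -/
def aj (s j : ℕ) : ℝ :=
  if j ≤ s + 1 then ((2 * s - j + 1).choose s : ℝ) * ((3 * s - j + 4).choose (s + 1) : ℝ) /
    (((2 * s + 1).choose s : ℝ) * ((3 * s + 4).choose (s + 1) : ℝ)) else 0

theorem cpos (s : ℕ) :
    0 < (((2 * s + 1).choose s : ℝ) * ((3 * s + 4).choose (s + 1) : ℝ)) := by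
  have h1 : 0 < (2 * s + 1).choose s := Nat.choose_pos (by omega)
  have h2 : 0 < (3 * s + 4).choose (s + 1) := Nat.choose_pos (by omega)
  have h1' : (0 : ℝ) < ((2 * s + 1).choose s : ℝ) := by exact_mod_cast h1
  have h2' : (0 : ℝ) < ((3 * s + 4).choose (s + 1) : ℝ) := by exact_mod_cast h2
  exact mul_pos h1' h2'

theorem aj_zero (s : ℕ) : aj s 0 = 1 := by
  unfold aj
  rw [if_pos (Nat.zero_le _)]
  have e1 : 2 * s - 0 + 1 = 2 * s + 1 := by omega
  have e2 : 3 * s - 0 + 4 = 3 * s + 4 := by omega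
  rw [e1, e2, div_self (cpos s).ne']

theorem aj_nonneg (s j : ℕ) : 0 ≤ aj s j := by
  unfold aj
  split_ifs
  · exact div_nonneg (by positivity) (cpos s).le
  · exact le_rfl

theorem aj_step (s j : ℕ) (hs : 1 ≤ s) (hj : j ≤ s) :
    aj s (j + 1) = aj s j * ((((s : ℝ) + (1 - j)) / (2 * s + (1 - j))) *
      ((2 * (s : ℝ) + (3 - j)) / (3 * s + (4 - j)))) := by
  obtain ⟨t, rfl⟩ := Nat.exists_eq_add_of_le hj
  unfold aj
  rw [if_pos (by omega), if_pos (by omega)]
  have e1 : 2 * (j + t) - (j + 1) + 1 = j + 2 * t := by omega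
  have e2 : 3 * (j + t) - (j + 1) + 4 = 2 * j + 3 * t + 3 := by omega
  have e3 : 2 * (j + t) - j + 1 = j + 2 * t + 1 := by omega
  have e4 : 3 * (j + t) - j + 4 = 2 * j + 3 * t + 3 + 1 := by omega
  rw [e1, e2, e3, e4]
  have c1 := Nat.choose_mul_succ_eq (j + 2 * t) (j + t)
  have c2 := Nat.choose_mul_succ_eq (2 * j + 3 * t + 3) (j + t + 1)
  have f1 : j + 2 * t + 1 - (j + t) = t + 1 := by omega
  have f2 : 2 * j + 3 * t + 3 + 1 - (j + t + 1) = j + 2 * t + 3 := by omega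
  rw [f1] at c1
  rw [f2] at c2
  have c1' : ((j + 2 * t).choose (j + t) : ℝ) * ((j : ℝ) + 2 * t + 1) =
      ((j + 2 * t + 1).choose (j + t) : ℝ) * ((t : ℝ) + 1) := by exact_mod_cast c1
  have c2' : ((2 * j + 3 * t + 3).choose (j + t + 1) : ℝ) * (2 * (j : ℝ) + 3 * t + 3 + 1) =
      ((2 * j + 3 * t + 3 + 1).choose (j + t + 1) : ℝ) * ((j : ℝ) + 2 * t + 3) := by
    exact_mod_cast c2
  have hC := cpos (j + t)
  generalize (((2 * (j + t) + 1).choose (j + t) : ℝ) *
    ((3 * (j + t) + 4).choose (j + t + 1) : ℝ)) = K at hC ⊢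
  generalize ((j + 2 * t).choose (j + t) : ℝ) = A1 at *
  generalize ((j + 2 * t + 1).choose (j + t) : ℝ) = A2 at *
  generalize ((2 * j + 3 * t + 3).choose (j + t + 1) : ℝ) = B1 at *
  generalize ((2 * j + 3 * t + 3 + 1).choose (j + t + 1) : ℝ) = B2 at *
  push_cast
  have g1 : ((j : ℝ) + t + (1 - j)) = t + 1 := by ring
  have g2 : (2 * ((j : ℝ) + t) + (1 - j)) = j + 2 * t + 1 := by ring
  have g3 : (2 * ((j : ℝ) + t) + (3 - j)) = j + 2 * t + 3 := by ring
  have g4 : (3 * ((j : ℝ) + t) + (4 - j)) = 2 * j + 3 * t + 3 + 1 := by ring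
  rw [g1, g2, g3, g4]
  have p1 : (0 : ℝ) < (j : ℝ) + 2 * t + 1 := by positivity
  have p2 : (0 : ℝ) < 2 * (j : ℝ) + 3 * t + 3 + 1 := by positivity
  have h1 : A1 = A2 * ((t : ℝ) + 1) / ((j : ℝ) + 2 * t + 1) := by
    rw [eq_div_iff p1.ne']
    exact c1'
  have h2 : B1 = B2 * ((j : ℝ) + 2 * t + 3) / (2 * (j : ℝ) + 3 * t + 3 + 1) := by
    rw [eq_div_iff p2.ne']
    exact c2'
  rw [h1, h2]
  field_simp

theorem q_le (s j : ℕ) (hs : 1 ≤ s) (hj : j ≤ s) :
    (((s : ℝ) + (1 - j)) / (2 * s + (1 - j))) *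
      ((2 * (s : ℝ) + (3 - j)) / (3 * s + (4 - j))) ≤ 1 / 2 := by
  obtain ⟨t, rfl⟩ := Nat.exists_eq_add_of_le hj
  push_cast
  have g1 : ((j : ℝ) + t + (1 - j)) = t + 1 := by ring
  have g2 : (2 * ((j : ℝ) + t) + (1 - j)) = j + 2 * t + 1 := by ring
  have g3 : (2 * ((j : ℝ) + t) + (3 - j)) = j + 2 * t + 3 := by ring
  have g4 : (3 * ((j : ℝ) + t) + (4 - j)) = 2 * j + 3 * t + 4 := by ring
  rw [g1, g2, g3, g4, div_mul_div_comm, div_le_div_iff₀ (by positivity) (by norm_num)]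
  have hj0 : (0 : ℝ) ≤ j := Nat.cast_nonneg j
  have ht0 : (0 : ℝ) ≤ t := Nat.cast_nonneg t
  have hjt : (1 : ℝ) ≤ (j : ℝ) + t := by exact_mod_cast hs
  nlinarith [mul_nonneg hj0 ht0, mul_nonneg hj0 hj0, mul_nonneg ht0 ht0,
    mul_nonneg (sub_nonneg.2 hjt) hj0, mul_nonneg (sub_nonneg.2 hjt) ht0]

theorem aj_big (s j : ℕ) (h : s + 1 < j) : aj s j = 0 := by
  unfold aj
  rw [if_neg (by omega)]

theorem aj_le (s j : ℕ) (hs : 1 ≤ s) : aj s j ≤ (1 / 2) ^ j := by
  induction j with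
  | zero => rw [aj_zero, pow_zero]
  | succ j ih =>
    by_cases hj : j ≤ s
    · rw [aj_step s j hs hj, pow_succ]
      exact mul_le_mul ih (q_le s j hs hj) (by
        obtain ⟨t, rfl⟩ := Nat.exists_eq_add_of_le hj
        push_cast
        have g1 : ((j : ℝ) + t + (1 - j)) = t + 1 := by ring
        have g2 : (2 * ((j : ℝ) + t) + (1 - j)) = j + 2 * t + 1 := by ring
        have g3 : (2 * ((j : ℝ) + t) + (3 - j)) = j + 2 * t + 3 := by ring
        have g4 : (3 * ((j : ℝ) + t) + (4 - j)) = 2 * j + 3 * t + 4 := by ring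
        rw [g1, g2, g3, g4]
        positivity) (by positivity)
    · rw [aj_big s (j + 1) (by omega)]
      positivity

theorem lim_ratio (a b c d : ℝ) (hc : c ≠ 0) :
    Tendsto (fun s : ℕ => (a * (s : ℝ) + b) / (c * (s : ℝ) + d)) atTop (𝓝 (a / c)) := by
  have h1 : Tendsto (fun s : ℕ => (a + b / (s : ℝ)) / (c + d / (s : ℝ))) atTop
      (𝓝 ((a + 0) / (c + 0))) := by
    refine Tendsto.div (tendsto_const_nhds.add (tendsto_const_div_atTop_nhds_zero_nat b))
      (tendsto_const_nhds.add (tendsto_const_div_atTop_nhds_zero_nat d)) (by simpa using hc)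
  rw [add_zero, add_zero] at h1
  refine h1.congr' ?_
  filter_upwards [eventually_gt_atTop 0] with s hs
  have hs' : (s : ℝ) ≠ 0 := by positivity
  have e1 : a + b / (s : ℝ) = (a * s + b) / s := by field_simp
  have e2 : c + d / (s : ℝ) = (c * s + d) / s := by field_simp
  rw [e1, e2, div_div_div_cancel_right₀ hs']

theorem aj_lim (j : ℕ) : Tendsto (fun s : ℕ => aj s j) atTop (𝓝 ((1 / 3) ^ j)) := by
  induction j with
  | zero =>
    simp only [aj_zero, pow_zero]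
    exact tendsto_const_nhds
  | succ j ih =>
    have h1 := lim_ratio 1 (1 - j) 2 (1 - j) (by norm_num)
    have h2 := lim_ratio 2 (3 - j) 3 (4 - j) (by norm_num)
    have h3 := ih.mul (h1.mul h2)
    have e : ((1 : ℝ) / 3) ^ (j + 1) = (1 / 3) ^ j * (1 / 2 * (2 / 3)) := by
      rw [pow_succ]
      norm_num
    rw [e]
    refine h3.congr' ?_
    filter_upwards [eventually_ge_atTop (j + 1)] with s hs
    rw [aj_step s j (by omega) (by omega), one_mul]

theorem norm_third : ‖((1 : ℝ) / 3)‖ < 1 := by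
  rw [Real.norm_eq_abs, abs_of_pos (by norm_num)]
  norm_num

theorem norm_half : ‖((1 : ℝ) / 2)‖ < 1 := by
  rw [Real.norm_eq_abs, abs_of_pos (by norm_num)]
  norm_num

theorem ch1 (j : ℕ) : (((j + 1).choose 1 : ℕ) : ℝ) = (j : ℝ) + 1 := by
  rw [Nat.choose_one_right]
  push_cast
  rfl

theorem ch2 (j : ℕ) : (((j + 2).choose 2 : ℕ) : ℝ) = ((j : ℝ) + 2) * ((j : ℝ) + 1) / 2 := by
  rw [Nat.cast_choose_two]
  push_cast
  ring

theorem sum1 : ∑' j : ℕ, ((j : ℝ) + 1) * (1 / 3) ^ j = 9 / 4 := by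
  have h := tsum_choose_mul_geometric_of_norm_lt_one 1 norm_third
  simp only [ch1] at h
  rw [h]
  norm_num

theorem sum2 : ∑' j : ℕ, (((j : ℝ) + 2) * ((j : ℝ) + 1)) * (1 / 3) ^ j = 27 / 4 := by
  have h := tsum_choose_mul_geometric_of_norm_lt_one 2 norm_third
  simp only [ch2] at h
  have e : ∀ j : ℕ, (((j : ℝ) + 2) * ((j : ℝ) + 1)) * (1 / 3) ^ j =
      2 * (((j : ℝ) + 2) * ((j : ℝ) + 1) / 2 * (1 / 3) ^ j) := fun j => by ring
  simp only [e]
  rw [tsum_mul_left, h]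
  norm_num

theorem summ1 : Summable fun j : ℕ => ((j : ℝ) + 1) * (1 / 2) ^ j := by
  have h := summable_choose_mul_geometric_of_norm_lt_one 1 norm_half
  simp only [ch1] at h
  exact h

theorem summ2 : Summable fun j : ℕ => (((j : ℝ) + 2) * ((j : ℝ) + 1)) * (1 / 2) ^ j := by
  have h := (summable_choose_mul_geometric_of_norm_lt_one 2 norm_half).mul_left 2
  simp only [ch2] at h
  refine h.congr fun j => ?_
  ring

theorem lim_gen (c : ℕ → ℝ) (hc : ∀ j, 0 ≤ c j) (hs : Summable fun j => c j * (1 / 2) ^ j) :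
    Tendsto (fun s : ℕ => ∑ j ∈ range (s + 2), c j * aj s j) atTop
      (𝓝 (∑' j, c j * (1 / 3) ^ j)) := by
  have h := tendsto_tsum_of_dominated_convergence (𝓕 := atTop)
    (f := fun (s : ℕ) (j : ℕ) => c j * aj s j) (g := fun j => c j * (1 / 3) ^ j) hs
    (fun j => (aj_lim j).const_mul (c j)) (by
      filter_upwards [eventually_ge_atTop 1] with s hs1
      intro j
      rw [Real.norm_of_nonneg (mul_nonneg (hc j) (aj_nonneg s j))]
      exact mul_le_mul_of_nonneg_left (aj_le s j hs1) (hc j))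
  refine h.congr fun s => ?_
  rw [tsum_eq_sum]
  intro j hj
  rw [Finset.mem_range, not_lt] at hj
  rw [aj_big s j (by omega), mul_zero]

theorem theta_limit :
    Tendsto (fun s : ℕ => (∑ j ∈ range (s + 2), ((j : ℝ) + 2) * ((j : ℝ) + 1) *
        ((2 * s - j + 1).choose s : ℝ) * ((3 * s - j + 4).choose (s + 1) : ℝ)) /
      (∑ j ∈ range (s + 2), ((j : ℝ) + 1) *
        ((2 * s - j + 1).choose s : ℝ) * ((3 * s - j + 4).choose (s + 1) : ℝ)))
      atTop (𝓝 3) := by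
  have h1 := lim_gen (fun j => ((j : ℝ) + 1)) (fun j => by positivity) summ1
  have h2 := lim_gen (fun j => (((j : ℝ) + 2) * ((j : ℝ) + 1))) (fun j => by positivity) summ2
  rw [sum1] at h1
  rw [sum2] at h2
  have h3 := h2.div h1 (by norm_num)
  have e3 : (27 / 4 : ℝ) / (9 / 4) = 3 := by norm_num
  rw [e3] at h3
  refine h3.congr fun s => ?_
  have hK := cpos s
  have key : ∀ c : ℕ → ℝ, ∑ j ∈ range (s + 2), c j *
      ((2 * s - j + 1).choose s : ℝ) * ((3 * s - j + 4).choose (s + 1) : ℝ) =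
      (((2 * s + 1).choose s : ℝ) * ((3 * s + 4).choose (s + 1) : ℝ)) *
        ∑ j ∈ range (s + 2), c j * aj s j := by
    intro c
    rw [Finset.mul_sum]
    refine Finset.sum_congr rfl fun j hj => ?_
    rw [Finset.mem_range] at hj
    unfold aj
    rw [if_pos (by omega), mul_div_assoc', mul_div_assoc', eq_div_iff hK.ne']
    ring
  rw [key (fun j => (((j : ℝ) + 2) * ((j : ℝ) + 1))), key (fun j => ((j : ℝ) + 1)),
    mul_div_mul_left _ _ hK.ne']
  rfl

end J10133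

end

end Pool.Agent.KS
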