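import Pool.Agent.H875KS.Defs2

set_option autoImplicit false

namespace Pool.Agent.KS

open Finset Filter Topology

noncomputable section

namespace J10134

private theorem lim_ratio (S : ℕ → ℕ) (hS : Tendsto S atTop atTop) (p : ℕ → ℝ) (L c d : ℝ)
    (hp : Tendsto p atTop (𝓝 L)) :
    Tendsto (fun s => (3 * (S s : ℝ) + c - p s) / ((S s : ℝ) + d)) atTop (𝓝 3) := by
  have hS' : Tendsto (fun s => (S s : ℝ)) atTop atTop :=
    tendsto_natCast_atTop_atTop.comp hS
  have hS1 : Tendsto (fun s => (S s : ℝ) + d) atTop atTop :=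
    tendsto_atTop_add_const_right _ _ hS'
  have h1 : Tendsto (fun s => (c - 3 * d - p s) / ((S s : ℝ) + d)) atTop (𝓝 0) :=
    (tendsto_const_nhds.sub hp).div_atTop hS1
  have h2 : Tendsto (fun s => 3 + (c - 3 * d - p s) / ((S s : ℝ) + d)) atTop (𝓝 3) := by
    simpa using h1.const_add 3
  refine h2.congr' ?_
  filter_upwards [hS1.eventually_gt_atTop 0] with s hs
  field_simp
  ring

/-- lower ends -/
def dl (t t3 : ℝ) (j : Fin 3) : ℝ := ![0, t, t3] j

/-- upper ends -/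
def ul (T t t3 : ℝ) (j : Fin 3) : ℝ := ![T - t3, T - t, T] j

private theorem lim_all (θ : ℕ → ℝ) (hθ : Tendsto θ atTop (𝓝 3)) (S : ℕ → ℕ)
    (hS : Tendsto S atTop atTop) (t T t3 : ℕ → ℝ) (ht : ∀ s, t s = θ (S s))
    (hT : ∀ s, T s = 3 * (S s : ℝ) + 7)
    (ht3 : ∀ s, t3 s = t s + (T s - t s) / ((S s : ℝ) + 2)) :
    Tendsto t atTop (𝓝 3) ∧ Tendsto t3 atTop (𝓝 6) ∧
    (∀ j, Tendsto (fun s => dl (t s) (t3 s) j) atTop (𝓝 (3 * (j : ℕ)))) ∧
    (∀ j, Tendsto (fun s => T s - ul (T s) (t s) (t3 s) j) atTop (𝓝 (3 * (2 - (j : ℕ))))) ∧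
    (∀ j, Tendsto (fun s => (ul (T s) (t s) (t3 s) j - dl (t s) (t3 s) j) / ((S s : ℝ) + 1))
      atTop (𝓝 3)) := by
  have h1 : Tendsto t atTop (𝓝 3) := by
    have : t = fun s => θ (S s) := funext ht
    rw [this]
    exact hθ.comp hS
  have h2 : Tendsto t3 atTop (𝓝 6) := by
    have h := h1.add (lim_ratio S hS t 3 7 2 h1)
    have e : (3 : ℝ) + 3 = 6 := by norm_num
    rw [e] at h
    refine h.congr (fun s => ?_)
    rw [ht3, hT]
  refine ⟨h1, h2, ?_, ?_, ?_⟩
  · intro j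
    fin_cases j
    · simp [dl]
    · simpa [dl] using h1
    · have e : (3 : ℝ) * ((2 : ℕ) : ℝ) = 6 := by norm_num
      show Tendsto (fun s => t3 s) atTop (𝓝 (3 * ((2 : ℕ) : ℝ)))
      rw [e]
      exact h2
  · intro j
    fin_cases j
    · have e : (3 : ℝ) * (2 - ((0 : ℕ) : ℝ)) = 6 := by norm_num
      show Tendsto (fun s => T s - (T s - t3 s)) atTop (𝓝 (3 * (2 - ((0 : ℕ) : ℝ))))
      rw [e]
      simpa using h2
    · have e : (3 : ℝ) * (2 - ((1 : ℕ) : ℝ)) = 3 := by norm_num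
      show Tendsto (fun s => T s - (T s - t s)) atTop (𝓝 (3 * (2 - ((1 : ℕ) : ℝ))))
      rw [e]
      simpa using h1
    · have e : (3 : ℝ) * (2 - ((2 : ℕ) : ℝ)) = 0 := by norm_num
      show Tendsto (fun s => T s - T s) atTop (𝓝 (3 * (2 - ((2 : ℕ) : ℝ))))
      rw [e]
      simp
  · intro j
    fin_cases j
    · show Tendsto (fun s => ((T s - t3 s) - 0) / ((S s : ℝ) + 1)) atTop (𝓝 3)
      refine (lim_ratio S hS t3 6 7 1 h2).congr (fun s => ?_)
      rw [hT, sub_zero]
    · show Tendsto (fun s => ((T s - t s) - t s) / ((S s : ℝ) + 1)) atTop (𝓝 3)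
      refine (lim_ratio S hS (fun s => t s + t s) (3 + 3) 7 1 (h1.add h1)).congr (fun s => ?_)
      rw [hT]
      ring
    · show Tendsto (fun s => (T s - t3 s) / ((S s : ℝ) + 1)) atTop (𝓝 3)
      refine (lim_ratio S hS t3 6 7 1 h2).congr (fun s => ?_)
      rw [hT]

/-- the index map `(j, i) ↦ j + 3 i` -/
def idx (n : ℕ) : Fin 3 × Fin (3 ^ n) ≃ Fin (3 ^ (n + 1)) :=
  (Equiv.prodComm _ _).trans (finProdFinEquiv.trans (finCongr (pow_succ 3 n).symm))

private theorem idx_symm_val (n : ℕ) (i : Fin (3 ^ (n + 1))) :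
    (i : ℕ) = ((idx n).symm i).1 + 3 * ((idx n).symm i).2 := by
  obtain ⟨⟨j, k⟩, rfl⟩ := (idx n).surjective i
  rw [Equiv.symm_apply_apply]
  simp [idx, finProdFinEquiv]

/-- the bijection of one step -/
def stepE (n : ℕ) {Q X Y : Type} (e : Y ≃ Q ⊕ (Fin (3 ^ n) × X)) :
    (Fin 6 ⊕ (Fin 3 × Y)) ≃ ((Fin 6 ⊕ (Fin 3 × Q)) ⊕ (Fin (3 ^ (n + 1)) × X)) :=
  ((Equiv.sumCongr (Equiv.refl (Fin 6))
    ((Equiv.prodCongr (Equiv.refl (Fin 3)) e).trans (Equiv.prodSumDistrib _ _ _))).trans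
    (Equiv.sumAssoc _ _ _).symm).trans
    (Equiv.sumCongr (Equiv.refl _)
      ((Equiv.prodAssoc _ _ _).symm.trans (Equiv.prodCongr (idx n) (Equiv.refl X))))

private theorem stepE_1 (n : ℕ) {Q X Y : Type} (e : Y ≃ Q ⊕ (Fin (3 ^ n) × X)) (k : Fin 6) :
    (stepE n e).symm (Sum.inl (Sum.inl k)) = Sum.inl k := rfl

private theorem stepE_2 (n : ℕ) {Q X Y : Type} (e : Y ≃ Q ⊕ (Fin (3 ^ n) × X)) (j : Fin 3)
    (q : Q) :
    (stepE n e).symm (Sum.inl (Sum.inr (j, q))) = Sum.inr (j, e.symm (Sum.inl q)) := rfl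

private theorem stepE_3 (n : ℕ) {Q X Y : Type} (e : Y ≃ Q ⊕ (Fin (3 ^ n) × X))
    (i : Fin (3 ^ (n + 1))) (x : X) :
    (stepE n e).symm (Sum.inr (i, x)) =
      Sum.inr (((idx n).symm i).1, e.symm (Sum.inr (((idx n).symm i).2, x))) := rfl

private theorem vec_inj (k k' : Fin 6) (h1 : 3 ≤ (k : ℕ) ↔ 3 ≤ (k' : ℕ))
    (h2 : (![1, 2, 4, 4, 2, 1] : Fin 6 → ℕ) k = (![1, 2, 4, 4, 2, 1] : Fin 6 → ℕ) k') :
    k = k' := by
  revert h1 h2
  revert k k'
  decide

private theorem vec_mem (k : Fin 6) : (![1, 2, 4, 4, 2, 1] : Fin 6 → ℕ) k = 1 ∨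
    (![1, 2, 4, 4, 2, 1] : Fin 6 → ℕ) k = 2 ∨ (![1, 2, 4, 4, 2, 1] : Fin 6 → ℕ) k = 4 := by
  revert k
  decide

theorem tree_aux (θ : ℕ → ℝ) (hθ : Tendsto θ atTop (𝓝 3))
    (hD : ∀ (X : Type) [Fintype X] (r : X → X → Prop), (LE r).Nonempty → 1 ≤ Fintype.card X →
      1 < (LE (DR r)).card ∧
      ∀ (s t T : ℝ), s = Fintype.card X → t = θ (Fintype.card X) → T = 3 * s + 7 →
      ht (DR r) (Sum.inl 0) = t / 2 ∧ ht (DR r) (Sum.inl 1) = t ∧
      ht (DR r) (Sum.inl 2) = t + (T - t) / (s + 2) ∧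
      ht (DR r) (Sum.inl 3) = T - (t + (T - t) / (s + 2)) ∧
      ht (DR r) (Sum.inl 4) = T - t ∧ ht (DR r) (Sum.inl 5) = T - t / 2 ∧
      (∀ x : X, ht (DR r) (Sum.inr (0, x)) = (T - (t + (T - t) / (s + 2))) * ht r x / (s + 1)) ∧
      (∀ x : X, ht (DR r) (Sum.inr (1, x)) = t + (T - t - t) * ht r x / (s + 1)) ∧
      (∀ x : X, ht (DR r) (Sum.inr (2, x)) =
        (t + (T - t) / (s + 2)) + (T - (t + (T - t) / (s + 2))) * ht r x / (s + 1)))
    (n : ℕ) :
    ∃ (Q : Type) (_ : Fintype Q) (top : Q → Prop) (c : Q → ℕ) (ν : ℕ → Q → ℝ)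
      (a w : ℕ → Fin (3 ^ n) → ℝ), (Fintype.card Q + 3 = 3 * 3 ^ n) ∧
      (∀ (X : Type) [Fintype X] (r : X → X → Prop), (LE r).Nonempty → 1 ≤ Fintype.card X →
        ∃ (Y : Type) (_ : Fintype Y) (R : Y → Y → Prop) (e : Y ≃ Q ⊕ (Fin (3 ^ n) × X)),
          (LE R).Nonempty ∧ (1 ≤ n → 1 < (LE R).card) ∧
          (∀ q, ht R (e.symm (Sum.inl q)) = ν (Fintype.card X) q) ∧
          (∀ i x, ht R (e.symm (Sum.inr (i, x))) = a (Fintype.card X) i +
            (w (Fintype.card X) i - a (Fintype.card X) i) * ht r x /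
              ((Fintype.card X : ℝ) + 1))) ∧
      (∀ i, Tendsto (fun s => a s i) atTop (𝓝 (3 * (i : ℕ)))) ∧
      (∀ i, Tendsto (fun s : ℕ => (3 ^ n * ((s : ℝ) + 1) + 2 * (3 ^ n - 1)) - w s i) atTop
        (𝓝 (3 * (3 ^ n - 1 - (i : ℕ))))) ∧
      (∀ q, ¬ top q → Tendsto (fun s => ν s q) atTop (𝓝 (3 / 2 * c q))) ∧
      (∀ q, top q → Tendsto (fun s : ℕ => (3 ^ n * ((s : ℝ) + 1) + 2 * (3 ^ n - 1)) - ν s q) atTop
        (𝓝 (3 / 2 * c q))) ∧
      (∀ q q', (top q ↔ top q') → c q = c q' → q = q') ∧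
      (∀ q, 1 ≤ c q ∧ c q ≤ 2 * (3 ^ n - 1)) := by
  induction n with
  | zero =>
    refine ⟨Empty, inferInstance, fun _ => False, fun _ => 0, fun _ _ => 0, fun _ _ => 0,
      fun s _ => (s : ℝ) + 1, by simp, ?_, ?_, ?_, ?_, ?_, ?_, ?_⟩
    · intro X _ r hr hX
      refine ⟨X, inferInstance, r,
        ((Equiv.emptySum Empty (Fin (3 ^ 0) × X)).trans
          (Equiv.uniqueProd X (Fin 1))).symm, hr, by simp, fun q => q.elim, ?_⟩
      intro i x
      show ht r x = 0 + ((Fintype.card X : ℝ) + 1 - 0) * ht r x / ((Fintype.card X : ℝ) + 1)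
      have : ((Fintype.card X : ℝ) + 1) ≠ 0 := by positivity
      field_simp
      ring
    · intro i
      have : (i : ℕ) = 0 := Nat.lt_one_iff.1 (lt_of_lt_of_eq i.2 (pow_zero 3))
      rw [this]
      simp
    · intro i
      have : (i : ℕ) = 0 := Nat.lt_one_iff.1 (lt_of_lt_of_eq i.2 (pow_zero 3))
      rw [this]
      simp
    · intro q; exact q.elim
    · intro q; exact q.elim
    · intro q; exact q.elim
    · intro q; exact q.elim
  | succ n ih =>
    obtain ⟨Q, fQ, top, c, ν, a, w, hcard, hstep, ha, hw, hν, hνt, hinj, hc⟩ := ih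
    have h3n : 1 ≤ 3 ^ n := Nat.one_le_pow _ _ (by norm_num)
    let S : ℕ → ℕ := fun s => Fintype.card Q + 3 ^ n * s
    have hS : Tendsto S atTop atTop := by
      refine tendsto_atTop_mono (fun s => ?_) tendsto_id
      show s ≤ Fintype.card Q + 3 ^ n * s
      nlinarith
    let t : ℕ → ℝ := fun s => θ (S s)
    let T : ℕ → ℝ := fun s => 3 * (S s : ℝ) + 7
    let t3 : ℕ → ℝ := fun s => t s + (T s - t s) / ((S s : ℝ) + 2)
    obtain ⟨hl1, hl2, hl3, hl4, hl5⟩ := lim_all θ hθ S hS t T t3 (fun _ => rfl) (fun _ => rfl)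
      (fun _ => rfl)
    have hcardR : (Fintype.card Q : ℝ) = 3 * 3 ^ n - 3 := by
      have : ((Fintype.card Q + 3 : ℕ) : ℝ) = ((3 * 3 ^ n : ℕ) : ℝ) := by rw [hcard]
      push_cast at this
      linarith
    have hM : ∀ s : ℕ, (3 ^ n * ((s : ℝ) + 1) + 2 * (3 ^ n - 1)) = (S s : ℝ) + 1 := by
      intro s
      show _ = ((Fintype.card Q + 3 ^ n * s : ℕ) : ℝ) + 1
      push_cast
      rw [hcardR]
      ring
    have hM' : ∀ s : ℕ, ((3 : ℝ) ^ (n + 1) * ((s : ℝ) + 1) + 2 * (3 ^ (n + 1) - 1)) = T s := by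
      intro s
      show _ = 3 * ((Fintype.card Q + 3 ^ n * s : ℕ) : ℝ) + 7
      push_cast
      rw [hcardR]
      ring
    refine ⟨Fin 6 ⊕ (Fin 3 × Q), inferInstance,
      Sum.elim (fun k => 3 ≤ (k : ℕ)) (fun p => top p.2),
      Sum.elim ![1, 2, 4, 4, 2, 1] (fun p => open Classical in
        if top p.2 then 2 * (2 - (p.1 : ℕ)) + 3 * c p.2 else 2 * (p.1 : ℕ) + 3 * c p.2),
      fun s => Sum.elim ![t s / 2, t s, t3 s, T s - t3 s, T s - t s, T s - t s / 2]
        (fun p => dl (t s) (t3 s) p.1 +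
          (ul (T s) (t s) (t3 s) p.1 - dl (t s) (t3 s) p.1) * ν s p.2 / ((S s : ℝ) + 1)),
      fun s i => dl (t s) (t3 s) ((idx n).symm i).1 +
          (ul (T s) (t s) (t3 s) ((idx n).symm i).1 - dl (t s) (t3 s) ((idx n).symm i).1) *
            a s ((idx n).symm i).2 / ((S s : ℝ) + 1),
      fun s i => dl (t s) (t3 s) ((idx n).symm i).1 +
          (ul (T s) (t s) (t3 s) ((idx n).symm i).1 - dl (t s) (t3 s) ((idx n).symm i).1) *
            w s ((idx n).symm i).2 / ((S s : ℝ) + 1),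
      ?_, ?_, ?_, ?_, ?_, ?_, ?_, ?_⟩
    · rw [Fintype.card_sum, Fintype.card_prod, Fintype.card_fin, Fintype.card_fin, pow_succ]
      omega
    · intro X _ r hr hX
      obtain ⟨Y, fY, R, e, hR, -, hq, hi⟩ := hstep X r hr hX
      have hcY : Fintype.card Y = S (Fintype.card X) := by
        rw [Fintype.card_congr e, Fintype.card_sum, Fintype.card_prod, Fintype.card_fin]
      have hY1 : 1 ≤ Fintype.card Y := by
        rw [hcY]
        show 1 ≤ Fintype.card Q + 3 ^ n * Fintype.card X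
        nlinarith
      obtain ⟨hgt, hform⟩ := hD Y R hR hY1
      obtain ⟨k0, k1, k2, k3, k4, k5, m0, m1, m2⟩ := hform (S (Fintype.card X) : ℝ)
        (t (Fintype.card X)) (T (Fintype.card X)) (by rw [hcY]) (by rw [hcY]) rfl
      have hm : ∀ (j : Fin 3) (y : Y), ht (DR R) (Sum.inr (j, y)) =
          dl (t (Fintype.card X)) (t3 (Fintype.card X)) j +
          (ul (T (Fintype.card X)) (t (Fintype.card X)) (t3 (Fintype.card X)) j -
            dl (t (Fintype.card X)) (t3 (Fintype.card X)) j) * ht R y /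
              ((S (Fintype.card X) : ℝ) + 1) := by
        intro j y
        fin_cases j
        · refine (m0 y).trans ?_
          show _ = 0 + ((T (Fintype.card X) - t3 (Fintype.card X)) - 0) * ht R y /
              ((S (Fintype.card X) : ℝ) + 1)
          rw [zero_add, sub_zero]
        · exact m1 y
        · exact m2 y
      refine ⟨Fin 6 ⊕ (Fin 3 × Y), inferInstance, DR R, stepE n e,
        Finset.card_pos.1 (by omega), fun _ => hgt, ?_, ?_⟩
      · rintro (k | ⟨j, q⟩)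
        · rw [stepE_1]
          fin_cases k
          · exact k0
          · exact k1
          · exact k2
          · exact k3
          · exact k4
          · exact k5
        · rw [stepE_2, hm, hq]
          rfl
      · intro i x
        rw [stepE_3, hm, hi]
        have h1 : ((Fintype.card X : ℝ) + 1) ≠ 0 := by positivity
        have h2 : ((S (Fintype.card X) : ℝ) + 1) ≠ 0 := by positivity
        field_simp
        ring
    · intro i
      have h := (hl3 ((idx n).symm i).1).add ((hl5 ((idx n).symm i).1).mul (ha ((idx n).symm i).2))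
      have e1 : (3 : ℝ) * (i : ℕ) = 3 * ((((idx n).symm i).1 : ℕ) : ℝ) +
          3 * (3 * ((((idx n).symm i).2 : ℕ) : ℝ)) := by
        rw [idx_symm_val n i]
        push_cast
        ring
      rw [e1]
      refine h.congr (fun s => ?_)
      ring
    · intro i
      have h := (hl4 ((idx n).symm i).1).add ((hl5 ((idx n).symm i).1).mul (hw ((idx n).symm i).2))
      have e1 : (3 : ℝ) * (3 ^ (n + 1) - 1 - (i : ℕ)) = 3 * (2 - ((((idx n).symm i).1 : ℕ) : ℝ)) +
          3 * (3 * (3 ^ n - 1 - ((((idx n).symm i).2 : ℕ) : ℝ))) := by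
        rw [idx_symm_val n i]
        push_cast
        ring
      rw [e1]
      refine h.congr (fun s => ?_)
      rw [hM, hM']
      have h2 : ((S s : ℝ) + 1) ≠ 0 := by positivity
      field_simp
      ring
    · rintro (k | ⟨j, q⟩) htop
      · fin_cases k
        · have h := hl1.div_const 2
          have e1 : (3 : ℝ) / 2 * ((1 : ℕ) : ℝ) = 3 / 2 := by norm_num
          show Tendsto (fun s => t s / 2) atTop (𝓝 (3 / 2 * ((1 : ℕ) : ℝ)))
          rw [e1]; exact h
        · have e1 : (3 : ℝ) / 2 * ((2 : ℕ) : ℝ) = 3 := by norm_num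
          show Tendsto (fun s => t s) atTop (𝓝 (3 / 2 * ((2 : ℕ) : ℝ)))
          rw [e1]; exact hl1
        · have e1 : (3 : ℝ) / 2 * ((4 : ℕ) : ℝ) = 6 := by norm_num
          show Tendsto (fun s => t3 s) atTop (𝓝 (3 / 2 * ((4 : ℕ) : ℝ)))
          rw [e1]; exact hl2
        · exact absurd (show 3 ≤ 3 by norm_num) htop
        · exact absurd (show 3 ≤ 4 by norm_num) htop
        · exact absurd (show 3 ≤ 5 by norm_num) htop
      · have htop' : ¬ top q := htop
        have h := (hl3 j).add ((hl5 j).mul (hν q htop'))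
        have e1 : (3 : ℝ) / 2 * ((2 * (j : ℕ) + 3 * c q : ℕ) : ℝ) = 3 * ((j : ℕ) : ℝ) +
          3 * (3 / 2 * (c q : ℝ)) := by
          push_cast; ring
        simp only [Sum.elim_inr, if_neg htop']
        rw [e1]
        refine h.congr (fun s => ?_)
        ring
    · rintro (k | ⟨j, q⟩) htop
      · fin_cases k
        · exact absurd htop (show ¬ (3 ≤ 0) by norm_num)
        · exact absurd htop (show ¬ (3 ≤ 1) by norm_num)
        · exact absurd htop (show ¬ (3 ≤ 2) by norm_num)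
        · have e1 : (3 : ℝ) / 2 * ((4 : ℕ) : ℝ) = 6 := by norm_num
          show Tendsto (fun s : ℕ => (3 ^ (n + 1) * ((s : ℝ) + 1) + 2 * (3 ^ (n + 1) - 1)) -
            (T s - t3 s)) atTop (𝓝 (3 / 2 * ((4 : ℕ) : ℝ)))
          rw [e1]
          refine hl2.congr (fun s => ?_)
          rw [hM']; ring
        · have e1 : (3 : ℝ) / 2 * ((2 : ℕ) : ℝ) = 3 := by norm_num
          show Tendsto (fun s : ℕ => (3 ^ (n + 1) * ((s : ℝ) + 1) + 2 * (3 ^ (n + 1) - 1)) -
            (T s - t s)) atTop (𝓝 (3 / 2 * ((2 : ℕ) : ℝ)))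
          rw [e1]
          refine hl1.congr (fun s => ?_)
          rw [hM']; ring
        · have e1 : (3 : ℝ) / 2 * ((1 : ℕ) : ℝ) = 3 / 2 := by norm_num
          show Tendsto (fun s : ℕ => (3 ^ (n + 1) * ((s : ℝ) + 1) + 2 * (3 ^ (n + 1) - 1)) -
            (T s - t s / 2)) atTop (𝓝 (3 / 2 * ((1 : ℕ) : ℝ)))
          rw [e1]
          refine (hl1.div_const 2).congr (fun s => ?_)
          rw [hM']; ring
      · have htop' : top q := htop
        have h := (hl4 j).add ((hl5 j).mul (hνt q htop'))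
        have hj : (j : ℕ) ≤ 2 := by omega
        have e1 : (3 : ℝ) / 2 * ((2 * (2 - (j : ℕ)) + 3 * c q : ℕ) : ℝ) =
          3 * (2 - ((j : ℕ) : ℝ)) + 3 * (3 / 2 * (c q : ℝ)) := by
          push_cast [Nat.cast_sub hj]; ring
        simp only [Sum.elim_inr, if_pos htop']
        rw [e1]
        refine h.congr (fun s => ?_)
        rw [hM, hM']
        have h2 : ((S s : ℝ) + 1) ≠ 0 := by positivity
        field_simp
        ring
    · rintro (k | ⟨j, q⟩) (k' | ⟨j', q'⟩) htop hcc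
      · exact congrArg Sum.inl (vec_inj k k' htop hcc)
      · exfalso
        have h1 := hc q'
        have hj' := j'.2
        by_cases hq' : top q'
        · simp only [Sum.elim_inr, if_pos hq', Sum.elim_inl] at hcc
          have hv := vec_mem k
          rcases hv with hv | hv | hv <;> rw [hv] at hcc <;> omega
        · simp only [Sum.elim_inr, if_neg hq', Sum.elim_inl] at hcc
          have hv := vec_mem k
          rcases hv with hv | hv | hv <;> rw [hv] at hcc <;> omega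
      · exfalso
        have h1 := hc q
        have hj' := j.2
        by_cases hq' : top q
        · simp only [Sum.elim_inr, if_pos hq', Sum.elim_inl] at hcc
          have hv := vec_mem k'
          rcases hv with hv | hv | hv <;> rw [hv] at hcc <;> omega
        · simp only [Sum.elim_inr, if_neg hq', Sum.elim_inl] at hcc
          have hv := vec_mem k'
          rcases hv with hv | hv | hv <;> rw [hv] at hcc <;> omega
      · have htop' : top q ↔ top q' := htop
        have hj := j.2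
        have hj' := j'.2
        by_cases hq : top q
        · have hq' := htop'.1 hq
          simp only [Sum.elim_inr, if_pos hq, if_pos hq'] at hcc
          have e1 : (j : ℕ) = j' := by omega
          have e2 : c q = c q' := by omega
          rw [Fin.ext e1, hinj q q' htop' e2]
        · have hq' : ¬ top q' := fun h => hq (htop'.2 h)
          simp only [Sum.elim_inr, if_neg hq, if_neg hq'] at hcc
          have e1 : (j : ℕ) = j' := by omega
          have e2 : c q = c q' := by omega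
          rw [Fin.ext e1, hinj q q' htop' e2]
    · rintro (k | ⟨j, q⟩)
      · have hp : 3 ^ (n + 1) = 3 ^ n * 3 := pow_succ 3 n
        simp only [Sum.elim_inl]
        have hv := vec_mem k
        rcases hv with hv | hv | hv <;> rw [hv] <;> omega
      · have hp : 3 ^ (n + 1) = 3 ^ n * 3 := pow_succ 3 n
        have h1 := hc q
        have hj := j.2
        simp only [Sum.elim_inr]
        split_ifs <;> omega

/-- The structure of the iterated composition. -/
theorem tree (θ : ℕ → ℝ) (hθ : Tendsto θ atTop (𝓝 3))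
    (hD : ∀ (X : Type) [Fintype X] (r : X → X → Prop), (LE r).Nonempty → 1 ≤ Fintype.card X →
      1 < (LE (DR r)).card ∧
      ∀ (s t T : ℝ), s = Fintype.card X → t = θ (Fintype.card X) → T = 3 * s + 7 →
      ht (DR r) (Sum.inl 0) = t / 2 ∧ ht (DR r) (Sum.inl 1) = t ∧
      ht (DR r) (Sum.inl 2) = t + (T - t) / (s + 2) ∧
      ht (DR r) (Sum.inl 3) = T - (t + (T - t) / (s + 2)) ∧
      ht (DR r) (Sum.inl 4) = T - t ∧ ht (DR r) (Sum.inl 5) = T - t / 2 ∧
      (∀ x : X, ht (DR r) (Sum.inr (0, x)) = (T - (t + (T - t) / (s + 2))) * ht r x / (s + 1)) ∧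
      (∀ x : X, ht (DR r) (Sum.inr (1, x)) = t + (T - t - t) * ht r x / (s + 1)) ∧
      (∀ x : X, ht (DR r) (Sum.inr (2, x)) =
        (t + (T - t) / (s + 2)) + (T - (t + (T - t) / (s + 2))) * ht r x / (s + 1)))
    (n : ℕ) :
    ∃ (Q : Type) (_ : Fintype Q) (top : Q → Prop) (c : Q → ℕ) (ν : ℕ → Q → ℝ)
      (a w : ℕ → Fin (3 ^ n) → ℝ),
      (∀ (X : Type) [Fintype X] (r : X → X → Prop), (LE r).Nonempty → 1 ≤ Fintype.card X →
        ∃ (Y : Type) (_ : Fintype Y) (R : Y → Y → Prop) (e : Y ≃ Q ⊕ (Fin (3 ^ n) × X)),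
          (LE R).Nonempty ∧ (1 ≤ n → 1 < (LE R).card) ∧
          (∀ q, ht R (e.symm (Sum.inl q)) = ν (Fintype.card X) q) ∧
          (∀ i x, ht R (e.symm (Sum.inr (i, x))) = a (Fintype.card X) i +
            (w (Fintype.card X) i - a (Fintype.card X) i) * ht r x /
              ((Fintype.card X : ℝ) + 1))) ∧
      (∀ i, Tendsto (fun s => a s i) atTop (𝓝 (3 * (i : ℕ)))) ∧
      (∀ i, Tendsto (fun s : ℕ => (3 ^ n * ((s : ℝ) + 1) + 2 * (3 ^ n - 1)) - w s i) atTop
        (𝓝 (3 * (3 ^ n - 1 - (i : ℕ))))) ∧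
      (∀ q, ¬ top q → Tendsto (fun s => ν s q) atTop (𝓝 (3 / 2 * c q))) ∧
      (∀ q, top q → Tendsto (fun s : ℕ => (3 ^ n * ((s : ℝ) + 1) + 2 * (3 ^ n - 1)) - ν s q) atTop
        (𝓝 (3 / 2 * c q))) ∧
      (∀ q q', (top q ↔ top q') → c q = c q' → q = q') ∧
      (∀ q, 1 ≤ c q ∧ c q ≤ 2 * (3 ^ n - 1)) := by
  obtain ⟨Q, fQ, top, c, ν, a, w, -, h⟩ := tree_aux θ hθ hD n
  exact ⟨Q, fQ, top, c, ν, a, w, h⟩

end J10134

end

end Pool.Agent.KS
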