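import Pool.Agent.H875KS.Defs2

set_option autoImplicit false

namespace Pool.Agent.KS

open Finset Filter Topology

noncomputable section

namespace J10158

theorem viol_length_eq (w : List (Fin 3)) : w.length = w.count 0 + w.count 1 + w.count 2 := by
  induction w with
  | nil => simp
  | cons a w ih =>
    rw [List.length_cons, ih, List.count_cons, List.count_cons, List.count_cons]
    fin_cases a <;> simp <;> omega

theorem viol_mem_words (m : Fin 3 → ℕ) (w : List (Fin 3)) :
    w ∈ words m ↔ ∀ c, w.count c = m c := by
  unfold words
  rw [Finset.mem_filter]
  constructor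
  · exact fun h => h.2
  · intro h
    refine ⟨?_, h⟩
    rw [Finset.mem_image]
    have hl : w.length = m 0 + m 1 + m 2 := by
      rw [viol_length_eq, h 0, h 1, h 2]
    have : ∀ n, w.length = n → ∃ f : Fin n → Fin 3, List.ofFn f = w := by
      intro n hn
      subst hn
      exact ⟨w.get, List.ofFn_get w⟩
    obtain ⟨f, hf⟩ := this _ hl
    exact ⟨f, Finset.mem_univ _, hf⟩

theorem viol_card_rec (m : Fin 3 → ℕ) (hm : 0 < m 0 + m 1 + m 2) (p : List (Fin 3) → Prop)
    [DecidablePred p] :
    ((words m).filter p).card = ∑ c : Fin 3, if m c = 0 then 0 else
      ((words (Function.update m c (m c - 1))).filter (fun w => p (c :: w))).card := by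
  have key : (words m).filter p = (Finset.univ : Finset (Fin 3)).biUnion
      (fun c => if m c = 0 then ∅ else
        (((words (Function.update m c (m c - 1))).filter (fun w => p (c :: w))).image
          (List.cons c))) := by
    ext w
    rw [Finset.mem_filter, Finset.mem_biUnion, viol_mem_words]
    constructor
    · rintro ⟨h1, h2⟩
      cases w with
      | nil =>
        exfalso
        have e0 := h1 0
        have e1 := h1 1
        have e2 := h1 2
        simp only [List.count_nil] at e0 e1 e2
        omega
      | cons c w =>
        refine ⟨c, Finset.mem_univ _, ?_⟩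
        have hc : m c ≠ 0 := by
          rw [← h1 c, List.count_cons_self]
          omega
        rw [if_neg hc, Finset.mem_image]
        refine ⟨w, ?_, rfl⟩
        rw [Finset.mem_filter, viol_mem_words]
        refine ⟨fun a => ?_, h2⟩
        have := h1 a
        by_cases hac : a = c
        · subst hac
          rw [List.count_cons_self] at this
          rw [Function.update_self]
          omega
        · rw [Function.update_of_ne hac, ← this, List.count_cons_of_ne (Ne.symm hac)]
    · rintro ⟨c, -, hc⟩
      by_cases h0 : m c = 0
      · rw [if_pos h0] at hc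
        simp at hc
      · rw [if_neg h0, Finset.mem_image] at hc
        obtain ⟨w', hw', rfl⟩ := hc
        rw [Finset.mem_filter, viol_mem_words] at hw'
        refine ⟨fun a => ?_, hw'.2⟩
        by_cases hac : a = c
        · subst hac
          rw [List.count_cons_self, hw'.1 a, Function.update_self]
          omega
        · rw [List.count_cons_of_ne (Ne.symm hac), hw'.1 a, Function.update_of_ne hac]
  rw [key, Finset.card_biUnion]
  · apply Finset.sum_congr rfl
    intro c _
    split_ifs
    · simp
    · rw [Finset.card_image_of_injective _ (List.cons_injective)]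
  · intro c _ c' _ hcc'
    refine Finset.disjoint_left.2 ?_
    intro w hw hw'
    beta_reduce at hw hw'
    by_cases h0 : m c = 0
    · rw [if_pos h0] at hw
      simp at hw
    · by_cases h0' : m c' = 0
      · rw [if_pos h0'] at hw'
        simp at hw'
      · rw [if_neg h0, Finset.mem_image] at hw
        rw [if_neg h0', Finset.mem_image] at hw'
        obtain ⟨u, -, hu⟩ := hw
        obtain ⟨u', -, hu'⟩ := hw'
        rw [← hu] at hu'
        exact hcc' (List.cons.inj hu').1.symm

theorem viol_card_rec' (m : Fin 3 → ℕ) (hm : 0 < m 0 + m 1 + m 2) :
    (words m).card = ∑ c : Fin 3, if m c = 0 then 0 else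
      (words (Function.update m c (m c - 1))).card := by
  have := viol_card_rec m hm (fun _ => True)
  simpa using this

theorem viol_sum_update (m : Fin 3 → ℕ) (c : Fin 3) (hc : m c ≠ 0) (n : ℕ)
    (hn : m 0 + m 1 + m 2 = n + 1) :
    Function.update m c (m c - 1) 0 + Function.update m c (m c - 1) 1 +
      Function.update m c (m c - 1) 2 = n := by
  fin_cases c <;> simp [Function.update] at hc ⊢ <;> omega

theorem viol_prod_update (m : Fin 3 → ℕ) (c : Fin 3) (hc : m c ≠ 0) :
    (m 0).factorial * (m 1).factorial * (m 2).factorial =
      m c * ((Function.update m c (m c - 1) 0).factorial *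
        (Function.update m c (m c - 1) 1).factorial *
        (Function.update m c (m c - 1) 2).factorial) := by
  have h := Nat.mul_factorial_pred hc
  fin_cases c
  · simp [Function.update] at hc h ⊢
    rw [← h]
    ring
  · simp [Function.update] at hc h ⊢
    rw [← h]
    ring
  · simp [Function.update] at hc h ⊢
    rw [← h]
    ring

theorem viol_card_words (n : ℕ) : ∀ m : Fin 3 → ℕ, m 0 + m 1 + m 2 = n →
    (words m).card * ((m 0).factorial * (m 1).factorial * (m 2).factorial) = n.factorial := by
  induction n with
  | zero =>
    intro m hm
    have h0 : m 0 = 0 := by omega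
    have h1 : m 1 = 0 := by omega
    have h2 : m 2 = 0 := by omega
    have : words m = {[]} := by
      ext w
      rw [viol_mem_words, Finset.mem_singleton]
      constructor
      · intro h
        rw [← List.length_eq_zero_iff, viol_length_eq, h 0, h 1, h 2]
        omega
      · rintro rfl c
        fin_cases c <;> simp [h0, h1, h2]
    rw [this, h0, h1, h2]
    simp
  | succ n ih =>
    intro m hm
    rw [viol_card_rec' m (by omega), Finset.sum_mul]
    have hterm : ∀ c : Fin 3, (if m c = 0 then 0 else
        (words (Function.update m c (m c - 1))).card) *
        ((m 0).factorial * (m 1).factorial * (m 2).factorial) = m c * n.factorial := by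
      intro c
      by_cases hc : m c = 0
      · rw [if_pos hc, hc, zero_mul, zero_mul]
      · rw [if_neg hc, viol_prod_update m c hc, ← ih _ (viol_sum_update m c hc n hm)]
        ring
    rw [Finset.sum_congr rfl (fun c _ => hterm c), Fin.sum_univ_three, Nat.factorial_succ, ← hm]
    ring

theorem viol_card_le (m : Fin 3 → ℕ) (x y : Fin 3) (hx : m x ≠ 0) (hy : m y ≠ 0)
    (hyx : m y ≤ m x) :
    (words (Function.update m y (m y - 1))).card ≤ (words (Function.update m x (m x - 1))).card := by
  obtain ⟨n, hn⟩ : ∃ n, m 0 + m 1 + m 2 = n + 1 := by
    have : m 0 + m 1 + m 2 ≠ 0 := by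
      intro h0
      apply hx
      fin_cases x <;> simp <;> omega
    exact ⟨m 0 + m 1 + m 2 - 1, by omega⟩
  have e1 := viol_card_words n _ (viol_sum_update m x hx n hn)
  have e2 := viol_card_words n _ (viol_sum_update m y hy n hn)
  have p1 := viol_prod_update m x hx
  have p2 := viol_prod_update m y hy
  set F := (m 0).factorial * (m 1).factorial * (m 2).factorial with hF
  have hFpos : 0 < F := by positivity
  have q1 : (words (Function.update m x (m x - 1))).card * F = m x * n.factorial := by
    rw [p1, ← e1]
    ring
  have q2 : (words (Function.update m y (m y - 1))).card * F = m y * n.factorial := by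
    rw [p2, ← e2]
    ring
  have q3 : (words (Function.update m y (m y - 1))).card * F ≤
      (words (Function.update m x (m x - 1))).card * F := by
    rw [q1, q2]
    exact Nat.mul_le_mul_right _ hyx
  exact Nat.le_of_mul_le_mul_right q3 hFpos

theorem viol_occ1 (x c : Fin 3) (w : List (Fin 3)) :
    occ x 1 (c :: w) = if c = x then occ x 0 w + 1 else occ x 1 w + 1 := rfl

theorem viol_occ2 (y c : Fin 3) (h : ℕ) (w : List (Fin 3)) :
    occ y (h + 1) (c :: w) = if c = y then occ y h w + 1 else occ y (h + 1) w + 1 := rfl

theorem viol_occ0 (x : Fin 3) (w : List (Fin 3)) : occ x 0 w = 0 := by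
  cases w <;> rfl

theorem viol_main (x y : Fin 3) (hxy : x ≠ y) (n : ℕ) : ∀ (m : Fin 3 → ℕ) (h : ℕ),
    m 0 + m 1 + m 2 = n → m x ≠ 0 → m y ≤ m x →
    (((words m).filter (fun w => occ y h w < occ x 1 w)).card : ℝ)
      ≤ (1 / 2) ^ h * ((words m).card : ℝ) := by
  induction n with
  | zero =>
    intro m h hm hx _
    exfalso
    apply hx
    fin_cases x <;> simp <;> omega
  | succ n ih =>
    intro m h hm hx hyx
    cases h with
    | zero =>
      rw [pow_zero, one_mul]
      exact_mod_cast Finset.card_filter_le _ _
    | succ h =>
      rw [viol_card_rec m (by omega), viol_card_rec' m (by omega)]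
      push_cast
      rw [Finset.mul_sum, ← sub_nonneg, ← Finset.sum_sub_distrib]
      set g : Fin 3 → ℝ := fun c => (1 / 2) ^ (h + 1) * (if m c = 0 then (0 : ℝ) else
          ((words (Function.update m c (m c - 1))).card : ℝ)) -
          (if m c = 0 then (0 : ℝ) else
            (((words (Function.update m c (m c - 1))).filter
              (fun w => occ y (h + 1) (c :: w) < occ x 1 (c :: w))).card : ℝ)) with hg
      have hgx : g x = (1 / 2) ^ (h + 1) * ((words (Function.update m x (m x - 1))).card : ℝ) := by
        have hempty : (words (Function.update m x (m x - 1))).filter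
              (fun w => occ y (h + 1) (x :: w) < occ x 1 (x :: w)) = ∅ := by
          apply Finset.filter_eq_empty_iff.2
          intro w _
          rw [viol_occ1, viol_occ2, if_pos rfl, if_neg hxy, viol_occ0]
          omega
        simp only [hg, if_neg hx, hempty, Finset.card_empty, Nat.cast_zero, sub_zero]
      have hrest : ∀ c : Fin 3, c ≠ x → c ≠ y → 0 ≤ g c := by
        intro c hcx hcy
        by_cases hc : m c = 0
        · simp only [hg, if_pos hc, mul_zero, sub_zero, le_refl]
        · simp only [hg, if_neg hc]
          rw [sub_nonneg]
          have heq : (words (Function.update m c (m c - 1))).filter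
              (fun w => occ y (h + 1) (c :: w) < occ x 1 (c :: w)) =
              (words (Function.update m c (m c - 1))).filter
              (fun w => occ y (h + 1) w < occ x 1 w) := by
            apply Finset.filter_congr
            intro w _
            rw [viol_occ1, viol_occ2, if_neg hcx, if_neg hcy]
            omega
          rw [heq]
          apply ih
          · exact viol_sum_update m c hc n hm
          · rw [Function.update_of_ne (Ne.symm hcx)]
            exact hx
          · rw [Function.update_of_ne (Ne.symm hcx), Function.update_of_ne (Ne.symm hcy)]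
            exact hyx
      have hgxy : 0 ≤ g x + g y := by
        rw [hgx]
        by_cases hy : m y = 0
        · simp only [hg, if_pos hy, mul_zero, sub_zero, add_zero]
          positivity
        · simp only [hg, if_neg hy]
          have heq : (words (Function.update m y (m y - 1))).filter
              (fun w => occ y (h + 1) (y :: w) < occ x 1 (y :: w)) =
              (words (Function.update m y (m y - 1))).filter
              (fun w => occ y h w < occ x 1 w) := by
            apply Finset.filter_congr
            intro w _
            rw [viol_occ1, viol_occ2, if_pos rfl, if_neg (Ne.symm hxy)]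
            omega
          rw [heq]
          have h1 := ih (Function.update m y (m y - 1)) h (viol_sum_update m y hy n hm)
            (by rw [Function.update_of_ne hxy]; exact hx)
            (by rw [Function.update_of_ne hxy, Function.update_self]; omega)
          have h2 : ((words (Function.update m y (m y - 1))).card : ℝ) ≤
              ((words (Function.update m x (m x - 1))).card : ℝ) := by
            exact_mod_cast viol_card_le m x y hx hy hyx
          have h3 : (0 : ℝ) < (1 / 2) ^ h := by positivity
          have h4 : (1 / 2 : ℝ) ^ (h + 1) = (1 / 2) ^ h * (1 / 2) := pow_succ _ _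
          rw [h4]
          have h5 : (1 / 2 : ℝ) ^ h * ((words (Function.update m y (m y - 1))).card : ℝ) ≤
              (1 / 2 : ℝ) ^ h * ((words (Function.update m x (m x - 1))).card : ℝ) :=
            mul_le_mul_of_nonneg_left h2 h3.le
          nlinarith
      calc (0 : ℝ) ≤ g x + g y := hgxy
        _ = ∑ c ∈ ({x, y} : Finset (Fin 3)), g c := (Finset.sum_pair hxy).symm
        _ ≤ ∑ c : Fin 3, g c := by
            apply Finset.sum_le_sum_of_subset_of_nonneg (Finset.subset_univ _)
            intro c _ hc
            rw [Finset.mem_insert, Finset.mem_singleton, not_or] at hc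
            exact hrest c hc.1 hc.2

theorem viol_bound (x y : Fin 3) (hxy : x ≠ y) (N h : ℕ) (hh : 1 ≤ h) (hN : h ≤ N) :
    (((W N).filter (fun w => occ y h w < occ x 1 w)).card : ℝ) ≤ (1 / 2) ^ h * ((W N).card : ℝ) := by
  unfold W
  exact viol_main x y hxy _ (fun _ => N) h rfl (by show N ≠ 0; omega) le_rfl

end J10158

end

end Pool.Agent.KS
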