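import Pool.Agent.H875KS.Defs2

set_option autoImplicit false

namespace Pool.Agent.KS

open Finset Filter Topology

noncomputable section

namespace J10155

/-! auxiliary lemmas for `zeta_limit` -/

theorem zl_length (w : List (Fin 3)) : w.length = w.count 0 + w.count 1 + w.count 2 := by
  induction w with
  | nil => rfl
  | cons a w ih =>
    rw [List.length_cons, ih]
    fin_cases a
    · simp only [List.count_cons]
      simp
      omega
    · simp only [List.count_cons]
      simp
      omega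
    · simp only [List.count_cons]
      simp
      omega

theorem zl_mem_words (m : Fin 3 → ℕ) (w : List (Fin 3)) :
    w ∈ words m ↔ ∀ c, w.count c = m c := by
  unfold words
  rw [Finset.mem_filter, Finset.mem_image]
  constructor
  · exact fun h => h.2
  · intro h
    refine ⟨?_, h⟩
    have hl : w.length = m 0 + m 1 + m 2 := by
      rw [zl_length, h 0, h 1, h 2]
    have key : ∀ n, w.length = n → ∃ f : Fin n → Fin 3, f ∈ (Finset.univ : Finset (Fin n → Fin 3)) ∧
        List.ofFn f = w := by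
      rintro n rfl
      exact ⟨w.get, Finset.mem_univ _, List.ofFn_get w⟩
    exact key _ hl

theorem zl_words_eq (m : Fin 3 → ℕ) (hm : ∃ c, m c ≠ 0) :
    words m = (Finset.univ : Finset (Fin 3)).biUnion fun c =>
      if m c = 0 then ∅ else (words (Function.update m c (m c - 1))).image (List.cons c) := by
  ext w
  rw [zl_mem_words, Finset.mem_biUnion]
  constructor
  · intro h
    cases w with
    | nil =>
      obtain ⟨c, hc⟩ := hm
      exact absurd (h c).symm hc
    | cons a w =>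
      have ha := h a
      rw [List.count_cons_self] at ha
      have ha0 : m a ≠ 0 := by omega
      refine ⟨a, Finset.mem_univ _, ?_⟩
      rw [if_neg ha0, Finset.mem_image]
      refine ⟨w, ?_, rfl⟩
      rw [zl_mem_words]
      intro c
      by_cases hc : c = a
      · subst hc
        rw [Function.update_self]
        omega
      · rw [Function.update_of_ne hc, ← h c, List.count_cons_of_ne (Ne.symm hc)]
  · rintro ⟨a, _, h⟩
    by_cases ha0 : m a = 0
    · rw [if_pos ha0] at h
      exact absurd h (Finset.notMem_empty _)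
    · rw [if_neg ha0, Finset.mem_image] at h
      obtain ⟨w', hw', rfl⟩ := h
      rw [zl_mem_words] at hw'
      intro c
      by_cases hc : c = a
      · subst hc
        have := hw' c
        rw [Function.update_self] at this
        rw [List.count_cons_self, this]
        omega
      · have := hw' c
        rw [Function.update_of_ne hc] at this
        rw [List.count_cons_of_ne (Ne.symm hc), this]

theorem zl_sum (m : Fin 3 → ℕ) (hm : ∃ c, m c ≠ 0) (G : List (Fin 3) → ℝ) :
    ∑ w ∈ words m, G w = ∑ c, if m c = 0 then 0 else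
      ∑ w ∈ words (Function.update m c (m c - 1)), G (c :: w) := by
  rw [zl_words_eq m hm, Finset.sum_biUnion]
  · refine Finset.sum_congr rfl fun c _ => ?_
    split_ifs with h
    · exact Finset.sum_empty
    · rw [Finset.sum_image]
      intro a _ b _ hab
      exact List.tail_eq_of_cons_eq hab
  · intro c _ c' _ hcc
    show Disjoint _ _
    rw [Finset.disjoint_left]
    intro w hw hw'
    by_cases h1 : m c = 0
    · simp only [h1, if_true] at hw
      exact absurd hw (Finset.notMem_empty _)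
    · by_cases h2 : m c' = 0
      · simp only [h2, if_true] at hw'
        exact absurd hw' (Finset.notMem_empty _)
      · simp only [h1, h2, if_false, Finset.mem_image] at hw hw'
        obtain ⟨u, _, rfl⟩ := hw
        obtain ⟨v, _, hv⟩ := hw'
        exact hcc (List.head_eq_of_cons_eq hv).symm

theorem zl_card (T : ℕ) : ∀ m : Fin 3 → ℕ, ∑ i, m i = T →
    ((words m).card : ℝ) * ∏ i, ((m i).factorial : ℝ) = (T.factorial : ℝ) := by
  induction T with
  | zero =>
    intro m hm
    have h0 : ∀ i, m i = 0 := by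
      intro i
      exact (Finset.sum_eq_zero_iff.1 hm) i (Finset.mem_univ i)
    have h1 : words m = {[]} := by
      ext w
      rw [zl_mem_words, Finset.mem_singleton]
      constructor
      · intro h
        have := zl_length w
        rw [h 0, h 1, h 2, h0 0, h0 1, h0 2] at this
        exact List.length_eq_zero_iff.1 this
      · rintro rfl c
        rw [h0 c]
        rfl
    rw [h1]
    simp [h0]
  | succ T ih =>
    intro m hm
    have hex : ∃ c, m c ≠ 0 := by
      by_contra hcon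
      push Not at hcon
      rw [Finset.sum_eq_zero (fun i _ => hcon i)] at hm
      omega
    have h1 : ((words m).card : ℝ) = ∑ c, if m c = 0 then 0 else
        ((words (Function.update m c (m c - 1))).card : ℝ) := by
      have := zl_sum m hex (fun _ => 1)
      simpa using this
    rw [h1, Finset.sum_mul]
    have h2 : ∀ c : Fin 3, (if m c = 0 then (0 : ℝ) else
        ((words (Function.update m c (m c - 1))).card : ℝ)) * ∏ i, ((m i).factorial : ℝ) =
        (m c : ℝ) * (T.factorial : ℝ) := by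
      intro c
      by_cases hc : m c = 0
      · rw [if_pos hc, hc]
        simp
      · rw [if_neg hc]
        have h3 : ∑ i, Function.update m c (m c - 1) i = T := by
          have e1 := Finset.add_sum_erase Finset.univ m (Finset.mem_univ c)
          have e2 := Finset.add_sum_erase Finset.univ (Function.update m c (m c - 1))
            (Finset.mem_univ c)
          have e3 : ∑ i ∈ Finset.univ.erase c, Function.update m c (m c - 1) i =
              ∑ i ∈ Finset.univ.erase c, m i := by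
            refine Finset.sum_congr rfl fun i hi => ?_
            rw [Function.update_of_ne (Finset.ne_of_mem_erase hi)]
          rw [Function.update_self] at e2
          omega
        have h4 := ih _ h3
        have e1 := Finset.mul_prod_erase Finset.univ (fun i => ((m i).factorial : ℝ))
          (Finset.mem_univ c)
        have e2 := Finset.mul_prod_erase Finset.univ
          (fun i => ((Function.update m c (m c - 1) i).factorial : ℝ)) (Finset.mem_univ c)
        have e3 : ∏ i ∈ Finset.univ.erase c, ((Function.update m c (m c - 1) i).factorial : ℝ) =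
            ∏ i ∈ Finset.univ.erase c, ((m i).factorial : ℝ) := by
          refine Finset.prod_congr rfl fun i hi => ?_
          rw [Function.update_of_ne (Finset.ne_of_mem_erase hi)]
        simp only [Function.update_self] at e2
        rw [e3] at e2
        obtain ⟨k, hk⟩ : ∃ k, m c = k + 1 := ⟨m c - 1, by omega⟩
        rw [← h4, ← e1, ← e2]
        simp only [hk, Nat.add_sub_cancel, Nat.factorial_succ]
        push_cast
        ring
    rw [Finset.sum_congr rfl fun c _ => h2 c, ← Finset.sum_mul, Nat.factorial_succ]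
    have h5 : ∑ i, (m i : ℝ) = (T : ℝ) + 1 := by
      exact_mod_cast hm
    rw [h5]
    push_cast
    ring

/-- counts in terms of the letters `x`, `y` and the third letter -/
def zl_mk (x y : Fin 3) (a b c : ℕ) : Fin 3 → ℕ := fun i => if i = x then a else if i = y then b else c

section zl

variable {x y z : Fin 3}

theorem zl_univ (x y z : Fin 3) (hxy : x ≠ y) (hxz : x ≠ z) (hyz : y ≠ z) :
    (Finset.univ : Finset (Fin 3)) = {x, y, z} := by
  revert x y z
  decide

theorem zl_third (x y : Fin 3) : ∃ z : Fin 3, x ≠ z ∧ y ≠ z := by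
  revert x y
  decide

theorem zl_mk_x (a b c : ℕ) : zl_mk x y a b c x = a := by simp [zl_mk]
theorem zl_mk_y (hxy : x ≠ y) (a b c : ℕ) : zl_mk x y a b c y = b := by simp [zl_mk, hxy.symm]
theorem zl_mk_z (hxz : x ≠ z) (hyz : y ≠ z) (a b c : ℕ) : zl_mk x y a b c z = c := by
  simp [zl_mk, hxz.symm, hyz.symm]

theorem zl_sum3 {M : Type*} [AddCommMonoid M] (hxy : x ≠ y) (hxz : x ≠ z) (hyz : y ≠ z)
    (f : Fin 3 → M) : ∑ i, f i = f x + (f y + f z) := by
  rw [zl_univ x y z hxy hxz hyz, Finset.sum_insert (by simp [hxy, hxz]),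
    Finset.sum_insert (by simp [hyz]), Finset.sum_singleton]

theorem zl_prod3 (hxy : x ≠ y) (hxz : x ≠ z) (hyz : y ≠ z)
    (f : Fin 3 → ℝ) : ∏ i, f i = f x * (f y * f z) := by
  rw [zl_univ x y z hxy hxz hyz, Finset.prod_insert (by simp [hxy, hxz]),
    Finset.prod_insert (by simp [hyz]), Finset.prod_singleton]

/-- number of words -/
def zl_n (x y : Fin 3) (a b c : ℕ) : ℝ := ((words (zl_mk x y a b c)).card : ℝ)

theorem zl_n_eq (hxy : x ≠ y) (hxz : x ≠ z) (hyz : y ≠ z) (a b c : ℕ) :
    zl_n x y a b c * ((a.factorial : ℝ) * ((b.factorial : ℝ) * (c.factorial : ℝ))) =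
      ((a + (b + c)).factorial : ℝ) := by
  have h := zl_card (a + (b + c)) (zl_mk x y a b c) (by
    rw [zl_sum3 hxy hxz hyz, zl_mk_x, zl_mk_y hxy, zl_mk_z hxz hyz])
  rwa [zl_prod3 hxy hxz hyz, zl_mk_x, zl_mk_y hxy, zl_mk_z hxz hyz] at h

theorem zl_n_pos (hxy : x ≠ y) (hxz : x ≠ z) (hyz : y ≠ z) (a b c : ℕ) : 0 < zl_n x y a b c := by
  have h := zl_n_eq hxy hxz hyz a b c
  have h1 : (0 : ℝ) < ((a + (b + c)).factorial : ℝ) := by exact_mod_cast Nat.factorial_pos _
  rw [← h] at h1
  have h2 : (0 : ℝ) < (a.factorial : ℝ) * ((b.factorial : ℝ) * (c.factorial : ℝ)) := by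
    have h3 : (0 : ℝ) < (a.factorial : ℝ) := by exact_mod_cast Nat.factorial_pos _
    have h4 : (0 : ℝ) < (b.factorial : ℝ) := by exact_mod_cast Nat.factorial_pos _
    have h5 : (0 : ℝ) < (c.factorial : ℝ) := by exact_mod_cast Nat.factorial_pos _
    positivity
  exact (mul_pos_iff_of_pos_right h2).1 h1

theorem zl_nx (hxy : x ≠ y) (hxz : x ≠ z) (hyz : y ≠ z) (a b c : ℕ) :
    ((a : ℝ) + b + c + 1) * zl_n x y a b c = (a + 1) * zl_n x y (a + 1) b c := by
  have h1 := zl_n_eq hxy hxz hyz a b c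
  have h2 := zl_n_eq hxy hxz hyz (a + 1) b c
  rw [show a + 1 + (b + c) = (a + (b + c)) + 1 by ring, Nat.factorial_succ, Nat.factorial_succ] at h2
  push_cast at h2
  rw [← h1] at h2
  have h3 : (0 : ℝ) < (a.factorial : ℝ) * ((b.factorial : ℝ) * (c.factorial : ℝ)) := by
    have h3 : (0 : ℝ) < (a.factorial : ℝ) := by exact_mod_cast Nat.factorial_pos _
    have h4 : (0 : ℝ) < (b.factorial : ℝ) := by exact_mod_cast Nat.factorial_pos _
    have h5 : (0 : ℝ) < (c.factorial : ℝ) := by exact_mod_cast Nat.factorial_pos _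
    positivity
  apply mul_right_cancel₀ h3.ne'
  linarith

theorem zl_ny (hxy : x ≠ y) (hxz : x ≠ z) (hyz : y ≠ z) (a b c : ℕ) :
    ((a : ℝ) + b + c + 1) * zl_n x y a b c = (b + 1) * zl_n x y a (b + 1) c := by
  have h1 := zl_n_eq hxy hxz hyz a b c
  have h2 := zl_n_eq hxy hxz hyz a (b + 1) c
  rw [show a + (b + 1 + c) = (a + (b + c)) + 1 by ring, Nat.factorial_succ, Nat.factorial_succ] at h2
  push_cast at h2
  rw [← h1] at h2
  have h3 : (0 : ℝ) < (a.factorial : ℝ) * ((b.factorial : ℝ) * (c.factorial : ℝ)) := by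
    have h3 : (0 : ℝ) < (a.factorial : ℝ) := by exact_mod_cast Nat.factorial_pos _
    have h4 : (0 : ℝ) < (b.factorial : ℝ) := by exact_mod_cast Nat.factorial_pos _
    have h5 : (0 : ℝ) < (c.factorial : ℝ) := by exact_mod_cast Nat.factorial_pos _
    positivity
  apply mul_right_cancel₀ h3.ne'
  linarith

theorem zl_nz (hxy : x ≠ y) (hxz : x ≠ z) (hyz : y ≠ z) (a b c : ℕ) :
    ((a : ℝ) + b + c + 1) * zl_n x y a b c = (c + 1) * zl_n x y a b (c + 1) := by
  have h1 := zl_n_eq hxy hxz hyz a b c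
  have h2 := zl_n_eq hxy hxz hyz a b (c + 1)
  rw [show a + (b + (c + 1)) = (a + (b + c)) + 1 by ring, Nat.factorial_succ, Nat.factorial_succ] at h2
  push_cast at h2
  rw [← h1] at h2
  have h3 : (0 : ℝ) < (a.factorial : ℝ) * ((b.factorial : ℝ) * (c.factorial : ℝ)) := by
    have h3 : (0 : ℝ) < (a.factorial : ℝ) := by exact_mod_cast Nat.factorial_pos _
    have h4 : (0 : ℝ) < (b.factorial : ℝ) := by exact_mod_cast Nat.factorial_pos _
    have h5 : (0 : ℝ) < (c.factorial : ℝ) := by exact_mod_cast Nat.factorial_pos _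
    positivity
  apply mul_right_cancel₀ h3.ne'
  linarith

theorem zl_upd_x (a b c : ℕ) :
    Function.update (zl_mk x y (a + 1) b c) x (zl_mk x y (a + 1) b c x - 1) = zl_mk x y a b c := by
  funext i
  by_cases h : i = x
  · subst h
    rw [Function.update_self, zl_mk_x, zl_mk_x, Nat.add_sub_cancel]
  · rw [Function.update_of_ne h]
    simp [zl_mk, h]

theorem zl_upd_y (hxy : x ≠ y) (a b c : ℕ) :
    Function.update (zl_mk x y a (b + 1) c) y (zl_mk x y a (b + 1) c y - 1) = zl_mk x y a b c := by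
  funext i
  by_cases h : i = y
  · subst h
    rw [Function.update_self, zl_mk_y hxy, zl_mk_y hxy, Nat.add_sub_cancel]
  · rw [Function.update_of_ne h]
    simp [zl_mk, h]

theorem zl_upd_z (hxy : x ≠ y) (hxz : x ≠ z) (hyz : y ≠ z) (a b c : ℕ) :
    Function.update (zl_mk x y a b (c + 1)) z (zl_mk x y a b (c + 1) z - 1) = zl_mk x y a b c := by
  funext i
  by_cases h : i = z
  · subst h
    rw [Function.update_self, zl_mk_z hxz hyz, zl_mk_z hxz hyz, Nat.add_sub_cancel]
  · rw [Function.update_of_ne h]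
    have h2 : i ∈ ({x, y, z} : Finset (Fin 3)) := by
      rw [← zl_univ x y z hxy hxz hyz]
      exact Finset.mem_univ i
    simp only [Finset.mem_insert, Finset.mem_singleton] at h2
    rcases h2 with rfl | rfl | rfl
    · rw [zl_mk_x, zl_mk_x]
    · rw [zl_mk_y hxy, zl_mk_y hxy]
    · exact absurd rfl h

theorem zl_rec (hxy : x ≠ y) (hxz : x ≠ z) (hyz : y ≠ z) (a b c : ℕ) (G : List (Fin 3) → ℝ) :
    ∑ w ∈ words (zl_mk x y (a + 1) (b + 1) (c + 1)), G w =
      ∑ w ∈ words (zl_mk x y a (b + 1) (c + 1)), G (x :: w) +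
      (∑ w ∈ words (zl_mk x y (a + 1) b (c + 1)), G (y :: w) +
      ∑ w ∈ words (zl_mk x y (a + 1) (b + 1) c), G (z :: w)) := by
  rw [zl_sum _ ⟨x, by rw [zl_mk_x]; omega⟩, zl_sum3 hxy hxz hyz]
  rw [if_neg (by rw [zl_mk_x]; omega), if_neg (by rw [zl_mk_y hxy]; omega),
    if_neg (by rw [zl_mk_z hxz hyz]; omega), zl_upd_x, zl_upd_y hxy, zl_upd_z hxy hxz hyz]

theorem zl_rec0 (hxy : x ≠ y) (hxz : x ≠ z) (hyz : y ≠ z) (a b : ℕ) (G : List (Fin 3) → ℝ) :
    ∑ w ∈ words (zl_mk x y (a + 1) (b + 1) 0), G w =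
      ∑ w ∈ words (zl_mk x y a (b + 1) 0), G (x :: w) +
      ∑ w ∈ words (zl_mk x y (a + 1) b 0), G (y :: w) := by
  rw [zl_sum _ ⟨x, by rw [zl_mk_x]; omega⟩, zl_sum3 hxy hxz hyz]
  rw [if_neg (by rw [zl_mk_x]; omega), if_neg (by rw [zl_mk_y hxy]; omega),
    if_pos (by rw [zl_mk_z hxz hyz]), zl_upd_x, zl_upd_y hxy, add_zero]

/-- the functional -/
def zl_G (x y : Fin 3) (h : ℕ) (w : List (Fin 3)) : ℝ :=
  if occ x 1 w < occ y h w then ((occ x 1 w - occ y (h - 1) w : ℕ) : ℝ) else 0

/-- the indicator -/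
def zl_B (x y : Fin 3) (w : List (Fin 3)) : ℝ := if occ x 1 w < occ y 1 w then 1 else 0

theorem zl_occ_same (x : Fin 3) (k : ℕ) (w : List (Fin 3)) : occ x (k + 1) (x :: w) = occ x k w + 1 := by
  simp [occ]

theorem zl_occ_other {x c : Fin 3} (h : c ≠ x) (k : ℕ) (w : List (Fin 3)) :
    occ x (k + 1) (c :: w) = occ x (k + 1) w + 1 := by
  simp [occ, h]

theorem zl_occ_zero (x : Fin 3) (w : List (Fin 3)) : occ x 0 w = 0 := by
  cases w <;> rfl

theorem zl_occ_pos (x : Fin 3) (w : List (Fin 3)) (h : 0 < w.count x) : 0 < occ x 1 w := by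
  cases w with
  | nil => simp at h
  | cons c w =>
    by_cases hc : c = x
    · subst hc
      rw [zl_occ_same]
      omega
    · rw [zl_occ_other hc]
      omega

theorem zl_G_z (hxz : x ≠ z) (hyz : y ≠ z) (k : ℕ) (w : List (Fin 3)) :
    zl_G x y (k + 2) (z :: w) = zl_G x y (k + 2) w := by
  unfold zl_G
  rw [zl_occ_other hxz.symm, zl_occ_other hyz.symm, show k + 2 - 1 = k + 1 by omega,
    zl_occ_other hyz.symm]
  simp only [Nat.add_lt_add_iff_right, Nat.add_sub_add_right]

theorem zl_G_y (hxy : x ≠ y) (k : ℕ) (w : List (Fin 3)) :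
    zl_G x y (k + 2) (y :: w) = zl_G x y (k + 1) w := by
  unfold zl_G
  rw [zl_occ_other hxy.symm, zl_occ_same, show k + 2 - 1 = k + 1 by omega, zl_occ_same,
    show k + 1 - 1 = k by omega]
  simp only [Nat.add_lt_add_iff_right, Nat.add_sub_add_right]

theorem zl_G_x (hxy : x ≠ y) (k : ℕ) (w : List (Fin 3)) :
    zl_G x y (k + 2) (x :: w) = 0 := by
  unfold zl_G
  rw [zl_occ_same, zl_occ_zero, zl_occ_other hxy, show k + 2 - 1 = k + 1 by omega,
    zl_occ_other hxy]
  have : 0 + 1 - (occ y (k + 1) w + 1) = 0 := by omega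
  rw [this]
  simp

theorem zl_G1_z (hxz : x ≠ z) (hyz : y ≠ z) (w : List (Fin 3)) :
    zl_G x y 1 (z :: w) = zl_G x y 1 w + zl_B x y w := by
  unfold zl_G zl_B
  rw [zl_occ_other hxz.symm, zl_occ_other hyz.symm, show 1 - 1 = 0 by rfl,
    zl_occ_zero, zl_occ_zero]
  simp only [Nat.add_lt_add_iff_right, Nat.sub_zero]
  split_ifs
  · push_cast
    ring
  · simp

theorem zl_G1_y (hxy : x ≠ y) (w : List (Fin 3)) : zl_G x y 1 (y :: w) = 0 := by
  unfold zl_G
  rw [zl_occ_other hxy.symm, zl_occ_same, zl_occ_zero, if_neg (by omega)]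

theorem zl_G1_x (hxy : x ≠ y) (w : List (Fin 3)) (hw : 0 < w.count y) :
    zl_G x y 1 (x :: w) = 1 := by
  unfold zl_G
  have h := zl_occ_pos y w hw
  have e1 : occ x 1 (x :: w) = 1 := by rw [zl_occ_same, zl_occ_zero]
  have e2 : occ y 1 (x :: w) = occ y 1 w + 1 := zl_occ_other hxy 0 w
  have hlt : occ x 1 (x :: w) < occ y 1 (x :: w) := by omega
  rw [if_pos hlt, e1, show 1 - 1 = 0 by rfl, zl_occ_zero]
  simp

theorem zl_B_z (hxz : x ≠ z) (hyz : y ≠ z) (w : List (Fin 3)) :
    zl_B x y (z :: w) = zl_B x y w := by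
  unfold zl_B
  rw [zl_occ_other hxz.symm, zl_occ_other hyz.symm]
  simp only [Nat.add_lt_add_iff_right]

theorem zl_B_y (hxy : x ≠ y) (w : List (Fin 3)) : zl_B x y (y :: w) = 0 := by
  unfold zl_B
  rw [zl_occ_other hxy.symm, zl_occ_same, zl_occ_zero, if_neg (by omega)]

theorem zl_B_x (hxy : x ≠ y) (w : List (Fin 3)) (hw : 0 < w.count y) :
    zl_B x y (x :: w) = 1 := by
  unfold zl_B
  have h := zl_occ_pos y w hw
  have e1 : occ x 1 (x :: w) = 1 := by rw [zl_occ_same, zl_occ_zero]
  have e2 : occ y 1 (x :: w) = occ y 1 w + 1 := zl_occ_other hxy 0 w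
  have hlt : occ x 1 (x :: w) < occ y 1 (x :: w) := by omega
  rw [if_pos hlt]

theorem zl_sum_one (a b c : ℕ) (F : List (Fin 3) → ℝ)
    (hxy : x ≠ y) (hF : ∀ w : List (Fin 3), 0 < w.count y → F w = 1) :
    ∑ w ∈ words (zl_mk x y a (b + 1) c), F w = zl_n x y a (b + 1) c := by
  rw [Finset.sum_congr rfl (g := fun _ => (1 : ℝ))]
  · simp [zl_n]
  · intro w hw
    apply hF
    rw [zl_mem_words] at hw
    rw [hw y, zl_mk_y hxy]
    omega

theorem zl_cnt (hxy : x ≠ y) (hxz : x ≠ z) (hyz : y ≠ z) (a b c : ℕ) :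
    ∑ w ∈ words (zl_mk x y (a + 1) (b + 1) c), zl_B x y w =
      zl_n x y (a + 1) (b + 1) c * ((a + 1) / (a + b + 2)) := by
  induction c with
  | zero =>
    rw [zl_rec0 hxy hxz hyz, zl_sum_one a b 0 (fun w => zl_B x y (x :: w)) hxy (zl_B_x hxy)]
    simp only [zl_B_y hxy, Finset.sum_const_zero, add_zero]
    have h := zl_nx hxy hxz hyz a (b + 1) 0
    push_cast at h
    have h2 : (0 : ℝ) < (a : ℝ) + b + 2 := by positivity
    rw [mul_div_assoc', eq_div_iff h2.ne']
    linarith
  | succ c ih =>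
    rw [zl_rec hxy hxz hyz, zl_sum_one a b (c + 1) (fun w => zl_B x y (x :: w)) hxy (zl_B_x hxy)]
    simp only [zl_B_y hxy, zl_B_z hxz hyz, Finset.sum_const_zero, zero_add]
    rw [ih]
    have h1 := zl_nx hxy hxz hyz a (b + 1) (c + 1)
    have h2 := zl_nz hxy hxz hyz (a + 1) (b + 1) c
    push_cast at h1 h2
    have e1 : zl_n x y a (b + 1) (c + 1) =
        (a + 1) * zl_n x y (a + 1) (b + 1) (c + 1) / ((a : ℝ) + b + c + 3) := by
      rw [eq_div_iff (by positivity)]
      linarith
    have e2 : zl_n x y (a + 1) (b + 1) c =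
        (c + 1) * zl_n x y (a + 1) (b + 1) (c + 1) / ((a : ℝ) + b + c + 3) := by
      rw [eq_div_iff (by positivity)]
      linarith
    rw [e1, e2]
    have h3 : (0 : ℝ) < (a : ℝ) + b + 2 := by positivity
    have h4 : (0 : ℝ) < (a : ℝ) + b + c + 3 := by positivity
    field_simp
    ring

theorem zl_Z1 (hxy : x ≠ y) (hxz : x ≠ z) (hyz : y ≠ z) (a b c : ℕ) :
    ∑ w ∈ words (zl_mk x y (a + 1) (b + 1) c), zl_G x y 1 w =
      zl_n x y (a + 1) (b + 1) c * ((a + 1) / (a + b + 2)) * ((a + b + c + 3) / (a + b + 3)) := by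
  induction c with
  | zero =>
    rw [zl_rec0 hxy hxz hyz, zl_sum_one a b 0 (fun w => zl_G x y 1 (x :: w)) hxy (zl_G1_x hxy)]
    simp only [zl_G1_y hxy, Finset.sum_const_zero, add_zero]
    have h := zl_nx hxy hxz hyz a (b + 1) 0
    push_cast at h
    have h2 : (0 : ℝ) < (a : ℝ) + b + 2 := by positivity
    have h3 : (0 : ℝ) < (a : ℝ) + b + 3 := by positivity
    have e1 : zl_n x y a (b + 1) 0 =
        (a + 1) * zl_n x y (a + 1) (b + 1) 0 / ((a : ℝ) + b + 2) := by
      rw [eq_div_iff (by positivity)]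
      linarith
    rw [e1]
    push_cast
    field_simp
    ring
  | succ c ih =>
    rw [zl_rec hxy hxz hyz, zl_sum_one a b (c + 1) (fun w => zl_G x y 1 (x :: w)) hxy (zl_G1_x hxy)]
    simp only [zl_G1_y hxy, zl_G1_z hxz hyz, Finset.sum_const_zero, zero_add]
    rw [Finset.sum_add_distrib, ih, zl_cnt hxy hxz hyz]
    have h1 := zl_nx hxy hxz hyz a (b + 1) (c + 1)
    have h2 := zl_nz hxy hxz hyz (a + 1) (b + 1) c
    push_cast at h1 h2
    have e1 : zl_n x y a (b + 1) (c + 1) =
        (a + 1) * zl_n x y (a + 1) (b + 1) (c + 1) / ((a : ℝ) + b + c + 3) := by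
      rw [eq_div_iff (by positivity)]
      linarith
    have e2 : zl_n x y (a + 1) (b + 1) c =
        (c + 1) * zl_n x y (a + 1) (b + 1) (c + 1) / ((a : ℝ) + b + c + 3) := by
      rw [eq_div_iff (by positivity)]
      linarith
    rw [e1, e2]
    have h3 : (0 : ℝ) < (a : ℝ) + b + 2 := by positivity
    have h3' : (0 : ℝ) < (a : ℝ) + b + 3 := by positivity
    have h4 : (0 : ℝ) < (a : ℝ) + b + c + 3 := by positivity
    push_cast
    field_simp
    ring

/-- probability that exactly `h - 1` letters `y` come before the first `x` -/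
def zl_R : ℕ → ℝ → ℝ → ℝ
  | 0, a, b => a / (a + b)
  | (h + 1), a, b => b / (a + b) * zl_R h a (b - 1)

theorem zl_Z (hxy : x ≠ y) (hxz : x ≠ z) (hyz : y ≠ z) (h : ℕ) : ∀ a b c : ℕ,
    ∑ w ∈ words (zl_mk x y (a + 1) (b + 1 + h) c), zl_G x y (h + 1) w =
      zl_n x y (a + 1) (b + 1 + h) c * zl_R h (a + 1) (b + 1 + h) *
        ((a + (b + h) + c + 3) / (a + (b + h) + 3)) := by
  induction h with
  | zero =>
    intro a b c
    have := zl_Z1 hxy hxz hyz a b c
    simp only [Nat.add_zero, Nat.zero_add, Nat.cast_zero, add_zero, zl_R]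
    rw [this]
    congr 2
    congr 1
    ring
  | succ h ih =>
    intro a b c
    have hb : b + 1 + (h + 1) = (b + 1 + h) + 1 := by ring
    have hR : zl_R (h + 1) (a + 1) (b + 1 + ((h + 1 : ℕ) : ℝ)) =
        (b + h + 2) / (a + b + h + 3) * zl_R h (a + 1) (b + 1 + h) := by
      simp only [zl_R]
      push_cast
      congr 1
      · congr 1
        · ring
        · ring
      · congr 1
        ring
    rw [hR]
    set Rr := zl_R h ((a : ℝ) + 1) (b + 1 + h) with hRr
    have p1 : (0 : ℝ) < (a : ℝ) + b + h + 3 := by positivity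
    have p2 : (0 : ℝ) < (a : ℝ) + b + h + 4 := by positivity
    induction c with
    | zero =>
      rw [hb, zl_rec0 hxy hxz hyz]
      simp only [zl_G_x hxy, zl_G_y hxy, Finset.sum_const_zero, zero_add]
      rw [ih a b 0, ← hRr]
      have h1 := zl_ny hxy hxz hyz (a + 1) (b + 1 + h) 0
      push_cast at h1
      have e1 : zl_n x y (a + 1) (b + 1 + h) 0 =
          (b + h + 2) * zl_n x y (a + 1) (b + 1 + h + 1) 0 / ((a : ℝ) + b + h + 3) := by
        rw [eq_div_iff (by positivity)]
        linarith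
      rw [e1]
      push_cast
      have p3 : (a : ℝ) + (b + h) + 3 ≠ 0 := by positivity
      have p4 : (a : ℝ) + (b + (h + 1)) + 3 ≠ 0 := by positivity
      field_simp
      ring
    | succ c ihc =>
      rw [hb, zl_rec hxy hxz hyz]
      simp only [zl_G_x hxy, zl_G_y hxy, zl_G_z hxz hyz, Finset.sum_const_zero, zero_add]
      rw [hb] at ihc
      rw [ih a b (c + 1), ihc, ← hRr]
      have h1 := zl_ny hxy hxz hyz (a + 1) (b + 1 + h) (c + 1)
      have h2 := zl_nz hxy hxz hyz (a + 1) (b + 1 + h + 1) c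
      push_cast at h1 h2
      have e1 : zl_n x y (a + 1) (b + 1 + h) (c + 1) =
          (b + h + 2) * zl_n x y (a + 1) (b + 1 + h + 1) (c + 1) / ((a : ℝ) + b + h + c + 4) := by
        rw [eq_div_iff (by positivity)]
        linarith
      have e2 : zl_n x y (a + 1) (b + 1 + h + 1) c =
          (c + 1) * zl_n x y (a + 1) (b + 1 + h + 1) (c + 1) / ((a : ℝ) + b + h + c + 4) := by
        rw [eq_div_iff (by positivity)]
        linarith
      rw [e1, e2]
      push_cast
      have p3 : (a : ℝ) + (b + h) + 3 ≠ 0 := by positivity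
      have p4 : (a : ℝ) + (b + (h + 1)) + 3 ≠ 0 := by positivity
      have p5 : (a : ℝ) + b + h + c + 4 ≠ 0 := by positivity
      field_simp
      ring

end zl

theorem zl_R_tendsto (h : ℕ) : ∀ j : ℝ,
    Tendsto (fun N : ℕ => zl_R h N ((N : ℝ) - j)) atTop (𝓝 (1 / 2 ^ (h + 1))) := by
  have hN : Tendsto (fun N : ℕ => ((N : ℝ))⁻¹) atTop (𝓝 0) := tendsto_inv_atTop_nhds_zero_nat
  induction h with
  | zero =>
    intro j
    have h1 : Tendsto (fun N : ℕ => 1 / (2 - j * ((N : ℝ))⁻¹)) atTop (𝓝 (1 / (2 - j * 0))) :=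
      tendsto_const_nhds.div (tendsto_const_nhds.sub (hN.const_mul j)) (by norm_num)
    have h2 : (1 : ℝ) / (2 - j * 0) = 1 / 2 ^ (0 + 1) := by norm_num
    rw [h2] at h1
    refine h1.congr' ?_
    filter_upwards [eventually_gt_atTop 0] with N hN0
    have hN1 : (N : ℝ) ≠ 0 := by
      have : N ≠ 0 := by omega
      exact_mod_cast this
    simp only [zl_R]
    have e : (N : ℝ) + (N - j) = N * (2 - j * (N : ℝ)⁻¹) := by
      field_simp
      ring
    rw [e, ← div_div, div_self hN1]
  | succ h ih =>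
    intro j
    have h1 : Tendsto (fun N : ℕ => (1 - j * ((N : ℝ))⁻¹) / (2 - j * ((N : ℝ))⁻¹)) atTop
        (𝓝 ((1 - j * 0) / (2 - j * 0))) :=
      (tendsto_const_nhds.sub (hN.const_mul j)).div
        (tendsto_const_nhds.sub (hN.const_mul j)) (by norm_num)
    have h2 := h1.mul (ih (j + 1))
    have h3 : ((1 : ℝ) - j * 0) / (2 - j * 0) * (1 / 2 ^ (h + 1)) = 1 / 2 ^ (h + 1 + 1) := by
      rw [pow_succ]
      norm_num
      ring
    rw [h3] at h2
    refine h2.congr' ?_
    filter_upwards [eventually_gt_atTop 0] with N hN0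
    have hN1 : (N : ℝ) ≠ 0 := by
      have : N ≠ 0 := by omega
      exact_mod_cast this
    simp only [zl_R]
    have e : (N : ℝ) + (N - j) = N * (2 - j * (N : ℝ)⁻¹) := by
      field_simp
      ring
    have e2 : (N : ℝ) - j = N * (1 - j * (N : ℝ)⁻¹) := by
      field_simp
    have e3 : (N : ℝ) - j - 1 = N - (j + 1) := by ring
    rw [e3, e, e2, mul_div_mul_left _ _ hN1]

/-- Limit of the average of the target functional over all words. -/
theorem zeta_limit (x y : Fin 3) (hxy : x ≠ y) (h : ℕ) (hh : 2 ≤ h) :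
    Tendsto (fun N : ℕ => (∑ w ∈ (W N).filter (fun w => occ x 1 w < occ y h w),
        ((occ x 1 w - occ y (h - 1) w : ℕ) : ℝ)) / ((W N).card : ℝ)) atTop
      (𝓝 (3 / 2 / 2 ^ h)) := by
  obtain ⟨z, hxz, hyz⟩ := zl_third x y
  obtain ⟨k, rfl⟩ : ∃ k, h = k + 1 := ⟨h - 1, by omega⟩
  have h1 := (zl_R_tendsto k 0)
  have hN : Tendsto (fun N : ℕ => ((N : ℝ))⁻¹) atTop (𝓝 0) := tendsto_inv_atTop_nhds_zero_nat
  have h2 : Tendsto (fun N : ℕ => (3 + 1 * ((N : ℝ))⁻¹) / (2 + 1 * ((N : ℝ))⁻¹)) atTop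
      (𝓝 ((3 + 1 * 0) / (2 + 1 * 0))) :=
    (tendsto_const_nhds.add (hN.const_mul 1)).div
      (tendsto_const_nhds.add (hN.const_mul 1)) (by norm_num)
  have h3 := h1.mul h2
  have h4 : (1 : ℝ) / 2 ^ (k + 1) * ((3 + 1 * 0) / (2 + 1 * 0)) = 3 / 2 / 2 ^ (k + 1) := by
    norm_num
    ring
  rw [h4] at h3
  refine h3.congr' ?_
  filter_upwards [eventually_gt_atTop (k + 1)] with N hNk
  obtain ⟨a, rfl⟩ : ∃ a, N = a + 1 := ⟨N - 1, by omega⟩
  obtain ⟨b, hb⟩ : ∃ b, a = b + k := ⟨a - k, by omega⟩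
  have hW : W (a + 1) = words (zl_mk x y (a + 1) (b + 1 + k) (a + 1)) := by
    unfold W
    congr 1
    funext i
    unfold zl_mk
    split_ifs <;> omega
  have hZ := zl_Z hxy hxz hyz k a b (a + 1)
  have hn := zl_n_pos hxy hxz hyz (a + 1) (b + 1 + k) (a + 1)
  rw [Finset.sum_filter]
  have hG : ∀ w, (if occ x 1 w < occ y (k + 1) w then ((occ x 1 w - occ y (k + 1 - 1) w : ℕ) : ℝ)
      else 0) = zl_G x y (k + 1) w := fun w => rfl
  simp only [hG]
  rw [hW, hZ]
  show _ = _ / zl_n x y (a + 1) (b + 1 + k) (a + 1)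
  have hab : (a : ℝ) = b + k := by exact_mod_cast hb
  have hz' : ∀ R Q : ℝ, zl_n x y (a + 1) (b + 1 + k) (a + 1) * R * Q /
      zl_n x y (a + 1) (b + 1 + k) (a + 1) = R * Q := by
    intro R Q
    have := hn.ne'
    field_simp
  rw [hz']
  have hR : zl_R k ((a : ℝ) + 1) (b + 1 + k) = zl_R k ((a + 1 : ℕ) : ℝ) (((a + 1 : ℕ) : ℝ) - 0) := by
    push_cast
    congr 1
    rw [hab]
    ring
  rw [hR]
  congr 1
  have ha0 : ((a + 1 : ℕ) : ℝ) ≠ 0 := by positivity
  push_cast at ha0 ⊢
  rw [← hab]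
  have e1 : (a : ℝ) + a + (a + 1) + 3 = (a + 1) * (3 + 1 * ((a : ℝ) + 1)⁻¹) := by
    field_simp
    ring
  have e2 : (a : ℝ) + a + 3 = (a + 1) * (2 + 1 * ((a : ℝ) + 1)⁻¹) := by
    field_simp
    ring
  rw [e1, e2, mul_div_mul_left _ _ ha0]

end J10155

end

end Pool.Agent.KS
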