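import Pool.Agent.H875KS.Harm
import Pool.Agent.H875KS.Dual
import Pool.Agent.H875KS.ModuleComp
import Pool.Agent.H875KS.ChainAffine
import Pool.Agent.H875KS.ThetaFormula
import Pool.Agent.H875KS.ThetaLimit
import Pool.Agent.H875KS.Tree
import Pool.Agent.H875KS.Bridge
import Pool.Agent.H875KS.GadDual
import Pool.Agent.H875KS.GadSecond
import Pool.Agent.H875KS.EtaLimit
import Pool.Agent.H875KS.ZetaLimit
import Pool.Agent.H875KS.ViolBound
import Pool.Agent.H875KS.TailBound
import Pool.Agent.H875KS.TakeBound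
import Pool.Agent.H875KS.Kinks
import Pool.Agent.H875KS.Solve
import Pool.Agent.H875KS.Numbers
import Pool.Agent.H875KS.HD
import Pool.Agent.H875KS.Asm3

set_option autoImplicit false

namespace Pool.Agent.KS

open Finset Filter Topology

theorem tree_ok (n : ℕ) : TreeOK n := by
  have hθ := theta_tendsto J10132.theta_formula J10133.theta_limit
  refine J10134.tree (fun s => ht (DR (cs s)) (Sum.inl 1)) hθ ?_ n
  intro X _ r hr hX
  exact hD_all (fun X _ r hr hX => J10130.module_comp r hr hX)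
    (fun s hs H hH => J10131.chain_affine (fun α _ r x => J10128.harm r x)
      (fun α _ r φ hφ hne x => J10129.dual r φ hφ hne x) s hs H hH) X r hr hX

theorem gad_ok (ε : ℝ) (hε : 0 < ε) : ∃ h0 : ℕ, ∀ h ≥ h0, ∃ N0 : ℕ, ∀ N ≥ N0, GadOK N h ε := by
  have hε' : 0 < ε / 10 := by linarith
  obtain ⟨h0, hk⟩ := J10161.kinks (fun x y hxy h hh => J10153.eta_limit x y hxy h hh)
    (fun x y hxy h hh => J10155.zeta_limit x y hxy h hh)
    (fun x y hxy N h hh hN => J10158.viol_bound x y hxy N h hh hN) J10159.tail_bound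
    (fun x y hxy N h R hh hN G hG hR => J10160.take_bound x y hxy N h R hh hN G hG hR)
    (ε / 10) hε'
  refine ⟨max h0 3, fun h hh => ?_⟩
  have h3 : 3 ≤ h := le_trans (le_max_right _ _) hh
  obtain ⟨N1, hN1⟩ := hk h (le_trans (le_max_left _ _) hh)
  obtain ⟨N2, hN2⟩ := J10162.solve (ε / 10) hε' h h3
  refine ⟨max (max N1 N2) (2 * h + 4), fun N hN => ?_⟩
  have hNa : N1 ≤ N := le_trans (le_trans (le_max_left _ _) (le_max_left _ _)) hN
  have hNb : N2 ≤ N := le_trans (le_trans (le_max_right _ _) (le_max_left _ _)) hN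
  have hNc : 2 * h + 4 ≤ N := le_trans (le_max_right _ _) hN
  obtain ⟨hgood, a0, a1, b0, b1, b2⟩ := hN1 N hNa
  obtain ⟨E, hE, hpos⟩ := J10135.bridge N h h3 (by omega)
  have hne : (LE (gad N h)).Nonempty := by
    obtain ⟨w, hw⟩ := hgood
    obtain ⟨f, hf, _⟩ := hE.surjOn hw
    exact ⟨f, hf⟩
  have hdual := J10136.gad_dual (fun α _ r φ hφ hne x => J10129.dual r φ hφ hne x) N h h3
    (by omega) hne
  obtain ⟨s0, s1, s2, s3, s4, s5, s6⟩ := J10137.gad_second (fun α _ r x => J10128.harm r x)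
    (fun N h h3 hN => J10135.bridge N h h3 hN) N h h3 (by omega) hne
  have hsol := hN2 N hNb (gh N h) (K0 N h) (K1 N h) (Z0 N h) (Z1 N h) (Z2 N h) hdual
    (fun j => by simp [gh]) s0 s1 s2 s3 s4 s5 s6 a0 a1 b0 b1 b2
  refine ⟨hne, hdual, ?_, ?_, ?_⟩
  · intro j k h1 h2
    exact s0 j k (by omega) (by omega) (by omega) (by omega) (by omega) (by omega)
  · intro j k h1 h2
    obtain ⟨c0, c1, c2⟩ := hsol k h1 h2
    have e10 : 10 * (ε / 10) * A h = ε * A h := by ring
    rw [e10] at c0 c1 c2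
    fin_cases j
    · simp only [Fin.zero_eta, Fin.coe_ofNat_eq_mod, Nat.zero_mod, Nat.cast_zero, sub_zero]
      have e1 : (3 * (k : ℝ) + A h * (((min k h : ℕ) : ℝ) / h - 2)) =
          3 * k - A h * (2 - ((min k h : ℕ) : ℝ) / h) := by ring
      rw [e1]
      push_cast at c0 ⊢
      exact c0
    · simp only [Fin.mk_one, Fin.coe_ofNat_eq_mod, Nat.one_mod, Nat.cast_one]
      have e1 : (3 * (k : ℝ) + A h * (((min k h : ℕ) : ℝ) / h - (2 - 1))) =
          3 * k - A h * (1 - ((min k h : ℕ) : ℝ) / h) := by ring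
      rw [e1]
      push_cast at c1 ⊢
      exact c1
    · simp only [Fin.reduceFinMk, Fin.coe_ofNat_eq_mod, Nat.mod_succ, Nat.cast_ofNat, sub_self,
        sub_zero]
      push_cast at c2 ⊢
      exact c2
  · intro j k h1 h2
    have h4 := ht_lt (gad N h) hne (j, ⟨k - 1, by omega⟩) (j, ⟨k, h2⟩)
      (Or.inl ⟨rfl, by show k - 1 + 1 = k; omega⟩)
    have g1 : gh N h j k = ht (gad N h) (j, ⟨k - 1, by omega⟩) := by
      unfold gh
      rw [dif_pos ⟨h1, by omega⟩]
    have g2 : gh N h j (k + 1) = ht (gad N h) (j, ⟨k, h2⟩) := by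
      unfold gh
      rw [dif_pos ⟨by omega, by omega⟩]
      rfl
    rw [g1, g2]
    exact h4

theorem main (γ : ℝ) (hγ : 0 < γ) : ∃ (Y : Type) (_ : Fintype Y) (R : Y → Y → Prop),
      1 < (LE R).card ∧ ∀ x y : Y, x ≠ y → 1 - γ < |ht R x - ht R y| :=
  assemble gad_ok (fun ε hε h0 => J10163.numbers ε hε h0) tree_ok γ hγ

end Pool.Agent.KS
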