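import Pool.Agent.H875KS.Defs2

set_option autoImplicit false

namespace Pool.Agent.KS

open Finset Filter Topology

noncomputable section

namespace J10160

theorem mem_words (m : Fin 3 → ℕ) (w : List (Fin 3)) :
    w ∈ words m ↔ ∀ c, w.count c = m c := by
  unfold words
  rw [Finset.mem_filter]
  constructor
  · exact fun h => h.2
  · intro h
    refine ⟨?_, h⟩
    rw [Finset.mem_image]
    have hl : w.length = m 0 + m 1 + m 2 := by
      rw [← h 0, ← h 1, ← h 2]
      clear h
      induction w with
      | nil => simp
      | cons c w ih =>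
        rw [List.length_cons, ih, List.count_cons, List.count_cons, List.count_cons]
        fin_cases c <;> simp <;> omega
    rw [← hl]
    exact ⟨w.get, Finset.mem_univ _, List.ofFn_get w⟩

theorem words_zero (m : Fin 3 → ℕ) (h : ∀ c, m c = 0) : words m = {[]} := by
  ext w
  rw [mem_words, Finset.mem_singleton]
  constructor
  · intro hw
    cases w with
    | nil => rfl
    | cons c w =>
      have := hw c
      rw [h c, List.count_cons_self] at this
      omega
  · rintro rfl c
    rw [h c]; rfl

theorem cons_mem_words (m : Fin 3 → ℕ) (c : Fin 3) (w : List (Fin 3)) :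
    (c :: w) ∈ words m ↔ m c ≠ 0 ∧ w ∈ words (Function.update m c (m c - 1)) := by
  rw [mem_words, mem_words]
  constructor
  · intro h
    have hc := h c
    rw [List.count_cons_self] at hc
    refine ⟨by omega, fun d => ?_⟩
    by_cases hd : d = c
    · subst hd
      rw [Function.update_self]; omega
    · rw [Function.update_of_ne hd, ← h d, List.count_cons_of_ne (Ne.symm hd)]
  · rintro ⟨h0, h⟩ d
    by_cases hd : d = c
    · subst hd
      have := h d
      rw [Function.update_self] at this
      rw [List.count_cons_self]; omega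
    · have := h d
      rw [Function.update_of_ne hd] at this
      rw [List.count_cons_of_ne (Ne.symm hd), this]

theorem sum_words {M : Type} [AddCommMonoid M] (m : Fin 3 → ℕ) (f : List (Fin 3) → M)
    (hm : ∃ c, m c ≠ 0) :
    ∑ w ∈ words m, f w = ∑ c : Fin 3, if m c = 0 then 0 else
      ∑ w ∈ words (Function.update m c (m c - 1)), f (c :: w) := by
  have h1 : words m = (Finset.univ : Finset (Fin 3)).biUnion (fun c =>
      if m c = 0 then ∅ else (words (Function.update m c (m c - 1))).image (fun w => c :: w)) := by
    ext w
    rw [Finset.mem_biUnion]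
    constructor
    · intro hw
      cases w with
      | nil =>
        exfalso
        rw [mem_words] at hw
        obtain ⟨c, hc⟩ := hm
        exact hc (by rw [← hw c]; rfl)
      | cons c w =>
        rw [cons_mem_words] at hw
        refine ⟨c, Finset.mem_univ _, ?_⟩
        rw [if_neg hw.1, Finset.mem_image]
        exact ⟨w, hw.2, rfl⟩
    · rintro ⟨c, -, hw⟩
      by_cases hc : m c = 0
      · rw [if_pos hc] at hw; simp at hw
      · rw [if_neg hc, Finset.mem_image] at hw
        obtain ⟨v, hv, rfl⟩ := hw
        rw [cons_mem_words]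
        exact ⟨hc, hv⟩
  rw [h1, Finset.sum_biUnion]
  · refine Finset.sum_congr rfl fun c _ => ?_
    by_cases hc : m c = 0
    · rw [if_pos hc, if_pos hc, Finset.sum_empty]
    · rw [if_neg hc, if_neg hc, Finset.sum_image]
      intro a _ b _ hab
      exact (List.cons_injective hab)
  · intro c _ d _ hcd
    rw [Function.onFun, Finset.disjoint_left]
    intro w hw hw'
    by_cases hc : m c = 0
    · rw [if_pos hc] at hw; simp at hw
    by_cases hd : m d = 0
    · rw [if_pos hd] at hw'; simp at hw'
    rw [if_neg hc, Finset.mem_image] at hw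
    rw [if_neg hd, Finset.mem_image] at hw'
    obtain ⟨v, -, rfl⟩ := hw
    obtain ⟨v', -, h'⟩ := hw'
    exact hcd (List.cons.inj h').1.symm

theorem sum3 {M : Type} [AddCommMonoid M] {x y z : Fin 3} (hxy : x ≠ y) (hzx : z ≠ x) (hzy : z ≠ y)
    (f : Fin 3 → M) : ∑ c, f c = f x + f y + f z := by
  have h : (Finset.univ : Finset (Fin 3)) = {x, y, z} := by
    revert x y z; decide
  rw [h, Finset.sum_insert, Finset.sum_insert, Finset.sum_singleton, add_assoc]
  · simp [Ne.symm hzy]
  · simp [hxy, Ne.symm hzx]

theorem exists_third {x y : Fin 3} (hxy : x ≠ y) : ∃ z : Fin 3, z ≠ x ∧ z ≠ y := by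
  revert x y; decide

theorem only3 {x y z : Fin 3} (hxy : x ≠ y) (hzx : z ≠ x) (hzy : z ≠ y) (c : Fin 3) :
    c = x ∨ c = y ∨ c = z := by
  revert x y z c; decide

theorem card_words {x y z : Fin 3} (hxy : x ≠ y) (hzx : z ≠ x) (hzy : z ≠ y) :
    ∀ (n : ℕ) (m : Fin 3 → ℕ), m x + m y + m z = n →
      ∑ _w ∈ words m, 1 = (m x + m y + m z).choose (m z) * (m x + m y).choose (m x) := by
  intro n
  induction n with
  | zero =>
    intro m hm
    have h1 : m x = 0 := by omega
    have h2 : m y = 0 := by omega
    have h3 : m z = 0 := by omega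
    rw [words_zero m, h1, h2, h3]
    · simp
    · intro c
      rcases only3 hxy hzx hzy c with rfl | rfl | rfl <;> assumption
  | succ n ih =>
    intro m hm
    have hne : ∃ c, m c ≠ 0 := by
      by_contra hcon
      push Not at hcon
      rw [hcon x, hcon y, hcon z] at hm
      omega
    rw [sum_words m _ hne, sum3 hxy hzx hzy]
    have hx : (if m x = 0 then 0 else ∑ _w ∈ words (Function.update m x (m x - 1)), 1) =
        if m x = 0 then 0 else
          (n).choose (m z) * (m x + m y - 1).choose (m x - 1) := by
      split_ifs with h0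
      · rfl
      · have e := ih (Function.update m x (m x - 1)) (by
          rw [Function.update_self, Function.update_of_ne (Ne.symm hxy), Function.update_of_ne hzx]
          omega)
        rw [e, Function.update_self, Function.update_of_ne (Ne.symm hxy),
          Function.update_of_ne hzx]
        congr 2
        · omega
        · omega
    have hy : (if m y = 0 then 0 else ∑ _w ∈ words (Function.update m y (m y - 1)), 1) =
        if m y = 0 then 0 else
          (n).choose (m z) * (m x + m y - 1).choose (m x) := by
      split_ifs with h0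
      · rfl
      · have e := ih (Function.update m y (m y - 1)) (by
          rw [Function.update_self, Function.update_of_ne hxy, Function.update_of_ne hzy]
          omega)
        rw [e, Function.update_self, Function.update_of_ne hxy,
          Function.update_of_ne hzy]
        congr 2
        · omega
        · omega
    have hz : (if m z = 0 then 0 else ∑ _w ∈ words (Function.update m z (m z - 1)), 1) =
        if m z = 0 then 0 else
          (n).choose (m z - 1) * (m x + m y).choose (m x) := by
      split_ifs with h0
      · rfl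
      · have e := ih (Function.update m z (m z - 1)) (by
          rw [Function.update_self, Function.update_of_ne (Ne.symm hzx),
            Function.update_of_ne (Ne.symm hzy)]
          omega)
        rw [e, Function.update_self, Function.update_of_ne (Ne.symm hzx),
            Function.update_of_ne (Ne.symm hzy)]
        congr 2
        omega
    rw [hx, hy, hz, hm]
    generalize m x = p at *
    generalize m y = q at *
    generalize m z = r at *
    clear hx hy hz hne ih
    rcases Nat.eq_zero_or_pos r with rfl | hr
    · -- r = 0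
      simp only [Nat.choose_zero_right, one_mul, if_true, add_zero]
      rcases Nat.eq_zero_or_pos p with rfl | hp
      · rw [if_pos rfl, if_neg (by omega)]
        simp
      · rcases Nat.eq_zero_or_pos q with rfl | hq
        · rw [if_pos rfl, if_neg (by omega)]
          simp
        · rw [if_neg (by omega), if_neg (by omega)]
          obtain ⟨p', rfl⟩ : ∃ p', p = p' + 1 := ⟨p - 1, by omega⟩
          have : p' + 1 + q = (p' + q) + 1 := by omega
          rw [this, Nat.choose_succ_succ]
          simp
    · rw [if_neg (show ¬ r = 0 by omega)]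
      obtain ⟨r', rfl⟩ : ∃ r', r = r' + 1 := ⟨r - 1, by omega⟩
      rw [Nat.choose_succ_succ, Nat.add_sub_cancel]
      by_cases hpq : p + q = 0
      · have hp : p = 0 := by omega
        have hq : q = 0 := by omega
        subst hp hq
        have hn : n = r' := by omega
        subst hn
        simp
      · have key : (if p = 0 then 0 else n.choose (r' + 1) * (p + q - 1).choose (p - 1)) +
            (if q = 0 then 0 else n.choose (r' + 1) * (p + q - 1).choose p) =
            n.choose (r' + 1) * (p + q).choose p := by
          rcases Nat.eq_zero_or_pos p with rfl | hp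
          · rw [if_pos rfl, if_neg (by omega)]
            simp
          · rcases Nat.eq_zero_or_pos q with rfl | hq
            · rw [if_pos rfl, if_neg (by omega)]
              simp
            · rw [if_neg (by omega), if_neg (by omega)]
              obtain ⟨p', rfl⟩ : ∃ p', p = p' + 1 := ⟨p - 1, by omega⟩
              have : p' + 1 + q = (p' + q) + 1 := by omega
              rw [this, Nat.choose_succ_succ]
              simp [mul_add]
        rw [key]
        ring

theorem occ_zero (x : Fin 3) (w : List (Fin 3)) : occ x 0 w = 0 := by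
  cases w <;> rfl

theorem occ_succ_cons (x : Fin 3) (k : ℕ) (c : Fin 3) (w : List (Fin 3)) :
    occ x (k + 1) (c :: w) = if c = x then occ x k w + 1 else occ x (k + 1) w + 1 := rfl

theorem ev_cons {x y : Fin 3} (hxy : x ≠ y) (h : ℕ) (m : Fin 3 → ℕ) (hx : m x ≠ 0)
    (hy : h ≤ m y) (c : Fin 3) (hc : m c ≠ 0) (w : List (Fin 3)) :
    occ x (m x) (c :: w) < occ y (m y + 1 - h) (c :: w) ↔
      occ x ((Function.update m c (m c - 1)) x) w <
        occ y ((Function.update m c (m c - 1)) y + 1 - h) w := by
  obtain ⟨p, hp⟩ : ∃ p, m x = p + 1 := ⟨m x - 1, by omega⟩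
  obtain ⟨k, hk⟩ : ∃ k, m y + 1 - h = k + 1 := ⟨m y - h, by omega⟩
  rw [hp, hk, occ_succ_cons, occ_succ_cons]
  by_cases h1 : c = x
  · subst h1
    rw [if_pos rfl, if_neg hxy, Function.update_self, Function.update_of_ne (Ne.symm hxy), hp, hk,
      Nat.add_sub_cancel]
    omega
  · by_cases h2 : c = y
    · subst h2
      rw [if_neg h1, if_pos rfl, Function.update_self, Function.update_of_ne (Ne.symm h1), hp]
      have : m c - 1 + 1 - h = k := by omega
      rw [this]
      omega
    · rw [if_neg h1, if_neg h2, Function.update_of_ne (Ne.symm h1),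
        Function.update_of_ne (Ne.symm h2), hp, hk]
      omega

theorem card_ev {x y z : Fin 3} (hxy : x ≠ y) (hzx : z ≠ x) (hzy : z ≠ y) (h : ℕ) (hh : 1 ≤ h) :
    ∀ (n : ℕ) (m : Fin 3 → ℕ), m x + m y + m z = n → h ≤ m y →
      (∑ w ∈ words m, if occ x (m x) w < occ y (m y + 1 - h) w then 1 else 0) =
        (m x + m y + m z).choose (m z) * (m x + m y - h).choose (m x) := by
  intro n
  induction n with
  | zero =>
    intro m hm hy
    omega
  | succ n ih =>
    intro m hm hmy
    by_cases hmx : m x = 0
    · have e : (∑ w ∈ words m, if occ x (m x) w < occ y (m y + 1 - h) w then 1 else 0) =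
          ∑ w ∈ words m, 1 := by
        refine Finset.sum_congr rfl fun w hw => ?_
        rw [if_pos]
        rw [hmx, occ_zero]
        obtain ⟨k, hk⟩ : ∃ k, m y + 1 - h = k + 1 := ⟨m y - h, by omega⟩
        rw [hk]
        cases w with
        | nil =>
          rw [mem_words] at hw
          have := hw y
          simp at this
          omega
        | cons c w =>
          rw [occ_succ_cons]
          split_ifs <;> omega
      rw [e, card_words hxy hzx hzy _ m rfl, hmx]
      simp
    have hne : ∃ c, m c ≠ 0 := ⟨x, hmx⟩
    rw [sum_words m _ hne, sum3 hxy hzx hzy]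
    have hx : (if m x = 0 then 0 else ∑ w ∈ words (Function.update m x (m x - 1)),
        if occ x (m x) (x :: w) < occ y (m y + 1 - h) (x :: w) then 1 else 0) =
          (n).choose (m z) * (m x + m y - 1 - h).choose (m x - 1) := by
      rw [if_neg hmx]
      have e := ih (Function.update m x (m x - 1)) (by
          rw [Function.update_self, Function.update_of_ne (Ne.symm hxy), Function.update_of_ne hzx]
          omega) (by rw [Function.update_of_ne (Ne.symm hxy)]; exact hmy)
      simp only [ev_cons hxy h m hmx hmy x hmx]
      rw [e, Function.update_self, Function.update_of_ne (Ne.symm hxy),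
          Function.update_of_ne hzx]
      congr 2
      · omega
      · omega
    have hy : (if m y = 0 then 0 else ∑ w ∈ words (Function.update m y (m y - 1)),
        if occ x (m x) (y :: w) < occ y (m y + 1 - h) (y :: w) then 1 else 0) =
          (n).choose (m z) * (m x + m y - 1 - h).choose (m x) := by
      have hmy0 : m y ≠ 0 := by omega
      rw [if_neg hmy0]
      simp only [ev_cons hxy h m hmx hmy y hmy0]
      by_cases hlt : h ≤ m y - 1
      · have e := ih (Function.update m y (m y - 1)) (by
          rw [Function.update_self, Function.update_of_ne hxy, Function.update_of_ne hzy]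
          omega) (by rw [Function.update_self]; exact hlt)
        rw [e, Function.update_self, Function.update_of_ne hxy,
          Function.update_of_ne hzy]
        congr 2
        · omega
        · omega
      · have h0 : m y - 1 + 1 - h = 0 := by omega
        rw [Function.update_self, h0]
        simp only [occ_zero, Nat.not_lt_zero, if_false, Finset.sum_const_zero]
        symm
        apply mul_eq_zero_of_right
        apply Nat.choose_eq_zero_of_lt
        omega
    have hz : (if m z = 0 then 0 else ∑ w ∈ words (Function.update m z (m z - 1)),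
        if occ x (m x) (z :: w) < occ y (m y + 1 - h) (z :: w) then 1 else 0) =
        if m z = 0 then 0 else
          (n).choose (m z - 1) * (m x + m y - h).choose (m x) := by
      split_ifs with h0
      · rfl
      · have e := ih (Function.update m z (m z - 1)) (by
          rw [Function.update_self, Function.update_of_ne (Ne.symm hzx),
            Function.update_of_ne (Ne.symm hzy)]
          omega) (by rw [Function.update_of_ne (Ne.symm hzy)]; exact hmy)
        simp only [ev_cons hxy h m hmx hmy z h0]
        rw [e, Function.update_self, Function.update_of_ne (Ne.symm hzx),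
            Function.update_of_ne (Ne.symm hzy)]
        congr 2
        omega
    rw [hx, hy, hz, hm]
    generalize m x = p at *
    generalize m y = q at *
    generalize m z = r at *
    clear hx hy hz hne ih
    have key : n.choose r * (p + q - 1 - h).choose (p - 1) +
        n.choose r * (p + q - 1 - h).choose p = n.choose r * (p + q - h).choose p := by
      obtain ⟨p', rfl⟩ : ∃ p', p = p' + 1 := ⟨p - 1, by omega⟩
      have e1 : p' + 1 + q - h = (p' + 1 + q - 1 - h) + 1 := by omega
      rw [e1, Nat.choose_succ_succ, Nat.add_sub_cancel]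
      rw [mul_add]
    rw [key]
    rcases Nat.eq_zero_or_pos r with rfl | hr
    · rw [if_pos rfl, add_zero, Nat.choose_zero_right, Nat.choose_zero_right]
    · rw [if_neg (show ¬ r = 0 by omega)]
      obtain ⟨r', rfl⟩ : ∃ r', r = r' + 1 := ⟨r - 1, by omega⟩
      rw [Nat.choose_succ_succ, Nat.add_sub_cancel]
      ring

theorem choose_ratio (p q : ℕ) : ∀ h : ℕ, h ≤ q →
    ((p + q - h).choose p : ℝ) * ((p : ℝ) + q) ^ h ≤ (q : ℝ) ^ h * ((p + q).choose p : ℝ) := by
  intro h
  induction h with
  | zero => intro _; simp
  | succ h ih =>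
    intro hq
    have ih' := ih (by omega)
    obtain ⟨t, ht⟩ : ∃ t, p + q - h = t + 1 := ⟨p + q - h - 1, by omega⟩
    have e1 : p + q - (h + 1) = t := by omega
    rw [e1]
    rw [ht] at ih'
    have hc : (t + 1).choose p * (t + 1 - p) = t.choose p * (t + 1) :=
      (Nat.choose_mul_succ_eq t p).symm
    have htp : t + 1 - p = q - h := by omega
    rw [htp] at hc
    have hcR : ((t + 1).choose p : ℝ) * ((q : ℝ) - h) = (t.choose p : ℝ) * ((t : ℝ) + 1) := by
      have := congrArg (fun n : ℕ => (n : ℝ)) hc
      simp only [Nat.cast_mul, Nat.cast_add, Nat.cast_one] at this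
      rw [Nat.cast_sub (by omega)] at this
      exact this
    have htR : (t : ℝ) + 1 = (p : ℝ) + q - h := by
      have : t + 1 + h = p + q := by omega
      have := congrArg (fun n : ℕ => (n : ℝ)) this
      simp only [Nat.cast_add, Nat.cast_one] at this
      linarith
    have hs : (0 : ℝ) < (t : ℝ) + 1 := by positivity
    have hle : ((q : ℝ) - h) * ((p : ℝ) + q) ≤ q * ((t : ℝ) + 1) := by
      rw [htR]
      have : (0 : ℝ) ≤ (h : ℝ) * p := by positivity
      nlinarith
    have hC : (0 : ℝ) ≤ ((t + 1).choose p : ℝ) := by positivity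
    have hS : (0 : ℝ) ≤ ((p : ℝ) + q) ^ h := by positivity
    have : (t.choose p : ℝ) * ((p : ℝ) + q) ^ (h + 1) * ((t : ℝ) + 1) ≤
        (q : ℝ) ^ (h + 1) * ((p + q).choose p : ℝ) * ((t : ℝ) + 1) := by
      calc (t.choose p : ℝ) * ((p : ℝ) + q) ^ (h + 1) * ((t : ℝ) + 1)
          = ((t + 1).choose p : ℝ) * ((p : ℝ) + q) ^ h * (((q : ℝ) - h) * ((p : ℝ) + q)) := by
            rw [pow_succ]
            linear_combination (-((p : ℝ) + q) ^ h * ((p : ℝ) + q)) * hcR
        _ ≤ ((t + 1).choose p : ℝ) * ((p : ℝ) + q) ^ h * (q * ((t : ℝ) + 1)) := by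
            exact mul_le_mul_of_nonneg_left hle (mul_nonneg hC hS)
        _ = (((t + 1).choose p : ℝ) * ((p : ℝ) + q) ^ h) * (q * ((t : ℝ) + 1)) := rfl
        _ ≤ ((q : ℝ) ^ h * ((p + q).choose p : ℝ)) * (q * ((t : ℝ) + 1)) := by
            exact mul_le_mul_of_nonneg_right ih' (by positivity)
        _ = _ := by ring
    exact le_of_mul_le_mul_right this hs

theorem take_bound_gen {x y z : Fin 3} (hxy : x ≠ y) (hzx : z ≠ x) (hzy : z ≠ y)
    (N h R₀ : ℕ) (hh : 1 ≤ h) (hN : h + R₀ ≤ N) :
    ∀ (R : ℕ) (m : Fin 3 → ℕ) (G : List (Fin 3) → ℝ), (∀ w, 0 ≤ G w) →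
      (∀ w ∈ words m, G w = G (w.take R)) → m y ≤ N → N + R ≤ m x + R₀ → h + R ≤ m y →
      (∑ w ∈ (words m).filter (fun w => occ x (m x) w < occ y (m y + 1 - h) w), G w) ≤
      ((N : ℝ) / (2 * N - R₀)) ^ h * ∑ w ∈ words m, G w := by
  intro R
  induction R with
  | zero =>
    intro m G hG hR hyN hx hy
    have e0 : ∀ w ∈ words m, G w = G [] := fun w hw => by
      rw [hR w hw, List.take_zero]
    rw [Finset.sum_filter]
    have e1 : (∑ w ∈ words m, if occ x (m x) w < occ y (m y + 1 - h) w then G w else 0) =
        G [] * ((∑ w ∈ words m, if occ x (m x) w < occ y (m y + 1 - h) w then 1 else 0 : ℕ) : ℝ) := by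
      rw [Nat.cast_sum, Finset.mul_sum]
      refine Finset.sum_congr rfl fun w hw => ?_
      split_ifs
      · rw [e0 w hw]; simp
      · simp
    have e2 : (∑ w ∈ words m, G w) = G [] * ((∑ _w ∈ words m, 1 : ℕ) : ℝ) := by
      rw [Nat.cast_sum, Finset.mul_sum]
      refine Finset.sum_congr rfl fun w hw => ?_
      rw [e0 w hw]; simp
    rw [e1, e2, card_ev hxy hzx hzy h hh _ m rfl (by omega), card_words hxy hzx hzy _ m rfl]
    generalize m x = p at *
    generalize m y = q at *
    generalize m z = r at *
    have hcr := choose_ratio p q h (by omega)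
    have hpR : (N : ℝ) ≤ (p : ℝ) + R₀ := by
      have : N ≤ p + R₀ := by omega
      exact_mod_cast this
    have hqR : (q : ℝ) ≤ N := by exact_mod_cast hyN
    have hNR : (R₀ : ℝ) + 1 ≤ N := by
      have : R₀ + 1 ≤ N := by omega
      exact_mod_cast this
    have hR0 : (0 : ℝ) ≤ R₀ := by positivity
    have hden : (0 : ℝ) < 2 * N - R₀ := by linarith
    have hpos : (0 : ℝ) < (p : ℝ) + q := by
      have : (0 : ℝ) ≤ q := by positivity
      linarith
    have hρ : (q : ℝ) / ((p : ℝ) + q) ≤ (N : ℝ) / (2 * N - R₀) := by
      rw [div_le_div_iff₀ hpos hden]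
      nlinarith [mul_nonneg (sub_nonneg.2 hqR) (show (0 : ℝ) ≤ N - R₀ by linarith),
        mul_nonneg (show (0 : ℝ) ≤ (N : ℝ) by positivity) (show (0 : ℝ) ≤ p + R₀ - N by linarith)]
    have h1 : ((p + q - h).choose p : ℝ) ≤ ((N : ℝ) / (2 * N - R₀)) ^ h * ((p + q).choose p : ℝ) := by
      have h2 : ((p + q - h).choose p : ℝ) ≤
          ((q : ℝ) / ((p : ℝ) + q)) ^ h * ((p + q).choose p : ℝ) := by
        rw [div_pow, div_mul_eq_mul_div, le_div_iff₀ (by positivity)]
        exact hcr
      refine h2.trans ?_
      refine mul_le_mul_of_nonneg_right ?_ (by positivity)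
      exact pow_le_pow_left₀ (by positivity) hρ h
    rw [Nat.cast_mul, Nat.cast_mul]
    have hG0 := hG []
    have hcz : (0 : ℝ) ≤ ((p + q + r).choose r : ℝ) := by positivity
    calc G [] * (((p + q + r).choose r : ℝ) * ((p + q - h).choose p : ℝ))
        ≤ G [] * (((p + q + r).choose r : ℝ) *
          (((N : ℝ) / (2 * N - R₀)) ^ h * ((p + q).choose p : ℝ))) := by
          exact mul_le_mul_of_nonneg_left (mul_le_mul_of_nonneg_left h1 hcz) hG0
      _ = _ := by ring
  | succ R ih =>
    intro m G hG hR hyN hx hy
    have hmx : m x ≠ 0 := by omega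
    have hne : ∃ c, m c ≠ 0 := ⟨x, hmx⟩
    rw [Finset.sum_filter, sum_words m _ hne, sum_words m _ hne, Finset.mul_sum]
    refine Finset.sum_le_sum fun c _ => ?_
    split_ifs with h0
    · simp
    · simp only [ev_cons hxy h m hmx (by omega) c h0]
      rw [← Finset.sum_filter]
      refine ih (Function.update m c (m c - 1)) (fun w => G (c :: w)) (fun w => hG _) ?_ ?_ ?_ ?_
      · intro w hw
        have := hR (c :: w) (by rw [cons_mem_words]; exact ⟨h0, hw⟩)
        rw [List.take_succ_cons] at this
        exact this
      · by_cases hc : y = c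
        · subst hc; rw [Function.update_self]; omega
        · rw [Function.update_of_ne hc]; exact hyN
      · by_cases hc : x = c
        · subst hc; rw [Function.update_self]; omega
        · rw [Function.update_of_ne hc]; omega
      · by_cases hc : y = c
        · subst hc; rw [Function.update_self]; omega
        · rw [Function.update_of_ne hc]; omega

theorem take_bound (x y : Fin 3) (hxy : x ≠ y) (N h R : ℕ) (hh : 1 ≤ h) (hN : h + R ≤ N)
    (G : List (Fin 3) → ℝ) (hG : ∀ w, 0 ≤ G w) (hR : ∀ w ∈ W N, G w = G (w.take R)) :
    (∑ w ∈ (W N).filter (fun w => occ x N w < occ y (N + 1 - h) w), G w) ≤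
      ((N : ℝ) / (2 * N - R)) ^ h * ∑ w ∈ W N, G w := by
  obtain ⟨z, hzx, hzy⟩ := exists_third hxy
  exact take_bound_gen hxy hzx hzy N h R hh hN R (fun _ => N) G hG hR le_rfl le_rfl hN

end J10160

end

end Pool.Agent.KS
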